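import Pool.Agent.Y680.W.A10

/-! The identity path; rational points. -/

open scoped Pointwise TensorProduct Topology Polynomial

noncomputable section

namespace Y680.W

variable {p : ℕ} [Fact p.Prime] {f : Polynomial ℚ}

theorem id_path (x : Option Qb) (hx : ¬ IsRoot f x) (hgx : ∀ g : GG, gpt g x = x) :
    ∃ h : Trans p f, ∀ n, IsPath n x x h ∧ ∀ A : ValuationSubring Qb, Invt n A x x h := by
  have h1 : ∀ v w : ValuationSubring Om, ∃ γ : Gam, IsPlace x v → IsPlace x w →
      (γ : GG) • v = w := by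
    intro v w
    by_cases h : IsPlace x v ∧ IsPlace x w
    · obtain ⟨δ, a1, _, a3⟩ := f_PLACE x 1 (loc x) one_pos (pow_one _) v w h.1 h.2
      exact ⟨⟨δ, a1⟩, fun _ _ => a3⟩
    · exact ⟨1, fun h2 h3 => absurd ⟨h2, h3⟩ h⟩
  choose e he using h1
  have hpl : ∀ (g : GG) (v : ValuationSubring Om), IsPlace x v → IsPlace x (g • v) := by
    intro g v hv
    have := isPlace_smul g hv
    rwa [hgx] at this
  refine ⟨fun S v w => S.rho (e v w), fun n => ⟨?_, ?_⟩⟩
  · refine ⟨fun S _ v w _ _ => rho_bij S _, ?_, ?_, ?_, ?_⟩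
    · intro S _ v w hv hw γ δ
      change S.rho (e (γ • v) (δ • w)) * S.rho γ = S.rho δ * S.rho (e v w)
      rw [← map_mul, ← map_mul]
      apply rho_eq_of_smul S hx hv
      have h2 : ((e (γ • v) (δ • w) : Gam) : GG) • (γ • v) = δ • w :=
        he _ _ (hpl γ v hv) (hpl δ w hw)
      rw [Subgroup.coe_mul, Subgroup.coe_mul, mul_smul, mul_smul, he v w hv hw]
      exact h2
    · intro S T _ _ u hu v w _ _
      exact hu _
    · intro S T _ _ v w _ _
      rfl
    · intro v w _ _
      rfl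
  · intro A g _ S _ v w hv hw
    change S.rho (cj g⁻¹ (e (g • v) (g • w))) = S.rho (e v w)
    apply rho_eq_of_smul S hx hv
    rw [cj_coe, he v w hv hw, inv_inv, mul_smul, mul_smul, he _ _ (hpl g v hv) (hpl g w hw),
      inv_smul_smul]

theorem gpt_pt (g : GG) (x y : ℤ) : gpt g (pt x y) = pt x y := by
  unfold pt
  split_ifs with h
  · rfl
  · change some (⟨g (((x : Qb) / (y : Qb) : Qb) : Om), _⟩ : Qb) = some _
    congr 1
    apply Subtype.ext
    change g (((x : Qb) / (y : Qb) : Qb) : Om) = (((x : Qb) / (y : Qb) : Qb) : Om)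
    push_cast
    rw [map_div₀, map_intCast, map_intCast]

theorem pt_one_zero : pt 1 0 = none := by simp [pt]

theorem pt_zero_one : pt 0 1 = some 0 := by simp [pt]

theorem not_isRoot_pt {d : ℕ} (hd : 0 < d) {c x y : ℤ} (h : x ^ d - c * y ^ d ≠ 0) :
    ¬ IsRoot (ff0 d (c : ℚ)) (pt x y) := by
  unfold pt
  split_ifs with hy
  · exact fun h => h
  · intro h1
    have h2 : Polynomial.aeval ((x : Qb) / (y : Qb)) (ff0 d (c : ℚ)) = 0 := h1
    unfold ff0 at h2
    rw [map_sub, map_pow, Polynomial.aeval_X, Polynomial.aeval_C] at h2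
    apply h
    have hy' : (y : Qb) ≠ 0 := by exact_mod_cast hy
    have h3 : (x : Qb) ^ d - (c : Qb) * (y : Qb) ^ d = 0 := by
      have h4 : (algebraMap ℚ Qb) (c : ℚ) = (c : Qb) := by simp
      rw [h4, div_pow] at h2
      field_simp at h2
      linear_combination h2
    exact_mod_cast h3

end Y680.W
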