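import Pool.Agent.Y680.W.Stm

/-! Group algebra of the geometric Galois group, augmentation ideal, conjugation, lengths. -/

open scoped Pointwise TensorProduct

noncomputable section

namespace Y680.W

variable {p : ℕ} [Fact p.Prime] {f : Polynomial ℚ}

/-- the group algebra of the geometric group -/
abbrev RR (p : ℕ) [Fact p.Prime] : Type := MonoidAlgebra ℚ_[p] Gam

/-- group elements -/
def ge (γ : Gam) : RR p := MonoidAlgebra.of ℚ_[p] Gam γ

theorem ge_mul (γ δ : Gam) : (ge (γ * δ) : RR p) = ge γ * ge δ := map_mul _ _ _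

theorem ge_one : (ge 1 : RR p) = 1 := map_one _

theorem ge_mul_inv (γ : Gam) : (ge γ : RR p) * ge γ⁻¹ = 1 := by rw [← ge_mul, mul_inv_cancel, ge_one]

theorem ge_inv_mul (γ : Gam) : (ge γ⁻¹ : RR p) * ge γ = 1 := by rw [← ge_mul, inv_mul_cancel, ge_one]

theorem RR_induction {motive : RR p → Prop} (x : RR p) (h1 : ∀ γ, motive (ge γ))
    (h2 : ∀ x y, motive x → motive y → motive (x + y))
    (h3 : ∀ (r : ℚ_[p]) x, motive x → motive (r • x)) : motive x :=
  MonoidAlgebra.induction_on x h1 h2 h3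

/-- the action of the group algebra -/
def LocSys.act (S : LocSys p f) : RR p →ₐ[ℚ_[p]] Module.End ℚ_[p] S.V := S.rho.asAlgebraHom

theorem LocSys.act_ge (S : LocSys p f) (γ : Gam) : S.act (ge γ) = S.rho γ :=
  S.rho.asAlgebraHom_of γ

/-- the augmentation -/
def aug : RR p →ₐ[ℚ_[p]] ℚ_[p] := MonoidAlgebra.lift ℚ_[p] ℚ_[p] Gam 1

theorem aug_ge (γ : Gam) : aug (ge γ : RR p) = 1 := by
  unfold aug ge
  rw [MonoidAlgebra.lift_of]; rfl

/-- conjugation on the group algebra -/
def cjR (g : GG) : RR p →ₐ[ℚ_[p]] RR p := MonoidAlgebra.mapDomainAlgHom ℚ_[p] ℚ_[p] (cj g)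

theorem cjR_ge (g : GG) (γ : Gam) : cjR g (ge γ : RR p) = ge (cj g γ) := by
  unfold cjR ge
  simp [MonoidAlgebra.mapDomainAlgHom_apply]

theorem cj_mul (g h : GG) (γ : Gam) : cj (g * h) γ = cj g (cj h γ) := by
  apply Subtype.ext
  simp only [cj_coe, mul_inv_rev, mul_assoc]

theorem cj_one (γ : Gam) : cj 1 γ = γ := by
  apply Subtype.ext
  simp [cj_coe]

theorem cjR_mul (g h : GG) (x : RR p) : cjR (g * h) x = cjR g (cjR h x) := by
  induction x using RR_induction with
  | h1 γ => rw [cjR_ge, cjR_ge, cjR_ge, cj_mul]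
  | h2 x y hx hy => rw [map_add, map_add, map_add, hx, hy]
  | h3 r x hx => rw [map_smul, map_smul, map_smul, hx]

theorem cjR_one (x : RR p) : cjR 1 x = x := by
  induction x using RR_induction with
  | h1 γ => rw [cjR_ge, cj_one]
  | h2 x y hx hy => rw [map_add, hx, hy]
  | h3 r x hx => rw [map_smul, hx]

theorem cjR_inv (g : GG) (x : RR p) : cjR g⁻¹ (cjR g x) = x := by
  rw [← cjR_mul, inv_mul_cancel, cjR_one]

theorem cjR_inv' (g : GG) (x : RR p) : cjR g (cjR g⁻¹ x) = x := by
  rw [← cjR_mul, mul_inv_cancel, cjR_one]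

theorem cjR_inner (γ : Gam) (x : RR p) : cjR (γ : GG) x = ge γ * x * ge γ⁻¹ := by
  induction x using RR_induction with
  | h1 δ =>
    rw [cjR_ge, ← ge_mul, ← ge_mul]
    congr 1
  | h2 x y hx hy => rw [map_add, hx, hy]; noncomm_ring
  | h3 r x hx => rw [map_smul, hx]; simp

theorem aug_cjR (g : GG) (x : RR p) : aug (cjR g x) = aug x := by
  induction x using RR_induction with
  | h1 γ => rw [cjR_ge, aug_ge, aug_ge]
  | h2 x y hx hy => rw [map_add, map_add, map_add, hx, hy]
  | h3 r x hx => rw [map_smul, map_smul, map_smul, hx]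

theorem LocSys.act_twist (S : LocSys p f) (g : GG) (x : RR p) :
    (S.twist g).act x = S.act (cjR g⁻¹ x) := by
  induction x using RR_induction with
  | h1 γ => rw [cjR_ge, LocSys.act_ge, LocSys.act_ge]; rfl
  | h2 x y hx hy => rw [map_add, map_add, map_add, hx, hy]; rfl
  | h3 r x hx => rw [map_smul, map_smul, map_smul, hx]; rfl

/-- the augmentation ideal as a subspace -/
def II (p : ℕ) [Fact p.Prime] : Submodule ℚ_[p] (RR p) := LinearMap.ker (aug (p := p)).toLinearMap

theorem mem_II {x : RR p} : x ∈ II p ↔ aug x = 0 := LinearMap.mem_ker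

theorem ge_sub_one_mem (γ : Gam) : (ge γ - 1 : RR p) ∈ II p := by
  rw [mem_II, map_sub, aug_ge, map_one, sub_self]

theorem sub_aug_mem_span (x : RR p) : x - algebraMap ℚ_[p] (RR p) (aug x) ∈
    Submodule.span ℚ_[p] (Set.range fun γ : Gam => (ge γ - 1 : RR p)) := by
  induction x using RR_induction with
  | h1 γ =>
    rw [aug_ge, map_one]
    exact Submodule.subset_span ⟨γ, rfl⟩
  | h2 x y hx hy =>
    have : x + y - algebraMap ℚ_[p] (RR p) (aug (x + y)) = (x - algebraMap ℚ_[p] (RR p) (aug x)) +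
      (y - algebraMap ℚ_[p] (RR p) (aug y)) := by rw [map_add, map_add]; abel
    rw [this]; exact add_mem hx hy
  | h3 r x hx =>
    have : r • x - algebraMap ℚ_[p] (RR p) (aug (r • x)) =
      r • (x - algebraMap ℚ_[p] (RR p) (aug x)) := by
      rw [map_smul, smul_sub, smul_eq_mul, map_mul, Algebra.smul_def, Algebra.smul_def]
    rw [this]; exact Submodule.smul_mem _ _ hx

theorem II_eq_span : II p = Submodule.span ℚ_[p] (Set.range fun γ : Gam => (ge γ - 1 : RR p)) := by
  apply le_antisymm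
  · intro x hx
    have := sub_aug_mem_span x
    rw [mem_II.1 hx, map_zero, sub_zero] at this
    exact this
  · rw [Submodule.span_le]
    rintro _ ⟨γ, rfl⟩
    exact ge_sub_one_mem γ

theorem mul_II_le : (⊤ : Submodule ℚ_[p] (RR p)) * II p ≤ II p := by
  rw [Submodule.mul_le]
  intro x _ y hy
  rw [mem_II, map_mul, mem_II.1 hy, mul_zero]

theorem II_mul_le : II p * (⊤ : Submodule ℚ_[p] (RR p)) ≤ II p := by
  rw [Submodule.mul_le]
  intro x hx y _
  rw [mem_II, map_mul, mem_II.1 hx, zero_mul]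

theorem top_mul_pow {k : ℕ} (hk : 0 < k) : (⊤ : Submodule ℚ_[p] (RR p)) * II p ^ k ≤ II p ^ k := by
  obtain ⟨j, rfl⟩ : ∃ j, k = j + 1 := ⟨k - 1, by omega⟩
  rw [pow_succ', ← mul_assoc]
  exact mul_le_mul_left mul_II_le _

theorem pow_mul_top {k : ℕ} (hk : 0 < k) : II p ^ k * (⊤ : Submodule ℚ_[p] (RR p)) ≤ II p ^ k := by
  obtain ⟨j, rfl⟩ : ∃ j, k = j + 1 := ⟨k - 1, by omega⟩
  rw [pow_succ, mul_assoc]
  exact mul_le_mul_right II_mul_le _

theorem mul_mem_pow_left {k : ℕ} (hk : 0 < k) {x : RR p} (hx : x ∈ II p ^ k) (y : RR p) :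
    y * x ∈ II p ^ k :=
  top_mul_pow hk (Submodule.mul_mem_mul trivial hx)

theorem mul_mem_pow_right {k : ℕ} (hk : 0 < k) {x : RR p} (hx : x ∈ II p ^ k) (y : RR p) :
    x * y ∈ II p ^ k :=
  pow_mul_top hk (Submodule.mul_mem_mul hx trivial)

theorem pow_anti {j k : ℕ} (hj : 0 < j) (hjk : j ≤ k) : II p ^ k ≤ II p ^ j := by
  induction hjk with
  | refl => exact le_rfl
  | @step k h ih =>
    refine le_trans ?_ ih
    have h' : j ≤ k := h
    rw [pow_succ, Submodule.mul_le]
    intro x hx y _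
    exact mul_mem_pow_right (by omega) hx y

theorem pow_le_II {k : ℕ} (hk : 0 < k) : II p ^ k ≤ II p := by
  have := pow_anti (p := p) (j := 1) (k := k) one_pos hk
  rwa [pow_one] at this

theorem cjR_mem_pow (g : GG) {k : ℕ} {x : RR p} (hx : x ∈ II p ^ k) : cjR g x ∈ II p ^ k := by
  have h1 : Submodule.map (cjR g : RR p →ₐ[ℚ_[p]] RR p).toLinearMap (II p) ≤ II p := by
    rintro _ ⟨y, hy, rfl⟩
    exact mem_II.2 (by
      change aug (cjR g y) = 0
      rw [aug_cjR]; exact mem_II.1 hy)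
  have h2 : Submodule.map (cjR g : RR p →ₐ[ℚ_[p]] RR p).toLinearMap (II p ^ k) ≤ II p ^ k := by
    rw [Submodule.map_pow]
    exact pow_le_pow_left' h1 k
  exact h2 ⟨x, hx, rfl⟩

/-- `S` has length at most `m`. -/
def Len (m : ℕ) (S : LocSys p f) : Prop := ∀ x ∈ II p ^ m, S.act x = 0

theorem act_filt (S : LocSys p f) {W : ℕ → Submodule ℚ_[p] S.V}
    (hW : ∀ i, ∀ w ∈ W i, ∀ γ, S.rho γ w - w ∈ W (i + 1)) (k : ℕ) :
    ∀ x ∈ II p ^ k, ∀ i, ∀ w ∈ W i, S.act x w ∈ W (i + k) := by
  have h1 : ∀ x ∈ II p, ∀ i, ∀ w ∈ W i, S.act x w ∈ W (i + 1) := by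
    intro x hx i w hw
    rw [II_eq_span] at hx
    induction hx using Submodule.span_induction with
    | mem x hx =>
      obtain ⟨γ, rfl⟩ := hx
      have : S.act (ge γ - 1) w = S.rho γ w - w := by
        rw [map_sub, map_one, LocSys.act_ge]; rfl
      rw [this]
      exact hW i w hw γ
    | zero => rw [map_zero]; exact zero_mem _
    | add x y _ _ hx hy => rw [map_add]; exact add_mem hx hy
    | smul c x _ hx => rw [map_smul]; exact Submodule.smul_mem _ _ hx
  induction k with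
  | zero =>
    intro x hx i w hw
    rw [pow_zero, Submodule.mem_one] at hx
    obtain ⟨c, rfl⟩ := hx
    rw [AlgHom.commutes]
    exact Submodule.smul_mem _ c hw
  | succ k ih =>
    intro x hx i w hw
    rw [pow_succ'] at hx
    induction hx using Submodule.mul_induction_on' with
    | mem_mul_mem a ha b hb =>
      rw [map_mul]
      have := h1 a ha (i + k) _ (ih b hb i w hw)
      exact this
    | add x _ y _ hx hy => rw [map_add]; exact add_mem hx hy

theorem Len.of_filt (S : LocSys p f) {m : ℕ} {W : ℕ → Submodule ℚ_[p] S.V} (h0 : W 0 = ⊤)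
    (hm : W m = ⊥) (hW : ∀ i, ∀ w ∈ W i, ∀ γ, S.rho γ w - w ∈ W (i + 1)) : Len m S := by
  intro x hx
  ext w
  have := act_filt S hW m x hx 0 w (by rw [h0]; trivial)
  rw [zero_add, hm, Submodule.mem_bot] at this
  rw [this]; rfl

theorem Len.mono {S : LocSys p f} {m m' : ℕ} (hm : 0 < m) (h : m ≤ m') (hS : Len m S) :
    Len m' S := fun x hx => hS x (pow_anti hm h hx)

theorem exists_len (S : LocSys p f) : ∃ m, 0 < m ∧ Len m S := by
  obtain ⟨m, W, h1, h2, h3, h4⟩ := S.unip
  refine ⟨m + 1, by omega, Len.of_filt S h2 ?_ h4⟩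
  have := h1 (Nat.le_succ m)
  rw [h3] at this
  exact le_bot_iff.1 this

theorem Len.filt {S : LocSys p f} {m : ℕ} (hm : 0 < m) (hS : Len m S) :
    ∃ W : ℕ → Submodule ℚ_[p] S.V, Antitone W ∧ W 0 = ⊤ ∧ W m = ⊥ ∧
    ∀ i, ∀ w ∈ W i, ∀ γ, S.rho γ w - w ∈ W (i + 1) := by
  refine ⟨fun i => if i = 0 then ⊤ else
    Submodule.span ℚ_[p] {v | ∃ x ∈ II p ^ i, ∃ w, v = S.act x w}, ?_, by simp, ?_, ?_⟩
  · intro i j hij
    dsimp only
    by_cases hi : i = 0
    · simp [hi]
    · rw [if_neg hi, if_neg (by omega)]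
      apply Submodule.span_mono
      rintro v ⟨x, hx, w, rfl⟩
      exact ⟨x, pow_anti (by omega) hij hx, w, rfl⟩
  · dsimp only
    rw [if_neg (by omega), eq_bot_iff, Submodule.span_le]
    rintro v ⟨x, hx, w, rfl⟩
    rw [hS x hx]; simp
  · intro i w hw γ
    dsimp only at hw ⊢
    rw [if_neg (by omega)]
    by_cases hi : i = 0
    · subst hi
      apply Submodule.subset_span
      refine ⟨ge γ - 1, by rw [zero_add, pow_one]; exact ge_sub_one_mem γ, w, ?_⟩
      rw [map_sub, map_one, LocSys.act_ge]; rfl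
    · rw [if_neg hi] at hw
      induction hw using Submodule.span_induction with
      | mem v hv =>
        obtain ⟨x, hx, w, rfl⟩ := hv
        apply Submodule.subset_span
        refine ⟨(ge γ - 1) * x, by rw [pow_succ']; exact Submodule.mul_mem_mul (ge_sub_one_mem γ) hx,
          w, ?_⟩
        rw [map_mul, map_sub, map_one, LocSys.act_ge]; rfl
      | zero => simp
      | add x y _ _ hx hy =>
        have : S.rho γ (x + y) - (x + y) = (S.rho γ x - x) + (S.rho γ y - y) := by
          rw [map_add]; abel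
        rw [this]; exact add_mem hx hy
      | smul c x _ hx =>
        rw [map_smul, ← smul_sub]; exact Submodule.smul_mem _ _ hx

theorem Len.twist {S : LocSys p f} {m : ℕ} (hS : Len m S) (g : GG) : Len m (S.twist g) := by
  intro x hx
  rw [LocSys.act_twist]
  exact hS _ (cjR_mem_pow _ hx)

theorem act_unit (x : RR p) : (LocSys.unit (p := p) (f := f)).act x = aug x • 1 := by
  induction x using RR_induction with
  | h1 γ => rw [LocSys.act_ge, aug_ge, one_smul]; rfl
  | h2 x y hx hy => rw [map_add, map_add, hx, hy, add_smul]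
  | h3 r x hx => rw [map_smul, map_smul, hx, smul_eq_mul, mul_smul]

theorem len_unit : Len 1 (LocSys.unit (p := p) (f := f)) := by
  intro x hx
  rw [pow_one] at hx
  rw [act_unit, mem_II.1 hx, zero_smul]

end Y680.W
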