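import Pool.Agent.Y680.W.Stm

/-!
W-DICT: a valuation ring of an algebraic extension is determined by its trace on the base field
and its centre on the integral closure.
-/

noncomputable section

namespace Y680.W

theorem dict_le (K Ω : Type) [Field K] [Field Ω] [Algebra K Ω] [Algebra.IsAlgebraic K Ω]
    (v w : ValuationSubring Ω)
    (h1 : ∀ x : K, algebraMap K Ω x ∈ v ↔ algebraMap K Ω x ∈ w)
    (h2 : ∀ x : Ω, (∀ u : ValuationSubring Ω,
      (∀ y : K, algebraMap K Ω y ∈ v → algebraMap K Ω y ∈ u) → x ∈ u) →
      (x ∈ v.nonunits ↔ x ∈ w.nonunits)) : v ≤ w := by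
  classical
  intro x hx
  by_cases hx0 : x = 0
  · subst hx0; exact w.zero_mem
  obtain ⟨P, hP0, hP⟩ := Algebra.IsAlgebraic.isAlgebraic (R := K) x
  obtain ⟨i, hi, hmax⟩ := Finset.exists_max_image P.support
    (fun j => v.valuation (algebraMap K Ω (P.coeff j))) (Polynomial.support_nonempty.2 hP0)
  have hci : P.coeff i ≠ 0 := Polynomial.mem_support_iff.1 hi
  have hvi : 0 < v.valuation (algebraMap K Ω (P.coeff i)) := by
    rw [zero_lt_iff, Valuation.ne_zero_iff]
    exact (map_ne_zero _).2 hci
  obtain ⟨c, hc⟩ : ∃ c : ℕ → Ω, ∀ j, c j = algebraMap K Ω (P.coeff j / P.coeff i) :=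
    ⟨_, fun _ => rfl⟩
  have hcv : ∀ j, algebraMap K Ω (P.coeff j / P.coeff i) ∈ v := by
    intro j
    rw [← ValuationSubring.valuation_le_one_iff, map_div₀, map_div₀, div_le_one₀ hvi]
    by_cases hj : j ∈ P.support
    · exact hmax j hj
    · rw [Polynomial.notMem_support_iff] at hj
      rw [hj, map_zero, map_zero]
      exact zero_le
  have hci1 : c i = 1 := by
    rw [hc, div_self hci, map_one]
  have hin : i ≤ P.natDegree := Polynomial.le_natDegree_of_mem_supp i hi
  -- the relation
  have hrel : ∑ j ∈ Finset.range (P.natDegree + 1), c j * x ^ j = 0 := by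
    rw [Polynomial.aeval_eq_sum_range] at hP
    have h3 : (algebraMap K Ω (P.coeff i))⁻¹ *
        ∑ j ∈ Finset.range (P.natDegree + 1), P.coeff j • x ^ j = 0 := by
      rw [hP, mul_zero]
    rw [Finset.mul_sum] at h3
    rw [← h3]
    refine Finset.sum_congr rfl fun j _ => ?_
    rw [hc, map_div₀, Algebra.smul_def, div_eq_mul_inv]
    ring
  -- the largest index of a unit coefficient
  obtain ⟨k, hk, hkmax⟩ : ∃ k, (k ≤ P.natDegree ∧ ¬ v.valuation (c k) < 1) ∧
      ∀ j, j ≤ P.natDegree → k < j → v.valuation (c j) < 1 := by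
    have hne : ((Finset.range (P.natDegree + 1)).filter
        fun j => ¬ v.valuation (c j) < 1).Nonempty := by
      refine ⟨i, ?_⟩
      rw [Finset.mem_filter, Finset.mem_range, hci1, map_one]
      exact ⟨by omega, lt_irrefl _⟩
    refine ⟨Finset.max' _ hne, ?_, ?_⟩
    · have := Finset.max'_mem _ hne
      rw [Finset.mem_filter, Finset.mem_range] at this
      exact ⟨by omega, this.2⟩
    · intro j hj hlt
      by_contra hcon
      have : j ∈ (Finset.range (P.natDegree + 1)).filter fun j => ¬ v.valuation (c j) < 1 := by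
        rw [Finset.mem_filter, Finset.mem_range]
        exact ⟨by omega, hcon⟩
      exact absurd (Finset.le_max' _ j this) (not_le.2 hlt)
  obtain ⟨y, hy⟩ : ∃ y : Ω, y = ∑ j ∈ Finset.range (P.natDegree + 1),
      if k ≤ j then c j * x ^ (j - k) else 0 := ⟨_, rfl⟩
  obtain ⟨z, hz⟩ : ∃ z : Ω, z = ∑ j ∈ Finset.range (P.natDegree + 1),
      if j < k then c j * x⁻¹ ^ (k - 1 - j) else 0 := ⟨_, rfl⟩
  have hxv : v.valuation x ≤ 1 := (ValuationSubring.valuation_le_one_iff v x).2 hx
  -- y is a unit
  have hyu : ¬ v.valuation y < 1 := by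
    intro hlt
    apply hk.2
    have e : c k = y - ∑ j ∈ (Finset.range (P.natDegree + 1)).erase k,
        if k ≤ j then c j * x ^ (j - k) else 0 := by
      rw [hy, ← Finset.add_sum_erase _ _ (Finset.mem_range.2 (by omega : k < P.natDegree + 1)),
        if_pos le_rfl]
      simp
    rw [e]
    refine lt_of_le_of_lt (Valuation.map_sub _ _ _) (max_lt hlt ?_)
    refine Valuation.map_sum_lt _ one_ne_zero fun j hj => ?_
    rw [Finset.mem_erase, Finset.mem_range] at hj
    split_ifs with h
    · have h4 := hkmax j (by omega) (lt_of_le_of_ne h (Ne.symm hj.1))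
      rw [map_mul, map_pow]
      calc v.valuation (c j) * v.valuation x ^ (j - k) ≤ v.valuation (c j) * 1 :=
            mul_le_mul' le_rfl (pow_le_one' hxv _)
        _ < 1 := by rw [mul_one]; exact h4
    · rw [map_zero]
      exact zero_lt_one
  have hk1 : 1 ≤ k := by
    by_contra h0
    have hk0 : k = 0 := by omega
    apply hyu
    have : y = 0 := by
      rw [hy, ← hrel]
      refine Finset.sum_congr rfl fun j _ => ?_
      rw [hk0, if_pos (Nat.zero_le _), Nat.sub_zero]
    rw [this, map_zero]
    exact zero_lt_one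
  have hxyz : x * y + z = 0 := by
    have h5 : x ^ (k - 1) * (x * y + z) = 0 := by
      rw [← hrel, hy, hz, Finset.mul_sum, ← Finset.sum_add_distrib, Finset.mul_sum]
      refine Finset.sum_congr rfl fun j _ => ?_
      by_cases h : k ≤ j
      · rw [if_pos h, if_neg (by omega), add_zero]
        have : x ^ j = x ^ (k - 1) * (x * x ^ (j - k)) := by
          rw [← pow_succ', ← pow_add]
          congr 1
          omega
        rw [this]
        ring
      · rw [if_neg h, if_pos (by omega), mul_zero, zero_add]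
        have : x ^ (k - 1) = x ^ j * x ^ (k - 1 - j) := by
          rw [← pow_add]
          congr 1
          omega
        rw [this]
        have h6 : x ^ (k - 1 - j) * x⁻¹ ^ (k - 1 - j) = 1 := by
          rw [← mul_pow, mul_inv_cancel₀ hx0, one_pow]
        linear_combination (x ^ j * c j) * h6
    exact (mul_eq_zero.1 h5).resolve_left (pow_ne_zero _ hx0)
  have hu : ∀ u : ValuationSubring Ω, (∀ y : K, algebraMap K Ω y ∈ v → algebraMap K Ω y ∈ u) →
      y ∈ u ∧ z ∈ u := by
    intro u hu
    have hcu : ∀ j, c j ∈ u := by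
      intro j
      rw [hc]
      exact hu _ (hcv j)
    rcases u.mem_or_inv_mem x with h | h
    · have hyu : y ∈ u := by
        rw [hy]
        refine sum_mem fun j _ => ?_
        split_ifs
        · exact mul_mem (hcu j) (pow_mem h _)
        · exact zero_mem _
      refine ⟨hyu, ?_⟩
      have : z = -(x * y) := by linear_combination hxyz
      rw [this]
      exact neg_mem (mul_mem h hyu)
    · have hzu : z ∈ u := by
        rw [hz]
        refine sum_mem fun j _ => ?_
        split_ifs
        · exact mul_mem (hcu j) (pow_mem h _)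
        · exact zero_mem _
      refine ⟨?_, hzu⟩
      have : y = -(x⁻¹ * z) := by
        have h7 : x⁻¹ * x = 1 := inv_mul_cancel₀ hx0
        linear_combination x⁻¹ * hxyz - y * h7
      rw [this]
      exact neg_mem (mul_mem h hzu)
  have hw := hu w fun y hy => (h1 y).1 hy
  have h8 := h2 y fun u hu' => (hu u hu').1
  have hyw : ¬ w.valuation y < 1 := by
    intro h
    apply hyu
    rw [← ValuationSubring.mem_nonunits_iff] at h ⊢
    exact h8.2 h
  have hyinv : y⁻¹ ∈ w := by
    rw [← ValuationSubring.valuation_le_one_iff, map_inv₀]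
    exact inv_le_one_of_one_le₀ (not_lt.1 hyw)
  have hy0 : y ≠ 0 := by
    rintro h
    rw [h, map_zero] at hyw
    exact hyw zero_lt_one
  have : x = -(z * y⁻¹) := by
    have h9 : y * y⁻¹ = 1 := mul_inv_cancel₀ hy0
    linear_combination y⁻¹ * hxyz - x * h9
  rw [this]
  exact neg_mem (mul_mem hw.2 hyinv)

theorem t_DICT : S_DICT := by
  intro K Ω _ _ _ _ v w h1 h2
  refine le_antisymm (dict_le K Ω v w h1 h2) (dict_le K Ω w v (fun x => (h1 x).symm) ?_)
  intro x hx
  refine (h2 x fun u hu => hx u fun y hy => hu y ((h1 y).2 hy)).symm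

end Y680.W
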