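import Pool.Agent.Y680.W.Stm

/-!
WG-EX: existence of places (helper165).
-/

set_option autoImplicit false

open scoped Pointwise TensorProduct

noncomputable section

namespace Y680.W

theorem transcendental_tt_h165 : Transcendental ℚ tt := by
  have h1 : Transcendental ℚ (RatFunc.X : RatFunc ℚ) := by
    convert (RatFunc.transcendental_X (K := ℚ))
    exact Subsingleton.elim _ _
  unfold tt
  exact (transcendental_algebraMap_iff (algebraMap (RatFunc ℚ) Om).injective).2 h1

theorem transcendental_ttQb_h165 : Transcendental Qb tt := by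
  intro h
  have h0 : Algebra.IsAlgebraic ℚ Qb := by
    refine ⟨fun z => ?_⟩
    have h1 : IsAlgebraic ℚ (z : Om) := mem_algebraicClosure_iff.1 z.2
    obtain ⟨P, hP, hz⟩ := h1
    refine ⟨P, hP, ?_⟩
    apply Subtype.val_injective
    have h2 : ((Polynomial.aeval z P : Qb) : Om) = Polynomial.aeval (z : Om) P :=
      (Polynomial.aeval_algHom_apply Qb.val z P).symm
    rw [h2, hz]
    rfl
  exact transcendental_tt_h165 (h.restrictScalars ℚ)

theorem transcendental_loc_h165 (a : Option Qb) : Transcendental Qb (loc a) := by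
  intro h
  apply transcendental_ttQb_h165
  cases a with
  | none =>
    have h2 : IsAlgebraic Qb (tt⁻¹)⁻¹ := IsAlgebraic.inv h
    rwa [inv_inv] at h2
  | some a =>
    have h2 : IsAlgebraic Qb ((tt - (a : Om)) + algebraMap Qb Om a) :=
      IsAlgebraic.add h (isAlgebraic_algebraMap a)
    have e : (tt - (a : Om)) + algebraMap Qb Om a = tt := by
      show tt - (a : Om) + (a : Om) = tt
      ring
    rwa [e] at h2

theorem t_EX : S_EX := by
  intro a
  have htr := transcendental_loc_h165 a
  set u := loc a with hu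
  have hmem : u ∈ (Algebra.adjoin Qb {u}).toSubring := Algebra.subset_adjoin (Set.mem_singleton u)
  set I : Ideal (Algebra.adjoin Qb {u}).toSubring := Ideal.span {⟨u, hmem⟩} with hI
  have hne : I ≠ ⊤ := by
    intro h
    have h1 : (1 : (Algebra.adjoin Qb {u}).toSubring) ∈ I := by rw [h]; trivial
    rw [hI, Ideal.mem_span_singleton'] at h1
    obtain ⟨b, hb⟩ := h1
    have hb2 : (b : Om) * u = 1 := congrArg Subtype.val hb
    have h2 : (b : Om) ∈ Algebra.adjoin Qb {u} := b.2
    have h8 : ∀ z : Om, z ∈ Algebra.adjoin Qb {u} → ∃ P : Polynomial Qb,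
        Polynomial.aeval u P = z := by
      intro z hz
      rw [Algebra.adjoin_singleton_eq_range_aeval] at hz
      exact hz
    obtain ⟨P, hP⟩ := h8 _ h2
    have h3 : Polynomial.aeval u (P * Polynomial.X - 1) = 0 := by
      rw [map_sub, map_mul, Polynomial.aeval_X, map_one]
      have : Polynomial.aeval u P = (b : Om) := hP
      rw [this, hb2, sub_self]
    have h4 : (P * Polynomial.X - 1 : Polynomial Qb) = 0 := by
      by_contra h5
      exact htr ⟨_, h5, h3⟩
    have h6 := congrArg (fun Q => Polynomial.coeff Q 0) h4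
    simp at h6
  obtain ⟨B, hB1, hB2⟩ := Ideal.image_subset_nonunits_valuationSubring I hne
  refine ⟨B, fun q => hB1 ?_, hB2 ⟨⟨u, hmem⟩, Ideal.subset_span rfl, rfl⟩⟩
  have h7 : algebraMap ℚ Om q = algebraMap Qb Om (algebraMap ℚ Qb q) :=
    (IsScalarTower.algebraMap_apply ℚ Qb Om q)
  rw [h7]
  exact (Algebra.adjoin Qb {u}).algebraMap_mem _

end Y680.W
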