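import Pool.Agent.Y680.W.T_PLACE

/-!
W-FIX (helper379): elements fixed by the geometric group are rational functions in `t` with
algebraic coefficients, factored into linear factors.
-/

open scoped Pointwise TensorProduct

noncomputable section

namespace Y680.W

open Polynomial

theorem Qb_closed : IsAlgClosed Qb := (algebraicClosure.isAlgClosure ℚ Om).isAlgClosed

/-- factorization of the values at `tt` of polynomials with algebraic coefficients -/
theorem fac [DecidableEq Qb] (P : Qb[X]) (s : Finset Qb) (hs : P.roots.toFinset ⊆ s) :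
    aeval tt P = (P.leadingCoeff : Om) * ∏ x ∈ s, (tt - (x : Om)) ^ (P.rootMultiplicity x) := by
  have := Qb_closed
  have hsp : P.Splits := IsAlgClosed.splits P
  have h1 : P = C P.leadingCoeff * (P.roots.map fun a => X - C a).prod := hsp.eq_prod_roots
  have h2 : (P.roots.map fun a : Qb => (X - C a : Qb[X])).prod =
      ∏ x ∈ s, (X - C x) ^ (P.rootMultiplicity x) := by
    rw [Finset.prod_multiset_map_count]
    rw [Finset.prod_subset hs]
    · exact Finset.prod_congr rfl fun x _ => by rw [count_roots]
    · intro x _ hx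
      rw [Multiset.count_eq_zero_of_notMem (fun h => hx (Multiset.mem_toFinset.2 h)), pow_zero]
  conv_lhs => rw [h1, h2]
  simp only [map_mul, aeval_C, map_prod, map_pow, map_sub, aeval_X]
  rfl

theorem t_FIX : S_FIX := by
  classical
  intro y hy0 hy
  set F : IntermediateField Qb Om := IntermediateField.adjoin Qb {tt} with hF
  have htF : tt ∈ F := IntermediateField.mem_adjoin_simple_self Qb tt
  have hQF : ∀ x ∈ Qb, x ∈ F := fun x hx => F.algebraMap_mem (⟨x, hx⟩ : Qb)
  have : Algebra.IsAlgebraic F Om := alg_of F (algebraMap F Om) ⟨⟨tt, htF⟩, rfl⟩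
  have : IsAlgClosure F Om := ⟨inferInstance, inferInstance⟩
  have : Normal F Om := IsAlgClosure.normal F Om
  have : IsGalois F Om := IsGalois.mk
  have hyF : y ∈ F := by
    have h1 := (InfiniteGalois.mem_range_algebraMap_iff_fixed (k := F) y).2 (fun σ => by
      have hfix : ∀ x ∈ F, σ x = x := fun x hx => σ.commutes (⟨x, hx⟩ : F)
      obtain ⟨g, hg⟩ := exists_GG σ.toRingEquiv (hfix tt htF)
      have h2 := hy g (fun x hx => (hg x).trans (hfix x (hQF x hx)))
      rw [hg] at h2
      exact h2)
    obtain ⟨z, rfl⟩ := h1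
    exact z.2
  obtain ⟨P, Q, rfl⟩ := (IntermediateField.mem_adjoin_simple_iff Qb y).1 hyF
  have hP : P ≠ 0 := by
    rintro rfl
    exact hy0 (by simp)
  have hQ : Q ≠ 0 := by
    rintro rfl
    exact hy0 (by simp)
  have hlP := leadingCoeff_ne_zero.2 hP
  have hlQ := leadingCoeff_ne_zero.2 hQ
  refine ⟨P.leadingCoeff / Q.leadingCoeff, P.roots.toFinset ∪ Q.roots.toFinset,
    fun x => (P.rootMultiplicity x : ℤ) - Q.rootMultiplicity x, div_ne_zero hlP hlQ, ?_⟩
  rw [fac P _ Finset.subset_union_left, fac Q _ Finset.subset_union_right, mul_div_mul_comm,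
    ← Finset.prod_div_distrib]
  congr 1
  refine Finset.prod_congr rfl fun x _ => ?_
  have hx : tt - (x : Om) ≠ 0 := loc_ne (some x)
  rw [zpow_sub₀ hx, zpow_natCast, zpow_natCast]

end Y680.W
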