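import Pool.Agent.Y680.W.Stm

/-!
Project WG (helper680), job WG-FROB: Frobenius elements fixing a given finite set.
-/

open scoped Pointwise

noncomputable section

namespace Y680.W
namespace FROB

section basic

variable {K : Type} [Field K] (A : ValuationSubring K)

theorem nonunits_iff (a : A) : (a : K) ∈ A.nonunits ↔ IsLocalRing.residue A a = 0 := by
  rw [IsLocalRing.residue_eq_zero_iff]
  exact ValuationSubring.coe_mem_nonunits_iff

/-- integral elements are in the valuation ring -/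
theorem int_mem {x : K} (hx : IsIntegral ℤ x) : x ∈ A := by
  have h : IsIntegral A x := hx.tower_top
  obtain ⟨y, hy⟩ := IsIntegrallyClosed.isIntegral_iff.1 h
  rw [← hy]
  exact y.2

/-- the inclusion of the ring of integers into the valuation ring -/
def incl : (integralClosure ℤ K) →+* A where
  toFun b := ⟨b, int_mem A b.2⟩
  map_one' := rfl
  map_mul' _ _ := rfl
  map_zero' := rfl
  map_add' _ _ := rfl

/-- the prime ideal of the ring of integers below the valuation ring -/
def PP : Ideal (integralClosure ℤ K) := (IsLocalRing.maximalIdeal A).comap (incl A)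

instance : (PP A).IsPrime := Ideal.comap_isPrime _ _

theorem mem_PP (b : integralClosure ℤ K) : b ∈ PP A ↔ (b : K) ∈ A.nonunits := by
  rw [PP, Ideal.mem_comap]
  exact (ValuationSubring.coe_mem_nonunits_iff (A := A) (a := incl A b)).symm

theorem nat_coprime {l m : ℕ} (hl : (l : K) ∈ A.nonunits) (h : Nat.Coprime l m) :
    (m : K) ∉ A.nonunits := by
  intro hm
  have h1 : IsLocalRing.residue A (l : A) = 0 := by
    rw [← nonunits_iff]; exact_mod_cast hl
  have h2 : IsLocalRing.residue A (m : A) = 0 := by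
    rw [← nonunits_iff]; exact_mod_cast hm
  have h3 := Nat.isCoprime_iff_coprime.2 h
  obtain ⟨a, b, hab⟩ := h3
  have h4 : IsLocalRing.residue A ((a * l + b * m : ℤ) : A) = 1 := by rw [hab]; simp
  rw [Int.cast_add, Int.cast_mul, Int.cast_mul, Int.cast_natCast, Int.cast_natCast, map_add,
    map_mul, map_mul, h1, h2] at h4
  simp at h4

end basic

theorem cast_or {K : Type} [Field K] (m : ℤ) :
    (m : K) = ((m.natAbs : ℕ) : K) ∨ (m : K) = -((m.natAbs : ℕ) : K) := by
  rcases Int.natAbs_eq m with h | h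
  · left
    conv_lhs => rw [h, Int.cast_natCast]
  · right
    conv_lhs => rw [h, Int.cast_neg, Int.cast_natCast]

section frob

variable {K : Type} [Field K] (A : ValuationSubring K) (l : ℕ) [Fact l.Prime]

theorem charP (hl : (l : K) ∈ A.nonunits) : CharP ((integralClosure ℤ K) ⧸ PP A) l := by
  have h0 : ((l : ℕ) : (integralClosure ℤ K) ⧸ PP A) = 0 := by
    have : ((l : integralClosure ℤ K)) ∈ PP A := by
      rw [mem_PP]; exact_mod_cast hl
    have h1 := Ideal.Quotient.eq_zero_iff_mem.2 this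
    simpa using h1
  have : Nontrivial ((integralClosure ℤ K) ⧸ PP A) :=
    Ideal.Quotient.nontrivial_iff.2 (Ideal.IsPrime.ne_top inferInstance)
  exact (CharP.charP_iff_prime_eq_zero Fact.out).2 h0

theorem frob_surj_aux {R : Type} [CommRing R] [IsDomain R] (l : ℕ) [Fact l.Prime] [CharP R l]
    (y : R) (hy : IsIntegral ℤ y) : ∃ x : R, x ^ l = y := by
  let _ : Algebra (ZMod l) R := ZMod.algebra _ l
  have hint : IsIntegral (ZMod l) y := by
    obtain ⟨f, hf, hf2⟩ := hy
    refine ⟨f.map (Int.castRingHom (ZMod l)), hf.map _, ?_⟩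
    rw [Polynomial.eval₂_map]
    have : (algebraMap (ZMod l) R).comp (Int.castRingHom (ZMod l)) = algebraMap ℤ R :=
      RingHom.ext_int _ _
    rw [this]; exact hf2
  let S := Algebra.adjoin (ZMod l) {y}
  have : Module.Finite (ZMod l) S := Module.Finite.iff_fg.2 hint.fg_adjoin_singleton
  have : Finite S := Module.finite_of_finite (ZMod l)
  let F : S → S := fun z => z ^ l
  have hF : Function.Injective F := by
    intro a b hab
    have h2 : (a : R) ^ l = (b : R) ^ l := congrArg Subtype.val hab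
    have h3 : (a : R) = b := frobenius_inj R l h2
    exact Subtype.ext h3
  obtain ⟨x, hx⟩ := Finite.surjective_of_injective hF ⟨y, Algebra.self_mem_adjoin_singleton _ _⟩
  exact ⟨x, congrArg Subtype.val hx⟩

theorem frob_surj (hl : (l : K) ∈ A.nonunits) (y : (integralClosure ℤ K) ⧸ PP A) :
    ∃ x : (integralClosure ℤ K) ⧸ PP A, x ^ l = y := by
  have := charP A l hl
  obtain ⟨b, rfl⟩ := Ideal.Quotient.mk_surjective y
  refine frob_surj_aux l _ ?_
  have hb : IsIntegral ℤ b := by
    have := b.2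
    rw [mem_integralClosure_iff] at this
    exact (isIntegral_algebraMap_iff (A := integralClosure ℤ K) (B := K)
      Subtype.val_injective).1 this
  exact hb.map (Ideal.Quotient.mkₐ ℤ (PP A))

/-- the Frobenius automorphism of the residue field -/
def Fr (hl : (l : K) ∈ A.nonunits) : ((integralClosure ℤ K) ⧸ PP A) ≃ₐ[ℤ ⧸ (PP A).under ℤ]
    ((integralClosure ℤ K) ⧸ PP A) :=
  haveI := charP A l hl
  AlgEquiv.ofBijective
    { frobenius ((integralClosure ℤ K) ⧸ PP A) l with
      commutes' := by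
        intro r
        obtain ⟨n, rfl⟩ := Ideal.Quotient.mk_surjective r
        have : algebraMap (ℤ ⧸ (PP A).under ℤ) ((integralClosure ℤ K) ⧸ PP A)
          (Ideal.Quotient.mk _ n) = ((n : ℤ) : (integralClosure ℤ K) ⧸ PP A) := by
          have := RingHom.ext_int ((algebraMap (ℤ ⧸ (PP A).under ℤ)
            ((integralClosure ℤ K) ⧸ PP A)).comp (Ideal.Quotient.mk _)) (Int.castRingHom _)
          exact congrArg (fun f => f n) this
        rw [this]
        exact map_intCast (frobenius ((integralClosure ℤ K) ⧸ PP A) l) n }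
    ⟨frobenius_inj _ l, fun y => frob_surj A l hl y⟩

theorem Fr_apply (hl : (l : K) ∈ A.nonunits) (x : (integralClosure ℤ K) ⧸ PP A) :
    Fr A l hl x = x ^ l := rfl

end frob

section lift

variable {K : Type} [Field K] [Algebra ℚ K] [IsAlgClosed K] [Algebra.IsAlgebraic ℚ K]
variable (A : ValuationSubring K) (l : ℕ) [Fact l.Prime]

theorem gal : IsGalois ℚ K := by
  have : IsAlgClosure ℚ K := ⟨inferInstance, inferInstance⟩
  infer_instance

theorem inv_int : Algebra.IsInvariant ℤ (integralClosure ℤ K) (K ≃ₐ[ℚ] K) := by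
  have := gal (K := K)
  refine ⟨fun b hb => ?_⟩
  have h1 : (b : K) ∈ (⊥ : IntermediateField ℚ K) := by
    rw [InfiniteGalois.mem_bot_iff_fixed]
    intro g
    exact congrArg Subtype.val (hb g)
  rw [IntermediateField.mem_bot] at h1
  obtain ⟨q, hq⟩ := h1
  have h2 : IsIntegral ℤ (b : K) := b.2
  rw [← hq, isIntegral_algebraMap_iff (algebraMap ℚ K).injective] at h2
  obtain ⟨n, hn⟩ := IsIntegrallyClosed.isIntegral_iff.1 h2
  refine ⟨n, Subtype.ext ?_⟩
  rw [← hq, ← hn]
  simp

theorem exists_phi (hl : (l : K) ∈ A.nonunits) : ∃ g : K ≃ₐ[ℚ] K,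
    (∀ b : integralClosure ℤ K, (b : K) ∈ A.nonunits ↔ g (b : K) ∈ A.nonunits) ∧
    ∀ b : integralClosure ℤ K, g (b : K) - (b : K) ^ l ∈ A.nonunits := by
  have := gal (K := K)
  have := inv_int (K := K)
  let _ : TopologicalSpace (integralClosure ℤ K) := ⊥
  have : DiscreteTopology (integralClosure ℤ K) := ⟨rfl⟩
  have : ContinuousSMul (K ≃ₐ[ℚ] K) (integralClosure ℤ K) := by
    rw [continuousSMul_iff_stabilizer_isOpen]
    intro b
    have h1 := stabilizer_isOpen_of_isIntegral (K := ℚ) (L := K) (b : K)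
    convert h1 using 1
    ext g
    simp only [SetLike.mem_coe, MulAction.mem_stabilizer_iff]
    constructor
    · intro h; exact congrArg Subtype.val h
    · intro h; exact Subtype.ext h
  obtain ⟨g, hg⟩ := Ideal.Quotient.stabilizerHom_surjective_of_profinite (G := K ≃ₐ[ℚ] K)
    ((PP A).under ℤ) (PP A) (Fr A l hl)
  refine ⟨g.1, fun b => ?_, fun b => ?_⟩
  · have h1 : g.1 • (PP A) = PP A := g.2
    have h2 : g.1 • b ∈ g.1 • PP A ↔ b ∈ PP A := Ideal.smul_mem_pointwise_smul_iff
    rw [h1, mem_PP, mem_PP] at h2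
    exact h2.symm
  · have h1 := DFunLike.congr_fun hg (Ideal.Quotient.mk _ b)
    rw [Fr_apply, ← map_pow] at h1
    have h2 : Ideal.Quotient.mk (PP A) (g.1 • b) = Ideal.Quotient.mk (PP A) (b ^ l) := h1
    rw [Ideal.Quotient.eq, mem_PP] at h2
    exact h2

theorem exists_mult (hl : (l : K) ∈ A.nonunits) (x : K)
    (hx : ∀ u : ValuationSubring K, (∀ y : ℚ, algebraMap ℚ K y ∈ A → algebraMap ℚ K y ∈ u) →
      x ∈ u) : ∃ m : ℕ, Nat.Coprime l m ∧ IsIntegral ℤ ((m : K) * x) := by
  let R0 : Subring ℚ := A.toSubring.comap (algebraMap ℚ K)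
  have hlp : l.Prime := Fact.out
  have hlp' : Prime (l : ℤ) := Nat.prime_iff_prime_int.1 hlp
  let M : Submonoid ℤ :=
    { carrier := {m | ¬ (l : ℤ) ∣ m}
      mul_mem' := by
        intro a b ha hb hab
        rcases hlp'.dvd_or_dvd hab with h | h
        · exact ha h
        · exact hb h
      one_mem' := fun h => hlp'.not_isUnit (isUnit_of_dvd_one h) }
  have hcop : ∀ m : ℤ, ¬ (l : ℤ) ∣ m → Nat.Coprime l m.natAbs := by
    intro m hm
    rw [Nat.Prime.coprime_iff_not_dvd hlp]
    intro h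
    exact hm (Int.natCast_dvd.2 h)
  have hinv : ∀ m : ℤ, ¬ (l : ℤ) ∣ m → (m : K)⁻¹ ∈ A := by
    intro m hm
    have h1 := nat_coprime A hl (hcop m hm)
    have h2 : ((m.natAbs : ℕ) : K)⁻¹ ∈ A := by
      by_contra h0
      exact h1 ((ValuationSubring.mem_nonunits_iff_or A).2 (Or.inr h0))
    rcases cast_or (K := K) m with h | h
    · rw [h]; exact h2
    · rw [h, inv_neg]
      exact A.neg_mem _ h2
  have hint : IsIntegral R0 x := by
    by_contra hx0
    have hx1 : x ∉ (integralClosure R0 K).toSubring := hx0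
    obtain ⟨V, hV1, hV2⟩ := Subring.exists_le_valuationSubring_of_isIntegrallyClosedIn hx1
    apply hV2
    apply hx V
    intro y hy
    apply hV1
    exact (integralClosure R0 K).algebraMap_mem ⟨y, hy⟩
  have hnon : ∀ a b : K, a ∈ A.nonunits → b ∈ A → a * b ∈ A.nonunits := by
    intro a b ha hb
    have ha' : a ∈ A := ValuationSubring.nonunits_subset ha
    have h1 := (nonunits_iff A ⟨a, ha'⟩).1 ha
    have h2 : IsLocalRing.residue A (⟨a, ha'⟩ * ⟨b, hb⟩) = 0 := by rw [map_mul, h1, zero_mul]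
    exact (nonunits_iff A _).2 h2
  have hloc : IsLocalization M R0 := by
    refine ⟨fun m => ?_, fun z => ?_, fun {x y} hxy => ⟨1, ?_⟩⟩
    · have hm0 : ((m : ℤ) : ℚ) ≠ 0 := by
        intro h0
        have : (m : ℤ) = 0 := by exact_mod_cast h0
        exact m.2 (this ▸ dvd_zero _)
      refine isUnit_iff_exists_inv.2 ⟨⟨((m : ℤ) : ℚ)⁻¹, ?_⟩, ?_⟩
      · change algebraMap ℚ K _ ∈ A
        rw [map_inv₀, map_intCast]
        exact hinv m m.2
      · apply Subtype.ext
        change ((algebraMap ℤ R0 (m : ℤ) : R0) : ℚ) * ((m : ℤ) : ℚ)⁻¹ = 1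
        have : ((algebraMap ℤ R0 (m : ℤ) : R0) : ℚ) = ((m : ℤ) : ℚ) := by simp
        rw [this, mul_inv_cancel₀ hm0]
    · have hden : ¬ (l : ℤ) ∣ ((z : ℚ).den : ℤ) := by
        intro hd
        obtain ⟨t, ht⟩ := Int.natCast_dvd_natCast.1 hd
        have h1 : Nat.Coprime l (z : ℚ).num.natAbs := by
          have := (z : ℚ).reduced.symm
          rw [ht] at this
          exact Nat.Coprime.coprime_mul_right this
        apply nat_coprime A hl h1
        have h2 : (((z : ℚ).num : ℚ)) = (z : ℚ) * ((z : ℚ).den : ℚ) := by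
          exact (Rat.mul_den_eq_num _).symm
        have h3 : (((z : ℚ).num : ℤ) : K) = (l : K) * ((t : K) * algebraMap ℚ K z) := by
          have := congrArg (algebraMap ℚ K) h2
          rw [map_mul, map_intCast, map_natCast, ht] at this
          rw [this]; push_cast; ring
        have h4 : (((z : ℚ).num : ℤ) : K) ∈ A.nonunits := by
          rw [h3]
          exact hnon _ _ hl (A.mul_mem _ _ (int_mem A (isIntegral_natCast t)) z.2)
        rcases cast_or (K := K) (z : ℚ).num with h | h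
        · rw [h] at h4; exact h4
        · rw [h] at h4
          have h5 := hnon _ (-1) h4 (A.neg_mem _ A.one_mem)
          rwa [mul_neg_one, neg_neg] at h5
      refine ⟨⟨(z : ℚ).num, ⟨(z : ℚ).den, hden⟩⟩, ?_⟩
      apply Subtype.ext
      change (z : ℚ) * ((algebraMap ℤ R0 ((z : ℚ).den : ℤ) : R0) : ℚ) =
        ((algebraMap ℤ R0 ((z : ℚ).num : ℤ) : R0) : ℚ)
      have e1 : ((algebraMap ℤ R0 ((z : ℚ).den : ℤ) : R0) : ℚ) = ((z : ℚ).den : ℚ) := by simp
      have e2 : ((algebraMap ℤ R0 ((z : ℚ).num : ℤ) : R0) : ℚ) = ((z : ℚ).num : ℚ) := by simp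
      rw [e1, e2, Rat.mul_den_eq_num]
    · have h1 := congrArg (Subtype.val : R0 → ℚ) hxy
      have e1 : ∀ n : ℤ, ((algebraMap ℤ R0 n : R0) : ℚ) = (n : ℚ) := by intro n; simp
      rw [e1, e1] at h1
      have : x = y := by exact_mod_cast h1
      rw [this]
  obtain ⟨m, hm⟩ := IsIntegral.exists_multiple_integral_of_isLocalization (Rₘ := R0) M x hint
  refine ⟨(m : ℤ).natAbs, hcop m m.2, ?_⟩
  have h1 : (m • x : K) = ((m : ℤ) : K) * x := by
    rw [Submonoid.smul_def, zsmul_eq_mul]
  rw [h1] at hm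
  rcases cast_or (K := K) (m : ℤ) with h | h
  · rw [h] at hm; exact hm
  · rw [h] at hm
    have h5 := hm.neg
    rwa [neg_mul, neg_neg] at h5

theorem Dec_phi (h : S_DICT) (hl : (l : K) ∈ A.nonunits) (g : K ≃ₐ[ℚ] K)
    (hg : ∀ b : integralClosure ℤ K, (b : K) ∈ A.nonunits ↔ g (b : K) ∈ A.nonunits) :
    ∀ z, z ∈ A ↔ g z ∈ A := by
  have key : A = A.comap (g : K →+* K) := by
    refine h ℚ K A _ (fun x => ?_) (fun x hx => ?_)
    · rw [ValuationSubring.mem_comap]
      simp
    · obtain ⟨m, hm, hmx⟩ := exists_mult A l hl x hx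
      have hm1 : (m : K) ∉ A.nonunits := nat_coprime A hl hm
      have hm0 : (m : K) ≠ 0 := by
        intro h0
        apply hm1
        rw [h0, ValuationSubring.mem_nonunits_iff_or]
        exact Or.inl rfl
      have hm2 : (m : K) ∈ A := int_mem A (isIntegral_natCast m)
      have hm3 : (m : K)⁻¹ ∈ A := by
        by_contra h0
        exact hm1 ((ValuationSubring.mem_nonunits_iff_or A).2 (Or.inr h0))
      have hmul : ∀ y : K, (m : K) * y ∈ A.nonunits ↔ y ∈ A.nonunits := by
        intro y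
        rw [ValuationSubring.mem_nonunits_iff_or, ValuationSubring.mem_nonunits_iff_or]
        have e1 : (m : K) * y = 0 ↔ y = 0 := by simp [hm0]
        have e2 : ((m : K) * y)⁻¹ ∈ A ↔ y⁻¹ ∈ A := by
          rw [mul_inv]
          constructor
          · intro h1
            have := A.mul_mem _ _ hm2 h1
            rwa [mul_inv_cancel_left₀ hm0] at this
          · intro h1
            exact A.mul_mem _ _ hm3 h1
        rw [e1, e2]
      have h1 : x ∈ (A.comap (g : K →+* K)).nonunits ↔ g x ∈ A.nonunits := by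
        rw [ValuationSubring.mem_nonunits_iff_or, ValuationSubring.mem_nonunits_iff_or,
          ValuationSubring.mem_comap]
        simp
      rw [h1, ← hmul x, ← hmul (g x)]
      have h2 := hg ⟨(m : K) * x, hmx⟩
      rw [h2]
      simp
  intro z
  conv_lhs => rw [key]
  rfl

/-- two roots of unity of order a power of `p` which are congruent are equal -/
theorem root_eq (p : ℕ) [Fact p.Prime] (hlp : l ≠ p) (hl : (l : K) ∈ A.nonunits) (k : ℕ)
    (a b : K) (ha : a ^ (p ^ k) = 1) (hb : b ^ (p ^ k) = 1) (h : a - b ∈ A.nonunits) : a = b := by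
  have hpp : p.Prime := Fact.out
  have hll : l.Prime := Fact.out
  have hpk : p ^ k ≠ 0 := pow_ne_zero _ hpp.ne_zero
  have hI : ∀ x : K, x ^ (p ^ k) = 1 → IsIntegral ℤ x := fun x hx =>
    IsIntegral.of_pow (Nat.pos_of_ne_zero hpk) (by rw [hx]; exact isIntegral_one)
  have hb0 : b ≠ 0 := by
    rintro rfl
    rw [zero_pow hpk] at hb
    exact zero_ne_one hb
  set r : K := a * b⁻¹ with hr
  have hr1 : r ^ (p ^ k) = 1 := by rw [hr, mul_pow, inv_pow, ha, hb]; simp
  have hrA : r ∈ A := int_mem A (hI r hr1)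
  have hbA : b⁻¹ ∈ A := int_mem A (hI _ (by rw [inv_pow, hb, inv_one]))
  have hmap : IsLocalRing.residue A ⟨r, hrA⟩ = 1 := by
    have h1 : a - b ∈ A := ValuationSubring.nonunits_subset h
    have h2 := (nonunits_iff A ⟨a - b, h1⟩).1 h
    have h3 : (⟨r, hrA⟩ : A) = ⟨a - b, h1⟩ * ⟨b⁻¹, hbA⟩ + 1 := by
      apply Subtype.ext
      change r = (a - b) * b⁻¹ + 1
      rw [hr, sub_mul, mul_inv_cancel₀ hb0]; ring
    rw [h3, map_add, map_mul, h2, zero_mul, zero_add, map_one]
  by_contra hab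
  have hr2 : r ≠ 1 := by
    intro h1
    apply hab
    rw [hr] at h1
    field_simp at h1
    exact h1
  have hsum : ∑ i ∈ Finset.range (p ^ k), r ^ i = 0 := by
    have := geom_sum_mul r (p ^ k)
    rw [hr1, sub_self] at this
    rcases mul_eq_zero.1 this with h1 | h1
    · exact h1
    · exact absurd (sub_eq_zero.1 h1) hr2
  have hsum2 : ∑ i ∈ Finset.range (p ^ k), (⟨r, hrA⟩ : A) ^ i = 0 := by
    apply Subtype.ext
    have : ((∑ i ∈ Finset.range (p ^ k), (⟨r, hrA⟩ : A) ^ i : A) : K) =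
      ∑ i ∈ Finset.range (p ^ k), r ^ i := by
      rw [← ValuationSubring.subtype_apply, map_sum]
      rfl
    rw [this, hsum]
    rfl
  have h3 := congrArg (IsLocalRing.residue A) hsum2
  rw [map_sum, map_zero] at h3
  simp only [map_pow, hmap, one_pow, Finset.sum_const, Finset.card_range, nsmul_eq_mul,
    mul_one] at h3
  have h4 : ((p ^ k : ℕ) : K) ∈ A.nonunits := by
    have h5 : IsLocalRing.residue A ((p ^ k : ℕ) : A) = 0 := by rw [map_natCast]; exact h3
    have := (nonunits_iff A ((p ^ k : ℕ) : A)).2 h5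
    exact_mod_cast this
  refine nat_coprime A hl ?_ h4
  exact ((Nat.coprime_primes hll hpp).2 hlp).pow_right k

theorem chi_eq (p : ℕ) [Fact p.Prime] (g : K ≃ₐ[ℚ] K)
    (hg : ∀ (k : ℕ) (z : K), z ^ (p ^ k) = 1 → g z = z ^ l) :
    ((cyclotomicCharacter K p (g : K ≃+* K) : ℤ_[p]ˣ) : ℤ_[p]) = (l : ℤ_[p]) := by
  have hpp : p.Prime := Fact.out
  have hcz : CharZero K := charZero_of_injective_algebraMap (algebraMap ℚ K).injective
  have hne : ∀ i : ℕ, HasEnoughRootsOfUnity K (p ^ i) := fun i => by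
    have : NeZero ((p ^ i : ℕ) : K) := ⟨by
      exact Nat.cast_ne_zero.2 (pow_ne_zero i hpp.ne_zero)⟩
    infer_instance
  refine PadicInt.ext_of_toZModPow.1 fun n => ?_
  rw [map_natCast]
  have hn : NeZero (p ^ n) := ⟨pow_ne_zero _ hpp.ne_zero⟩
  obtain ⟨z, hz⟩ := HasEnoughRootsOfUnity.exists_primitiveRoot K (p ^ n)
  have h1 := cyclotomicCharacter.spec p (n := n) (g : K ≃+* K) z hz.pow_eq_one
  have h2 : (g : K ≃+* K) z = z ^ l := hg n z hz.pow_eq_one
  rw [h2] at h1
  have h3 := (isOfFinOrder_iff_pow_eq_one.2 ⟨p ^ n, Nat.pos_of_ne_zero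
    (pow_ne_zero _ hpp.ne_zero), hz.pow_eq_one⟩).pow_eq_pow_iff_modEq.1 h1
  rw [← hz.eq_orderOf] at h3
  have h4 := (ZMod.natCast_eq_natCast_iff _ _ _).2 h3
  rw [ZMod.natCast_val, ZMod.cast_id] at h4
  exact h4.symm

theorem fix_one (g : K ≃ₐ[ℚ] K) (s : K) : ∃ n : ℕ, 0 < n ∧ (g ^ n) s = s := by
  have hs : IsIntegral ℚ s := (Algebra.IsAlgebraic.isAlgebraic s).isIntegral
  let R := (minpoly ℚ s).rootSet K
  have hmem : ∀ n : ℕ, (g ^ n) s ∈ R := by
    intro n
    rw [Polynomial.mem_rootSet]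
    refine ⟨minpoly.ne_zero hs, ?_⟩
    rw [Polynomial.aeval_algHom_apply, minpoly.aeval, map_zero]
  have : Finite R := (minpoly ℚ s).rootSet_finite K
  obtain ⟨i, j, hij, h⟩ := Finite.exists_ne_map_eq_of_infinite
    (fun n : ℕ => (⟨(g ^ n) s, hmem n⟩ : R))
  have h' : (g ^ i) s = (g ^ j) s := congrArg Subtype.val h
  have key : ∀ i j : ℕ, i < j → (g ^ i) s = (g ^ j) s → ∃ n : ℕ, 0 < n ∧ (g ^ n) s = s := by
    intro i j hij h
    refine ⟨j - i, by omega, ?_⟩
    have : g ^ j = g ^ i * g ^ (j - i) := by rw [← pow_add]; congr 1; omega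
    rw [this, AlgEquiv.mul_apply] at h
    exact ((g ^ i).injective h).symm
  rcases lt_or_gt_of_ne hij with h1 | h1
  · exact key i j h1 h'
  · exact key j i h1 h'.symm

theorem pow_fix (g : K ≃ₐ[ℚ] K) (s : K) (h : g s = s) (n : ℕ) : (g ^ n) s = s := by
  induction n with
  | zero => simp
  | succ n ih => rw [pow_succ, AlgEquiv.mul_apply, h, ih]

theorem fix_all (g : K ≃ₐ[ℚ] K) (S : Finset K) : ∃ n : ℕ, 0 < n ∧ ∀ s ∈ S, (g ^ n) s = s := by
  classical
  induction S using Finset.induction_on with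
  | empty => exact ⟨1, one_pos, by simp⟩
  | insert a S ha ih =>
    obtain ⟨n, hn, hn2⟩ := ih
    obtain ⟨m, hm, hm2⟩ := fix_one g a
    refine ⟨n * m, Nat.mul_pos hn hm, fun s hs => ?_⟩
    rcases Finset.mem_insert.1 hs with rfl | hs
    · rw [mul_comm, pow_mul]
      exact pow_fix _ _ hm2 n
    · rw [pow_mul]
      exact pow_fix _ _ (hn2 s hs) m

end lift

end FROB

open FROB in
theorem t_FROB (h : S_DICT) : S_FROB := by
  intro K _ _ _ _ p l _ hl hlp A hA S
  have hl' : Fact l.Prime := ⟨hl⟩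
  obtain ⟨g, hg1, hg2⟩ := exists_phi A l hA
  have hdec := Dec_phi A l h hA g hg1
  have hpp : p.Prime := Fact.out
  have hroot : ∀ (k : ℕ) (z : K), z ^ (p ^ k) = 1 → g z = z ^ l := by
    intro k z hz
    have hint : IsIntegral ℤ z := IsIntegral.of_pow (Nat.pos_of_ne_zero
      (pow_ne_zero k hpp.ne_zero)) (by rw [hz]; exact isIntegral_one)
    refine root_eq A l p hlp hA k _ _ ?_ ?_ (hg2 ⟨z, hint⟩)
    · rw [← map_pow, hz, map_one]
    · rw [← pow_mul, mul_comm, pow_mul, hz, one_pow]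
  have hchi := chi_eq l p g hroot
  obtain ⟨n, hn, hn2⟩ := fix_all g S
  refine ⟨g ^ n, ?_, hn2, ?_⟩
  · intro z
    clear hn hn2
    induction n with
    | zero => simp
    | succ n ih => rw [pow_succ', AlgEquiv.mul_apply, ← hdec, ih]
  · intro i hi hone
    have h1 : ((g ^ n : K ≃ₐ[ℚ] K) : K ≃+* K) = (g : K ≃+* K) ^ n := by
      ext z
      clear hn hn2 hone
      induction n with
      | zero => simp
      | succ n ih =>
        rw [pow_succ', pow_succ']
        change g ((g ^ n) z) = g (((g : K ≃+* K) ^ n) z)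
        rw [← ih]
        rfl
    rw [h1, map_pow, ← pow_mul] at hone
    have h2 := congrArg (Units.val) hone
    rw [Units.val_pow_eq_pow_val, hchi, Units.val_one] at h2
    have h3 : ((l ^ (n * i) : ℕ) : ℤ_[p]) = ((1 : ℕ) : ℤ_[p]) := by push_cast; exact h2
    have h4 : l ^ (n * i) = 1 := Nat.cast_injective h3
    have h5 : 1 < l ^ (n * i) := Nat.one_lt_pow (Nat.mul_pos hn hi).ne' hl.one_lt
    omega

end Y680.W
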