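import Pool.Agent.Y680.W.Stm

/-!
WG-FROBG: Frobenius elements in the stabiliser of a place above a rational point (helper165).
-/

set_option autoImplicit false

open scoped Pointwise TensorProduct Topology

noncomputable section

namespace Y680.W

theorem isAlgebraic_Qb_h165 : Algebra.IsAlgebraic ℚ Qb := by
  refine ⟨fun z => ?_⟩
  have h1 : IsAlgebraic ℚ (z : Om) := mem_algebraicClosure_iff.1 z.2
  obtain ⟨P, hP, hz⟩ := h1
  refine ⟨P, hP, ?_⟩
  apply Subtype.val_injective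
  have h2 : ((Polynomial.aeval z P : Qb) : Om) = Polynomial.aeval (z : Om) P :=
    (Polynomial.aeval_algHom_apply Qb.val z P).symm
  rw [h2, hz]
  rfl

theorem isAlgClosed_Qb_h165 : IsAlgClosed Qb :=
  (algebraicClosure.isAlgClosure ℚ Om).isAlgClosed

/-- the cyclotomic characters of `Om` and of the algebraic numbers agree -/
theorem cyc_eq_h165 (p : ℕ) [Fact p.Prime] (σ : Qb ≃+* Qb) (g : Om ≃+* Om)
    (hg : ∀ z : Qb, g (z : Om) = (σ z : Om)) :
    cyclotomicCharacter Om p g = cyclotomicCharacter Qb p σ := by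
  have := isAlgClosed_Qb_h165
  have hp : ∀ i : ℕ, NeZero ((p ^ i : ℕ) : Om) := fun i =>
    ⟨by exact_mod_cast pow_ne_zero i (Fact.out : p.Prime).ne_zero⟩
  have hp' : ∀ i : ℕ, NeZero ((p ^ i : ℕ) : Qb) := fun i =>
    ⟨by exact_mod_cast pow_ne_zero i (Fact.out : p.Prime).ne_zero⟩
  have hO : ∀ i : ℕ, HasEnoughRootsOfUnity Om (p ^ i) := fun i => inferInstance
  have hQ : ∀ i : ℕ, HasEnoughRootsOfUnity Qb (p ^ i) := fun i => inferInstance
  apply Units.ext
  refine PadicInt.ext_of_toZModPow.mp fun n => ?_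
  rw [cyclotomicCharacter.toZModPow (L := Om)]
  symm
  apply modularCyclotomicCharacter.unique
  intro t ht
  have ht1 : (t : Om) ^ (p ^ n) = 1 := by
    have := (mem_rootsOfUnity _ _).1 ht
    have h2 := congrArg Units.val this
    simpa using h2
  have hmem : (t : Om) ∈ Qb := by
    rw [mem_algebraicClosure_iff]
    refine ⟨Polynomial.X ^ (p ^ n) - 1, ?_, ?_⟩
    · exact Polynomial.X_pow_sub_C_ne_zero (pow_pos (Fact.out : p.Prime).pos n) 1
    · rw [map_sub, map_pow, Polynomial.aeval_X, map_one, ht1, sub_self]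
  have h3 := cyclotomicCharacter.spec (L := Qb) p (n := n) σ ⟨(t : Om), hmem⟩ (Subtype.ext (by
    simpa using ht1))
  have h4 := hg ⟨(t : Om), hmem⟩
  rw [h3] at h4
  rw [h4]
  simp

open Classical in
theorem t_FROBG (h1 : S_FROB) (h2 : S_SURJ) (h3 : S_PLACE) : S_FROBG := by
  intro p l _ hl hlp A hA a ha w hw f hf
  have := isAlgClosed_Qb_h165
  have := isAlgebraic_Qb_h165
  obtain ⟨σ, hσ1, hσ2, hσ3⟩ := h1 Qb p l hl hlp A hA (f.aroots Qb).toFinset
  obtain ⟨g, hg⟩ := h2 σ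
  have hgw : IsPlace a (g • w) := by
    have := isPlace_smul g hw
    rwa [ha g] at this
  obtain ⟨δ, hδ1, _, hδ3⟩ := h3 a 1 (loc a) one_pos (pow_one _) (g • w) w hgw hw
  have hφ : ∀ z : Qb, (δ * g) (z : Om) = (σ z : Om) := by
    intro z
    rw [AlgEquiv.mul_apply, hg z]
    exact hδ1 _ (σ z).2
  refine ⟨δ * g, ?_, ?_, ?_, ?_⟩
  · intro z
    have h4 : (⟨(δ * g) (z : Om), map_Qb (δ * g) z.2⟩ : Qb) = σ z := Subtype.ext (hφ z)
    rw [h4]
    exact hσ1 z
  · rw [mul_smul, hδ3]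
  · intro x hx
    rw [hφ x, hσ2 x]
    rw [Multiset.mem_toFinset, Polynomial.mem_aroots]
    exact ⟨hf, hx⟩
  · intro i hi
    have h5 : chi p (δ * g) = cyclotomicCharacter Qb p (σ : Qb ≃+* Qb) :=
      cyc_eq_h165 p (σ : Qb ≃+* Qb) ((δ * g : GG) : Om ≃+* Om) hφ
    rw [h5]
    exact hσ3 i hi

end Y680.W
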