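import Pool.Agent.Y680.W.Stm

/-!
WG-H90: Kummer theory (Hilbert 90) for continuous characters of finite order (helper165).
-/

set_option autoImplicit false

open scoped Pointwise TensorProduct Topology

noncomputable section

namespace Y680.W

theorem t_H90 : S_H90 := by
  intro F K _ _ _ _ n ζ hn hζ h hadd hopen
  have hne : NeZero n := ⟨hn.ne'⟩
  have h1 : h 1 = 0 := by
    have := hadd 1 1
    rw [mul_one] at this
    exact left_eq_add.1 this
  have hnhds : {σ : K ≃ₐ[F] K | h σ = 0} ∈ 𝓝 (1 : K ≃ₐ[F] K) := hopen.mem_nhds h1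
  rw [krullTopology_mem_nhds_one_iff_of_normal] at hnhds
  obtain ⟨E, hE1, hE2, hE3⟩ := hnhds
  -- the character factors
  let r : (K ≃ₐ[F] K) → (E ≃ₐ[F] E) := fun σ => σ.restrictNormal E
  let l : (E ≃ₐ[F] E) → (K ≃ₐ[F] K) := fun τ => τ.liftNormal K
  have hr : ∀ (σ : K ≃ₐ[F] K) (x : E), ((r σ x : E) : K) = σ x := fun σ x =>
    AlgEquiv.restrictNormal_commutes σ E x
  have hl : ∀ (τ : E ≃ₐ[F] E) (x : E), l τ (x : K) = ((τ x : E) : K) := fun τ x =>
    AlgEquiv.liftNormal_commutes τ K x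
  have hker : ∀ σ σ' : K ≃ₐ[F] K, (∀ x : E, σ (x : K) = σ' (x : K)) → h σ = h σ' := by
    intro σ σ' hx
    have h2 : σ⁻¹ * σ' ∈ E.fixingSubgroup := by
      rw [IntermediateField.mem_fixingSubgroup_iff]
      intro x hxE
      rw [AlgEquiv.mul_apply, ← hx ⟨x, hxE⟩, ← AlgEquiv.mul_apply, inv_mul_cancel]
      rfl
    have h3 : h (σ⁻¹ * σ') = 0 := hE3 h2
    have h4 : h (σ * (σ⁻¹ * σ')) = h σ + h (σ⁻¹ * σ') := hadd _ _
    rw [← mul_assoc, mul_inv_cancel, one_mul, h3, add_zero] at h4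
    exact h4.symm
  have hlmul : ∀ τ τ' : E ≃ₐ[F] E, h (l (τ * τ')) = h (l τ) + h (l τ') := by
    intro τ τ'
    rw [← hadd]
    apply hker
    intro x
    rw [hl, AlgEquiv.mul_apply, AlgEquiv.mul_apply, hl, hl]
  have hζ0 : ζ ≠ 0 := hζ.ne_zero hn.ne'
  have hζn : ζ ^ n = 1 := hζ.pow_eq_one
  have hpow : ∀ a b : ZMod n, ζ ^ (a + b).val = ζ ^ a.val * ζ ^ b.val := by
    intro a b
    rw [ZMod.val_add, ← pow_add]
    exact (pow_eq_pow_mod _ hζn).symm
  have hζE : algebraMap F E ζ ≠ 0 := by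
    rw [Ne, map_eq_zero]
    exact hζ0
  let f : (E ≃ₐ[F] E) → Eˣ := fun τ =>
    Units.mk0 (algebraMap F E (ζ ^ (h (l τ)).val)) (by rw [map_pow]; exact pow_ne_zero _ hζE)
  have hf : groupCohomology.IsMulCocycle₁ f := by
    intro τ τ'
    apply Units.ext
    show algebraMap F E (ζ ^ (h (l (τ * τ'))).val) =
      τ (algebraMap F E (ζ ^ (h (l τ')).val)) * algebraMap F E (ζ ^ (h (l τ)).val)
    rw [τ.commutes, ← map_mul, hlmul, hpow, mul_comm]
  obtain ⟨x, hx⟩ := groupCohomology.isMulCoboundary₁_of_isMulCocycle₁_of_aut_to_units f hf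
  have hx2 : ∀ τ : E ≃ₐ[F] E, τ (x : E) = algebraMap F E (ζ ^ (h (l τ)).val) * (x : E) := by
    intro τ
    have h3 := hx τ
    rw [div_eq_iff_eq_mul] at h3
    exact congrArg Units.val h3
  refine ⟨((x : E) : K), ?_, ?_⟩
  · intro h0
    have : (x : E) = 0 := Subtype.ext h0
    exact x.ne_zero this
  · intro σ
    have h4 := hx2 (r σ)
    have h5 : h (l (r σ)) = h σ := by
      apply hker
      intro y
      rw [hl, hr]
    rw [h5] at h4
    have h6 := congrArg (fun y : E => (y : K)) h4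
    have h7 : ((r σ (x : E) : E) : K) = ((algebraMap F E (ζ ^ (h σ).val) * (x : E) : E) : K) := h6
    rw [hr] at h7
    rw [h7]
    show (algebraMap F E (ζ ^ (h σ).val) : K) * ((x : E) : K) = _
    rw [← map_pow]
    rfl

end Y680.W
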