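import Pool.Agent.Y680.W.T_PLACE

/-!
W-INER (helper379): inertia groups are large.
-/

open scoped Pointwise TensorProduct

noncomputable section

namespace Y680.W

open Polynomial

theorem ext_aux (K L M : Type) [Field K] [Field L] [Field M] [Algebra K L] [Algebra K M]
    [IsAlgClosed L] [IsAlgClosed M] [Algebra.IsAlgebraic K L] [Algebra.IsAlgebraic K M] :
    ∃ σ : L ≃+* M, ∀ k, σ (algebraMap K L k) = algebraMap K M k := by
  have : IsAlgClosure K L := ⟨inferInstance, inferInstance⟩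
  have : IsAlgClosure K M := ⟨inferInstance, inferInstance⟩
  exact ⟨(IsAlgClosure.equiv K L M).toRingEquiv, fun k => (IsAlgClosure.equiv K L M).commutes k⟩

theorem mem_Qb_of_alg {z : Om} (h : IsAlgebraic Qb z) : z ∈ Qb := by
  have : Algebra.IsAlgebraic ℚ Qb := ⟨fun x =>
    (isAlgebraic_algebraMap_iff (algebraMap Qb Om).injective).1 (mem_algebraicClosure_iff.1 x.2)⟩
  have h1 : IsAlgebraic ℚ z := h.restrictScalars ℚ
  exact mem_algebraicClosure_iff.2 h1

/-- the value map at a transcendental element, on rational functions -/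
theorem exists_hom (z : Om) (hz : z ∉ Qb) : ∃ f : RatFunc Qb →+* Om,
    f RatFunc.X = z ∧ ∀ c : Qb, f (RatFunc.C c) = c := by
  have h1 : Transcendental Qb z := fun h => hz (mem_Qb_of_alg h)
  have hinj : Function.Injective ((aeval z : Qb[X] →ₐ[Qb] Om) : Qb[X] →+* Om) :=
    transcendental_iff_injective.1 h1
  refine ⟨IsFractionRing.lift (A := Qb[X]) (K := RatFunc Qb) hinj, ?_, fun c => ?_⟩
  · rw [← RatFunc.algebraMap_X, IsFractionRing.lift_algebraMap]
    exact aeval_X z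
  · rw [← RatFunc.algebraMap_C, IsFractionRing.lift_algebraMap]
    exact aeval_C z c

/-- an automorphism which moves a root of the local coordinate -/
theorem exists_move (a : Option Qb) (N : ℕ) (z ζ : Om) (hz : z ^ N = loc a)
    (hζ : ζ ^ N = 1) (hN : 0 < N) (hζQ : ζ ∈ Qb) : ∃ g ∈ Gam, g z = ζ * z := by
  have hζ0 : ζ ≠ 0 := by
    rintro rfl
    rw [zero_pow hN.ne'] at hζ
    exact zero_ne_one hζ
  have hloc : loc a ∉ Qb := fun h =>
    tt_not_mem (tt_mem_of_loc Qb.toSubfield a (fun x hx => hx) h)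
  have hzQ : z ∉ Qb := fun h => hloc (by rw [← hz]; exact pow_mem h N)
  have hzQ2 : ζ * z ∉ Qb := fun h => hzQ (by
    have := mul_mem (inv_mem hζQ) h
    rwa [inv_mul_cancel_left₀ hζ0] at this)
  obtain ⟨f, hfX, hfC⟩ := exists_hom z hzQ
  obtain ⟨g, hgX, hgC⟩ := exists_hom (ζ * z) hzQ2
  have hft : tt ∈ f.fieldRange := by
    refine tt_mem_of_loc f.fieldRange a (fun x hx => ⟨RatFunc.C ⟨x, hx⟩, hfC _⟩) ?_
    rw [← hz]
    exact pow_mem (⟨RatFunc.X, hfX⟩ : z ∈ f.fieldRange) N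
  have hgt : tt ∈ g.fieldRange := by
    refine tt_mem_of_loc g.fieldRange a (fun x hx => ⟨RatFunc.C ⟨x, hx⟩, hgC _⟩) ?_
    have h1 : loc a = (ζ * z) ^ N := by rw [mul_pow, hζ, one_mul, hz]
    rw [h1]
    exact pow_mem (⟨RatFunc.X, hgX⟩ : ζ * z ∈ g.fieldRange) N
  obtain ⟨σ, hσ⟩ := @ext_aux (RatFunc Qb) Om Om _ _ _ f.toAlgebra g.toAlgebra
    inferInstance inferInstance (alg_of _ f hft) (alg_of _ g hgt)
  have hσ' : ∀ k, σ (f k) = g k := hσ
  have hσz : σ z = ζ * z := by rw [← hfX, hσ', hgX, hfX]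
  have hσC : ∀ x ∈ Qb, σ x = x := fun x hx => by
    have h1 := hσ' (RatFunc.C ⟨x, hx⟩)
    rwa [hfC, hgC] at h1
  have htt : σ tt = tt := by
    refine tt_mem_of_loc ((σ : Om →+* Om).eqLocusField (RingHom.id Om)) a hσC ?_
    change σ (loc a) = loc a
    rw [← hz, map_pow, hσz, mul_pow, hζ, one_mul]
  obtain ⟨γ, hγ⟩ := exists_GG σ htt
  exact ⟨γ, fun x hx => (hγ x).trans (hσC x hx), (hγ z).trans hσz⟩

theorem t_INER (h : S_PLACE) : S_INER := by
  intro a N z ζ hN hz hζ v hv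
  have hζQ : ζ ∈ Qb := by
    have h1 : IsIntegral ℚ ζ := by
      refine IsIntegral.of_pow hN ?_
      rw [hζ.pow_eq_one]
      exact isIntegral_one
    exact mem_algebraicClosure_iff.2 h1.isAlgebraic
  obtain ⟨g, hg, hgz⟩ := exists_move a N z ζ hz hζ.pow_eq_one hN hζQ
  have hpt : gpt g a = a := by
    cases a with
    | none => rfl
    | some b => exact congrArg some (Subtype.ext (hg b b.2))
  have hv2 : IsPlace a (g • v) := by
    have := isPlace_smul g hv
    rwa [hpt] at this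
  obtain ⟨δ, hδ, hδz, hδv⟩ := h a N z hN hz (g • v) v hv2 hv
  refine ⟨δ * g, mul_mem hδ hg, ?_, ?_⟩
  · rw [← smul_smul, hδv]
  · rw [AlgEquiv.mul_apply, hgz, map_mul, hδ ζ hζQ, hδz]

end Y680.W
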