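import Pool.Agent.Y680.W.Stm

/-!
W-K3: the class of the path from infinity to zero on the line minus the roots of X^d = c.
-/

open scoped Pointwise TensorProduct
open Polynomial

noncomputable section

namespace Y680.W.K3

theorem Qb_le {v : ValuationSubring Om} (hq : ∀ q : ℚ, algebraMap ℚ Om q ∈ v) {x : Om}
    (hx : x ∈ Qb) : x ∈ v := by
  have h1 : IsIntegral ℚ x := (mem_algebraicClosure_iff.1 hx).isIntegral
  let φ : ℚ →+* v :=
    { toFun := fun q => ⟨algebraMap ℚ Om q, hq q⟩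
      map_one' := Subtype.ext (map_one _)
      map_mul' := fun a b => Subtype.ext (map_mul _ _ _)
      map_zero' := Subtype.ext (map_zero _)
      map_add' := fun a b => Subtype.ext (map_add _ _ _) }
  have h2 : IsIntegral v x := by
    obtain ⟨P, hP, hP2⟩ := h1
    refine ⟨P.map φ, hP.map φ, ?_⟩
    rw [eval₂_map]
    exact hP2
  obtain ⟨y, hy⟩ := (IsIntegrallyClosed.isIntegral_iff (R := v) (K := Om)).1 h2
  rw [← hy]
  exact y.2

theorem Qb_zero {v : ValuationSubring Om} (hq : ∀ q : ℚ, algebraMap ℚ Om q ∈ v) {x : Om}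
    (hx : x ∈ Qb) (hn : x ∈ v.nonunits) : x = 0 := by
  rw [ValuationSubring.mem_nonunits_iff_or] at hn
  rcases hn with h | h
  · exact h
  · exact absurd (Qb_le hq (inv_mem hx)) h

theorem nu_iff {v : ValuationSubring Om} {x : Om} : x ∈ v.nonunits ↔ v.valuation x < 1 :=
  ValuationSubring.mem_nonunits_iff v

theorem v_iff {v : ValuationSubring Om} {x : Om} : x ∈ v ↔ v.valuation x ≤ 1 :=
  (ValuationSubring.valuation_le_one_iff _ _).symm

theorem nu_add {v : ValuationSubring Om} {x y : Om} (hx : x ∈ v.nonunits) (hy : y ∈ v.nonunits) :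
    x + y ∈ v.nonunits := by
  rw [nu_iff] at *
  exact Valuation.map_add_lt _ hx hy

theorem nu_mul {v : ValuationSubring Om} {x y : Om} (hx : x ∈ v) (hy : y ∈ v.nonunits) :
    x * y ∈ v.nonunits := by
  rw [nu_iff] at *
  rw [v_iff] at hx
  rw [map_mul]
  calc v.valuation x * v.valuation y ≤ 1 * v.valuation y := mul_le_mul_left hx _
    _ < 1 := by rw [one_mul]; exact hy

theorem nu_neg {v : ValuationSubring Om} {x : Om} (hx : x ∈ v.nonunits) :
    -x ∈ v.nonunits := by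
  rw [nu_iff] at *
  rwa [Valuation.map_neg]

theorem nu_sub {v : ValuationSubring Om} {x y : Om} (hx : x ∈ v.nonunits) (hy : y ∈ v.nonunits) :
    x - y ∈ v.nonunits := by
  rw [sub_eq_add_neg]
  exact nu_add hx (nu_neg hy)

/-- congruent units -/
structure Cg (v : ValuationSubring Om) (a b : Om) : Prop where
  a0 : a ≠ 0
  b0 : b ≠ 0
  ha : a ∈ v
  ha' : a⁻¹ ∈ v
  hb : b ∈ v
  hb' : b⁻¹ ∈ v
  hab : a - b ∈ v.nonunits

theorem Cg.one {v : ValuationSubring Om} : Cg v 1 1 := by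
  refine ⟨one_ne_zero, one_ne_zero, one_mem _, by rw [inv_one]; exact one_mem _, one_mem _,
    by rw [inv_one]; exact one_mem _, ?_⟩
  rw [sub_self, nu_iff, map_zero]
  exact zero_lt_one

theorem Cg.mul {v : ValuationSubring Om} {a b c d : Om} (h : Cg v a b) (h' : Cg v c d) :
    Cg v (a * c) (b * d) := by
  refine ⟨mul_ne_zero h.a0 h'.a0, mul_ne_zero h.b0 h'.b0, mul_mem h.ha h'.ha, ?_,
    mul_mem h.hb h'.hb, ?_, ?_⟩
  · rw [mul_inv]; exact mul_mem h.ha' h'.ha'
  · rw [mul_inv]; exact mul_mem h.hb' h'.hb'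
  · have : a * c - b * d = a * (c - d) + d * (a - b) := by ring
    rw [this]
    exact nu_add (nu_mul h.ha h'.hab) (nu_mul h'.hb h.hab)

theorem Cg.inv {v : ValuationSubring Om} {a b : Om} (h : Cg v a b) : Cg v a⁻¹ b⁻¹ := by
  refine ⟨inv_ne_zero h.a0, inv_ne_zero h.b0, h.ha', by rw [inv_inv]; exact h.ha, h.hb',
    by rw [inv_inv]; exact h.hb, ?_⟩
  have : a⁻¹ - b⁻¹ = -((a⁻¹ * b⁻¹) * (a - b)) := by
    have h1 := h.a0
    have h2 := h.b0
    field_simp
    ring
  rw [this]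
  exact nu_neg (nu_mul (mul_mem h.ha' h.hb') h.hab)

theorem Cg.pow {v : ValuationSubring Om} {a b : Om} (h : Cg v a b) (n : ℕ) :
    Cg v (a ^ n) (b ^ n) := by
  induction n with
  | zero => rw [pow_zero, pow_zero]; exact Cg.one
  | succ n ih => rw [pow_succ, pow_succ]; exact ih.mul h

theorem Cg.zpow {v : ValuationSubring Om} {a b : Om} (h : Cg v a b) (n : ℤ) :
    Cg v (a ^ n) (b ^ n) := by
  cases n with
  | ofNat n =>
    rw [Int.ofNat_eq_natCast, zpow_natCast, zpow_natCast]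
    exact h.pow n
  | negSucc n =>
    rw [zpow_negSucc, zpow_negSucc]
    exact (h.pow _).inv

theorem Cg.prod {v : ValuationSubring Om} {ι : Type*} (s : Finset ι) (a b : ι → Om)
    (h : ∀ i ∈ s, Cg v (a i) (b i)) : Cg v (∏ i ∈ s, a i) (∏ i ∈ s, b i) := by
  classical
  induction s using Finset.induction_on with
  | empty => rw [Finset.prod_empty, Finset.prod_empty]; exact Cg.one
  | insert i s hi ih =>
    rw [Finset.prod_insert hi, Finset.prod_insert hi]
    exact (h i (Finset.mem_insert_self _ _)).mul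
      (ih fun j hj => h j (Finset.mem_insert_of_mem hj))

theorem Cg.mk' {v : ValuationSubring Om} (hq : ∀ q : ℚ, algebraMap ℚ Om q ∈ v) {a b : Om}
    (hb : b ∈ Qb) (hb0 : b ≠ 0) (hab : a - b ∈ v.nonunits) : Cg v a b := by
  have h1 : b ∈ v := Qb_le hq hb
  have h2 : a ∈ v := by
    have : a = (a - b) + b := by ring
    rw [this]
    exact add_mem (ValuationSubring.nonunits_subset hab) h1
  have h3 : a ∉ v.nonunits := by
    intro h
    apply hb0
    apply Qb_zero hq hb
    have : b = a - (a - b) := by ring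
    rw [this]
    exact nu_sub h hab
  have h4 : a ≠ 0 := by
    rintro rfl
    apply h3
    rw [nu_iff, map_zero]
    exact zero_lt_one
  refine ⟨h4, hb0, h2, ?_, h1, Qb_le hq (inv_mem hb), hab⟩
  rw [ValuationSubring.mem_nonunits_iff_or] at h3
  push Not at h3
  exact h3.2

theorem fix_root (h5 : S_VAL) {a : Option Qb} {v : ValuationSubring Om} (hv : IsPlace a v)
    {q : ℕ} (hq0 : 0 < q) {y F E : Om} (hy : y ≠ 0) (hyF : y ^ q = F) (hE : E ∈ Qb)
    (hFE : Cg v F E) {σ : GG} (hσ : σ • v = v) (hσF : σ F = F)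
    (hσe : ∀ e : Om, e ^ q = E → σ e = e) : σ y = y := by
  have hy1 : y ∈ v := by
    rcases v.mem_or_inv_mem y with h | h
    · exact h
    · have h1 : y = y ^ q * (y⁻¹) ^ (q - 1) := by
        obtain ⟨m, rfl⟩ : ∃ m, q = m + 1 := ⟨q - 1, by omega⟩
        rw [Nat.add_sub_cancel, pow_succ, mul_right_comm, ← mul_pow, mul_inv_cancel₀ hy, one_pow,
          one_mul]
      rw [h1, hyF]
      exact mul_mem hFE.ha (pow_mem h _)
  obtain ⟨e, he⟩ := h5 a v hv y hy1
  have hev : (e : Om) ∈ v := Qb_le hv.1 e.2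
  have h2 : y ^ q - (e : Om) ^ q ∈ v.nonunits := by
    obtain ⟨m, hm⟩ : ∃ m ∈ v, y ^ q - (e : Om) ^ q = m * (y - e) := by
      refine ⟨∑ i ∈ Finset.range q, y ^ i * (e : Om) ^ (q - 1 - i), ?_, ?_⟩
      · exact sum_mem fun i _ => mul_mem (pow_mem hy1 _) (pow_mem hev _)
      · exact (Commute.all y (e : Om)).geom_sum₂_mul q |>.symm
    rw [hm.2]
    exact nu_mul hm.1 he
  have h3 : (e : Om) ^ q = E := by
    have h4 : (e : Om) ^ q - E ∈ v.nonunits := by
      have : (e : Om) ^ q - E = (F - E) - (y ^ q - (e : Om) ^ q) := by rw [hyF]; ring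
      rw [this]
      exact nu_sub hFE.hab h2
    exact sub_eq_zero.1 (Qb_zero hv.1 (sub_mem (pow_mem e.2 q) hE) h4)
  have he0 : (e : Om) ≠ 0 := by
    intro h
    rw [h, zero_pow hq0.ne'] at h3
    exact hFE.b0 h3.symm
  set η : Om := σ y / y with hη
  have h6 : σ y = η * y := by rw [hη, div_mul_cancel₀ _ hy]
  have h7 : η ^ q = 1 := by
    rw [hη, div_pow, ← map_pow, hyF, hσF, ← hyF, div_self (pow_ne_zero _ hy)]
  have h8 : η ∈ Qb := by
    rw [mem_algebraicClosure_iff]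
    refine IsAlgebraic.of_pow hq0 ?_
    rw [h7]
    exact isAlgebraic_one
  have h9 : σ (y - e) ∈ v.nonunits := by
    have := (smul_mem_nonunits σ (x := y - e) (v := v)).2 he
    rwa [hσ] at this
  rw [map_sub, hσe _ h3, h6] at h9
  have h10 : η * e - e ∈ v.nonunits := by
    have : η * e - e = (η * y - e) - η * (y - e) := by ring
    rw [this]
    exact nu_sub h9 (nu_mul (Qb_le hv.1 h8) he)
  have h11 := Qb_zero hv.1 (sub_mem (mul_mem h8 e.2) e.2) h10
  have h12 : η = 1 := by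
    have h13 : (η - 1) * e = 0 := by linear_combination h11
    rcases mul_eq_zero.1 h13 with h | h
    · exact sub_eq_zero.1 h
    · exact absurd h he0
  rw [h6, h12, one_mul]

theorem isClosed_Gam : IsClosed (Gam : Set GG) := by
  have h : (Gam : Set GG) = ⋂ z ∈ Qb,
      ((IntermediateField.adjoin (RatFunc ℚ) {z}).fixingSubgroup : Set GG) := by
    ext g
    simp only [Set.mem_iInter, SetLike.mem_coe]
    constructor
    · intro hg z hz
      rw [IntermediateField.mem_fixingSubgroup_iff]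
      intro x hx
      have h1 : IntermediateField.adjoin (RatFunc ℚ) {z} ≤
          IntermediateField.fixedField (Subgroup.zpowers g) := by
        rw [IntermediateField.adjoin_simple_le_iff]
        rw [IntermediateField.mem_fixedField_iff]
        intro f hf
        obtain ⟨k, rfl⟩ := Subgroup.mem_zpowers_iff.1 hf
        exact (zpow_mem hg k : g ^ k ∈ Gam) z hz
      have h2 := h1 hx
      rw [IntermediateField.mem_fixedField_iff] at h2
      exact h2 g (Subgroup.mem_zpowers g)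
    · intro hg z hz
      have h1 := hg z hz
      rw [IntermediateField.mem_fixingSubgroup_iff] at h1
      exact h1 z (IntermediateField.mem_adjoin_simple_self _ z)
  rw [h]
  refine isClosed_biInter fun z hz => ?_
  have : FiniteDimensional (RatFunc ℚ) (IntermediateField.adjoin (RatFunc ℚ) {z}) :=
    IntermediateField.adjoin.finiteDimensional (Algebra.IsIntegral.isIntegral z)
  exact IntermediateField.fixingSubgroup_isClosed _

instance : CompactSpace Gam := isCompact_iff_compactSpace.1 isClosed_Gam.isCompact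

theorem exists_scale {p : ℕ} [Fact p.Prime] {lam : Gam → ℚ_[p]} (h : Continuous lam) :
    ∃ N : ℕ, ∀ γ, ‖(p : ℚ_[p]) ^ N * lam γ‖ ≤ 1 := by
  obtain ⟨C, hC⟩ := (isCompact_univ.image h).isBounded.exists_norm_le
  obtain ⟨N, hN⟩ := pow_unbounded_of_one_lt C (by exact_mod_cast (Fact.out : p.Prime).one_lt :
    (1 : ℝ) < p)
  refine ⟨N, fun γ => ?_⟩
  have h1 : ‖lam γ‖ ≤ C := hC _ ⟨γ, Set.mem_univ _, rfl⟩
  have hp : (0 : ℝ) < p := by exact_mod_cast (Fact.out : p.Prime).pos
  rw [norm_mul, norm_pow, Padic.norm_p, inv_pow]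
  rw [inv_mul_le_iff₀ (by positivity), mul_one]
  exact h1.trans hN.le

theorem fix_dth {d : ℕ} (hd : 0 < d) {c : ℚ} (hc : c ≠ 0) {τ : GG}
    (h : ∀ x : Qb, IsRoot (X ^ d - C c) (some x) → τ (x : Om) = x) {ω : Om} (hω : ω ^ d = 1) :
    τ ω = ω := by
  have hroot : ∀ x : Om, x ^ d = algebraMap ℚ Om c → τ x = x := by
    intro x hx
    have hx' : x ∈ Qb := by
      rw [mem_algebraicClosure_iff]
      refine IsAlgebraic.of_pow hd ?_
      rw [hx]
      exact isAlgebraic_algebraMap c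
    refine h ⟨x, hx'⟩ ?_
    change aeval (⟨x, hx'⟩ : Qb) (X ^ d - C c) = 0
    rw [map_sub, map_pow, aeval_X, aeval_C, sub_eq_zero]
    exact Subtype.ext hx
  obtain ⟨x0, hx0⟩ := IsAlgClosed.exists_pow_nat_eq (algebraMap ℚ Om c) hd
  have hx00 : x0 ≠ 0 := by
    rintro rfl
    rw [zero_pow hd.ne'] at hx0
    exact hc ((map_eq_zero (algebraMap ℚ Om)).1 hx0.symm)
  have h1 := hroot x0 hx0
  have h2 := hroot (ω * x0) (by rw [mul_pow, hω, one_mul, hx0])
  rw [map_mul, h1] at h2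
  exact mul_right_cancel₀ hx00 h2

theorem fix_unity {p : ℕ} (hp : p.Prime) {d : ℕ} (hd : 0 < d) {τ : GG}
    (h1 : ∀ ω : Om, ω ^ d = 1 → τ ω = ω) (h2 : ∀ (ζ : Om) (k : ℕ), ζ ^ (p ^ k) = 1 → τ ζ = ζ)
    {k : ℕ} {e : Om} (he : e ^ (p ^ k * d) = 1) : τ e = e := by
  have he0 : e ≠ 0 := by
    rintro rfl
    rw [zero_pow (by have := hp.pos; positivity)] at he
    exact zero_ne_one he
  obtain ⟨a, d', hd', rfl⟩ := Nat.exists_eq_pow_mul_and_not_dvd hd.ne' p hp.one_lt.ne'
  have hco : Nat.Coprime (p ^ (k + a)) d' :=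
    Nat.Coprime.pow_left _ ((Nat.Prime.coprime_iff_not_dvd hp).2 hd')
  have e1 : τ (e ^ (p ^ (k + a))) = e ^ (p ^ (k + a)) := by
    apply h1
    rw [← pow_mul]
    have : p ^ (k + a) * (p ^ a * d') = (p ^ k * (p ^ a * d')) * p ^ a := by ring
    rw [this, pow_mul, he, one_pow]
  have e2 : τ (e ^ d') = e ^ d' := by
    apply h2 _ (k + a)
    rw [← pow_mul]
    have : d' * p ^ (k + a) = p ^ k * (p ^ a * d') := by ring
    rw [this, he]
  have hb : (1 : ℤ) = (p ^ (k + a) : ℕ) * (Nat.gcdA (p ^ (k + a)) d') +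
      d' * (Nat.gcdB (p ^ (k + a)) d') := by
    have := Nat.gcd_eq_gcd_ab (p ^ (k + a)) d'
    rw [hco.gcd_eq_one] at this
    exact_mod_cast this
  have e3 : e = (e ^ (p ^ (k + a))) ^ (Nat.gcdA (p ^ (k + a)) d') *
      (e ^ d') ^ (Nat.gcdB (p ^ (k + a)) d') := by
    rw [← zpow_natCast, ← zpow_natCast, ← zpow_mul, ← zpow_mul, ← zpow_add₀ he0, ← hb, zpow_one]
  calc τ e = τ ((e ^ (p ^ (k + a))) ^ (Nat.gcdA (p ^ (k + a)) d') *
      (e ^ d') ^ (Nat.gcdB (p ^ (k + a)) d')) := by rw [← e3]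
    _ = (e ^ (p ^ (k + a))) ^ (Nat.gcdA (p ^ (k + a)) d') *
      (e ^ d') ^ (Nat.gcdB (p ^ (k + a)) d') := by
        rw [map_mul, map_zpow₀, map_zpow₀, e1, e2]
    _ = e := e3.symm

theorem zpow_finsum {ι : Type*} (s : Finset ι) (K : Om) (hK : K ≠ 0) (n : ι → ℤ) :
    ∏ x ∈ s, K ^ (n x) = K ^ (∑ x ∈ s, n x) := by
  classical
  induction s using Finset.induction_on with
  | empty => simp
  | insert i s hi ih => rw [Finset.prod_insert hi, Finset.sum_insert hi, ih, zpow_add₀ hK]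

end Y680.W.K3

namespace Y680.W

open K3

theorem t_K3 (h : S_KUM) (h5 : S_VAL) : S_K3 := by
  intro p hp d c hd hc lam hlam v w hv hw τ γ hτw hτv hτr hτp
  obtain ⟨N, hN⟩ := exists_scale hlam.cont
  set f : ℚ[X] := X ^ d - C c with hf
  let lam' : Gam → ℤ_[p] := fun γ => ⟨(p : ℚ_[p]) ^ N * lam γ, hN γ⟩
  have hp0 : (p : ℚ_[p]) ^ N ≠ 0 := pow_ne_zero _ (by exact_mod_cast hp.out.ne_zero)
  have hadd : ∀ γ δ, lam' (γ * δ) = lam' γ + lam' δ := by
    intro γ δ
    apply Subtype.ext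
    change (p : ℚ_[p]) ^ N * lam (γ * δ) = (p : ℚ_[p]) ^ N * lam γ + (p : ℚ_[p]) ^ N * lam δ
    rw [hlam.add, mul_add]
  have hcont : Continuous lam' :=
    Continuous.subtype_mk (continuous_const.mul hlam.cont) _
  have hunr : ∀ a, ¬ IsRoot f a → ∀ v : ValuationSubring Om, IsPlace a v →
      ∀ γ : Gam, γ • v = v → lam' γ = 0 := by
    intro a ha v hv γ hγ
    apply Subtype.ext
    change (p : ℚ_[p]) ^ N * lam γ = 0
    rw [hlam.unr a ha v hv γ hγ, mul_zero]
  suffices hs : lam' γ = 0 by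
    have h1 : (p : ℚ_[p]) ^ N * lam γ = 0 := congrArg Subtype.val hs
    exact (mul_eq_zero.1 h1).resolve_left hp0
  rw [← PadicInt.ext_of_toZModPow]
  intro k
  rw [map_zero]
  obtain ⟨y, ζ, s, n, hy, hζ, hsr, hsum, hyq, hact⟩ := h p f lam' hadd hcont hunr k
  have hq0 : 0 < p ^ k := pow_pos hp.out.pos k
  suffices hγy : (γ : GG) y = y by
    have h1 := hact γ
    rw [hγy] at h1
    have h2 : ζ ^ (PadicInt.toZModPow k (lam' γ)).val = 1 := by
      have : (1 : Om) * y = ζ ^ (PadicInt.toZModPow k (lam' γ)).val * y := by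
        rw [one_mul]; exact h1
      exact (mul_right_cancel₀ hy this).symm
    have h3 := (hζ.pow_eq_one_iff_dvd _).1 h2
    have : NeZero (p ^ k) := ⟨hq0.ne'⟩
    have h4 := Nat.eq_zero_of_dvd_of_lt h3 (ZMod.val_lt _)
    exact (ZMod.val_eq_zero _).1 h4
  -- the second automorphism
  set τ' : GG := (γ : GG)⁻¹ * τ with hτ'
  have hγ' : ∀ z ∈ Qb, (γ : GG)⁻¹ z = z := fun z hz => (inv_mem γ.2 : (γ : GG)⁻¹ ∈ Gam) z hz
  have hQ : ∀ z ∈ Qb, τ' z = τ z := by
    intro z hz
    rw [hτ', AlgEquiv.mul_apply]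
    exact hγ' _ (map_Qb τ hz)
  have htt : ∀ g : GG, g tt = tt := fun g => g.commutes _
  set F : Om := ∏ x ∈ s, (tt - (x : Om)) ^ (n x) with hF
  have hτF : τ F = F := by
    rw [hF, map_prod]
    refine Finset.prod_congr rfl fun x hx => ?_
    rw [map_zpow₀, map_sub, htt, hτr x (hsr x hx)]
  have hτ'F : τ' F = F := by
    rw [hF, map_prod]
    refine Finset.prod_congr rfl fun x hx => ?_
    rw [map_zpow₀, map_sub, htt, hQ _ x.2, hτr x (hsr x hx)]
  have hxd : ∀ x ∈ s, (x : Om) ^ d = algebraMap ℚ Om c := by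
    intro x hx
    have h1 : aeval x (X ^ d - C c) = 0 := hsr x hx
    rw [map_sub, map_pow, aeval_X, aeval_C, sub_eq_zero] at h1
    exact congrArg Subtype.val h1
  have hc' : algebraMap ℚ Om c ≠ 0 := (_root_.map_ne_zero _).2 hc
  have hx0 : ∀ x ∈ s, (x : Om) ≠ 0 := by
    intro x hx h0
    have h1 := hxd x hx
    rw [h0, zero_pow hd.ne'] at h1
    exact hc' h1.symm
  -- at infinity
  have htt0 : tt ≠ 0 := by
    intro h0
    have h1 := (map_eq_zero (algebraMap (RatFunc ℚ) Om)).1 h0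
    exact RatFunc.X_ne_zero h1
  have hA : Cg v F 1 := by
    have h1 : F = ∏ x ∈ s, (1 - (x : Om) * tt⁻¹) ^ (n x) := by
      have h2 : F = (∏ x ∈ s, tt ^ (n x)) * ∏ x ∈ s, (1 - (x : Om) * tt⁻¹) ^ (n x) := by
        rw [← Finset.prod_mul_distrib]
        refine Finset.prod_congr rfl fun x hx => ?_
        rw [← mul_zpow]
        congr 1
        field_simp
      rw [h2, zpow_finsum s tt htt0, hsum, zpow_zero, one_mul]
    have h3 : Cg v F (∏ x ∈ s, (1 : Om) ^ (n x)) := by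
      rw [h1]
      refine Cg.prod s _ _ fun x hx => Cg.zpow ?_ _
      refine Cg.mk' hv.1 (one_mem _) one_ne_zero ?_
      have : 1 - (x : Om) * tt⁻¹ - 1 = -((x : Om) * tt⁻¹) := by ring
      rw [this]
      exact nu_neg (nu_mul (Qb_le hv.1 x.2) hv.2)
    simpa using h3
  have h1 : τ' y = y := by
    refine fix_root h5 hv hq0 hy hyq (one_mem _) hA hτv hτ'F ?_
    intro e he
    have he' : e ∈ Qb := by
      rw [mem_algebraicClosure_iff]
      refine IsAlgebraic.of_pow hq0 ?_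
      rw [he]
      exact isAlgebraic_one
    rw [hQ e he']
    exact hτp e k he
  -- at zero
  set E : Om := ∏ x ∈ s, (-(x : Om)) ^ (n x) with hE
  have hEQ : E ∈ Qb := by
    rw [hE]
    exact prod_mem fun x _ => zpow_mem (neg_mem x.2) _
  have hB : Cg w F E := by
    refine Cg.prod s _ _ fun x hx => Cg.zpow ?_ _
    refine Cg.mk' hw.1 (neg_mem x.2) (neg_ne_zero.2 (hx0 x hx)) ?_
    have h2 : tt - (x : Om) - -(x : Om) = loc (some 0) := by
      change tt - (x : Om) - -(x : Om) = tt - ((0 : Qb) : Om)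
      rw [ZeroMemClass.coe_zero]
      ring
    rw [h2]
    exact hw.2
  have hEd : E ^ d = 1 := by
    rw [hE, ← Finset.prod_pow]
    have h2 : ∀ x ∈ s, ((-(x : Om)) ^ (n x)) ^ d = ((-1) ^ d * algebraMap ℚ Om c) ^ (n x) := by
      intro x hx
      rw [← zpow_natCast, ← zpow_mul, mul_comm, zpow_mul, zpow_natCast, neg_pow, hxd x hx]
    rw [Finset.prod_congr rfl h2, zpow_finsum s _ (mul_ne_zero (by simp) hc'), hsum, zpow_zero]
  have h2 : τ y = y := by
    refine fix_root h5 hw hq0 hy hyq hEQ hB hτw hτF ?_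
    intro e he
    refine fix_unity hp.out hd (fun ω hω => fix_dth hd hc hτr hω) hτp (k := k) ?_
    rw [pow_mul, he, hEd]
  calc (γ : GG) y = (γ : GG) (τ' y) := by rw [h1]
    _ = ((γ : GG) * τ') y := rfl
    _ = τ y := by rw [hτ', mul_inv_cancel_left]
    _ = y := h2

end Y680.W
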