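import Pool.Agent.Y680.W.Stm

/-!
W-KUM (project WG): Kummer description of the unramified characters of the geometric group.
-/

open scoped Pointwise
open IntermediateField

noncomputable section

namespace Y680.W

namespace KUM

/-- restriction of scalars is continuous for the Krull topologies -/
theorem continuous_res (F : IntermediateField (RatFunc ℚ) Om) :
    Continuous (fun σ : Om ≃ₐ[F] Om => (σ.restrictScalars (RatFunc ℚ) : GG)) := by
  let e : (Om ≃ₐ[F] Om) →* GG :=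
    { toFun := fun σ => σ.restrictScalars (RatFunc ℚ)
      map_one' := by ext; rfl
      map_mul' := fun a b => by ext; rfl }
  change Continuous e
  apply continuous_of_continuousAt_one
  rw [ContinuousAt, map_one, Filter.tendsto_def]
  intro U hU
  rw [krullTopology_mem_nhds_one_iff] at hU
  obtain ⟨E, hE, hEU⟩ := hU
  obtain ⟨α, hα⟩ := Field.exists_primitive_element (RatFunc ℚ) E
  have hop := stabilizer_isOpen_of_isIntegral (K := F) (L := Om) (α : Om)
  have hmem : (MulAction.stabilizer (Om ≃ₐ[F] Om) (α : Om) : Set (Om ≃ₐ[F] Om)) ∈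
      nhds (1 : Om ≃ₐ[F] Om) := hop.mem_nhds (one_mem _)
  refine Filter.mem_of_superset hmem ?_
  intro σ hσ
  apply hEU
  have hσ' : σ (α : Om) = α := hσ
  change σ.restrictScalars (RatFunc ℚ) ∈ E.fixingSubgroup
  rw [IntermediateField.mem_fixingSubgroup_iff]
  intro x hx
  have h1 : (⟨x, hx⟩ : E) ∈ (RatFunc ℚ)⟮α⟯ := by rw [hα]; trivial
  have key : ∀ z : E, z ∈ (RatFunc ℚ)⟮α⟯ → (σ.restrictScalars (RatFunc ℚ)) (z : Om) = z := by
    intro z hz
    induction hz using IntermediateField.adjoin_induction with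
    | mem z hz =>
      rw [Set.mem_singleton_iff] at hz
      rw [hz]; exact hσ'
    | algebraMap z =>
      exact (σ.restrictScalars (RatFunc ℚ)).commutes z
    | add a b _ _ ha hb => push_cast; rw [map_add, ha, hb]
    | inv a _ ha => push_cast; rw [map_inv₀, ha]
    | mul a b _ _ ha hb => push_cast; rw [map_mul, ha, hb]
  exact key _ h1

theorem isAlgClosed_Qb : IsAlgClosed Qb :=
  (algebraicClosure.isAlgClosure ℚ Om).isAlgClosed

/-- algebraic numbers lie in every place -/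
theorem mem_place {a : Option Qb} {v : ValuationSubring Om} (h : IsPlace a v) (c : Qb) :
    (c : Om) ∈ v := by
  let g : ℚ →+* v := (algebraMap ℚ Om).codRestrict v.toSubring (fun q => h.1 q)
  have hg : (algebraMap v Om).comp g = algebraMap ℚ Om := RingHom.ext fun x => rfl
  have hc : IsIntegral ℚ (c : Om) := by
    have := c.2
    rw [mem_algebraicClosure_iff] at this
    exact this.isIntegral
  have hi : IsIntegral v (c : Om) := by
    obtain ⟨P, hP, hP2⟩ := hc
    refine ⟨P.map g, hP.map g, ?_⟩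
    rw [Polynomial.eval₂_map, hg]
    exact hP2
  obtain ⟨y, hy⟩ := (IsIntegrallyClosed.isIntegral_iff (R := v) (K := Om)).1 hi
  rw [← hy]
  exact y.2

theorem val_Qb {a : Option Qb} {v : ValuationSubring Om} (h : IsPlace a v) (c : Om)
    (hc : c ∈ Qb) (hc0 : c ≠ 0) : v.valuation c = 1 := by
  have h1 : v.valuation c ≤ 1 := (v.valuation_le_one_iff _).2 (mem_place h ⟨c, hc⟩)
  have h2 : v.valuation c⁻¹ ≤ 1 :=
    (v.valuation_le_one_iff _).2 (mem_place h ⟨c⁻¹, inv_mem hc⟩)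
  rw [map_inv₀] at h2
  have h0 : v.valuation c ≠ 0 := (Valuation.ne_zero_iff _).2 hc0
  apply le_antisymm h1
  have := mul_le_mul_left h2 (v.valuation c)
  rw [inv_mul_cancel₀ h0, one_mul] at this
  exact this

/-- inertia acts trivially on units which are eigenvectors -/
theorem fix_unit (h5 : S_VAL) {a : Option Qb} {v : ValuationSubring Om} (h : IsPlace a v)
    {γ : GG} (hγ : γ ∈ Gam) (hγv : γ • v = v) {w η : Om} (hw : v.valuation w = 1)
    (hη : η ∈ Qb) (hwη : γ w = η * w) : η = 1 := by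
  by_contra hne
  have hwv : w ∈ v := (v.valuation_le_one_iff _).1 hw.le
  obtain ⟨c, hc⟩ := h5 a v h w hwv
  have h1 : γ (w - c) ∈ (γ • v).nonunits := (smul_mem_nonunits γ).2 hc
  rw [hγv, map_sub, hγ (c : Om) c.2] at h1
  have h2 : v.valuation ((γ w - c) - (w - c)) < 1 :=
    lt_of_le_of_lt (Valuation.map_sub _ _ _)
      (max_lt ((v.mem_nonunits_iff).1 h1) ((v.mem_nonunits_iff).1 hc))
  have h3 : (γ w - c) - (w - c) = (η - 1) * w := by rw [hwη]; ring
  rw [h3, map_mul, hw, mul_one,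
    val_Qb h (η - 1) (sub_mem hη (one_mem _)) (sub_ne_zero.2 hne)] at h2
  exact lt_irrefl _ h2

theorem mem_Qb_of_pow {z : Om} {n : ℕ} (hn : 0 < n) (h : z ^ n ∈ Qb) : z ∈ Qb := by
  rw [mem_algebraicClosure_iff] at h ⊢
  exact IsAlgebraic.of_pow hn h

/-- the coordinate minus a constant is a unit at every other finite place -/
theorem val_sub {x0 : Qb} {v : ValuationSubring Om} (h : IsPlace (some x0) v) {x : Qb}
    (hx : x ≠ x0) : v.valuation (tt - (x : Om)) = 1 := by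
  have h1 : tt - (x : Om) = (tt - (x0 : Om)) + ((x0 : Om) - x) := by ring
  have h2 : v.valuation (tt - (x0 : Om)) < 1 := (v.mem_nonunits_iff).1 h.2
  have h3 : v.valuation ((x0 : Om) - x) = 1 := by
    apply val_Qb h _ (sub_mem x0.2 x.2)
    intro h0
    exact hx (Subtype.ext (sub_eq_zero.1 h0).symm)
  rw [h1, Valuation.map_add_eq_of_lt_right _ (by rw [h3]; exact h2), h3]

theorem tt_ne_zero : tt ≠ 0 := by
  intro h
  have : (RatFunc.X : RatFunc ℚ) = 0 := by
    apply (algebraMap (RatFunc ℚ) Om).injective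
    rw [map_zero]; exact h
  exact RatFunc.X_ne_zero this

/-- the coordinate is transcendental -/
theorem tt_sub_ne_zero (x : Qb) : tt - (x : Om) ≠ 0 := by
  intro h
  have h1 : tt = (x : Om) := sub_eq_zero.1 h
  have h2 : IsAlgebraic ℚ tt := by
    rw [h1]; exact mem_algebraicClosure_iff.1 x.2
  have h3 : IsAlgebraic ℚ (RatFunc.X : RatFunc ℚ) :=
    (isAlgebraic_algebraMap_iff (algebraMap (RatFunc ℚ) Om).injective).1 h2
  refine RatFunc.transcendental_X (K := ℚ) ?_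
  convert h3
  exact Subsingleton.elim _ _

theorem val_inf {v : ValuationSubring Om} (h : IsPlace none v) (x : Qb) :
    v.valuation ((tt - (x : Om)) * tt⁻¹) = 1 := by
  have h1 : (tt - (x : Om)) * tt⁻¹ = 1 + -((x : Om) * tt⁻¹) := by
    rw [sub_mul, mul_inv_cancel₀ tt_ne_zero]; ring
  have h2 : v.valuation (tt⁻¹ : Om) < 1 := (v.mem_nonunits_iff).1 h.2
  have h3 : v.valuation (-((x : Om) * tt⁻¹)) < 1 := by
    rw [Valuation.map_neg, map_mul]
    have h4 := mul_le_mul_left ((v.valuation_le_one_iff _).2 (mem_place h x))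
      (v.valuation (tt⁻¹ : Om))
    rw [one_mul] at h4
    exact lt_of_le_of_lt h4 h2
  rw [h1, Valuation.map_add_eq_of_lt_left _ (by rw [map_one]; exact h3), map_one]

theorem isOpen_ker (p : ℕ) [Fact p.Prime] (k : ℕ) :
    IsOpen {z : ℤ_[p] | PadicInt.toZModPow k z = 0} := by
  have h : {z : ℤ_[p] | PadicInt.toZModPow k z = 0} =
      Metric.closedBall (0 : ℤ_[p]) ((p : ℝ) ^ (-k : ℤ)) := by
    ext z
    rw [Set.mem_ofPred_eq, mem_closedBall_zero_iff, PadicInt.norm_le_pow_iff_mem_span_pow,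
      ← PadicInt.ker_toZModPow, RingHom.mem_ker]
  rw [h]
  apply IsUltrametricDist.isOpen_closedBall
  have hp : (0 : ℝ) < p := by exact_mod_cast (Fact.out : p.Prime).pos
  positivity

/-- the eigenvector given by Hilbert 90 -/
theorem exists_eigen (h1 : S_H90) (p : ℕ) [Fact p.Prime] (lam : Gam → ℤ_[p])
    (hadd : ∀ γ δ, lam (γ * δ) = lam γ + lam δ) (hcont : Continuous lam) (k : ℕ)
    (ζ : Om) (hζ : IsPrimitiveRoot ζ (p ^ k)) :
    ∃ y : Om, y ≠ 0 ∧
      ∀ γ : Gam, (γ : GG) y = ζ ^ (PadicInt.toZModPow k (lam γ)).val * y := by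
  have hq : 0 < p ^ k := pow_pos (Fact.out : p.Prime).pos k
  let F : IntermediateField (RatFunc ℚ) Om := IntermediateField.fixedField Gam
  have hQF : ∀ z ∈ Qb, z ∈ F := by
    intro z hz
    rw [IntermediateField.mem_fixedField_iff]
    intro g hg
    exact hg z hz
  have hζQ : ζ ∈ Qb := by
    apply mem_Qb_of_pow hq
    rw [hζ.pow_eq_one]
    exact one_mem _
  let toGam : (Om ≃ₐ[F] Om) → Gam := fun σ =>
    ⟨σ.restrictScalars (RatFunc ℚ), fun z hz => σ.commutes ⟨z, hQF z hz⟩⟩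
  have htc : Continuous toGam := (continuous_res F).subtype_mk _
  have hζF : IsPrimitiveRoot (⟨ζ, hQF ζ hζQ⟩ : F) (p ^ k) :=
    IsPrimitiveRoot.of_map_of_injective (f := algebraMap F Om) hζ (algebraMap F Om).injective
  obtain ⟨α, hα, hα2⟩ := h1 F Om (p ^ k) ⟨ζ, hQF ζ hζQ⟩ hq hζF
    (fun σ => PadicInt.toZModPow k (lam (toGam σ)))
    (fun σ τ => by
      have : toGam (σ * τ) = toGam σ * toGam τ := rfl
      rw [this, hadd, map_add])
    ((isOpen_ker p k).preimage (hcont.comp htc))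
  refine ⟨α, hα, fun γ => ?_⟩
  have hγ : (γ : GG) ∈ F.fixingSubgroup := by
    rw [IntermediateField.mem_fixingSubgroup_iff]
    intro x hx
    exact (IntermediateField.mem_fixedField_iff _ _).1 hx γ γ.2
  have h := hα2 (IntermediateField.fixingSubgroupEquiv F ⟨γ, hγ⟩)
  have h2 : toGam (IntermediateField.fixingSubgroupEquiv F ⟨γ, hγ⟩) = γ := by
    apply Subtype.ext
    ext x
    rfl
  rw [h2] at h
  exact h

theorem val_prod_eq_one {v : ValuationSubring Om} (s : Finset Qb) (g : Qb → Om) (n : Qb → ℤ)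
    (h : ∀ x ∈ s, v.valuation (g x) = 1) : v.valuation (∏ x ∈ s, (g x) ^ (n x)) = 1 := by
  rw [map_prod]
  apply Finset.prod_eq_one
  intro x hx
  rw [map_zpow₀, h x hx, one_zpow]

theorem val_of_pow {v : ValuationSubring Om} {w : Om} {q : ℕ} (hq : 0 < q)
    (h : v.valuation (w ^ q) = 1) : v.valuation w = 1 := by
  rw [map_pow] at h
  exact (pow_eq_one_iff_of_nonneg zero_le hq.ne').1 h

theorem zpow_sum' (a : Om) (ha : a ≠ 0) (s : Finset Qb) (n : Qb → ℤ) :
    a ^ (∑ x ∈ s, n x) = ∏ x ∈ s, a ^ (n x) := by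
  classical
  induction s using Finset.induction_on with
  | empty => simp
  | insert b t hb ih => rw [Finset.sum_insert hb, Finset.prod_insert hb, zpow_add₀ ha, ih]

theorem gam_sub (γ : GG) (hγ : γ ∈ Gam) (x : Qb) : γ (tt - (x : Om)) = tt - (x : Om) := by
  rw [map_sub, hγ _ x.2]
  congr 1
  exact γ.commutes _

theorem gam_prod (γ : GG) (hγ : γ ∈ Gam) (s : Finset Qb) (n : Qb → ℤ) :
    γ (∏ x ∈ s, (tt - (x : Om)) ^ (n x)) = ∏ x ∈ s, (tt - (x : Om)) ^ (n x) := by
  rw [map_prod]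
  refine Finset.prod_congr rfl fun x _ => ?_
  rw [map_zpow₀, gam_sub γ hγ]

end KUM

open KUM in
theorem t_KUM (h1 : S_H90) (h2 : S_FIX) (h3 : S_INER) (h4 : S_EX) (h5 : S_VAL) : S_KUM := by
  intro p _ f lam hadd hcont hunr k
  classical
  have hq : 0 < p ^ k := pow_pos (Fact.out : p.Prime).pos k
  obtain ⟨ζ, hζ⟩ : ∃ ζ : Om, IsPrimitiveRoot ζ (p ^ k) :=
    HasEnoughRootsOfUnity.exists_primitiveRoot Om (p ^ k)
  have hζQ : ζ ∈ Qb := by
    apply mem_Qb_of_pow hq
    rw [hζ.pow_eq_one]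
    exact one_mem _
  have hζ0 : ζ ≠ 0 := hζ.ne_zero hq.ne'
  obtain ⟨y0, hy0, hy⟩ := exists_eigen h1 p lam hadd hcont k ζ hζ
  obtain ⟨C, s, n, hC, hyq⟩ := h2 (y0 ^ (p ^ k)) (pow_ne_zero _ hy0) (by
    intro γ hγ
    rw [map_pow, hy ⟨γ, hγ⟩, mul_pow, ← pow_mul, mul_comm _ (p ^ k), pow_mul, hζ.pow_eq_one,
      one_pow, one_mul])
  have hCv : ∀ (a : Option Qb) (v : ValuationSubring Om), IsPlace a v →
      v.valuation (C : Om) = 1 := fun a v h => val_Qb h _ C.2
        (fun h0 => hC (Subtype.ext h0))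
  -- points which are not roots of `f`
  have claim1 : ∀ x0 ∈ s, ¬ IsRoot f (some x0) → ((p ^ k : ℕ) : ℤ) ∣ n x0 := by
    intro x0 hx0 hr
    obtain ⟨v, hv⟩ := h4 (some x0)
    obtain ⟨z, hz⟩ := IsAlgClosed.exists_pow_nat_eq (tt - (x0 : Om)) hq
    have hz0 : z ≠ 0 := by
      rintro rfl
      rw [zero_pow hq.ne'] at hz
      exact tt_sub_ne_zero x0 hz.symm
    obtain ⟨γ, hγ, hγv, hγz⟩ := h3 (some x0) (p ^ k) z ζ hq hz hζ v hv
    have hl := hunr (some x0) hr v hv ⟨γ, hγ⟩ hγv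
    have hγy : γ y0 = y0 := by
      have := hy ⟨γ, hγ⟩
      rw [hl, map_zero, ZMod.val_zero, pow_zero, one_mul] at this
      exact this
    have hw : v.valuation (y0 * (z ^ (n x0))⁻¹) = 1 := by
      apply val_of_pow hq
      have e : (y0 * (z ^ (n x0))⁻¹) ^ (p ^ k) =
          (C : Om) * ∏ x ∈ s.erase x0, (tt - (x : Om)) ^ (n x) := by
        rw [mul_pow, hyq, ← Finset.mul_prod_erase s _ hx0, inv_pow, ← zpow_natCast (z ^ (n x0)),
          ← zpow_mul, mul_comm (n x0), zpow_mul, zpow_natCast, hz]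
        have := zpow_ne_zero (n x0) (tt_sub_ne_zero x0)
        field_simp
      rw [e, map_mul, hCv _ v hv, one_mul]
      apply val_prod_eq_one
      intro x hx
      exact val_sub hv (Finset.ne_of_mem_erase hx)
    have hw2 : γ (y0 * (z ^ (n x0))⁻¹) = (ζ ^ (n x0))⁻¹ * (y0 * (z ^ (n x0))⁻¹) := by
      rw [map_mul, hγy, map_inv₀, map_zpow₀, hγz, mul_zpow, mul_inv]
      ring
    have := fix_unit h5 hv hγ hγv hw (inv_mem (zpow_mem hζQ _)) hw2
    rw [inv_eq_one] at this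
    exact (hζ.zpow_eq_one_iff_dvd _).1 this
  -- the point at infinity
  have claim2 : ((p ^ k : ℕ) : ℤ) ∣ ∑ x ∈ s, n x := by
    obtain ⟨v, hv⟩ := h4 none
    obtain ⟨z, hz⟩ := IsAlgClosed.exists_pow_nat_eq (tt⁻¹ : Om) hq
    obtain ⟨γ, hγ, hγv, hγz⟩ := h3 none (p ^ k) z ζ hq hz hζ v hv
    have hl := hunr none (fun h => h) v hv ⟨γ, hγ⟩ hγv
    have hγy : γ y0 = y0 := by
      have := hy ⟨γ, hγ⟩
      rw [hl, map_zero, ZMod.val_zero, pow_zero, one_mul] at this
      exact this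
    have hw : v.valuation (y0 * z ^ (∑ x ∈ s, n x)) = 1 := by
      apply val_of_pow hq
      have e : (y0 * z ^ (∑ x ∈ s, n x)) ^ (p ^ k) =
          (C : Om) * ∏ x ∈ s, ((tt - (x : Om)) * tt⁻¹) ^ (n x) := by
        rw [mul_pow, hyq, ← zpow_natCast (z ^ (∑ x ∈ s, n x)),
          ← zpow_mul, mul_comm (∑ x ∈ s, n x), zpow_mul, zpow_natCast, hz, mul_assoc]
        congr 1
        rw [zpow_sum' _ (inv_ne_zero tt_ne_zero), ← Finset.prod_mul_distrib]
        exact Finset.prod_congr rfl fun x _ => (mul_zpow _ _ _).symm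
      rw [e, map_mul, hCv _ v hv, one_mul]
      apply val_prod_eq_one
      intro x _
      exact val_inf hv x
    have hw2 : γ (y0 * z ^ (∑ x ∈ s, n x)) = (ζ ^ (∑ x ∈ s, n x)) *
        (y0 * z ^ (∑ x ∈ s, n x)) := by
      rw [map_mul, hγy, map_zpow₀, hγz, mul_zpow]
      ring
    have := fix_unit h5 hv hγ hγv hw (zpow_mem hζQ _) hw2
    exact (hζ.zpow_eq_one_iff_dvd _).1 this
  -- division by the part away from the roots
  obtain ⟨C1, hC1⟩ := IsAlgClosed.exists_pow_nat_eq (C : Om) hq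
  have hC1Q : C1 ∈ Qb := mem_Qb_of_pow hq (by rw [hC1]; exact C.2)
  have hC0 : (C : Om) ≠ 0 := fun h0 => hC (Subtype.ext h0)
  have hC10 : C1 ≠ 0 := by
    rintro rfl
    rw [zero_pow hq.ne'] at hC1
    exact hC0 hC1.symm
  set s1 := s.filter (fun x => IsRoot f (some x)) with hs1
  set s2 := s.filter (fun x => ¬ IsRoot f (some x)) with hs2
  have hdiv : ∀ x ∈ s2, n x = ((p ^ k : ℕ) : ℤ) * (n x / ((p ^ k : ℕ) : ℤ)) := by
    intro x hx
    rw [hs2, Finset.mem_filter] at hx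
    exact (Int.mul_ediv_cancel' (claim1 x hx.1 hx.2)).symm
  set P : Om := ∏ x ∈ s2, (tt - (x : Om)) ^ (n x / ((p ^ k : ℕ) : ℤ)) with hP
  have hP0 : P ≠ 0 := Finset.prod_ne_zero_iff.2 fun x _ => zpow_ne_zero _ (tt_sub_ne_zero x)
  have hPq : P ^ (p ^ k) = ∏ x ∈ s2, (tt - (x : Om)) ^ (n x) := by
    rw [hP, ← Finset.prod_pow]
    refine Finset.prod_congr rfl fun x hx => ?_
    rw [← zpow_natCast, ← zpow_mul, mul_comm, ← hdiv x hx]
  have hprod : (∏ x ∈ s, (tt - (x : Om)) ^ (n x)) =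
      (∏ x ∈ s1, (tt - (x : Om)) ^ (n x)) * ∏ x ∈ s2, (tt - (x : Om)) ^ (n x) :=
    (Finset.prod_filter_mul_prod_filter_not s _ _).symm
  have hsum : (∑ x ∈ s1, n x) + ∑ x ∈ s2, n x = ∑ x ∈ s, n x :=
    Finset.sum_filter_add_sum_filter_not s _ _
  have hy1q : (y0 / (C1 * P)) ^ (p ^ k) = ∏ x ∈ s1, (tt - (x : Om)) ^ (n x) := by
    rw [div_pow, mul_pow, hyq, hC1, hPq, hprod]
    have : (∏ x ∈ s2, (tt - (x : Om)) ^ (n x)) ≠ 0 :=
      Finset.prod_ne_zero_iff.2 fun x _ => zpow_ne_zero _ (tt_sub_ne_zero x)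
    field_simp
  have hy10 : y0 / (C1 * P) ≠ 0 := div_ne_zero hy0 (mul_ne_zero hC10 hP0)
  have hy1 : ∀ γ : Gam, (γ : GG) (y0 / (C1 * P)) =
      ζ ^ (PadicInt.toZModPow k (lam γ)).val * (y0 / (C1 * P)) := by
    intro γ
    rw [map_div₀, map_mul, hy γ, γ.2 C1 hC1Q, hP, gam_prod γ γ.2]
    ring
  have hd2 : ((p ^ k : ℕ) : ℤ) ∣ ∑ x ∈ s2, n x :=
    Finset.dvd_sum fun x hx => ⟨_, hdiv x hx⟩
  have hd1 : ((p ^ k : ℕ) : ℤ) ∣ ∑ x ∈ s1, n x := by
    have := dvd_sub claim2 hd2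
    rwa [← hsum, add_sub_cancel_right] at this
  obtain ⟨M, hM⟩ := hd1
  have hs1r : ∀ x ∈ s1, IsRoot f (some x) := by
    intro x hx
    rw [hs1, Finset.mem_filter] at hx
    exact hx.2
  rcases s1.eq_empty_or_nonempty with he | ⟨x1, hx1⟩
  · refine ⟨y0 / (C1 * P), ζ, s1, n, hy10, hζ, hs1r, ?_, hy1q, hy1⟩
    rw [he, Finset.sum_empty]
  · refine ⟨y0 / (C1 * P) / (tt - (x1 : Om)) ^ M, ζ, s1,
      fun x => n x - (if x = x1 then ((p ^ k : ℕ) : ℤ) * M else 0), ?_, hζ, hs1r, ?_, ?_, ?_⟩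
    · exact div_ne_zero hy10 (zpow_ne_zero _ (tt_sub_ne_zero x1))
    · rw [Finset.sum_sub_distrib, Finset.sum_ite_eq', if_pos hx1, hM, sub_self]
    · rw [div_pow, hy1q]
      have e1 : (∏ x ∈ s1, (tt - (x : Om)) ^
          (n x - (if x = x1 then ((p ^ k : ℕ) : ℤ) * M else 0))) =
          (∏ x ∈ s1, (tt - (x : Om)) ^ (n x)) /
            ∏ x ∈ s1, (if x = x1 then (tt - (x : Om)) ^ (((p ^ k : ℕ) : ℤ) * M) else 1) := by
        rw [← Finset.prod_div_distrib]
        refine Finset.prod_congr rfl fun x _ => ?_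
        rw [zpow_sub₀ (tt_sub_ne_zero x)]
        split_ifs <;> simp
      rw [e1, Finset.prod_ite_eq', if_pos hx1, ← zpow_natCast ((tt - (x1 : Om)) ^ M), ← zpow_mul,
        mul_comm M]
    · intro γ
      rw [map_div₀, hy1 γ, map_zpow₀, gam_sub γ γ.2]
      ring

end Y680.W
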