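import Pool.Agent.Y680.W.Stm

/-!
W-PLACE (helper379): the geometric group acts transitively on the places above a point, even if a
root of the local coordinate is fixed.  The first part contains common lemmas, also used for
W-FIX and W-INER.
-/

open scoped Pointwise TensorProduct

noncomputable section

namespace Y680.W

open Polynomial

/-- the rational functions lie in every subfield containing `tt` -/
theorem rf_mem (S : Subfield Om) (ht : tt ∈ S) (x : RatFunc ℚ) :
    algebraMap (RatFunc ℚ) Om x ∈ S := by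
  have key : ∀ p : ℚ[X], algebraMap (RatFunc ℚ) Om (algebraMap ℚ[X] (RatFunc ℚ) p) ∈ S := by
    intro p
    induction p using Polynomial.induction_on' with
    | add p q hp hq =>
      rw [map_add, map_add]
      exact add_mem hp hq
    | monomial n a =>
      rw [← C_mul_X_pow_eq_monomial, map_mul, map_mul, map_pow, map_pow]
      refine mul_mem ?_ (pow_mem ?_ _)
      · have h1 : (algebraMap ℚ[X] (RatFunc ℚ)) (C a) = (a : RatFunc ℚ) :=
          eq_ratCast ((algebraMap ℚ[X] (RatFunc ℚ)).comp C) a
        rw [h1, map_ratCast]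
        exact SubfieldClass.ratCast_mem S a
      · rw [RatFunc.algebraMap_X]
        exact ht
  rw [← RatFunc.num_div_denom x, map_div₀]
  exact div_mem (key _) (key _)

/-- `Om` is algebraic over every field whose image contains `tt` -/
theorem alg_of (K : Type) [Field K] (f : K →+* Om) (ht : tt ∈ f.fieldRange) :
    @Algebra.IsAlgebraic K Om _ _ f.toAlgebra := by
  have h1 : ∀ x : RatFunc ℚ, ∃ y : K, f y = algebraMap (RatFunc ℚ) Om x :=
    fun x => rf_mem f.fieldRange ht x
  choose g hg using h1
  have hf : Function.Injective f := f.injective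
  let h : RatFunc ℚ →+* K :=
    { toFun := g
      map_one' := hf (by rw [hg, map_one, map_one])
      map_mul' := fun a b => hf (by rw [hg, map_mul, map_mul, hg, hg])
      map_zero' := hf (by rw [hg, map_zero, map_zero])
      map_add' := fun a b => hf (by rw [hg, map_add, map_add, hg, hg]) }
  let _ : Algebra K Om := f.toAlgebra
  let _ : Algebra (RatFunc ℚ) K := h.toAlgebra
  have : IsScalarTower (RatFunc ℚ) K Om := IsScalarTower.of_algebraMap_eq fun x => (hg x).symm
  exact Algebra.IsAlgebraic.tower_top (K := RatFunc ℚ) K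

/-- an automorphism which fixes `tt` is an element of the big Galois group -/
theorem exists_GG (σ : Om ≃+* Om) (ht : σ tt = tt) : ∃ g : GG, ∀ x, g x = σ x := by
  refine ⟨AlgEquiv.ofRingEquiv (f := σ) fun x => ?_, fun x => rfl⟩
  let S : Subfield Om :=
    { carrier := {x | σ x = x}
      mul_mem' := fun {a b} ha hb => by
        change σ (a * b) = a * b
        rw [map_mul]
        exact congrArg₂ _ ha hb
      one_mem' := map_one σ
      add_mem' := fun {a b} ha hb => by
        change σ (a + b) = a + b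
        rw [map_add]
        exact congrArg₂ _ ha hb
      zero_mem' := map_zero σ
      neg_mem' := fun {a} ha => by
        change σ (-a) = -a
        rw [map_neg]
        exact congrArg _ ha
      inv_mem' := fun a ha => by
        change σ (a⁻¹) = a⁻¹
        rw [map_inv₀]
        exact congrArg _ ha }
  exact rf_mem S ht x

/-- `tt` is transcendental -/
theorem tt_trans : Transcendental ℚ tt := by
  have h0 : Transcendental ℚ (RatFunc.X : RatFunc ℚ) := by
    have := RatFunc.transcendental_X (K := ℚ)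
    convert this
    exact Subsingleton.elim _ _
  exact (transcendental_algebraMap_iff (R := ℚ) (S := RatFunc ℚ) (A := Om)
    (algebraMap (RatFunc ℚ) Om).injective (a := RatFunc.X)).2 h0

theorem tt_not_mem : tt ∉ Qb := fun h => tt_trans (mem_algebraicClosure_iff.1 h)

theorem loc_ne (a : Option Qb) : loc a ≠ 0 := by
  cases a with
  | none =>
    intro h
    exact tt_not_mem (by rw [inv_eq_zero.1 h]; exact zero_mem Qb)
  | some a =>
    intro h
    exact tt_not_mem (by rw [sub_eq_zero.1 h]; exact a.2)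

/-- the coordinate is in every subfield containing the algebraic numbers and `loc a` -/
theorem tt_mem_of_loc (S : Subfield Om) (a : Option Qb) (h1 : ∀ x ∈ Qb, x ∈ S)
    (h2 : loc a ∈ S) : tt ∈ S := by
  cases a with
  | none =>
    have := inv_mem h2
    rwa [show (loc none)⁻¹ = tt from inv_inv _] at this
  | some a =>
    have := add_mem h2 (h1 _ a.2)
    rwa [show loc (some a) + (a : Om) = tt from sub_add_cancel _ _] at this

/-- a valuation ring containing the rationals contains the algebraic numbers -/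
theorem Qb_le (v : ValuationSubring Om) (hv : ∀ q : ℚ, algebraMap ℚ Om q ∈ v) {x : Om}
    (hx : x ∈ Qb) : x ∈ v := by
  have h1 : IsIntegral ℚ x := (mem_algebraicClosure_iff.1 hx).isIntegral
  obtain ⟨p, hp, hp0⟩ := h1
  let h : ℚ →+* v := (algebraMap ℚ Om).codRestrict v.toSubring hv
  have h2 : IsIntegral v x := by
    refine ⟨p.map h, hp.map h, ?_⟩
    rw [eval₂_map]
    exact hp0
  obtain ⟨y, hy⟩ := IsIntegrallyClosed.isIntegral_iff.1 h2
  rw [← hy]
  exact y.2

/-- nonzero algebraic numbers are units -/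
theorem Qb_val (v : ValuationSubring Om) (hv : ∀ q : ℚ, algebraMap ℚ Om q ∈ v) {x : Om}
    (hx : x ∈ Qb) (h0 : x ≠ 0) : v.valuation x = 1 := by
  have h1 := (v.valuation_le_one_iff x).2 (Qb_le v hv hx)
  have h2 := (v.valuation_le_one_iff x⁻¹).2 (Qb_le v hv (inv_mem hx))
  rw [map_inv₀] at h2
  have h3 : v.valuation x ≠ 0 := (Valuation.ne_zero_iff _).2 h0
  exact le_antisymm h1 ((inv_le_one₀ (zero_lt_iff.2 h3)).1 h2)

/-- polynomials with nonzero constant term are units at `z` in the maximal ideal -/
theorem val_unit (v : ValuationSubring Om) (hv : ∀ q : ℚ, algebraMap ℚ Om q ∈ v) {z : Om}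
    (hz : z ∈ v.nonunits) (P : Qb[X]) (h0 : P.coeff 0 ≠ 0) : v.valuation (aeval z P) = 1 := by
  have hz1 : v.valuation z < 1 := v.mem_nonunits_iff.1 hz
  have hmem : ∀ Q : Qb[X], aeval z Q ∈ v := by
    intro Q
    rw [aeval_eq_sum_range]
    refine sum_mem fun i _ => ?_
    rw [Algebra.smul_def]
    exact mul_mem (Qb_le v hv (Q.coeff i).2) (pow_mem (v.nonunits_subset hz) _)
  have h1 : aeval z P = aeval z (divX P) * z + ((P.coeff 0 : Qb) : Om) := by
    conv_lhs => rw [← divX_mul_X_add P]
    simp
  have h2 : v.valuation (aeval z (divX P) * z) < 1 := by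
    rw [map_mul]
    exact (mul_le_of_le_one_left' ((v.valuation_le_one_iff _).2 (hmem _))).trans_lt hz1
  have h3 : v.valuation ((P.coeff 0 : Qb) : Om) = 1 :=
    Qb_val v hv (P.coeff 0).2 (fun h => h0 (Subtype.ext h))
  rw [h1, Valuation.map_add_eq_of_lt_right _ (by rw [h3]; exact h2), h3]

/-- the valuation of a polynomial in `z` -/
theorem val_poly (v : ValuationSubring Om) (hv : ∀ q : ℚ, algebraMap ℚ Om q ∈ v) {z : Om}
    (hz : z ∈ v.nonunits) (P : Qb[X]) (h0 : P ≠ 0) :
    v.valuation (aeval z P) = v.valuation z ^ (P.rootMultiplicity 0) := by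
  obtain ⟨Q, hQ, hQ2⟩ := exists_eq_pow_rootMultiplicity_mul_and_not_dvd P h0 0
  have h1 : Q.coeff 0 ≠ 0 := by
    intro h
    apply hQ2
    rw [C_0, sub_zero]
    exact X_dvd_iff.2 h
  conv_lhs => rw [hQ]
  rw [map_mul, map_mul, val_unit v hv hz Q h1, mul_one, map_pow, map_pow]
  simp

theorem t_PLACE (h : S_TRANS) : S_PLACE := by
  intro a N z hN hz v w hv hw
  have hz0 : z ≠ 0 := by
    rintro rfl
    rw [zero_pow hN.ne'] at hz
    exact loc_ne a hz.symm
  have hnon : ∀ u : ValuationSubring Om, IsPlace a u → z ∈ u.nonunits := by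
    intro u hu
    have h1 := u.mem_nonunits_iff.1 hu.2
    rw [← hz, map_pow] at h1
    rw [ValuationSubring.mem_nonunits_iff]
    by_contra h2
    exact absurd h1 (not_lt.2 (one_le_pow_of_one_le' (not_lt.1 h2) N))
  set F : IntermediateField Qb Om := IntermediateField.adjoin Qb {z} with hF
  have hzF : z ∈ F := IntermediateField.mem_adjoin_simple_self Qb z
  have hQF : ∀ x ∈ Qb, x ∈ F := fun x hx => F.algebraMap_mem (⟨x, hx⟩ : Qb)
  have htF : tt ∈ F := by
    refine tt_mem_of_loc F.toSubfield a hQF ?_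
    rw [← hz]
    exact pow_mem hzF N
  have hmem : ∀ u : ValuationSubring Om, IsPlace a u → ∀ P Q : Qb[X], P ≠ 0 → Q ≠ 0 →
      (aeval z P / aeval z Q ∈ u ↔ Q.rootMultiplicity 0 ≤ P.rootMultiplicity 0) := by
    intro u hu P Q hP hQ
    have hlt : u.valuation z < 1 := u.mem_nonunits_iff.1 (hnon u hu)
    have hne : u.valuation z ≠ 0 := (Valuation.ne_zero_iff _).2 hz0
    have hpos : 0 < u.valuation z := zero_lt_iff.2 hne
    rw [← ValuationSubring.valuation_le_one_iff, map_div₀, val_poly u hu.1 (hnon u hu) P hP,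
      val_poly u hu.1 (hnon u hu) Q hQ, div_le_one₀ (pow_pos hpos _)]
    exact pow_le_pow_iff_right_of_lt_one₀ hpos hlt
  have htr : ∀ x : F, algebraMap F Om x ∈ v ↔ algebraMap F Om x ∈ w := by
    rintro ⟨x, hx⟩
    change x ∈ v ↔ x ∈ w
    obtain ⟨P, Q, rfl⟩ := (IntermediateField.mem_adjoin_simple_iff Qb x).1 hx
    by_cases hP : P = 0
    · simp [hP, v.zero_mem, w.zero_mem]
    by_cases hQ : Q = 0
    · simp [hQ, v.zero_mem, w.zero_mem]
    rw [hmem v hv P Q hP hQ, hmem w hw P Q hP hQ]
  have : Algebra.IsAlgebraic F Om := alg_of F (algebraMap F Om) ⟨⟨tt, htF⟩, rfl⟩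
  obtain ⟨σ, hσ⟩ := h F Om v w htr
  have hfix : ∀ x ∈ F, σ x = x := fun x hx => σ.commutes (⟨x, hx⟩ : F)
  obtain ⟨g, hg⟩ := exists_GG σ.toRingEquiv (hfix tt htF)
  refine ⟨g, fun x hx => (hg x).trans (hfix x (hQF x hx)), (hg z).trans (hfix z hzF), ?_⟩
  rw [← hσ]
  ext x
  rw [ValuationSubring.mem_smul_pointwise_iff_exists, ValuationSubring.mem_smul_pointwise_iff_exists]
  constructor
  · rintro ⟨y, hy, rfl⟩
    exact ⟨y, hy, (hg y).symm⟩
  · rintro ⟨y, hy, rfl⟩
    exact ⟨y, hy, hg y⟩

end Y680.W
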