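import Pool.Agent.Y680.W.Stm

/-!
Job WG-SURJ (helper508): every automorphism of the field of algebraic numbers inside `Om` extends
to an automorphism of `Om` over the rational function field.
-/

open scoped Pointwise

noncomputable section

namespace Y680.W

namespace SurjAux

theorem transc_Q : Transcendental ℚ (tt : Om) := by
  rw [transcendental_iff]
  intro q hq
  let φ : Polynomial ℚ →+* Om := (Polynomial.aeval (R := ℚ) (tt : Om)).toRingHom
  let ψ : Polynomial ℚ →+* Om :=
    (algebraMap (RatFunc ℚ) Om).comp (algebraMap (Polynomial ℚ) (RatFunc ℚ))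
  have h1 : φ = ψ := by
    apply Polynomial.ringHom_ext
    · intro a
      rw [show φ (Polynomial.C a) = (a : Om) by simp [φ]]
      exact (eq_ratCast (ψ.comp Polynomial.C) a).symm
    · rw [show φ Polynomial.X = tt by simp [φ]]
      simp only [ψ, RingHom.comp_apply, RatFunc.algebraMap_X]
      rfl
  have h2 : ψ q = 0 := by rw [← h1]; exact hq
  have h3 : Function.Injective ψ :=
    (algebraMap (RatFunc ℚ) Om).injective.comp (RatFunc.algebraMap_injective ℚ)
  exact (map_eq_zero_iff ψ h3).1 h2

theorem transc_Qb : Transcendental Qb (tt : Om) := by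
  have : Algebra.IsAlgebraic ℚ Qb := algebraicClosure.isAlgebraic ℚ Om
  exact transc_Q.extendScalars Qb

theorem lift_aux (R S M : Type) [CommRing R] [IsDomain R] [Field S] [Field M] [IsAlgClosed M]
    (φ : R →+* S) (ψ : R →+* M) (hφ : Function.Injective φ) (hψ : Function.Injective ψ)
    (halg : ∀ x : S, ∃ q : Polynomial R, q ≠ 0 ∧ q.eval₂ φ x = 0) :
    ∃ g : S →+* M, ∀ r, g (φ r) = ψ r := by
  let : Algebra R S := φ.toAlgebra
  let : Algebra R M := ψ.toAlgebra
  have : FaithfulSMul R S := (faithfulSMul_iff_algebraMap_injective R S).2 hφ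
  have : FaithfulSMul R M := (faithfulSMul_iff_algebraMap_injective R M).2 hψ
  have : Module.IsTorsionFree R S := inferInstance
  have : Module.IsTorsionFree R M := inferInstance
  have : Algebra.IsAlgebraic R S := ⟨fun x => by
    obtain ⟨q, hq, h0⟩ := halg x
    exact ⟨q, hq, h0⟩⟩
  let g : S →ₐ[R] M := IsAlgClosed.lift
  exact ⟨g.toRingHom, fun r => g.commutes r⟩

theorem halg (x : Om) : ∃ q : Polynomial (Polynomial Qb), q ≠ 0 ∧
    q.eval₂ ((Polynomial.aeval (R := Qb) (tt : Om)).toRingHom : Polynomial Qb →+* Om) x = 0 := by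
  have : Algebra.IsAlgebraic (RatFunc ℚ) Om := inferInstance
  have : Algebra.IsAlgebraic (Polynomial ℚ) Om :=
    (IsFractionRing.comap_isAlgebraic_iff (A := Polynomial ℚ) (K := RatFunc ℚ) (C := Om)).2
      inferInstance
  obtain ⟨q, hq, h0⟩ := Algebra.IsAlgebraic.isAlgebraic (R := Polynomial ℚ) x
  let j : Polynomial ℚ →+* Polynomial Qb := Polynomial.mapRingHom (algebraMap ℚ Qb)
  have hj : Function.Injective j := Polynomial.map_injective _ (algebraMap ℚ Qb).injective
  refine ⟨q.map j, ?_, ?_⟩
  · rwa [Ne, Polynomial.map_eq_zero_iff hj]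
  · rw [Polynomial.eval₂_map]
    have hcomp : (((Polynomial.aeval (R := Qb) (tt : Om)).toRingHom :
        Polynomial Qb →+* Om).comp j) = algebraMap (Polynomial ℚ) Om := by
      apply Polynomial.ringHom_ext
      · intro a
        simp only [j, RingHom.comp_apply, Polynomial.coe_mapRingHom, Polynomial.map_C]
        rw [show ((Polynomial.aeval (R := Qb) (tt : Om)).toRingHom : Polynomial Qb →+* Om)
          (Polynomial.C (algebraMap ℚ Qb a)) = (a : Om) by simp]
        exact (eq_ratCast ((algebraMap (Polynomial ℚ) Om).comp Polynomial.C) a).symm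
      · simp [j]
        rfl
    rw [hcomp]
    exact h0

end SurjAux

open SurjAux in
theorem t_SURJ : S_SURJ := by
  intro σ
  let φ : Polynomial Qb →+* Om := (Polynomial.aeval (R := Qb) (tt : Om)).toRingHom
  let s : Polynomial Qb →+* Polynomial Qb := Polynomial.mapRingHom (σ : Qb →+* Qb)
  have hφ : Function.Injective φ := transcendental_iff_injective.1 transc_Qb
  have hs : Function.Injective s := Polynomial.map_injective _ σ.injective
  obtain ⟨g, hg⟩ := lift_aux (Polynomial Qb) Om Om φ (φ.comp s) hφ (hφ.comp hs) halg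
  have hgt : g tt = tt := by
    have := hg Polynomial.X
    simpa [φ, s] using this
  have hgz : ∀ z : Qb, g (z : Om) = (σ z : Om) := by
    intro z
    have := hg (Polynomial.C z)
    simpa [φ, s] using this
  have hcomm : ∀ r : RatFunc ℚ, g (algebraMap (RatFunc ℚ) Om r) = algebraMap (RatFunc ℚ) Om r := by
    have hext : g.comp (algebraMap (RatFunc ℚ) Om) = algebraMap (RatFunc ℚ) Om := by
      apply IsLocalization.ringHom_ext (nonZeroDivisors (Polynomial ℚ))
      apply Polynomial.ringHom_ext
      · intro a
        simp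
      · simp only [RingHom.comp_apply, RatFunc.algebraMap_X]
        exact hgt
    intro r
    exact congrArg (fun f : RatFunc ℚ →+* Om => f r) hext
  let G : Om →ₐ[RatFunc ℚ] Om := { g with commutes' := hcomm }
  have hb : Function.Bijective G := Algebra.IsAlgebraic.algHom_bijective G
  exact ⟨AlgEquiv.ofBijective G hb, fun z => hgz z⟩

end Y680.W
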