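import Pool.Agent.Y680.W.Stm

/-!
W-T1: conjugation acts on tame characters of inertia through the cyclotomic character.
-/

open scoped Pointwise

noncomputable section

namespace Y680.W.T1

section val

variable {K : Type} [Field K] [Algebra ℚ K]

theorem exists_pow_eq {Γ : Type} [LinearOrderedCommGroupWithZero Γ] (v : Valuation K Γ) {a : K}
    (ha : IsAlgebraic ℚ a) (h0 : a ≠ 0) :
    ∃ (e : ℕ) (c : ℚ), e ≠ 0 ∧ c ≠ 0 ∧ v (a ^ e * algebraMap ℚ K c) = 1 := by
  classical
  obtain ⟨P, hP, hPa⟩ := ha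
  have hne : P.support.Nonempty := Polynomial.support_nonempty.2 hP
  obtain ⟨i, hi, hmax⟩ := P.support.exists_max_image
    (fun j => v (algebraMap ℚ K (P.coeff j) * a ^ j)) hne
  have hci : P.coeff i ≠ 0 := Polynomial.mem_support_iff.1 hi
  have hAi : algebraMap ℚ K (P.coeff i) ≠ 0 := (map_ne_zero _).2 hci
  have hgi : v (algebraMap ℚ K (P.coeff i) * a ^ i) ≠ 0 := by
    rw [Ne, Valuation.zero_iff]
    exact mul_ne_zero hAi (pow_ne_zero _ h0)
  have hsum : ∑ j ∈ P.support, algebraMap ℚ K (P.coeff j) * a ^ j = 0 := by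
    rw [Polynomial.aeval_eq_sum_range, ] at hPa
    rw [← hPa]
    symm
    rw [Finset.sum_congr rfl (fun j _ => by rw [Algebra.smul_def])]
    symm
    apply Finset.sum_subset
    · exact Polynomial.supp_subset_range_natDegree_succ
    · intro x _ hx
      rw [Polynomial.notMem_support_iff.1 hx]
      simp
  have hex : ∃ j ∈ P.support.erase i, v (algebraMap ℚ K (P.coeff i) * a ^ i) ≤
      v (algebraMap ℚ K (P.coeff j) * a ^ j) := by
    by_contra hcon
    push Not at hcon
    have h1 := v.map_sum_lt hgi hcon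
    rw [← Finset.add_sum_erase _ _ hi] at hsum
    have h2 : algebraMap ℚ K (P.coeff i) * a ^ i =
        - ∑ j ∈ P.support.erase i, algebraMap ℚ K (P.coeff j) * a ^ j :=
      eq_neg_of_add_eq_zero_left hsum
    have h3 : v (algebraMap ℚ K (P.coeff i) * a ^ i) =
        v (∑ j ∈ P.support.erase i, algebraMap ℚ K (P.coeff j) * a ^ j) := by
      rw [h2, Valuation.map_neg]
    exact absurd h1 (by rw [← h3]; exact lt_irrefl _)
  obtain ⟨j, hj, hle⟩ := hex
  have hji : j ≠ i := Finset.ne_of_mem_erase hj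
  have hjs := Finset.mem_of_mem_erase hj
  have hcj : P.coeff j ≠ 0 := Polynomial.mem_support_iff.1 hjs
  have heq : v (algebraMap ℚ K (P.coeff i) * a ^ i) = v (algebraMap ℚ K (P.coeff j) * a ^ j) :=
    le_antisymm hle (hmax j hjs)
  have key : ∀ m n : ℕ, m < n → P.coeff m ≠ 0 → P.coeff n ≠ 0 →
      v (algebraMap ℚ K (P.coeff m) * a ^ m) = v (algebraMap ℚ K (P.coeff n) * a ^ n) →
      ∃ (e : ℕ) (c : ℚ), e ≠ 0 ∧ c ≠ 0 ∧ v (a ^ e * algebraMap ℚ K c) = 1 := by
    intro m n hmn hm hn h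
    refine ⟨n - m, P.coeff n / P.coeff m, by omega, div_ne_zero hn hm, ?_⟩
    have hAm : algebraMap ℚ K (P.coeff m) ≠ 0 := (map_ne_zero _).2 hm
    have h4 : a ^ (n - m) * algebraMap ℚ K (P.coeff n / P.coeff m) =
        (algebraMap ℚ K (P.coeff n) * a ^ n) / (algebraMap ℚ K (P.coeff m) * a ^ m) := by
      rw [map_div₀, ← Nat.sub_add_cancel hmn.le, pow_add, Nat.sub_add_cancel hmn.le]
      field_simp
    rw [h4, map_div₀, h]
    apply div_self
    rw [← h, Ne, Valuation.zero_iff]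
    exact mul_ne_zero hAm (pow_ne_zero _ h0)
  rcases lt_or_gt_of_ne hji with h | h
  · exact key j i h hcj hci heq.symm
  · exact key i j h hci hcj heq

theorem mul_lt {Γ : Type} [LinearOrderedCommGroupWithZero Γ] {a b : Γ} (ha : a ≤ 1) (hb : b < 1) :
    a * b < 1 :=
  calc a * b ≤ 1 * b := mul_le_mul_left ha b
    _ = b := one_mul b
    _ < 1 := hb

variable (A : ValuationSubring K)

omit [Algebra ℚ K] in
theorem val_eq_one_iff {x : K} (hx : x ≠ 0) : A.valuation x = 1 ↔ x ∈ A ∧ x⁻¹ ∈ A := by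
  rw [← A.valuation_le_one_iff, ← A.valuation_le_one_iff, map_inv₀]
  have h0 : A.valuation x ≠ 0 := by rwa [Ne, Valuation.zero_iff]
  constructor
  · intro h; simp [h]
  · rintro ⟨h1, h2⟩
    refine le_antisymm h1 ?_
    rwa [inv_le_one₀ (zero_lt_iff.2 h0)] at h2

theorem val_map [Algebra.IsAlgebraic ℚ K] (g : K ≃ₐ[ℚ] K) (hg : ∀ z, z ∈ A ↔ g z ∈ A) (a : K) :
    A.valuation (g a) = A.valuation a := by
  rcases eq_or_ne a 0 with rfl | h0
  · simp
  obtain ⟨e, c, he, hc, h⟩ := exists_pow_eq A.valuation (Algebra.IsAlgebraic.isAlgebraic a) h0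
  have hc' : algebraMap ℚ K c ≠ 0 := (map_ne_zero _).2 hc
  have hb : a ^ e * algebraMap ℚ K c ≠ 0 := mul_ne_zero (pow_ne_zero _ h0) hc'
  have hgb : g (a ^ e * algebraMap ℚ K c) = (g a) ^ e * algebraMap ℚ K c := by
    rw [map_mul, map_pow, AlgEquiv.commutes]
  have h1 : A.valuation (g (a ^ e * algebraMap ℚ K c)) = 1 := by
    rw [val_eq_one_iff A (by simpa using hb)]
    rw [val_eq_one_iff A hb] at h
    refine ⟨(hg _).1 h.1, ?_⟩
    rw [← map_inv₀]
    exact (hg _).1 h.2
  rw [hgb, map_mul, map_pow] at h1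
  rw [map_mul, map_pow] at h
  have h2 : A.valuation (g a) ^ e * A.valuation (algebraMap ℚ K c) =
      A.valuation a ^ e * A.valuation (algebraMap ℚ K c) := by rw [h1, h]
  have hc0 : A.valuation (algebraMap ℚ K c) ≠ 0 := by rwa [Ne, Valuation.zero_iff]
  have h3 := mul_right_cancel₀ hc0 h2
  exact (pow_left_inj₀ zero_le zero_le he).1 h3

omit [Algebra ℚ K] in
theorem val_nat {p l : ℕ} (hp : p.Prime) (hl : l.Prime) (hlp : l ≠ p)
    (h : A.valuation (l : K) < 1) (k : ℕ) : A.valuation ((p ^ k : ℕ) : K) = 1 := by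
  have hle : ∀ n : ℤ, A.valuation (n : K) ≤ 1 := fun n =>
    (A.valuation_le_one_iff _).2 (intCast_mem A n)
  refine le_antisymm (by exact_mod_cast hle (p ^ k : ℕ)) ?_
  by_contra hcon
  push Not at hcon
  have hco : IsCoprime (l : ℤ) ((p ^ k : ℕ) : ℤ) := by
    rw [Nat.isCoprime_iff_coprime]
    exact Nat.Coprime.pow_right _ ((Nat.coprime_primes hl hp).2 hlp)
  obtain ⟨a, b, hab⟩ := hco
  have h1 : (a : K) * (l : K) + (b : K) * ((p ^ k : ℕ) : K) = 1 := by
    have := congrArg (Int.cast : ℤ → K) hab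
    simpa using this
  have h2 : A.valuation ((a : K) * (l : K)) < 1 := by
    rw [map_mul]
    exact mul_lt (hle a) h
  have h3 : A.valuation ((b : K) * ((p ^ k : ℕ) : K)) < 1 := by
    rw [map_mul]
    exact mul_lt (hle b) hcon
  have h4 := Valuation.map_add_lt A.valuation h2 h3
  rw [h1, map_one] at h4
  exact lt_irrefl _ h4

omit [Algebra ℚ K] in
theorem eq_one_of_val {N : ℕ} (hN : A.valuation (N : K) = 1) {z : K} (hz : z ^ N = 1)
    (h : A.valuation (z - 1) < 1) : z = 1 := by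
  have hmem : z - 1 ∈ A.nonunits := A.mem_nonunits_iff.2 h
  have hzA : z ∈ A := by
    have : z = (z - 1) + 1 := by ring
    rw [this]
    exact A.add_mem _ _ (A.nonunits_subset hmem) A.one_mem
  have h1 : ∀ i : ℕ, A.valuation (z ^ i - 1) < 1 := by
    intro i
    have : z ^ i - 1 = (∑ j ∈ Finset.range i, z ^ j) * (z - 1) := (geom_sum_mul z i).symm
    rw [this, map_mul]
    refine mul_lt ?_ h
    rw [A.valuation_le_one_iff]
    exact sum_mem fun j _ => pow_mem hzA j
  have h2 : (∑ j ∈ Finset.range N, z ^ j) * (z - 1) = 0 := by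
    rw [geom_sum_mul, hz, sub_self]
  rcases mul_eq_zero.1 h2 with h3 | h3
  · exfalso
    have h4 : (N : K) = - ∑ j ∈ Finset.range N, (z ^ j - 1) := by
      rw [Finset.sum_sub_distrib, h3]
      simp
    have h5 : A.valuation (∑ j ∈ Finset.range N, (z ^ j - 1)) < 1 :=
      Valuation.map_sum_lt _ one_ne_zero fun j _ => h1 j
    rw [h4, Valuation.map_neg] at hN
    exact absurd hN h5.ne
  · exact sub_eq_zero.1 h3

omit [Algebra ℚ K] in
theorem eq_of_val {N : ℕ} (hN0 : N ≠ 0) (hN : A.valuation (N : K) = 1) {z w : K} (hz : z ^ N = 1)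
    (hw : w ^ N = 1) (h : A.valuation (z - w) < 1) : z = w := by
  have hw0 : w ≠ 0 := by
    rintro rfl
    rw [zero_pow hN0] at hw
    exact zero_ne_one hw
  have hvw : A.valuation w = 1 := by
    have : A.valuation w ^ N = 1 := by rw [← map_pow, hw, map_one]
    exact (pow_eq_one_iff_of_nonneg zero_le hN0).1 this
  have h1 : z / w = 1 := by
    apply eq_one_of_val A hN
    · rw [div_pow, hz, hw, div_one]
    · have : z / w - 1 = (z - w) / w := by field_simp
      rw [this, map_div₀, hvw, div_one]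
      exact h
  exact (div_eq_one_iff_eq hw0).1 h1

end val

section gal

theorem cont_restrict {k K : Type} [Field k] [CharZero k] [Field K] [Algebra k K]
    [Algebra.IsAlgebraic k K] (F : IntermediateField k K) :
    Continuous (fun σ : K ≃ₐ[F] K => σ.restrictScalars k) := by
  have hh : Continuous (AlgEquiv.restrictScalarsHom k : (K ≃ₐ[F] K) →* (K ≃ₐ[k] K)) := by
    apply continuous_of_continuousAt_one
    intro s hs
    rw [map_one, krullTopology_mem_nhds_one_iff] at hs
    obtain ⟨E, hE, hEs⟩ := hs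
    rw [Filter.mem_map, krullTopology_mem_nhds_one_iff]
    obtain ⟨α, hα⟩ := Field.exists_primitive_element k E
    refine ⟨IntermediateField.adjoin F {(α : K)}, ?_, ?_⟩
    · apply IntermediateField.adjoin.finiteDimensional
      exact (Algebra.IsAlgebraic.isAlgebraic (R := F) (α : K)).isIntegral
    · intro σ hσ
      apply hEs
      have hfix : σ (α : K) = α := by
        have := (IntermediateField.mem_fixingSubgroup_iff _ σ).1 hσ (α : K)
          (IntermediateField.mem_adjoin_simple_self F (α : K))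
        exact this
      have hE2 : E = IntermediateField.adjoin k {(α : K)} := by
        have h1 := congrArg IntermediateField.lift hα
        rw [IntermediateField.lift_adjoin_simple, IntermediateField.lift_top] at h1
        exact h1.symm
      rw [hE2]
      change _ ∈ IntermediateField.fixingSubgroup _
      rw [IntermediateField.mem_fixingSubgroup_iff]
      intro x hx
      have h2 : IntermediateField.adjoin k {(α : K)} ≤
          IntermediateField.fixedField (Subgroup.zpowers (σ.restrictScalars k)) := by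
        rw [IntermediateField.adjoin_simple_le_iff, IntermediateField.mem_fixedField_iff]
        intro f hf
        obtain ⟨n, rfl⟩ := Subgroup.mem_zpowers_iff.1 hf
        have h3 : σ.restrictScalars k ∈ MulAction.stabilizer (K ≃ₐ[k] K) (α : K) := hfix
        exact (Subgroup.zpow_mem _ h3 n)
      have h4 := h2 hx
      rw [IntermediateField.mem_fixedField_iff] at h4
      exact h4 _ (Subgroup.mem_zpowers _)
  exact hh

theorem isOpen_toZModPow (p : ℕ) [Fact p.Prime] (k : ℕ) :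
    IsOpen {x : ℤ_[p] | PadicInt.toZModPow k x = 0} := by
  have : {x : ℤ_[p] | PadicInt.toZModPow k x = 0} =
      {x : ℤ_[p] | ‖x‖ < (p : ℝ) ^ (-(k : ℤ) + 1)} := by
    ext x
    rw [Set.mem_ofPred_eq, Set.mem_ofPred_eq, ← PadicInt.norm_le_pow_iff_norm_lt_pow_add_one,
      PadicInt.norm_le_pow_iff_mem_span_pow, ← PadicInt.ker_toZModPow, RingHom.mem_ker]
  rw [this]
  exact isOpen_lt continuous_norm continuous_const

end gal

end Y680.W.T1

namespace Y680.W

open T1

theorem t_T1 (H90 : S_H90) : S_T1 := by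
  intro K _ _ _ _ p l _ hl hlp A hlA I hI hIA h hadd hcont g hg τ τ' hτ'
  have hp : p.Prime := Fact.out
  have hvl : A.valuation (l : K) < 1 := A.mem_nonunits_iff.1 hlA
  have : CharZero K := algebraRat.charZero K
  have : IsAlgClosure ℚ K := ⟨inferInstance, inferInstance⟩
  have hgal : IsGalois ℚ K := IsAlgClosure.isGalois ℚ K
  have : ∀ i : ℕ, NeZero (((p ^ i : ℕ)) : K) := fun i =>
    ⟨by exact_mod_cast (pow_pos hp.pos i).ne'⟩
  have hroots : ∀ i, HasEnoughRootsOfUnity K (p ^ i) := fun i => by infer_instance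
  have hIc : CompactSpace I := isCompact_iff_compactSpace.1 hI.isCompact
  obtain ⟨C, hC⟩ := isCompact_univ.exists_bound_of_continuousOn hcont.continuousOn
  obtain ⟨N, hN⟩ : ∃ N : ℕ, ∀ σ, ‖(p : ℚ_[p]) ^ N * h σ‖ ≤ 1 := by
    obtain ⟨N, hN⟩ := pow_unbounded_of_one_lt C (by exact_mod_cast hp.one_lt : (1 : ℝ) < p)
    refine ⟨N, fun σ => ?_⟩
    have h1 : (0 : ℝ) < (p : ℝ) ^ N := pow_pos (by exact_mod_cast hp.pos) _
    rw [norm_mul, norm_pow, Padic.norm_p, inv_pow, inv_mul_le_iff₀ h1, mul_one]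
    exact (hC σ (Set.mem_univ _)).trans hN.le
  set H : I → ℤ_[p] := fun σ => ⟨(p : ℚ_[p]) ^ N * h σ, hN σ⟩ with hH
  have hHadd : ∀ σ ρ, H (σ * ρ) = H σ + H ρ := by
    intro σ ρ
    apply Subtype.ext
    change (p : ℚ_[p]) ^ N * h (σ * ρ) = (p : ℚ_[p]) ^ N * h σ + (p : ℚ_[p]) ^ N * h ρ
    rw [hadd]; ring
  have hHcont : Continuous H := Continuous.subtype_mk (continuous_const.mul hcont) _
  have main : ∀ k, PadicInt.toZModPow k (H τ') =
      PadicInt.toZModPow k ((cyclotomicCharacter K p (g : K ≃+* K) : ℤ_[p]) * H τ) := by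
    intro k
    have hn : 0 < p ^ k := pow_pos hp.pos k
    have : NeZero (p ^ k) := ⟨hn.ne'⟩
    obtain ⟨ζ, hζ⟩ := HasEnoughRootsOfUnity.exists_primitiveRoot K (p ^ k)
    have hvn := val_nat A hp hl hlp hvl k
    have hv1 : ∀ z : K, z ^ (p ^ k) = 1 → A.valuation z = 1 := by
      intro z hz
      have : A.valuation z ^ (p ^ k) = 1 := by rw [← map_pow, hz, map_one]
      exact (pow_eq_one_iff_of_nonneg zero_le hn.ne').1 this
    have hfix : ∀ σ ∈ I, σ ζ = ζ := by
      intro σ hσ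
      refine eq_of_val A hn.ne' hvn (by rw [← map_pow, hζ.pow_eq_one, map_one]) hζ.pow_eq_one ?_
      refine A.mem_nonunits_iff.1 (hIA σ hσ ζ ?_)
      rw [← A.valuation_le_one_iff]
      exact (hv1 ζ hζ.pow_eq_one).le
    set F := IntermediateField.fixedField I with hF
    have hζF : ζ ∈ F := by
      rw [hF, IntermediateField.mem_fixedField_iff]
      exact hfix
    have hprim : IsPrimitiveRoot (⟨ζ, hζF⟩ : F) (p ^ k) :=
      IsPrimitiveRoot.of_map_of_injective (f := algebraMap F K) hζ (algebraMap F K).injective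
    have memI : ∀ σ : K ≃ₐ[F] K, σ.restrictScalars ℚ ∈ I := by
      intro σ
      have h1 := InfiniteGalois.fixingSubgroup_fixedField (⟨I, hI⟩ : ClosedSubgroup (K ≃ₐ[ℚ] K))
      change F.fixingSubgroup = I at h1
      rw [← h1, IntermediateField.mem_fixingSubgroup_iff]
      intro x hx
      exact σ.commutes ⟨x, hx⟩
    have hlift : ∀ σ ∈ I, ∃ σ' : K ≃ₐ[F] K, σ'.restrictScalars ℚ = σ := by
      intro σ hσ
      refine ⟨AlgEquiv.ofRingEquiv (f := (σ : K ≃+* K)) ?_, ?_⟩
      · intro x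
        exact (IntermediateField.mem_fixedField_iff I x.1).1 x.2 σ hσ
      · ext x; rfl
    have hcr : Continuous (fun σ : K ≃ₐ[F] K => (⟨σ.restrictScalars ℚ, memI σ⟩ : I)) :=
      Continuous.subtype_mk (cont_restrict F) _
    obtain ⟨α, hα0, hα⟩ := H90 F K (p ^ k) ⟨ζ, hζF⟩ hn hprim
      (fun σ => PadicInt.toZModPow k (H ⟨σ.restrictScalars ℚ, memI σ⟩))
      (by
        intro σ ρ
        rw [← map_add, ← hHadd]
        rfl)
      ((isOpen_toZModPow p k).preimage (hHcont.comp hcr))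
    have hα' : ∀ σ : I, (σ : K ≃ₐ[ℚ] K) α = ζ ^ (PadicInt.toZModPow k (H σ)).val * α := by
      rintro ⟨σ, hσ⟩
      obtain ⟨σ', rfl⟩ := hlift σ hσ
      exact hα σ'
    have hgi : ∀ z, z ∈ A ↔ g⁻¹ z ∈ A := by
      intro z
      rw [hg (g⁻¹ z)]
      change z ∈ A ↔ (g * g⁻¹) z ∈ A
      rw [mul_inv_cancel]; rfl
    obtain ⟨w, hw⟩ : ∃ w, w = g⁻¹ α / α := ⟨_, rfl⟩
    have hvα : A.valuation α ≠ 0 := by rwa [Ne, Valuation.zero_iff]
    have hvw : A.valuation w = 1 := by
      rw [hw, map_div₀, val_map A g⁻¹ hgi, div_self hvα]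
    have hgα : g⁻¹ α = α * w := by rw [hw]; field_simp
    have hw0 : w ≠ 0 := by
      intro h0
      rw [h0, map_zero] at hvw
      exact zero_ne_one hvw
    have hgw : g α * g w = α := by
      rw [← map_mul, ← hgα]
      change (g * g⁻¹) α = α
      rw [mul_inv_cancel]; rfl
    obtain ⟨m, hm⟩ : ∃ m, m = (PadicInt.toZModPow k (H τ)).val := ⟨_, rfl⟩
    obtain ⟨m', hm'⟩ : ∃ m', m' = (PadicInt.toZModPow k (H τ')).val := ⟨_, rfl⟩
    have h1 := hα' τ
    have h2 := hα' τ'
    rw [← hm] at h1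
    rw [← hm'] at h2
    have h3 : (τ' : K ≃ₐ[ℚ] K) α = g ζ ^ m * (g α * g ((τ : K ≃ₐ[ℚ] K) w)) := by
      rw [hτ']
      change g ((τ : K ≃ₐ[ℚ] K) (g⁻¹ α)) = _
      rw [hgα, map_mul, h1]
      simp only [map_mul, map_pow]
      ring
    have h4 : (ζ ^ m' - g ζ ^ m) * g w = g ζ ^ m * g ((τ : K ≃ₐ[ℚ] K) w - w) := by
      have h5 : ζ ^ m' * α = g ζ ^ m * (g α * g ((τ : K ≃ₐ[ℚ] K) w)) := by rw [← h2, h3]
      have h5' : ζ ^ m' * (g α * g w) = g ζ ^ m * (g α * g ((τ : K ≃ₐ[ℚ] K) w)) := by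
        rw [hgw]; exact h5
      have hgα0 : g α ≠ 0 := by simpa using hα0
      have h6 : ζ ^ m' * g w = g ζ ^ m * g ((τ : K ≃ₐ[ℚ] K) w) := by
        apply mul_left_cancel₀ hgα0
        linear_combination h5'
      rw [map_sub]
      linear_combination h6
    have h7 : A.valuation (ζ ^ m' - g ζ ^ m) < 1 := by
      have h8 := congrArg A.valuation h4
      rw [map_mul, map_mul, map_pow, val_map A g hg, val_map A g hg, val_map A g hg, hvw,
        hv1 ζ hζ.pow_eq_one, one_pow, mul_one, one_mul] at h8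
      rw [h8]
      refine A.mem_nonunits_iff.1 (hIA τ τ.2 w ?_)
      rw [← A.valuation_le_one_iff]
      exact hvw.le
    have hgζ : g ζ ^ (p ^ k) = 1 := by rw [← map_pow, hζ.pow_eq_one, map_one]
    have h9 : ζ ^ m' = g ζ ^ m := by
      refine eq_of_val A hn.ne' hvn ?_ ?_ h7
      · rw [← pow_mul, mul_comm, pow_mul, hζ.pow_eq_one, one_pow]
      · rw [← pow_mul, mul_comm, pow_mul, hgζ, one_pow]
    have h10 : g ζ = ζ ^ ((PadicInt.toZModPow k
        (cyclotomicCharacter K p (g : K ≃+* K) : ℤ_[p]))).val :=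
      cyclotomicCharacter.spec p (g : K ≃+* K) ζ hζ.pow_eq_one
    have hpm : ∀ a b : ℕ, ζ ^ a = ζ ^ b → (a : ZMod (p ^ k)) = b := by
      intro a b hab
      rw [ZMod.natCast_eq_natCast_iff]
      rw [← pow_mod_orderOf ζ a, ← pow_mod_orderOf ζ b, ← hζ.eq_orderOf] at hab
      exact hζ.pow_inj (Nat.mod_lt _ hn) (Nat.mod_lt _ hn) hab
    rw [h10, ← pow_mul] at h9
    replace h9 := hpm _ _ h9
    rw [hm, hm', Nat.cast_mul, ZMod.natCast_zmod_val, ZMod.natCast_zmod_val,
      ZMod.natCast_zmod_val] at h9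
    rw [h9, map_mul]
  have hfin := PadicInt.ext_of_toZModPow.1 main
  have hfin2 := congrArg (Subtype.val) hfin
  have hpN : (p : ℚ_[p]) ^ N ≠ 0 := pow_ne_zero _ (by exact_mod_cast hp.ne_zero)
  change (p : ℚ_[p]) ^ N * h τ' =
    ((cyclotomicCharacter K p (g : K ≃+* K) : ℤ_[p]) : ℚ_[p]) * ((p : ℚ_[p]) ^ N * h τ) at hfin2
  apply mul_left_cancel₀ hpN
  rw [hfin2]
  ring

end Y680.W
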