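import Pool.Agent.Y680.W.Stm

/-!
W-T1G: transfer of W-T1 from the Galois group of the algebraic numbers to the big group
(project WG, job 2781, helper185).
-/

open scoped Pointwise TensorProduct Topology

noncomputable section

namespace Y680.W

namespace T1G

theorem isAlgClosed_Qb : IsAlgClosed Qb :=
  (algebraicClosure.isAlgClosure (F := ℚ) (E := Om)).isAlgClosed

theorem isAlgebraic_Qb : Algebra.IsAlgebraic ℚ Qb := by
  convert (algebraicClosure.isAlgebraic ℚ Om) using 1
  · rfl
  · exact Subsingleton.elim _ _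

/-- restriction of automorphisms to the algebraic numbers -/
def res (g : GG) : Qb ≃ₐ[ℚ] Qb where
  toFun z := ⟨g z, map_Qb g z.2⟩
  invFun z := ⟨g⁻¹ z, map_Qb g⁻¹ z.2⟩
  left_inv z := by
    apply Subtype.ext
    change g⁻¹ (g (z : Om)) = z
    rw [← AlgEquiv.mul_apply, inv_mul_cancel]; rfl
  right_inv z := by
    apply Subtype.ext
    change g (g⁻¹ (z : Om)) = z
    rw [← AlgEquiv.mul_apply, mul_inv_cancel]; rfl
  map_mul' x y := by
    apply Subtype.ext
    exact map_mul g (x : Om) (y : Om)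
  map_add' x y := by
    apply Subtype.ext
    exact map_add g (x : Om) (y : Om)
  commutes' q := by
    apply Subtype.ext
    exact (g.toAlgHom.restrictScalars ℚ).commutes q

@[simp] theorem res_coe (g : GG) (z : Qb) : ((res g z : Qb) : Om) = g (z : Om) := rfl

theorem res_apply (g : GG) (z : Qb) : res g z = ⟨g z, map_Qb g z.2⟩ := rfl

/-- restriction as a homomorphism -/
def resHom : GG →* (Qb ≃ₐ[ℚ] Qb) :=
  MonoidHom.mk' res fun a b => by
    apply AlgEquiv.ext
    intro z
    apply Subtype.ext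
    rfl

theorem resHom_apply (g : GG) : resHom g = res g := rfl

theorem continuous_resHom : Continuous resHom := by
  apply continuous_of_continuousAt_one
  rw [ContinuousAt, map_one]
  intro s hs
  rw [krullTopology_mem_nhds_one_iff] at hs
  obtain ⟨E, hfin, hE⟩ := hs
  rw [Filter.mem_map]
  let b := Module.finBasis ℚ E
  have hopen : IsOpen (⋂ i, (MulAction.stabilizer GG (((b i : E) : Qb) : Om) : Set GG)) :=
    isOpen_iInter_of_finite fun i => stabilizer_isOpen_of_isIntegral _
  have h1 : (1 : GG) ∈ (⋂ i, (MulAction.stabilizer GG (((b i : E) : Qb) : Om) : Set GG)) := by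
    rw [Set.mem_iInter]
    intro i
    exact one_mem _
  refine Filter.mem_of_superset (hopen.mem_nhds h1) ?_
  intro g hg
  rw [Set.mem_iInter] at hg
  apply hE
  change resHom g ∈ E.fixingSubgroup
  rw [IntermediateField.mem_fixingSubgroup_iff]
  have key : (resHom g).toLinearMap ∘ₗ E.val.toLinearMap = E.val.toLinearMap := by
    refine b.ext fun i => ?_
    apply Subtype.ext
    exact hg i
  intro x hx
  have := congrArg (fun f => f ⟨x, hx⟩) key
  exact this

/-- the cyclotomic characters agree -/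
theorem cyc_eq (p : ℕ) [Fact p.Prime] (g : GG) :
    cyclotomicCharacter Om p (g : Om ≃+* Om) =
      cyclotomicCharacter Qb p ((resHom g : Qb ≃ₐ[ℚ] Qb) : Qb ≃+* Qb) := by
  have : IsAlgClosed Qb := isAlgClosed_Qb
  apply Units.ext
  refine PadicInt.ext_of_toZModPow.mp fun n => ?_
  obtain ⟨ζ, hζ⟩ := HasEnoughRootsOfUnity.exists_primitiveRoot Qb (p ^ n)
  have h1 := cyclotomicCharacter.spec p (n := n)
    ((resHom g : Qb ≃ₐ[ℚ] Qb) : Qb ≃+* Qb) ζ hζ.pow_eq_one
  have hζ' : IsPrimitiveRoot ((ζ : Qb) : Om) (p ^ n) :=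
    hζ.map_of_injective (f := Qb.val) Subtype.val_injective
  have h2 := cyclotomicCharacter.spec p (n := n) (g : Om ≃+* Om) (ζ : Om) hζ'.pow_eq_one
  have h3 : ((((resHom g : Qb ≃ₐ[ℚ] Qb) : Qb ≃+* Qb) ζ : Qb) : Om) = (g : Om ≃+* Om) (ζ : Om) := rfl
  rw [h1, h2] at h3
  rw [SubmonoidClass.coe_pow] at h3
  have : NeZero (p ^ n) := ⟨pow_ne_zero _ (Fact.out : p.Prime).ne_zero⟩
  have h4 := hζ'.pow_inj (ZMod.val_lt _) (ZMod.val_lt _) h3
  exact (ZMod.val_injective _ h4).symm

end T1G

open T1G in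
theorem t_T1G (hT1 : S_T1) : S_T1G := by
  intro p l _ hl hlp A hlA I hI htame h hadd hcont hGam g hg τ τ' hττ'
  have : IsAlgClosed Qb := isAlgClosed_Qb
  have : Algebra.IsAlgebraic ℚ Qb := isAlgebraic_Qb
  have : T2Space (Qb ≃ₐ[ℚ] Qb) := krullTopology_t2
  have : CompactSpace GG := inferInstance
  -- the image of `I`
  let J : Subgroup (Qb ≃ₐ[ℚ] Qb) := I.map resHom
  have hJ : IsClosed (J : Set (Qb ≃ₐ[ℚ] Qb)) := by
    rw [Subgroup.coe_map]
    exact (hI.isCompact.image continuous_resHom).isClosed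
  -- `h` is constant on the fibres
  have h1 : h 1 = 0 := by
    have := hadd 1 1
    rw [mul_one] at this
    simpa using this
  have hinv : ∀ σ, h σ⁻¹ = - h σ := by
    intro σ
    have := hadd σ⁻¹ σ
    rw [inv_mul_cancel, h1] at this
    linear_combination -this
  have hfib : ∀ σ τ : I, resHom σ = resHom τ → h σ = h τ := by
    intro σ τ hστ
    have h2 : ((σ⁻¹ * τ : I) : GG) ∈ Gam := by
      intro z hz
      have h3 : resHom ((σ⁻¹ * τ : I) : GG) = 1 := by
        rw [Subgroup.coe_mul, map_mul, InvMemClass.coe_inv, map_inv, hστ, inv_mul_cancel]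
      have h4 := congrArg (fun f : Qb ≃ₐ[ℚ] Qb => ((f ⟨z, hz⟩ : Qb) : Om)) h3
      exact h4
    have h5 := hGam _ h2
    rw [hadd, hinv] at h5
    linear_combination -h5
  let q : I → J := fun σ => ⟨resHom σ, Subgroup.mem_map_of_mem _ σ.2⟩
  have hq : Function.Surjective q := by
    rintro ⟨j, hj⟩
    obtain ⟨σ, hσ, rfl⟩ := Subgroup.mem_map.1 hj
    exact ⟨⟨σ, hσ⟩, rfl⟩
  have hqc : Continuous q := (continuous_resHom.comp continuous_subtype_val).subtype_mk _
  have : CompactSpace I := isCompact_iff_compactSpace.1 hI.isCompact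
  have hqq : Topology.IsQuotientMap q := (hqc.isClosedMap).isQuotientMap hqc hq
  let hb : J → ℚ_[p] := fun j => h (Function.surjInv hq j)
  have hbq : ∀ σ, hb (q σ) = h σ := by
    intro σ
    apply hfib
    have := Function.surjInv_eq hq (q σ)
    exact congrArg Subtype.val this
  have hbcont : Continuous hb := by
    rw [hqq.continuous_iff]
    have : hb ∘ q = h := funext hbq
    rw [this]
    exact hcont
  have hbadd : ∀ σ τ, hb (σ * τ) = hb σ + hb τ := by
    intro σ τ
    obtain ⟨σ, rfl⟩ := hq σ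
    obtain ⟨τ, rfl⟩ := hq τ
    have : q σ * q τ = q (σ * τ) := by
      apply Subtype.ext
      simp only [q, Subgroup.coe_mul, map_mul]
    rw [this, hbq, hbq, hbq, hadd]
  have htame' : ∀ τ ∈ J, ∀ z ∈ A, τ z - z ∈ A.nonunits := by
    intro τ hτ z hz
    obtain ⟨σ, hσ, rfl⟩ := Subgroup.mem_map.1 hτ
    exact htame σ hσ z hz
  have hst : ∀ z, z ∈ A ↔ (resHom g) z ∈ A := fun z => hg z
  have hconj : ((q τ' : J) : Qb ≃ₐ[ℚ] Qb) = resHom g * (q τ : J) * (resHom g)⁻¹ := by
    change resHom τ' = resHom g * resHom τ * (resHom g)⁻¹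
    rw [hττ', map_mul, map_mul, map_inv]
  have := hT1 Qb p l hl hlp A hlA J hJ htame' hb hbadd hbcont (resHom g) hst (q τ) (q τ') hconj
  rw [hbq, hbq] at this
  rw [this, chi, cyc_eq]

end Y680.W
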