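import Pool.Agent.Y680.W.Stm

/-!
W-T2: commutators in decomposition groups are in the inertia group (helper427).
-/

open scoped Pointwise TensorProduct

noncomputable section

namespace Y680.W

namespace T2aux

variable {K : Type} [Field K]

theorem nonunit_iff (A : ValuationSubring K) (x : A) :
    (x : K) ∈ A.nonunits ↔ IsLocalRing.residue A x = 0 := by
  rw [IsLocalRing.residue_eq_zero_iff, ValuationSubring.mem_nonunits_iff_exists_mem_maximalIdeal]
  constructor
  · rintro ⟨h, h1⟩
    exact h1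
  · intro h
    exact ⟨x.2, h⟩

/-- the restriction of an automorphism to a stable valuation ring -/
def rst (A : ValuationSubring K) [Algebra ℚ K] (g : K ≃ₐ[ℚ] K) (hg : ∀ z, z ∈ A ↔ g z ∈ A) :
    A →+* A where
  toFun z := ⟨g z, (hg z).1 z.2⟩
  map_one' := by ext; simp
  map_mul' x y := by ext; simp
  map_zero' := by ext; simp
  map_add' x y := by ext; simp

theorem rst_coe (A : ValuationSubring K) [Algebra ℚ K] (g : K ≃ₐ[ℚ] K)
    (hg : ∀ z, z ∈ A ↔ g z ∈ A) (z : A) : ((rst A g hg z : A) : K) = g z := rfl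

theorem rst_res (A : ValuationSubring K) [Algebra ℚ K] (g : K ≃ₐ[ℚ] K)
    (hg : ∀ z, z ∈ A ↔ g z ∈ A) (z : A) (h : IsLocalRing.residue A z = 0) :
    IsLocalRing.residue A (rst A g hg z) = 0 := by
  rw [← nonunit_iff] at h ⊢
  rw [rst_coe]
  rw [ValuationSubring.mem_nonunits_iff_or] at h ⊢
  rcases h with h | h
  · left
    rw [h, map_zero]
  · right
    intro h2
    apply h
    rw [hg, map_inv₀]
    exact h2

theorem rst_congr (A : ValuationSubring K) [Algebra ℚ K] (g : K ≃ₐ[ℚ] K)
    (hg : ∀ z, z ∈ A ↔ g z ∈ A) (z w : A) (h : IsLocalRing.residue A z = IsLocalRing.residue A w) :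
    IsLocalRing.residue A (rst A g hg z) = IsLocalRing.residue A (rst A g hg w) := by
  rw [← sub_eq_zero, ← map_sub, ← map_sub]
  apply rst_res
  rw [map_sub, h, sub_self]

/-- every nonzero element of the residue field has finite order -/
theorem fin_ord [Algebra ℚ K] [Algebra.IsAlgebraic ℚ K] (l : ℕ) (hl : l.Prime)
    (A : ValuationSubring K) (hA : (l : K) ∈ A.nonunits) (x : A)
    (hx : IsLocalRing.residue A x ≠ 0) : ∃ m : ℕ, 0 < m ∧ (IsLocalRing.residue A x) ^ m = 1 := by
  classical
  have : Fact l.Prime := ⟨hl⟩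
  set κ := IsLocalRing.ResidueField A with hκ
  have hl0 : ((l : ℕ) : κ) = 0 := by
    have h1 := (nonunit_iff A (l : A)).1 (by simpa using hA)
    simpa using h1
  have : CharP κ l := by
    refine (CharP.charP_iff_prime_eq_zero hl).2 hl0
  let : Algebra (ZMod l) κ := ZMod.algebra κ l
  have halg : IsAlgebraic (ZMod l) (IsLocalRing.residue A x) := by
    have h1 : IsAlgebraic ℚ (x : K) := Algebra.IsAlgebraic.isAlgebraic _
    have h2 : IsAlgebraic ℤ (x : K) := (IsFractionRing.isAlgebraic_iff ℤ ℚ K).2 h1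
    obtain ⟨q, hq0, hq⟩ := h2
    have hp : (q.primPart).IsPrimitive := q.isPrimitive_primPart
    have hq' : Polynomial.aeval (x : K) q.primPart = 0 := by
      have h3 := q.eq_C_content_mul_primPart
      rw [h3, map_mul, Polynomial.aeval_C] at hq
      rcases mul_eq_zero.1 hq with h4 | h4
      · exfalso
        have h5 : q.content ≠ 0 := by rwa [Ne, Polynomial.content_eq_zero_iff]
        have : CharZero K := algebraRat.charZero K
        exact h5 (by simpa using h4)
      · exact h4
    refine ⟨q.primPart.map (Int.castRingHom (ZMod l)), ?_, ?_⟩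
    · intro h0
      have hd : Polynomial.C (l : ℤ) ∣ q.primPart := by
        rw [Polynomial.C_dvd_iff_dvd_coeff]
        intro i
        have h3 : (q.primPart.map (Int.castRingHom (ZMod l))).coeff i = 0 := by rw [h0]; simp
        rw [Polynomial.coeff_map] at h3
        exact (ZMod.intCast_zmod_eq_zero_iff_dvd _ _).1 h3
      have h4 := hp _ hd
      rw [Int.isUnit_iff] at h4
      have := hl.two_le
      omega
    · have h3 : Polynomial.aeval (x : A) q.primPart = 0 := by
        apply Subtype.val_injective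
        have h6 : ((Polynomial.aeval x q.primPart : A) : K) = Polynomial.aeval (x : K) q.primPart := by
          have := Polynomial.hom_eval₂ q.primPart (algebraMap ℤ A) (A.subtype) x
          rw [Polynomial.aeval_def, Polynomial.aeval_def]
          rw [show (algebraMap ℤ K) = (A.subtype).comp (algebraMap ℤ A) from RingHom.ext_int _ _]
          exact this
        rw [h6, hq']
        rfl
      rw [Polynomial.aeval_def, Polynomial.eval₂_map]
      have h7 := Polynomial.hom_eval₂ q.primPart (algebraMap ℤ A) (IsLocalRing.residue A) x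
      rw [show (algebraMap (ZMod l) κ).comp (Int.castRingHom (ZMod l)) =
        (IsLocalRing.residue A).comp (algebraMap ℤ A) from RingHom.ext_int _ _, ← h7,
        ← Polynomial.aeval_def, h3, map_zero]
  have hint : IsIntegral (ZMod l) (IsLocalRing.residue A x) := halg.isIntegral
  have hfd : FiniteDimensional (ZMod l) (IntermediateField.adjoin (ZMod l) {IsLocalRing.residue A x}) :=
    IntermediateField.adjoin.finiteDimensional hint
  have : Finite (IntermediateField.adjoin (ZMod l) {IsLocalRing.residue A x}) :=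
    Module.finite_of_finite (ZMod l)
  set F := IntermediateField.adjoin (ZMod l) {IsLocalRing.residue A x}
  have hy : IsLocalRing.residue A x ∈ F := IntermediateField.mem_adjoin_simple_self _ _
  set y : F := ⟨_, hy⟩ with hydef
  have hy0 : y ≠ 0 := by
    intro h
    apply hx
    have := congrArg Subtype.val h
    exact this
  have hfo : IsOfFinOrder (Units.mk0 y hy0) := isOfFinOrder_of_finite _
  obtain ⟨m, hm, hm1⟩ := hfo.exists_pow_eq_one
  refine ⟨m, hm, ?_⟩
  have h8 := congrArg (fun u : Fˣ => ((u : F) : κ)) hm1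
  simpa [hydef] using h8

/-- an automorphism maps an element to a power of it modulo the maximal ideal -/
theorem pow_congr [Algebra ℚ K] [Algebra.IsAlgebraic ℚ K] (l : ℕ) (hl : l.Prime)
    (A : ValuationSubring K) (hA : (l : K) ∈ A.nonunits) (g : K ≃ₐ[ℚ] K)
    (hg : ∀ z, z ∈ A ↔ g z ∈ A) (x : A) (hx : IsLocalRing.residue A x ≠ 0) :
    ∃ a : ℕ, IsLocalRing.residue A (rst A g hg x) = IsLocalRing.residue A (x ^ a) := by
  obtain ⟨m, hm, hm1⟩ := fin_ord l hl A hA x hx
  have h1 : (IsLocalRing.residue A (rst A g hg x)) ^ m = 1 := by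
    rw [← map_pow, ← map_pow]
    have : IsLocalRing.residue A (rst A g hg (x ^ m)) = IsLocalRing.residue A (rst A g hg 1) := by
      apply rst_congr
      rw [map_pow, hm1, map_one]
    rw [this, map_one, map_one]
  have hfo : IsOfFinOrder (IsLocalRing.residue A x) := isOfFinOrder_iff_pow_eq_one.2 ⟨m, hm, hm1⟩
  have h2 : orderOf (IsLocalRing.residue A x) ∣ m := orderOf_dvd_of_pow_eq_one hm1
  have hprim : IsPrimitiveRoot (IsLocalRing.residue A x) (orderOf (IsLocalRing.residue A x)) :=
    IsPrimitiveRoot.orderOf _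
  have h3 : (IsLocalRing.residue A (rst A g hg x)) ^ (orderOf (IsLocalRing.residue A x)) = 1 := by
    rw [← map_pow, ← map_pow]
    have : IsLocalRing.residue A (rst A g hg (x ^ (orderOf (IsLocalRing.residue A x)))) =
        IsLocalRing.residue A (rst A g hg 1) := by
      apply rst_congr
      rw [map_pow, pow_orderOf_eq_one, map_one]
    rw [this, map_one, map_one]
  have : NeZero (orderOf (IsLocalRing.residue A x)) := ⟨(orderOf_pos_iff.2 hfo).ne'⟩
  obtain ⟨a, -, ha⟩ := hprim.eq_pow_of_pow_eq_one h3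
  exact ⟨a, by rw [map_pow, ha]⟩

theorem comm_res [Algebra ℚ K] [Algebra.IsAlgebraic ℚ K] (l : ℕ) (hl : l.Prime)
    (A : ValuationSubring K) (hA : (l : K) ∈ A.nonunits) (g h : K ≃ₐ[ℚ] K)
    (hg : ∀ z, z ∈ A ↔ g z ∈ A) (hh : ∀ z, z ∈ A ↔ h z ∈ A) (x : A) :
    IsLocalRing.residue A (rst A g hg (rst A h hh x)) =
      IsLocalRing.residue A (rst A h hh (rst A g hg x)) := by
  by_cases hx : IsLocalRing.residue A x = 0
  · rw [rst_res A g hg _ (rst_res A h hh _ hx), rst_res A h hh _ (rst_res A g hg _ hx)]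
  · obtain ⟨a, ha⟩ := pow_congr l hl A hA g hg x hx
    obtain ⟨b, hb⟩ := pow_congr l hl A hA h hh x hx
    rw [rst_congr A g hg _ _ hb, rst_congr A h hh _ _ ha, map_pow, map_pow, map_pow, map_pow, ha, hb,
      map_pow, map_pow, ← pow_mul, ← pow_mul, mul_comm]

end T2aux

open T2aux in
theorem t_T2 : S_T2 := by
  intro K _ _ _ _ l hl A hA g h hg hh z hz
  have hg' : ∀ z, z ∈ A ↔ g⁻¹ z ∈ A := by
    intro z
    rw [hg (g⁻¹ z), ← AlgEquiv.mul_apply, mul_inv_cancel]
    rfl
  have hh' : ∀ z, z ∈ A ↔ h⁻¹ z ∈ A := by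
    intro z
    rw [hh (h⁻¹ z), ← AlgEquiv.mul_apply, mul_inv_cancel]
    rfl
  have hw : (g⁻¹ * h⁻¹) z ∈ A := by
    rw [AlgEquiv.mul_apply, ← hg', ← hh']
    exact hz
  have h1 := comm_res l hl A hA g h hg hh ⟨_, hw⟩
  rw [← sub_eq_zero, ← map_sub, ← nonunit_iff] at h1
  have e1 : (g * h * g⁻¹ * h⁻¹) z = g (h ((g⁻¹ * h⁻¹) z)) := by
    simp only [AlgEquiv.mul_apply]
  have e2 : z = h (g ((g⁻¹ * h⁻¹) z)) := by
    have : h * g * (g⁻¹ * h⁻¹) = 1 := by group
    calc z = (1 : K ≃ₐ[ℚ] K) z := rfl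
      _ = (h * g * (g⁻¹ * h⁻¹)) z := by rw [this]
      _ = _ := rfl
  have e3 : (((rst A g hg (rst A h hh ⟨_, hw⟩) - rst A h hh (rst A g hg ⟨_, hw⟩) : A)) : K) =
      g (h ((g⁻¹ * h⁻¹) z)) - h (g ((g⁻¹ * h⁻¹) z)) := rfl
  rw [e3, ← e1, ← e2] at h1
  exact h1

end Y680.W
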