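import Pool.Agent.Y680.W.Stm

/-!
W-T2G: transfer of W-T2 to the big group (helper427).
-/

open scoped Pointwise TensorProduct

noncomputable section

namespace Y680.W

namespace T2G

/-- the restriction of an element of the big group to the algebraic numbers -/
def rq (g : GG) : Qb ≃ₐ[ℚ] Qb where
  toFun z := ⟨g z, map_Qb g z.2⟩
  invFun z := ⟨g⁻¹ z, map_Qb g⁻¹ z.2⟩
  left_inv z := by
    ext
    change g⁻¹ (g z) = z
    rw [← AlgEquiv.mul_apply, inv_mul_cancel]
    rfl
  right_inv z := by
    ext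
    change g (g⁻¹ z) = z
    rw [← AlgEquiv.mul_apply, mul_inv_cancel]
    rfl
  map_mul' x y := by
    ext
    simp
  map_add' x y := by
    ext
    simp
  commutes' q := by
    ext
    exact (g.toAlgHom.restrictScalars ℚ).commutes q

theorem rq_coe (g : GG) (z : Qb) : ((rq g z : Qb) : Om) = g z := rfl

theorem rq_mul (g h : GG) : rq (g * h) = rq g * rq h := by
  ext z
  rfl

theorem rq_inv (g : GG) : rq g⁻¹ = (rq g)⁻¹ := by
  ext z
  rfl

end T2G

open T2G in
theorem t_T2G (h : S_T2) : S_T2G := by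
  intro l hl A hA g k hg hk z hz
  have i1 : IsAlgClosed Qb := (algebraicClosure.isAlgClosure ℚ Om).isAlgClosed
  have i2 : Algebra.IsAlgebraic ℚ Qb := (algebraicClosure.isAlgClosure ℚ Om).isAlgebraic
  have h1 := h Qb l hl A hA (rq g) (rq k) hg hk z hz
  rw [← rq_inv, ← rq_inv, ← rq_mul, ← rq_mul, ← rq_mul] at h1
  exact h1

end Y680.W
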