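import Pool.Agent.Y680.W.Stm

/-!
W-TRANS: Galois groups act transitively on the valuation rings above a valuation ring
(project WG, MP_fd87b4_nt).
-/

open scoped Pointwise

noncomputable section

namespace Y680.W

namespace TransAux

section

variable {K Ω : Type} [Field K] [Field Ω] [Algebra K Ω]

/-- the trace of a valuation ring -/
def Rr (K : Type) {Ω : Type} [Field K] [Field Ω] [Algebra K Ω] (v : ValuationSubring Ω) :
    Subring K := v.toSubring.comap (algebraMap K Ω)

theorem mem_Rr (v : ValuationSubring Ω) (x : K) : x ∈ Rr K v ↔ algebraMap K Ω x ∈ v := Iff.rfl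

/-- integral elements are in every valuation ring above the trace -/
theorem mem_of_int (v w : ValuationSubring Ω)
    (h : ∀ x : K, algebraMap K Ω x ∈ v → algebraMap K Ω x ∈ w) {x : Ω}
    (hx : IsIntegral (Rr K v) x) : x ∈ w := by
  haveI : IsIntegrallyClosedIn w Ω := inferInstance
  let φ : Rr K v →+* w :=
    { toFun := fun y => ⟨algebraMap K Ω y, h y y.2⟩
      map_one' := by ext; simp
      map_mul' := fun a b => by ext; simp
      map_zero' := by ext; simp
      map_add' := fun a b => by ext; simp }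
  have h1 : IsIntegral w ((RingHom.id Ω) x) :=
    hx.map_of_comp_eq φ (RingHom.id Ω) (by ext y; rfl)
  obtain ⟨y, hy⟩ := IsIntegrallyClosedIn.algebraMap_eq_of_integral h1
  rw [RingHom.id_apply] at hy
  rw [← hy]
  exact y.2

/-- elements in all valuation rings above the trace are integral -/
theorem int_of_mem (v : ValuationSubring Ω) {x : Ω}
    (hx : ∀ u : ValuationSubring Ω, (∀ y : K, algebraMap K Ω y ∈ v → algebraMap K Ω y ∈ u) →
      x ∈ u) : IsIntegral (Rr K v) x := by
  by_contra hcon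
  have h1 : x ∉ (integralClosure (Rr K v) Ω).toSubring := hcon
  obtain ⟨V, hV1, hV2⟩ := Subring.exists_le_valuationSubring_of_isIntegrallyClosedIn h1
  apply hV2
  apply hx V
  intro y hy
  apply hV1
  exact (integralClosure (Rr K v) Ω).algebraMap_mem ⟨y, hy⟩

/-- the centre of a valuation ring -/
theorem exists_centre (v w : ValuationSubring Ω)
    (h : ∀ x : K, algebraMap K Ω x ∈ v → algebraMap K Ω x ∈ w) :
    ∃ P : Ideal (integralClosure (Rr K v) Ω), P.IsPrime ∧ ∀ x, x ∈ P ↔ (x : Ω) ∈ w.nonunits := by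
  let f : integralClosure (Rr K v) Ω →+* w :=
    { toFun := fun y => ⟨y, mem_of_int v w h y.2⟩
      map_one' := rfl
      map_mul' := fun a b => rfl
      map_zero' := rfl
      map_add' := fun a b => rfl }
  refine ⟨(IsLocalRing.maximalIdeal w).comap f, Ideal.comap_isPrime f _, fun x => ?_⟩
  rw [Ideal.mem_comap]
  exact ValuationSubring.coe_mem_nonunits_iff.symm

theorem smul_nonunits (g : Ω ≃ₐ[K] Ω) {x : Ω} {v : ValuationSubring Ω} :
    x ∈ (g • v).nonunits ↔ g⁻¹ x ∈ v.nonunits := by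
  rw [ValuationSubring.mem_nonunits_iff_or, ValuationSubring.mem_nonunits_iff_or]
  have h2 : (g⁻¹ x)⁻¹ = g⁻¹ • x⁻¹ := by
    rw [AlgEquiv.smul_def, map_inv₀]
  rw [h2, ValuationSubring.mem_pointwise_smul_iff_inv_smul_mem]
  simp

end

section

variable {K Ω : Type} [Field K] [Field Ω] [Algebra K Ω] [CharZero K] [IsAlgClosed Ω]
  [Algebra.IsAlgebraic K Ω]

theorem isGal : IsGalois K Ω := by
  haveI : Normal K Ω := normal_iff.2 fun x =>
    ⟨Algebra.IsIntegral.isIntegral x, IsAlgClosed.splits _⟩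
  exact ⟨⟩

theorem trans_prime (v : ValuationSubring Ω) (P Q : Ideal (integralClosure (Rr K v) Ω))
    [P.IsPrime] [Q.IsPrime] (hPQ : P.under (Rr K v) = Q.under (Rr K v)) :
    ∃ g : Ω ≃ₐ[K] Ω, Q = g • P := by
  haveI := isGal (K := K) (Ω := Ω)
  letI : TopologicalSpace (integralClosure (Rr K v) Ω) := ⊥
  haveI : DiscreteTopology (integralClosure (Rr K v) Ω) := ⟨rfl⟩
  haveI : ContinuousSMul (Ω ≃ₐ[K] Ω) (integralClosure (Rr K v) Ω) := by
    rw [continuousSMul_iff_stabilizer_isOpen]
    intro x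
    have h1 := stabilizer_isOpen_of_isIntegral (K := K) (x : Ω)
    have h2 : (MulAction.stabilizer (Ω ≃ₐ[K] Ω) x : Set (Ω ≃ₐ[K] Ω)) =
        (MulAction.stabilizer (Ω ≃ₐ[K] Ω) (x : Ω) : Set (Ω ≃ₐ[K] Ω)) := by
      ext g
      simp only [SetLike.mem_coe, MulAction.mem_stabilizer_iff]
      exact Subtype.ext_iff
    rw [h2]
    exact h1
  haveI : Algebra.IsInvariant (Rr K v) (integralClosure (Rr K v) Ω) (Ω ≃ₐ[K] Ω) := by
    refine ⟨fun b hb => ?_⟩
    have h1 : ∀ g : Ω ≃ₐ[K] Ω, g (b : Ω) = b := fun g => congrArg Subtype.val (hb g)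
    obtain ⟨k, hk⟩ := (InfiniteGalois.mem_bot_iff_fixed (b : Ω)).2 h1
    have h2 : algebraMap K Ω k ∈ v := by
      have h3 := mem_of_int v v (fun _ h => h) b.2
      have h4 : algebraMap K Ω k = (b : Ω) := hk
      rw [h4]
      exact h3
    refine ⟨⟨k, h2⟩, Subtype.ext ?_⟩
    exact hk
  exact Algebra.IsInvariant.exists_smul_of_under_eq_of_profinite P Q hPQ

end

end TransAux

open TransAux in
theorem t_TRANS (h : S_DICT) : S_TRANS := by
  intro K Ω _ _ _ _ _ _ v w hvw
  obtain ⟨P, hP, hPm⟩ := exists_centre (K := K) v v (fun _ h => h)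
  obtain ⟨Q, hQ, hQm⟩ := exists_centre (K := K) v w (fun x hx => (hvw x).1 hx)
  have hPQ : P.under (Rr K v) = Q.under (Rr K v) := by
    ext x
    change algebraMap (Rr K v) (integralClosure (Rr K v) Ω) x ∈ P ↔
      algebraMap (Rr K v) (integralClosure (Rr K v) Ω) x ∈ Q
    rw [hPm, hQm]
    change algebraMap K Ω x ∈ v.nonunits ↔ algebraMap K Ω x ∈ w.nonunits
    rw [ValuationSubring.mem_nonunits_iff_or, ValuationSubring.mem_nonunits_iff_or, ← map_inv₀,
      hvw]
  obtain ⟨g, hg⟩ := trans_prime v P Q hPQ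
  refine ⟨g, h K Ω (g • v) w ?_ ?_⟩
  · intro x
    rw [← hvw]
    rw [ValuationSubring.mem_pointwise_smul_iff_inv_smul_mem, AlgEquiv.smul_def,
      AlgEquiv.commutes]
  · intro x hx
    have h1 : IsIntegral (Rr K v) x := by
      apply int_of_mem
      intro u hu
      apply hx u
      intro y hy
      apply hu
      rw [ValuationSubring.mem_pointwise_smul_iff_inv_smul_mem, AlgEquiv.smul_def,
        AlgEquiv.commutes] at hy
      exact hy
    have h2 := hQm ⟨x, h1⟩
    rw [hg, Ideal.mem_pointwise_smul_iff_inv_smul_mem, hPm] at h2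
    rw [smul_nonunits]
    exact h2

end Y680.W
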