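import Pool.Agent.Y680.W.Stm

/-!
W-VAL: the residue field of a place is the field of algebraic numbers.
-/

open scoped Pointwise TensorProduct
open Polynomial

noncomputable section

namespace Y680.W

theorem Qb_le {v : ValuationSubring Om} (hq : ∀ q : ℚ, algebraMap ℚ Om q ∈ v) {x : Om}
    (hx : x ∈ Qb) : x ∈ v := by
  have h1 : IsIntegral ℚ x := (mem_algebraicClosure_iff.1 hx).isIntegral
  let φ : ℚ →+* v :=
    { toFun := fun q => ⟨algebraMap ℚ Om q, hq q⟩
      map_one' := Subtype.ext (map_one _)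
      map_mul' := fun a b => Subtype.ext (map_mul _ _ _)
      map_zero' := Subtype.ext (map_zero _)
      map_add' := fun a b => Subtype.ext (map_add _ _ _) }
  have h2 : IsIntegral v x := by
    obtain ⟨P, hP, hP2⟩ := h1
    refine ⟨P.map φ, hP.map φ, ?_⟩
    rw [eval₂_map]
    exact hP2
  obtain ⟨y, hy⟩ := (IsIntegrallyClosed.isIntegral_iff (R := v) (K := Om)).1 h2
  rw [← hy]
  exact y.2

theorem Qb_zero {v : ValuationSubring Om} (hq : ∀ q : ℚ, algebraMap ℚ Om q ∈ v) {x : Om}
    (hx : x ∈ Qb) (hn : x ∈ v.nonunits) : x = 0 := by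
  rw [ValuationSubring.mem_nonunits_iff_or] at hn
  rcases hn with h | h
  · exact h
  · exact absurd (Qb_le hq (inv_mem hx)) h

theorem algMap_X : algebraMap ℚ[X] Om (X : ℚ[X]) = tt := by
  unfold tt
  rw [IsScalarTower.algebraMap_apply ℚ[X] (RatFunc ℚ) Om, RatFunc.algebraMap_X]

theorem algMap_eq (P : ℚ[X]) : algebraMap ℚ[X] Om P = aeval tt P := by
  have h : (IsScalarTower.toAlgHom ℚ ℚ[X] Om) = (aeval tt : ℚ[X] →ₐ[ℚ] Om) := by
    apply Polynomial.algHom_ext
    rw [aeval_X]
    exact algMap_X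
  exact congrArg (fun f : ℚ[X] →ₐ[ℚ] Om => f P) h

theorem val_tt_trans {P : ℚ[X]} (h : aeval tt P = 0) : P = 0 := by
  rw [← algMap_eq, IsScalarTower.algebraMap_apply ℚ[X] (RatFunc ℚ) Om] at h
  have h1 := (map_eq_zero (algebraMap (RatFunc ℚ) Om)).1 h
  exact (map_eq_zero_iff _ (RatFunc.algebraMap_injective ℚ)).1 h1

theorem tt_notMem : tt ∉ Qb := by
  intro h
  obtain ⟨P, hP, hP2⟩ := mem_algebraicClosure_iff.1 h
  exact hP (val_tt_trans hP2)

theorem loc_ne (a : Option Qb) : loc a ≠ 0 := by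
  cases a with
  | none =>
    intro h
    have h1 : tt = 0 := inv_eq_zero.1 h
    exact tt_notMem (h1 ▸ zero_mem _)
  | some a =>
    intro h
    have h1 : tt = (a : Om) := sub_eq_zero.1 h
    exact tt_notMem (h1 ▸ a.2)

/-- `t` and `z` are algebraically dependent. -/
theorem dep_tt (z : Om) : ∃ G : Qb[X][X], G ≠ 0 ∧
    eval₂ ((aeval z : Qb[X] →ₐ[Qb] Om) : Qb[X] →+* Om) tt G = 0 := by
  have h1 : IsAlgebraic (RatFunc ℚ) z := Algebra.IsAlgebraic.isAlgebraic z
  have h2 : IsAlgebraic ℚ[X] z := (IsFractionRing.isAlgebraic_iff ℚ[X] (RatFunc ℚ) Om).2 h1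
  obtain ⟨P, hP, hP2⟩ := h2
  let Q : Qb[X][X] := P.map (mapRingHom (algebraMap ℚ Qb))
  have hQ : Q ≠ 0 := by
    refine (Polynomial.map_ne_zero_iff ?_).2 hP
    exact Polynomial.map_injective _ (algebraMap ℚ Qb).injective
  refine ⟨Bivariate.swap Q, fun h => hQ ?_, ?_⟩
  · exact (map_eq_zero_iff _ (Bivariate.swap (R := Qb)).injective).1 h
  · have h3 := Bivariate.aevalAeval_swap (R := Qb) z tt Q
    have h4 : ∀ (x y : Om) (F : Qb[X][X]), aevalAeval x y F =
        eval₂ ((aeval x : Qb[X] →ₐ[Qb] Om) : Qb[X] →+* Om) y F := by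
      intro x y F
      induction F using Polynomial.induction_on' with
      | add p q hp hq => rw [map_add, hp, hq, eval₂_add]
      | monomial n a =>
        rw [eval₂_monomial, ← C_mul_X_pow_eq_monomial, map_mul, map_pow, aevalAeval_C,
          aevalAeval_Y]
        rfl
    rw [← h4, h3, h4]
    rw [eval₂_map]
    rw [aeval_def] at hP2
    have h5 : (((aeval tt : Qb[X] →ₐ[Qb] Om) : Qb[X] →+* Om).comp
        (mapRingHom (algebraMap ℚ Qb))) = algebraMap ℚ[X] Om := by
      apply Polynomial.ringHom_ext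
      · intro q
        rw [RingHom.comp_apply, coe_mapRingHom, map_C]
        change aeval tt (C (algebraMap ℚ Qb q)) = _
        rw [aeval_C, algMap_eq, aeval_C]
        rfl
      · rw [RingHom.comp_apply, coe_mapRingHom, map_X]
        change aeval tt X = _
        rw [aeval_X, algMap_X]
    rw [h5]
    exact hP2

theorem dep_loc (a : Option Qb) (z : Om) : ∃ G : Qb[X][X], G ≠ 0 ∧
    eval₂ ((aeval z : Qb[X] →ₐ[Qb] Om) : Qb[X] →+* Om) (loc a) G = 0 := by
  obtain ⟨G, hG, hG2⟩ := dep_tt z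
  have ht : tt ≠ 0 := fun h => tt_notMem (h ▸ zero_mem _)
  cases a with
  | none =>
    refine ⟨G.reverse, fun h => hG (reverse_eq_zero.1 h), ?_⟩
    let _inv : Invertible tt := invertibleOfNonzero ht
    have h1 := (eval₂_reverse_eq_zero_iff
      ((aeval z : Qb[X] →ₐ[Qb] Om) : Qb[X] →+* Om) tt G).2 hG2
    rw [invOf_eq_inv] at h1
    exact h1
  | some a =>
    refine ⟨G.comp (X + C (C a)), fun h => hG ?_, ?_⟩
    · have h1 : taylor (C a) G = 0 := h
      exact (taylor_injective (C a)) (h1.trans (map_zero _).symm)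
    · rw [eval₂_comp, eval₂_add, eval₂_X, eval₂_C]
      have h2 : loc (some a) + ((aeval z : Qb[X] →ₐ[Qb] Om) : Qb[X] →+* Om) (C a) = tt := by
        change tt - (a : Om) + aeval z (C a) = tt
        rw [aeval_C]
        exact sub_add_cancel _ _
      rw [h2]
      exact hG2

theorem dep_min {R S : Type*} [CommRing R] [Field S] (i : R →+* S) (u : S) (hu : u ≠ 0) :
    ∀ (n : ℕ) (G : R[X]), G ≠ 0 → G.natDegree ≤ n → eval₂ i u G = 0 →
    ∃ G' : R[X], G'.coeff 0 ≠ 0 ∧ eval₂ i u G' = 0 := by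
  intro n
  induction n with
  | zero =>
    intro G h1 h2 h3
    refine ⟨G, fun h => h1 ?_, h3⟩
    rw [eq_C_of_natDegree_le_zero h2, h, C_0]
  | succ n ih =>
    intro G h1 h2 h3
    by_cases h0 : G.coeff 0 = 0
    · have h4 : G.divX * X = G := by
        have := divX_mul_X_add G
        rw [h0, C_0, add_zero] at this
        exact this
      refine ih G.divX ?_ ?_ ?_
      · intro h
        rw [h, zero_mul] at h4
        exact h1 h4.symm
      · rw [natDegree_divX_eq_natDegree_tsub_one]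
        omega
      · rw [← h4, eval₂_mul, eval₂_X] at h3
        exact (mul_eq_zero.1 h3).resolve_right hu
    · exact ⟨G, h0, h3⟩

theorem t_VAL : S_VAL := by
  intro a v hv z hz
  obtain ⟨hq, hu⟩ := hv
  obtain ⟨G0, hG0, hG0'⟩ := dep_loc a z
  set i : Qb[X] →+* Om := ((aeval z : Qb[X] →ₐ[Qb] Om) : Qb[X] →+* Om) with hi
  obtain ⟨G, hG, hG'⟩ := dep_min i (loc a) (loc_ne a) _ G0 hG0 le_rfl hG0'
  have hiv : ∀ P : Qb[X], i P ∈ v := by
    intro P
    change aeval z P ∈ v
    rw [aeval_eq_sum_range]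
    refine sum_mem fun j _ => ?_
    have : P.coeff j • z ^ j = ((P.coeff j : Qb) : Om) * z ^ j := rfl
    rw [this]
    exact mul_mem (Qb_le hq (P.coeff j).2) (pow_mem hz j)
  have huv : loc a ∈ v := ValuationSubring.nonunits_subset hu
  have hGv : ∀ P : Qb[X][X], eval₂ i (loc a) P ∈ v := by
    intro P
    rw [eval₂_eq_sum_range]
    exact sum_mem fun j _ => mul_mem (hiv _) (pow_mem huv j)
  -- the maximal ideal
  let m := IsLocalRing.maximalIdeal v
  have hm : ∀ x : v, x ∈ m ↔ (x : Om) ∈ v.nonunits := by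
    intro x
    rw [ValuationSubring.mem_nonunits_iff_exists_mem_maximalIdeal]
    constructor
    · intro h
      exact ⟨x.2, h⟩
    · rintro ⟨_, h⟩
      exact h
  set g : Qb[X] := G.coeff 0 with hg
  have h1 : i g = - (eval₂ i (loc a) G.divX * loc a) := by
    have h2 := divX_mul_X_add G
    rw [← h2, eval₂_add, eval₂_mul, eval₂_X, eval₂_C] at hG'
    exact eq_neg_of_add_eq_zero_right hG'
  have h2 : (⟨i g, hiv g⟩ : v) ∈ m := by
    have h3 : (⟨i g, hiv g⟩ : v) = -(⟨eval₂ i (loc a) G.divX, hGv _⟩ * ⟨loc a, huv⟩) :=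
      Subtype.ext h1
    rw [h3]
    exact m.neg_mem (m.mul_mem_left _ ((hm _).2 hu))
  -- factorisation of g
  have hac : IsAlgClosed Qb := (algebraicClosure.isAlgClosure ℚ Om).isAlgClosed
  have hs : g.Splits := IsAlgClosed.splits g
  have h4 := hs.eq_prod_roots
  have hC : g.leadingCoeff ≠ 0 := leadingCoeff_ne_zero.2 hG
  let j : Qb[X] →+* v := i.codRestrict v.toSubring hiv
  have hj : j g ∈ m := h2
  rw [h4, map_mul, map_multiset_prod, Multiset.map_map] at hj
  rcases (IsLocalRing.maximalIdeal.isMaximal v).isPrime.mem_or_mem hj with h5 | h5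
  · exfalso
    have h6 : ((j (C g.leadingCoeff) : v) : Om) = ((g.leadingCoeff : Qb) : Om) := by
      change aeval z (C g.leadingCoeff) = _
      rw [aeval_C]
      rfl
    have h7 := (hm _).1 h5
    rw [h6] at h7
    have h8 := Qb_zero hq g.leadingCoeff.2 h7
    exact hC (Subtype.ext h8)
  · obtain ⟨w, hw, hx2⟩ :=
      ((IsLocalRing.maximalIdeal.isMaximal v).isPrime.multiset_prod_mem_iff_exists_mem _).1 h5
    obtain ⟨x, hx, rfl⟩ := Multiset.mem_map.1 hw
    refine ⟨x, ?_⟩
    have h6 : ((((j ∘ fun a => X - C a) x : v)) : Om) = z - (x : Om) := by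
      change aeval z (X - C x) = _
      rw [map_sub, aeval_X, aeval_C]
      rfl
    rw [← h6]
    exact (hm _).1 hx2

end Y680.W
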