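import Pool.Agent.Y680.W.A9
import Pool.Agent.Y680.W.T_DICT
import Pool.Agent.Y680.W.T_TRANS
import Pool.Agent.Y680.W.T_PLACE
import Pool.Agent.Y680.W.T_EX
import Pool.Agent.Y680.W.T_VAL
import Pool.Agent.Y680.W.T_SURJ
import Pool.Agent.Y680.W.T_H90
import Pool.Agent.Y680.W.T_FIX
import Pool.Agent.Y680.W.T_INER
import Pool.Agent.Y680.W.T_KUM
import Pool.Agent.Y680.W.T_T1
import Pool.Agent.Y680.W.T_T2
import Pool.Agent.Y680.W.T_FROB
import Pool.Agent.Y680.W.T_K3
import Pool.Agent.Y680.W.T_FIN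
import Pool.Agent.Y680.W.T_T1G
import Pool.Agent.Y680.W.T_FROBG
import Pool.Agent.Y680.W.T_T2G

/-! Assembly: an invariant unipotent path from infinity to zero. -/

open scoped Pointwise TensorProduct Topology Polynomial

noncomputable section

namespace Y680.W

theorem f_TRANS : S_TRANS := t_TRANS t_DICT
theorem f_PLACE : S_PLACE := t_PLACE f_TRANS
theorem f_KUM : S_KUM := t_KUM t_H90 t_FIX (t_INER f_PLACE) t_EX t_VAL
theorem f_K2 : S_K2 := t_K2 f_KUM
theorem f_K3 : S_K3 := t_K3 f_KUM t_VAL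
theorem f_FIN : S_FIN := t_FIN f_KUM
theorem f_T1G : S_T1G := t_T1G (t_T1 t_H90)
theorem f_T2G : S_T2G := t_T2G t_T2
theorem f_FROBG : S_FROBG := t_FROBG (t_FROB t_DICT) t_SURJ f_PLACE

/-- the polynomial X^d - c -/
def ff0 (d : ℕ) (c : ℚ) : Polynomial ℚ := Polynomial.X ^ d - Polynomial.C c

theorem exists_path (p l d : ℕ) [Fact p.Prime] (hl : l.Prime) (hlp : l ≠ p) (hd : 0 < d) (c : ℚ)
    (hc : c ≠ 0) (A : ValuationSubring Qb) (hA : (l : Qb) ∈ A.nonunits) :
    ∃ h : Trans p (ff0 d c), ∀ n, IsPath n none (some 0) h ∧ Invt n A none (some 0) h := by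
  obtain ⟨v, hv⟩ := t_EX none
  obtain ⟨w, hw⟩ := t_EX (some 0)
  have hf : ff0 d c ≠ 0 := by
    intro h
    have := Polynomial.X_pow_sub_C_ne_zero hd c
    exact this h
  have hga : ∀ g : GG, gpt g none = none := fun g => rfl
  have hgb : ∀ g : GG, gpt g (some 0) = some 0 := by
    intro g
    change some (⟨g ((0 : Qb) : Om), _⟩ : Qb) = some 0
    congr 1
    apply Subtype.ext
    change g ((0 : Qb) : Om) = ((0 : Qb) : Om)
    push_cast
    exact map_zero g
  have hcv : ∀ v' : ValuationSubring Om, ∃ γ : Gam, IsPlace none v' → (γ : GG) • v = v' := by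
    intro v'
    by_cases h : IsPlace none v'
    · obtain ⟨δ, h1, _, h3⟩ := f_PLACE none 1 (loc none) one_pos (pow_one _) v v' hv h
      exact ⟨⟨δ, h1⟩, fun _ => h3⟩
    · exact ⟨1, fun h' => absurd h' h⟩
  have hcw : ∀ w' : ValuationSubring Om, ∃ γ : Gam, IsPlace (some 0) w' → (γ : GG) • w = w' := by
    intro w'
    by_cases h : IsPlace (some 0) w'
    · obtain ⟨δ, h1, _, h3⟩ := f_PLACE (some 0) 1 (loc (some 0)) one_pos (pow_one _) w w' hw h
      exact ⟨⟨δ, h1⟩, fun _ => h3⟩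
    · exact ⟨1, fun h' => absurd h' h⟩
  choose cv hcv using hcv
  choose cw hcw using hcw
  have hroot0 : ¬ IsRoot (ff0 d c) (some 0) := by
    intro h
    have h1 : Polynomial.aeval (0 : Qb) (ff0 d c) = 0 := h
    unfold ff0 at h1
    rw [map_sub, map_pow, Polynomial.aeval_X, Polynomial.aeval_C, zero_pow hd.ne', zero_sub,
      neg_eq_zero] at h1
    exact hc ((map_eq_zero _).1 h1)
  obtain ⟨φ, hφ1, hφ2, hφ3, hφ4⟩ := f_FROBG p l hl hlp A hA (some 0) hgb w hw (ff0 d c) hf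
  let gm : GG → Gam := fun g => cv (g • v)
  have hgm : ∀ g : GG, (gm g : GG) • v = g • v := by
    intro g
    apply hcv
    exact isPlace_smul g hv
  have D : Dat p l (ff0 d c) none (some 0) A v w gm :=
    { hl := hl
      hlp := hlp
      hA := hA
      ha := fun h => h
      hb := hroot0
      hv := hv
      hw := hw
      hgm := hgm
      hφ := ⟨φ, ⟨⟨hφ1, hφ2⟩, hφ3⟩, fun i hi => ch_pow_ne (hφ4 i hi)⟩ }
  have hV : Van1 p (ff0 d c) A w gm := by
    intro lam hlam τ hτ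
    refine f_K3 p d c hd hc lam hlam v w hv hw τ (gm τ) hτ.1.1.2 ?_ hτ.1.2 ?_
    · rw [mul_smul, ← hgm τ, inv_smul_smul]
    · intro ζ k hζ
      exact iner_fix hl hlp hA hτ.2 ζ k hζ
  obtain ⟨S0, al, F⟩ := D.exists_fam hf f_FIN f_K2 f_T1G f_T2G hV
  exact ⟨hp cv cw al, fun n => ⟨isPath_hp hcv hcw hga hgb F D f_K2 n,
    invt_hp hcv hcw hga hgb F D f_K2 n⟩⟩

end Y680.W
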