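import Pool.Agent.Y680.W.A1

/-! Direct sums, tensor products, the faithful object of given length. -/

open scoped Pointwise TensorProduct

noncomputable section

namespace Y680.W

variable {p : ℕ} [Fact p.Prime] {f : Polynomial ℚ}

/-- the direct sum of two local systems -/
def LocSys.sum (S T : LocSys p f) : LocSys p f where
  V := S.V × T.V
  rho := S.rho.prod T.rho
  cont := fun v l => by
    have h : (fun γ : Gam => l ((S.rho.prod T.rho) γ v)) = fun γ : Gam =>
        (l ∘ₗ LinearMap.inl ℚ_[p] S.V T.V) (S.rho γ v.1) +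
        (l ∘ₗ LinearMap.inr ℚ_[p] S.V T.V) (T.rho γ v.2) := by
      funext γ
      simp only [LinearMap.comp_apply, ← map_add]
      congr 1
      simp [Representation.prod]
    rw [h]
    exact (S.cont _ _).add (T.cont _ _)
  unip := by
    obtain ⟨m, W, a1, a2, a3, a4⟩ := S.unip
    obtain ⟨m', W', b1, b2, b3, b4⟩ := T.unip
    refine ⟨m + m', fun i => (W i).prod (W' i), ?_, ?_, ?_, ?_⟩
    · intro i j hij
      exact Submodule.prod_mono (a1 hij) (b1 hij)
    · simp only [a2, b2, Submodule.prod_top]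
    · have h1 : W (m + m') = ⊥ := by
        have := a1 (Nat.le_add_right m m')
        rw [a3] at this; exact le_bot_iff.1 this
      have h2 : W' (m + m') = ⊥ := by
        have := b1 (Nat.le_add_left m' m)
        rw [b3] at this; exact le_bot_iff.1 this
      simp only [h1, h2, Submodule.prod_bot]
    · rintro i ⟨w, w'⟩ ⟨hw, hw'⟩ γ
      exact ⟨a4 i w hw γ, b4 i w' hw' γ⟩
  unram := by
    intro a ha v hv γ hγ
    have h1 := S.unram a ha v hv γ hγ
    have h2 := T.unram a ha v hv γ hγ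
    change (S.rho γ).prodMap (T.rho γ) = 1
    rw [h1, h2]; rfl

theorem act_sum (S T : LocSys p f) (x : RR p) : (S.sum T).act x = (S.act x).prodMap (T.act x) := by
  induction x using RR_induction with
  | h1 γ => rw [LocSys.act_ge, LocSys.act_ge, LocSys.act_ge]; rfl
  | h2 x y hx hy => rw [map_add, map_add, map_add, hx, hy]; rfl
  | h3 r x hx => rw [map_smul, map_smul, map_smul, hx]; rfl

theorem act_sum_eq_zero (S T : LocSys p f) (x : RR p) :
    (S.sum T).act x = 0 ↔ S.act x = 0 ∧ T.act x = 0 := by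
  rw [act_sum]
  change (S.act x).prodMap (T.act x) = (0 : S.V × T.V →ₗ[ℚ_[p]] S.V × T.V) ↔ _
  constructor
  · intro h
    constructor
    · ext v
      have := LinearMap.congr_fun h (v, 0)
      simpa using congrArg Prod.fst this
    · ext v
      have := LinearMap.congr_fun h (0, v)
      simpa using congrArg Prod.snd this
  · rintro ⟨h1, h2⟩
    rw [h1, h2]; ext v <;> simp

theorem Len.sum {S T : LocSys p f} {m : ℕ} (hS : Len m S) (hT : Len m T) : Len m (S.sum T) :=
  fun x hx => (act_sum_eq_zero S T x).2 ⟨hS x hx, hT x hx⟩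

theorem tot_filt (S T : LocSys p f) {m m' : ℕ} {W : ℕ → Submodule ℚ_[p] S.V}
    {W' : ℕ → Submodule ℚ_[p] T.V} (a1 : Antitone W) (a2 : W 0 = ⊤) (a3 : W m = ⊥)
    (a4 : ∀ i, ∀ w ∈ W i, ∀ γ, S.rho γ w - w ∈ W (i + 1)) (b1 : Antitone W') (b2 : W' 0 = ⊤)
    (b3 : W' m' = ⊥) (b4 : ∀ i, ∀ w ∈ W' i, ∀ γ, T.rho γ w - w ∈ W' (i + 1)) :
    LocSys.totF W W' 0 = ⊤ ∧ LocSys.totF W W' (m + m') = ⊥ ∧
    ∀ i, ∀ w ∈ LocSys.totF W W' i, ∀ γ, (S.rho.tprod T.rho) γ w - w ∈ LocSys.totF W W' (i + 1) := by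
  refine ⟨?_, ?_, ?_⟩
  · rw [eq_top_iff, ← TensorProduct.span_tmul_eq_top]
    apply Submodule.span_mono
    rintro z ⟨v, w, rfl⟩
    exact ⟨0, 0, le_rfl, v, by rw [a2]; trivial, w, by rw [b2]; trivial, rfl⟩
  · rw [eq_bot_iff]
    apply Submodule.span_le.2
    rintro z ⟨i, j, h1, v, hv, w, hw, rfl⟩
    rcases le_or_gt m i with h | h
    · have : v = 0 := by
        have := a1 h hv
        rwa [a3, Submodule.mem_bot] at this
      simp [this]
    · have : w = 0 := by
        have := b1 (by omega : m' ≤ j) hw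
        rwa [b3, Submodule.mem_bot] at this
      simp [this]
  · intro i w hw γ
    induction hw using Submodule.span_induction with
    | zero => simp
    | add x y _ _ hx hy =>
      have : (S.rho.tprod T.rho) γ (x + y) - (x + y) = ((S.rho.tprod T.rho) γ x - x) +
        ((S.rho.tprod T.rho) γ y - y) := by rw [map_add]; abel
      rw [this]
      exact add_mem hx hy
    | smul c x _ hx =>
      rw [map_smul, ← smul_sub]
      exact Submodule.smul_mem _ _ hx
    | mem z hz =>
      obtain ⟨i', j', h1, v, hv, w, hw, rfl⟩ := hz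
      rw [Representation.tprod_apply, TensorProduct.map_tmul]
      have : (S.rho γ v) ⊗ₜ[ℚ_[p]] (T.rho γ w) - v ⊗ₜ w = (S.rho γ v - v) ⊗ₜ (T.rho γ w - w) +
          (S.rho γ v - v) ⊗ₜ w + v ⊗ₜ (T.rho γ w - w) := by
        simp only [TensorProduct.sub_tmul, TensorProduct.tmul_sub]
        abel
      rw [this]
      refine add_mem (add_mem ?_ ?_) ?_
      · exact Submodule.subset_span ⟨i' + 1, j' + 1, by omega, _, a4 _ _ hv _, _, b4 _ _ hw _, rfl⟩
      · exact Submodule.subset_span ⟨i' + 1, j', by omega, _, a4 _ _ hv _, _, hw, rfl⟩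
      · exact Submodule.subset_span ⟨i', j' + 1, by omega, _, hv, _, b4 _ _ hw _, rfl⟩

theorem Len.tensor {S T : LocSys p f} {m m' : ℕ} (hm : 0 < m) (hm' : 0 < m') (hS : Len m S)
    (hT : Len m' T) : Len (m + m') (S.tensor T) := by
  obtain ⟨W, a1, a2, a3, a4⟩ := hS.filt hm
  obtain ⟨W', b1, b2, b3, b4⟩ := hT.filt hm'
  obtain ⟨c1, c2, c3⟩ := tot_filt S T a1 a2 a3 a4 b1 b2 b3 b4
  exact Len.of_filt (S.tensor T) (W := LocSys.totF W W') c1 c2 c3

/-- continuity of all functionals of the representation -/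
theorem cont_end (S : LocSys p f) (L : Module.Dual ℚ_[p] (Module.End ℚ_[p] S.V)) :
    Continuous fun γ : Gam => L (S.rho γ) := by
  set b := Module.finBasis ℚ_[p] S.V
  have h : (fun γ : Gam => L (S.rho γ)) = fun γ : Gam =>
      ∑ j, ∑ i, b.coord i (S.rho γ (b j)) * L ((b.coord j).smulRight (b i)) := by
    funext γ
    have h1 : S.rho γ = ∑ j, ∑ i, b.coord i (S.rho γ (b j)) • ((b.coord j).smulRight (b i)) := by
      apply b.ext
      intro k
      simp only [LinearMap.sum_apply, LinearMap.smul_apply, LinearMap.smulRight_apply,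
        Module.Basis.coord_apply, Module.Basis.repr_self]
      rw [Finset.sum_eq_single k]
      · simp only [Finsupp.single_eq_same, one_smul]
        exact (b.sum_repr _).symm
      · intro j _ hj
        apply Finset.sum_eq_zero
        intro i _
        rw [Finsupp.single_eq_of_ne (by exact hj), zero_smul, smul_zero]
      · intro h; exact absurd (Finset.mem_univ _) h
    conv_lhs => rw [h1]
    simp only [map_sum, map_smul, smul_eq_mul]
  rw [h]
  refine continuous_finsetSum _ fun j _ => continuous_finsetSum _ fun i _ => ?_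
  exact (S.cont _ _).mul continuous_const

/-- functionals killing the square of the augmentation ideal give unramified characters -/
theorem isUnr_of_functional (S : LocSys p f) (L : Module.Dual ℚ_[p] (Module.End ℚ_[p] S.V))
    (hL : ∀ x ∈ II p ^ 2, L (S.act x) = 0) :
    IsUnr p f fun γ : Gam => L (S.act (ge γ - 1)) where
  add := by
    intro γ δ
    have h : (ge (γ * δ) - 1 : RR p) = (ge γ - 1) * (ge δ - 1) + (ge γ - 1) + (ge δ - 1) := by
      rw [ge_mul]; noncomm_ring
    rw [h, map_add, map_add, map_add, map_add]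
    have : L (S.act ((ge γ - 1) * (ge δ - 1))) = 0 := by
      apply hL
      rw [pow_two]
      exact Submodule.mul_mem_mul (ge_sub_one_mem γ) (ge_sub_one_mem δ)
    rw [this, zero_add]
  cont := by
    have h : (fun γ : Gam => L (S.act (ge γ - 1))) = fun γ : Gam => L (S.rho γ) - L 1 := by
      funext γ
      rw [map_sub, map_one, LocSys.act_ge, map_sub]
    rw [h]
    exact (cont_end S L).sub continuous_const
  unr := by
    intro a ha v hv γ hγ
    have h := S.unram a ha v hv γ hγ
    rw [map_sub, map_one, LocSys.act_ge, h, sub_self, map_zero]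

/-- the kernel of the action as a subspace -/
def kerA (S : LocSys p f) : Submodule ℚ_[p] (RR p) := LinearMap.ker S.act.toLinearMap

theorem mem_kerA {S : LocSys p f} {x : RR p} : x ∈ kerA S ↔ S.act x = 0 := LinearMap.mem_ker

theorem top_mul_kerA (S : LocSys p f) : (⊤ : Submodule ℚ_[p] (RR p)) * kerA S ≤ kerA S := by
  rw [Submodule.mul_le]
  intro x _ y hy
  rw [mem_kerA, map_mul, mem_kerA.1 hy, mul_zero]

theorem kerA_mul_top (S : LocSys p f) : kerA S * (⊤ : Submodule ℚ_[p] (RR p)) ≤ kerA S := by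
  rw [Submodule.mul_le]
  intro x hx y _
  rw [mem_kerA, map_mul, mem_kerA.1 hx, zero_mul]

theorem II_le_of_fin {T : Finset Gam}
    (hT : ∀ lam : Gam → ℚ_[p], IsUnr p f lam → (∀ γ ∈ T, lam γ = 0) → ∀ γ, lam γ = 0)
    (S : LocSys p f) :
    II p ≤ Submodule.span ℚ_[p] ((fun γ : Gam => (ge γ - 1 : RR p)) '' (T : Set Gam)) ⊔
      II p ^ 2 ⊔ kerA S := by
  set E := Submodule.span ℚ_[p] ((fun γ : Gam => (ge γ - 1 : RR p)) '' (T : Set Gam)) with hE
  rw [II_eq_span (p := p), Submodule.span_le]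
  rintro _ ⟨γ, rfl⟩
  rw [← II_eq_span]
  by_contra hcon
  have h1 : S.act (ge γ - 1) ∉ Submodule.map S.act.toLinearMap (E ⊔ II p ^ 2) := by
    rintro ⟨y, hy, hy2⟩
    apply hcon
    have h2 : (ge γ - 1 : RR p) = y + ((ge γ - 1) - y) := by abel
    change (ge γ - 1 : RR p) ∈ E ⊔ II p ^ 2 ⊔ kerA S
    rw [h2]
    apply Submodule.add_mem_sup hy
    rw [mem_kerA, map_sub]
    have h3 : S.act y = S.act (ge γ - 1) := hy2
    rw [h3, sub_self]
  obtain ⟨L, hL1, hL2⟩ := Submodule.exists_le_ker_of_notMem h1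
  have hu := isUnr_of_functional S L (fun x hx => by
    have : S.act x ∈ Submodule.map S.act.toLinearMap (E ⊔ II p ^ 2) :=
      ⟨x, Submodule.mem_sup_right hx, rfl⟩
    exact hL2 this)
  have := hT _ hu (fun δ hδ => by
    have : S.act (ge δ - 1) ∈ Submodule.map S.act.toLinearMap (E ⊔ II p ^ 2) :=
      ⟨_, Submodule.mem_sup_left (Submodule.subset_span ⟨δ, hδ, rfl⟩), rfl⟩
    exact hL2 this) γ
  exact hL1 this

theorem pow_le_aux {E K : Submodule ℚ_[p] (RR p)} (hE : E ≤ II p) (hK1 : ⊤ * K ≤ K)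
    (hK2 : K * ⊤ ≤ K) (h : II p ≤ E ⊔ II p ^ 2 ⊔ K) (k : ℕ) :
    II p ^ (k + 1) ≤ E ^ (k + 1) ⊔ II p ^ (k + 2) ⊔ K := by
  induction k with
  | zero => simpa using h
  | succ k ih =>
    have h1 : II p ^ (k + 1 + 1) ≤ (E ^ (k + 1) ⊔ II p ^ (k + 2) ⊔ K) * (E ⊔ II p ^ 2 ⊔ K) := by
      rw [pow_succ]; exact mul_le_mul' ih h
    refine h1.trans ?_
    rw [Submodule.sup_mul, Submodule.sup_mul]
    refine sup_le (sup_le ?_ ?_) ?_
    · rw [Submodule.mul_sup, Submodule.mul_sup]
      refine sup_le (sup_le ?_ ?_) ?_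
      · exact le_sup_of_le_left (le_sup_of_le_left (by rw [← pow_succ]))
      · refine le_sup_of_le_left (le_sup_of_le_right ?_)
        have : E ^ (k + 1) * II p ^ 2 ≤ II p ^ (k + 1) * II p ^ 2 :=
          mul_le_mul' (pow_le_pow_left' hE _) le_rfl
        rw [← pow_add] at this
        exact this
      · exact le_sup_of_le_right ((mul_le_mul' le_top le_rfl).trans hK1)
    · rw [Submodule.mul_sup, Submodule.mul_sup]
      refine sup_le (sup_le ?_ ?_) ?_
      · refine le_sup_of_le_left (le_sup_of_le_right ?_)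
        have : II p ^ (k + 2) * E ≤ II p ^ (k + 2) * II p := mul_le_mul' le_rfl hE
        rw [← pow_succ] at this
        exact this
      · refine le_sup_of_le_left (le_sup_of_le_right ?_)
        rw [← pow_add]
        exact pow_anti (by omega) (by omega)
      · exact le_sup_of_le_right ((mul_le_mul' le_top le_rfl).trans hK1)
    · exact le_sup_of_le_right ((mul_le_mul' le_rfl le_top).trans hK2)

/-- a finite dimensional space of words -/
def words (E : Submodule ℚ_[p] (RR p)) : ℕ → Submodule ℚ_[p] (RR p)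
  | 0 => 1
  | k + 1 => words E k ⊔ E ^ (k + 1)

theorem words_fg {E : Submodule ℚ_[p] (RR p)} (hE : E.FG) (k : ℕ) : (words E k).FG := by
  induction k with
  | zero => exact ⟨{1}, by simp [words, Submodule.one_eq_span]⟩
  | succ k ih => exact Submodule.FG.sup ih (hE.pow _)

theorem top_le_words {E K : Submodule ℚ_[p] (RR p)} (hE : E ≤ II p) (hK1 : ⊤ * K ≤ K)
    (hK2 : K * ⊤ ≤ K) (h : II p ≤ E ⊔ II p ^ 2 ⊔ K) (k : ℕ) :
    (⊤ : Submodule ℚ_[p] (RR p)) ≤ words E k ⊔ II p ^ (k + 1) ⊔ K := by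
  induction k with
  | zero =>
    intro x _
    have h1 : x = algebraMap ℚ_[p] (RR p) (aug x) + (x - algebraMap ℚ_[p] (RR p) (aug x)) := by abel
    refine Submodule.mem_sup_left ?_
    rw [h1]
    apply Submodule.add_mem_sup
    · exact Submodule.mem_one.2 ⟨_, rfl⟩
    · rw [zero_add, pow_one, mem_II, map_sub, AlgHom.commutes]
      simp
  | succ k ih =>
    refine ih.trans ?_
    have := pow_le_aux hE hK1 hK2 h k
    refine sup_le (sup_le ?_ ?_) ?_
    · exact le_sup_of_le_left (le_sup_of_le_left le_sup_left)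
    · refine this.trans ?_
      refine sup_le (sup_le ?_ ?_) ?_
      · exact le_sup_of_le_left (le_sup_of_le_left le_sup_right)
      · exact le_sup_of_le_left le_sup_right
      · exact le_sup_right
    · exact le_sup_right

/-- dimension of the image of the group algebra -/
def dimA (S : LocSys p f) : ℕ := Module.finrank ℚ_[p] (LinearMap.range S.act.toLinearMap)

theorem dimA_le (hfin : S_FIN) (hf : f ≠ 0) {m : ℕ} (hm : 0 < m) :
    ∃ B : ℕ, ∀ S : LocSys p f, Len m S → dimA S ≤ B := by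
  obtain ⟨T, hT⟩ := hfin p f hf
  set E := Submodule.span ℚ_[p] ((fun γ : Gam => (ge γ - 1 : RR p)) '' (T : Set Gam)) with hE
  have hE1 : E.FG := Submodule.fg_span (T.finite_toSet.image _)
  have hE2 : E ≤ II p := by
    rw [hE, Submodule.span_le]
    rintro _ ⟨γ, _, rfl⟩
    exact ge_sub_one_mem γ
  obtain ⟨j, rfl⟩ : ∃ j, m = j + 1 := ⟨m - 1, by omega⟩
  have hfg := words_fg hE1 j
  refine ⟨Module.finrank ℚ_[p] (words E j), fun S hS => ?_⟩
  have h1 := top_le_words hE2 (top_mul_kerA S) (kerA_mul_top S) (II_le_of_fin hT S) j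
  have h2 : LinearMap.range S.act.toLinearMap ≤ Submodule.map S.act.toLinearMap (words E j) := by
    rintro _ ⟨x, rfl⟩
    obtain ⟨y, hy, z, hz, hyz⟩ := Submodule.mem_sup.1 (h1 (Submodule.mem_top (x := x)))
    obtain ⟨y1, hy1, y2, hy2, hyy⟩ := Submodule.mem_sup.1 hy
    refine ⟨y1, hy1, ?_⟩
    have e1 : S.act y2 = 0 := hS y2 hy2
    have e2 : S.act z = 0 := mem_kerA.1 hz
    rw [← hyz, ← hyy]
    change S.act y1 = S.act (y1 + y2 + z)
    rw [map_add, map_add, e1, e2, add_zero, add_zero]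
  have : Module.Finite ℚ_[p] (words E j) := Module.Finite.iff_fg.2 hfg
  calc dimA S ≤ Module.finrank ℚ_[p] (Submodule.map S.act.toLinearMap (words E j)) :=
        Submodule.finrank_mono h2
    _ ≤ _ := Submodule.finrank_map_le _ _

/-- the faithful local system of length `m` -/
theorem exists_faithful (hfin : S_FIN) (hf : f ≠ 0) {m : ℕ} (hm : 0 < m) :
    ∃ S0 : LocSys p f, Len m S0 ∧ ∀ S : LocSys p f, Len m S → ∀ x, S0.act x = 0 → S.act x = 0 := by
  obtain ⟨B, hB⟩ := dimA_le (p := p) hfin hf hm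
  set A : Set ℕ := {n | ∃ S : LocSys p f, Len m S ∧ dimA S = n} with hA
  have hne : A.Nonempty := ⟨_, LocSys.unit, len_unit.mono one_pos hm, rfl⟩
  have hbd : BddAbove A := ⟨B, by rintro n ⟨S, hS, rfl⟩; exact hB S hS⟩
  obtain ⟨S0, hS0, hd⟩ := Nat.sSup_mem hne hbd
  refine ⟨S0, hS0, fun S hS x hx => ?_⟩
  have h1 : dimA (S0.sum S) ≤ dimA S0 := by
    rw [hd]
    exact le_csSup hbd ⟨_, hS0.sum hS, rfl⟩
  -- the projection of ranges
  let π0 : Module.End ℚ_[p] (S0.V × S.V) →ₗ[ℚ_[p]] Module.End ℚ_[p] S0.V :=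
    { toFun := fun A => LinearMap.fst ℚ_[p] S0.V S.V ∘ₗ A ∘ₗ LinearMap.inl ℚ_[p] S0.V S.V
      map_add' := fun A B => by ext; simp
      map_smul' := fun c A => by ext; simp }
  have hπ0 : ∀ y, π0 ((S0.act y).prodMap (S.act y)) = S0.act y := by
    intro y
    ext v
    simp [π0]
  let π : Module.End ℚ_[p] (S0.sum S).V →ₗ[ℚ_[p]] Module.End ℚ_[p] S0.V := π0
  have hπ : ∀ y, π ((S0.sum S).act y) = S0.act y := by
    intro y
    rw [act_sum]
    exact hπ0 y
  let ψ : LinearMap.range (S0.sum S).act.toLinearMap →ₗ[ℚ_[p]] LinearMap.range S0.act.toLinearMap :=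
    LinearMap.restrict π (by
      rintro _ ⟨y, rfl⟩
      exact ⟨y, (hπ y).symm⟩)
  have hsurj : Function.Surjective ψ := by
    rintro ⟨_, y, rfl⟩
    exact ⟨⟨_, y, rfl⟩, Subtype.ext (hπ y)⟩
  have hfr : Module.finrank ℚ_[p] (LinearMap.range (S0.sum S).act.toLinearMap) =
      Module.finrank ℚ_[p] (LinearMap.range S0.act.toLinearMap) := by
    apply le_antisymm h1
    exact LinearMap.finrank_le_finrank_of_surjective hsurj
  have hinj : Function.Injective ψ :=
    (LinearMap.injective_iff_surjective_of_finrank_eq_finrank hfr).2 hsurj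
  have h2 : ψ ⟨_, x, rfl⟩ = ψ 0 := by
    apply Subtype.ext
    rw [map_zero]
    exact (hπ x).trans hx
  have h3 := congrArg Subtype.val (hinj h2)
  exact ((act_sum_eq_zero S0 S x).1 h3).2

end Y680.W
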