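import Pool.Agent.Y680.W.A2

/-! Graded action of conjugation, transport operators, uniqueness of invariant paths. -/

open scoped Pointwise TensorProduct

noncomputable section

namespace Y680.W

variable {p : ℕ} [Fact p.Prime] {f : Polynomial ℚ}

/-- the cyclotomic character with values in the field of p-adic numbers -/
def ch (p : ℕ) [Fact p.Prime] (g : GG) : ℚ_[p] := ((chi p g : ℤ_[p]) : ℚ_[p])

theorem ch_mul (g h : GG) : ch p (g * h) = ch p g * ch p h := by
  unfold ch chi
  have : ((g * h : GG) : Om ≃+* Om) = (g : Om ≃+* Om) * (h : Om ≃+* Om) := by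
    ext x; rfl
  rw [this, map_mul]
  push_cast
  rfl

theorem ch_pow_ne {g : GG} {i : ℕ} (h : (chi p g) ^ i ≠ 1) : (ch p g) ^ i ≠ 1 := by
  intro h1
  apply h
  apply Units.ext
  have h2 : (((chi p g : ℤ_[p]) ^ i : ℤ_[p]) : ℚ_[p]) = ((1 : ℤ_[p]) : ℚ_[p]) := by
    push_cast
    exact h1
  have h3 := PadicInt.ext h2
  simpa using h3

/-- `g` fixes the roots of `f` -/
def FixR (f : Polynomial ℚ) (g : GG) : Prop := ∀ x : Qb, IsRoot f (some x) → g (x : Om) = x

theorem conj_gr_one (hK2 : S_K2) (S : LocSys p f) {g : GG} (hg : FixR f g) :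
    ∀ x ∈ II p, cjR g x - ch p g • x ∈ II p ^ 2 ⊔ kerA S := by
  intro x hx
  rw [II_eq_span] at hx
  induction hx using Submodule.span_induction with
  | mem x hx =>
    obtain ⟨γ, rfl⟩ := hx
    have h0 : cjR g (ge γ - 1 : RR p) = ge (cj g γ) - 1 := by rw [map_sub, map_one, cjR_ge]
    rw [h0]
    set z : RR p := ge (cj g γ) - 1 - ch p g • (ge γ - 1) with hz
    by_contra hcon
    have h1 : S.act z ∉ Submodule.map S.act.toLinearMap (II p ^ 2) := by
      rintro ⟨y, hy, hy2⟩
      apply hcon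
      have h2 : z = y + (z - y) := by abel
      rw [h2]
      apply Submodule.add_mem_sup hy
      rw [mem_kerA, map_sub]
      have h3 : S.act y = S.act z := hy2
      rw [h3, sub_self]
    obtain ⟨L, hL1, hL2⟩ := Submodule.exists_le_ker_of_notMem h1
    have hu := isUnr_of_functional S L (fun x hx => hL2 ⟨x, hx, rfl⟩)
    have h2 : L (S.act (ge (cj g γ) - 1)) = ((chi p g : ℤ_[p]) : ℚ_[p]) * L (S.act (ge γ - 1)) :=
      hK2 p f _ hu g hg γ
    apply hL1
    rw [hz, map_sub, map_smul, map_sub, map_smul, h2]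
    unfold ch
    rw [smul_eq_mul, sub_self]
  | zero => simp
  | add x y _ _ hx hy =>
    have : cjR g (x + y) - ch p g • (x + y) = (cjR g x - ch p g • x) + (cjR g y - ch p g • y) := by
      rw [map_add, smul_add]; abel
    rw [this]; exact add_mem hx hy
  | smul c x _ hx =>
    have : cjR g (c • x) - ch p g • (c • x) = c • (cjR g x - ch p g • x) := by
      rw [map_smul, smul_sub, smul_comm]
    rw [this]; exact Submodule.smul_mem _ _ hx

theorem sup_mul_II_le (S : LocSys p f) {k : ℕ} {x y : RR p} (hx : x ∈ II p ^ k ⊔ kerA S)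
    (hy : y ∈ II p) : x * y ∈ II p ^ (k + 1) ⊔ kerA S := by
  obtain ⟨a, ha, b, hb, rfl⟩ := Submodule.mem_sup.1 hx
  rw [add_mul]
  apply Submodule.add_mem_sup
  · rw [pow_succ]; exact Submodule.mul_mem_mul ha hy
  · exact kerA_mul_top S (Submodule.mul_mem_mul hb trivial)

theorem conj_gr (hK2 : S_K2) (S : LocSys p f) {g : GG} (hg : FixR f g) (k : ℕ) :
    ∀ x ∈ II p ^ k, cjR g x - ch p g ^ k • x ∈ II p ^ (k + 1) ⊔ kerA S := by
  induction k with
  | zero =>
    intro x hx
    rw [pow_zero, Submodule.mem_one] at hx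
    obtain ⟨c, rfl⟩ := hx
    rw [AlgHom.commutes, pow_zero, one_smul, sub_self]
    exact zero_mem _
  | succ k ih =>
    intro x hx
    rw [pow_succ] at hx
    induction hx using Submodule.mul_induction_on' with
    | mem_mul_mem a ha b hb =>
      have h1 : cjR g (a * b) - ch p g ^ (k + 1) • (a * b) =
          (cjR g a - ch p g ^ k • a) * cjR g b + ch p g ^ k • (a * (cjR g b - ch p g • b)) := by
        rw [map_mul, sub_mul, mul_sub, smul_sub, smul_mul_assoc, mul_smul_comm, smul_smul, pow_succ]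
        abel
      rw [h1]
      apply add_mem
      · apply sup_mul_II_le S (ih a ha)
        have := cjR_mem_pow g (k := 1) (x := b) (by rwa [pow_one])
        rwa [pow_one] at this
      · apply Submodule.smul_mem
        obtain ⟨u, hu, w, hw, huw⟩ := Submodule.mem_sup.1 (conj_gr_one hK2 S hg b hb)
        rw [← huw, mul_add]
        apply Submodule.add_mem_sup
        · have := Submodule.mul_mem_mul ha hu
          rwa [← pow_add] at this
        · exact top_mul_kerA S (Submodule.mul_mem_mul trivial hw)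
    | add x _ y _ hx hy =>
      have : cjR g (x + y) - ch p g ^ (k + 1) • (x + y) = (cjR g x - ch p g ^ (k + 1) • x) +
          (cjR g y - ch p g ^ (k + 1) • y) := by
        rw [map_add, smul_add]; abel
      rw [this]; exact add_mem hx hy

theorem rho_eq_of_smul (S : LocSys p f) {a : Option Qb} (ha : ¬ IsRoot f a)
    {v : ValuationSubring Om} (hv : IsPlace a v) {γ δ : Gam} (h : (γ : GG) • v = (δ : GG) • v) :
    S.rho γ = S.rho δ := by
  have h1 : (δ⁻¹ * γ) • v = v := by
    change ((δ⁻¹ * γ : Gam) : GG) • v = v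
    push_cast
    rw [← smul_smul, h, smul_smul, inv_mul_cancel, one_smul]
  have h2 := S.unram a ha v hv _ h1
  have h3 : S.rho γ = S.rho δ * S.rho (δ⁻¹ * γ) := by
    rw [← map_mul, mul_inv_cancel_left]
  rw [h3, h2, mul_one]

/-- transport operator -/
def TT (gm : GG → Gam) (g : GG) (x : RR p) : RR p := cjR g x * ge (gm g)

theorem TT_add (gm : GG → Gam) (g : GG) (x y : RR p) : TT gm g (x + y) = TT gm g x + TT gm g y := by
  unfold TT; rw [map_add, add_mul]

theorem TT_sub (gm : GG → Gam) (g : GG) (x y : RR p) : TT gm g (x - y) = TT gm g x - TT gm g y := by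
  unfold TT; rw [map_sub, sub_mul]

theorem TT_smul (gm : GG → Gam) (g : GG) (c : ℚ_[p]) (x : RR p) :
    TT gm g (c • x) = c • TT gm g x := by
  unfold TT; rw [map_smul, smul_mul_assoc]

theorem TT_mem_pow (gm : GG → Gam) (g : GG) {k : ℕ} (hk : 0 < k) {x : RR p}
    (hx : x ∈ II p ^ k) : TT gm g x ∈ II p ^ k :=
  mul_mem_pow_right hk (cjR_mem_pow g hx) _

theorem aug_TT (gm : GG → Gam) (g : GG) (x : RR p) : aug (TT gm g x) = aug x := by
  unfold TT; rw [map_mul, aug_cjR, aug_ge, mul_one]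

theorem TT_gr (hK2 : S_K2) (gm : GG → Gam) (S : LocSys p f) {g : GG} (hg : FixR f g) (k : ℕ) :
    ∀ x ∈ II p ^ k, TT gm g x - ch p g ^ k • x ∈ II p ^ (k + 1) ⊔ kerA S := by
  intro x hx
  have h1 : TT gm g x - ch p g ^ k • x = cjR g x * (ge (gm g) - 1) +
      (cjR g x - ch p g ^ k • x) := by
    unfold TT; noncomm_ring
  rw [h1]
  apply add_mem
  · apply Submodule.mem_sup_left
    rw [pow_succ]
    exact Submodule.mul_mem_mul (cjR_mem_pow g hx) (ge_sub_one_mem _)
  · exact conj_gr hK2 S hg k x hx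

/-- a faithful object of length `m` -/
structure Faith (m : ℕ) (S0 : LocSys p f) : Prop where
  pos : 0 < m
  len : Len m S0
  faith : ∀ S : LocSys p f, Len m S → ∀ x, S0.act x = 0 → S.act x = 0

theorem Faith.cjR_mem {m : ℕ} {S0 : LocSys p f} (h : Faith m S0) (g : GG) {x : RR p}
    (hx : x ∈ kerA S0) : cjR g x ∈ kerA S0 := by
  have h1 := h.faith (S0.twist g⁻¹) (h.len.twist g⁻¹) x (mem_kerA.1 hx)
  rw [LocSys.act_twist, inv_inv] at h1
  exact mem_kerA.2 h1

theorem Faith.TT_mem {m : ℕ} {S0 : LocSys p f} (h : Faith m S0) (gm : GG → Gam) (g : GG)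
    {x : RR p} (hx : x ∈ kerA S0) : TT gm g x ∈ kerA S0 :=
  kerA_mul_top S0 (Submodule.mul_mem_mul (h.cjR_mem g hx) trivial)

theorem Faith.pow_le {m : ℕ} {S0 : LocSys p f} (h : Faith m S0) : II p ^ m ≤ kerA S0 :=
  fun x hx => mem_kerA.2 (h.len x hx)

theorem Faith.ker_le_II {m : ℕ} {S0 : LocSys p f} (h : Faith m S0) : kerA S0 ≤ II p := by
  intro x hx
  have h1 := h.faith LocSys.unit (len_unit.mono one_pos h.pos) x (mem_kerA.1 hx)
  rw [act_unit] at h1
  rw [mem_II]
  have h2 := LinearMap.congr_fun h1 (1 : ℚ_[p])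
  have h3 : aug x • (1 : ℚ_[p]) = 0 := h2
  simpa using h3

theorem TT_mul (gm : GG → Gam) {a : Option Qb} (ha : ¬ IsRoot f a) {v : ValuationSubring Om}
    (hv : IsPlace a v) (hgm : ∀ g, (gm g : GG) • v = g • v) (S : LocSys p f) (g h : GG) (x : RR p) :
    TT gm (g * h) x - TT gm g (TT gm h x) ∈ kerA S := by
  have h1 : TT gm (g * h) x - TT gm g (TT gm h x) =
      cjR (g * h) x * (ge (gm (g * h)) - ge (cj g (gm h) * gm g)) := by
    unfold TT
    rw [map_mul, cjR_ge, ← cjR_mul, mul_sub, ge_mul, mul_assoc]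
  rw [h1, mem_kerA, map_mul, map_sub, LocSys.act_ge, LocSys.act_ge]
  have h2 : S.rho (gm (g * h)) = S.rho (cj g (gm h) * gm g) := by
    apply rho_eq_of_smul S ha hv
    rw [hgm]
    have e : ((cj g (gm h) * gm g : Gam) : GG) = (g * (gm h : GG) * g⁻¹) * (gm g : GG) := by
      rw [Subgroup.coe_mul, cj_coe]
    rw [e, mul_smul (g * (gm h : GG) * g⁻¹), hgm g, ← mul_smul, inv_mul_cancel_right,
      mul_smul g (gm h : GG), hgm h, ← mul_smul]
  rw [h2, sub_self, mul_zero]

/-- uniqueness of invariant elements -/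
theorem uniq (hK2 : S_K2) (gm : GG → Gam) {m : ℕ} {S0 : LocSys p f} (hS0 : Faith m S0) {φ : GG}
    (hφ : FixR f φ) (hφ2 : ∀ i : ℕ, 0 < i → ch p φ ^ i ≠ 1) {β : RR p} (hβ : β ∈ II p)
    (h : TT gm φ β - β ∈ kerA S0) : β ∈ kerA S0 := by
  have key : ∀ k : ℕ, β ∈ II p ^ (k + 1) ⊔ kerA S0 := by
    intro k
    induction k with
    | zero => rw [zero_add, pow_one]; exact Submodule.mem_sup_left hβ
    | succ k ih =>
      obtain ⟨b, hb, j, hj, rfl⟩ := Submodule.mem_sup.1 ih
      have h1 : TT gm φ b - b ∈ kerA S0 := by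
        have h2 : TT gm φ b - b = (TT gm φ (b + j) - (b + j)) - (TT gm φ j - j) := by
          rw [TT_add]; abel
        rw [h2]
        exact sub_mem h (sub_mem (hS0.TT_mem gm φ hj) hj)
      have h2 := TT_gr hK2 gm S0 hφ (k + 1) b hb
      have h3 : (ch p φ ^ (k + 1) - 1) • b ∈ II p ^ (k + 1 + 1) ⊔ kerA S0 := by
        have h4 : (ch p φ ^ (k + 1) - 1) • b = (TT gm φ b - b) -
            (TT gm φ b - ch p φ ^ (k + 1) • b) := by
          rw [sub_smul, one_smul]; abel
        rw [h4]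
        exact sub_mem (Submodule.mem_sup_right h1) h2
      have h5 : ch p φ ^ (k + 1) - 1 ≠ 0 := sub_ne_zero.2 (hφ2 _ (Nat.succ_pos k))
      have h6 : b ∈ II p ^ (k + 1 + 1) ⊔ kerA S0 := by
        have := Submodule.smul_mem _ (ch p φ ^ (k + 1) - 1)⁻¹ h3
        rwa [smul_smul, inv_mul_cancel₀ h5, one_smul] at this
      exact add_mem h6 (Submodule.mem_sup_right hj)
  obtain ⟨j, hj⟩ : ∃ j, m = j + 1 := ⟨m - 1, by have := hS0.pos; omega⟩
  have h1 := key j
  rw [← hj] at h1
  exact (sup_le hS0.pow_le le_rfl) h1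

end Y680.W
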