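import Pool.Agent.Y680.W.A3

/-! An algebraic vanishing lemma for cocycles. -/

open scoped Pointwise TensorProduct

noncomputable section

namespace Y680.W

/-- a cocycle with values in `P/M` which vanishes on `I` is a coboundary -/
theorem coh {G V K : Type*} [Group G] [Field K] [AddCommGroup V] [Module K V]
    (M P : Submodule K V) (hMP : M ≤ P) (H N I : Subgroup G) (hNH : N ≤ H)
    (T : G → (V →ₗ[K] V)) (χ : G → K) (c : G → V)
    (hM : ∀ g, ∀ x ∈ M, T g x ∈ M) (hP : ∀ g, ∀ x ∈ P, T g x ∈ P)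
    (hχ : ∀ g ∈ N, ∀ x ∈ P, T g x - χ g • x ∈ M)
    (hTT : ∀ g ∈ H, ∀ h ∈ H, ∀ x, T (g * h) x - T g (T h x) ∈ M)
    (hc : ∀ g ∈ H, c g ∈ P) (hcoc : ∀ g ∈ H, ∀ h ∈ H, c (g * h) - (c g + T g (c h)) ∈ M)
    (hI : ∀ τ ∈ I, c τ ∈ M) (hIH : I ≤ H)
    (hnorm : ∀ g ∈ H, ∀ n ∈ N, g⁻¹ * n * g ∈ N)
    (hcomm : ∀ g ∈ N, ∀ h ∈ N, (h * g)⁻¹ * (g * h) ∈ I)
    (φ : G) (hφ : φ ∈ N) (hφ1 : χ φ ≠ 1) :
    ∃ z ∈ P, ∀ g ∈ H, c g - (T g z - z) ∈ M := by
  have hne : χ φ - 1 ≠ 0 := sub_ne_zero.2 hφ1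
  set z : V := (χ φ - 1)⁻¹ • c φ with hz
  have hzP : z ∈ P := Submodule.smul_mem _ _ (hc φ (hNH hφ))
  have hcz : c φ = (χ φ - 1) • z := by rw [hz, smul_smul, mul_inv_cancel₀ hne, one_smul]
  have hcz0 : c φ - (χ φ - 1) • z ∈ M := by rw [← hcz, sub_self]; exact zero_mem _
  clear_value z
  have hdiv : ∀ x, (χ φ - 1) • x ∈ M → x ∈ M := by
    intro x hx
    have := Submodule.smul_mem _ (χ φ - 1)⁻¹ hx
    rwa [smul_smul, inv_mul_cancel₀ hne, one_smul] at this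
  -- on N
  have hN : ∀ g ∈ N, c g - (T g z - z) ∈ M := by
    intro g hg
    have gH := hNH hg
    have φH := hNH hφ
    have e1 := hcoc g gH φ φH
    have e2 := hcoc φ φH g gH
    have e3 := hχ g hg (c φ) (hc φ φH)
    have e4 := hχ φ hφ (c g) (hc g gH)
    have hτ := hcomm g hg φ hφ
    have e5 := hcoc (φ * g) (H.mul_mem φH gH) ((φ * g)⁻¹ * (g * φ)) (hIH hτ)
    rw [mul_inv_cancel_left] at e5
    have e6 := hM (φ * g) _ (hI _ hτ)
    have e7 := hχ g hg z hzP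
    apply hdiv
    generalize c (g * φ) = A1 at *
    generalize c (φ * g) = A2 at *
    generalize T (φ * g) (c ((φ * g)⁻¹ * (g * φ))) = A3 at *
    generalize T g (c φ) = A4 at *
    generalize T φ (c g) = A5 at *
    generalize T g z = A6 at *
    have h : (χ φ - 1) • (c g - (A6 - z)) =
        (A1 - (c g + A4)) - (A1 - (A2 + A3)) - A3 - (A2 - (c φ + A5)) + (A4 - χ g • c φ)
        - (A5 - χ φ • c g) + (χ g - 1) • (c φ - (χ φ - 1) • z)
        - (χ φ - 1) • (A6 - χ g • z) := by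
      module
    rw [h]
    exact sub_mem (add_mem (sub_mem (add_mem (sub_mem (sub_mem (sub_mem e1 e5) e6) e2) e3) e4)
      (Submodule.smul_mem _ _ hcz0)) (Submodule.smul_mem _ _ e7)
  refine ⟨z, hzP, fun g hg => ?_⟩
  have φH := hNH hφ
  have hn : g⁻¹ * φ * g ∈ N := hnorm g hg φ hφ
  have nH := hNH hn
  have hgn : g * (g⁻¹ * φ * g) = φ * g := by group
  have coc' : ∀ a ∈ H, ∀ b ∈ H, (c (a * b) - (T (a * b) z - z)) - ((c a - (T a z - z)) +
      T a (c b - (T b z - z))) ∈ M := by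
    intro a ha b hb
    have h : (c (a * b) - (T (a * b) z - z)) - ((c a - (T a z - z)) +
      T a (c b - (T b z - z))) = (c (a * b) - (c a + T a (c b))) - (T (a * b) z - T a (T b z)) := by
      simp only [map_sub]
      abel
    rw [h]
    exact sub_mem (hcoc a ha b hb) (hTT a ha b hb z)
  have f1 := coc' g hg _ nH
  rw [hgn] at f1
  have f2 := hM g _ (hN _ hn)
  have f3 := coc' φ φH g hg
  have f5 := hN φ hφ
  have hP' : c g - (T g z - z) ∈ P := sub_mem (hc g hg) (sub_mem (hP g z hzP) hzP)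
  have f4 := hχ φ hφ _ hP'
  apply hdiv
  generalize c g - (T g z - z) = B1 at *
  generalize c (φ * g) - (T (φ * g) z - z) = B2 at *
  generalize c φ - (T φ z - z) = B3 at *
  generalize T g (c (g⁻¹ * φ * g) - (T (g⁻¹ * φ * g) z - z)) = B4 at *
  generalize T φ B1 = B5 at *
  have h : (χ φ - 1) • B1 = (B2 - (B1 + B4)) + B4 - (B2 - (B3 + B5)) - B3 - (B5 - χ φ • B1) := by
    module
  rw [h]
  exact sub_mem (sub_mem (sub_mem (add_mem f1 f2) f3) f5) f4

end Y680.W
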