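import Pool.Agent.Y680.W.Stm

/-!
W-K2: conjugation by elements fixing the roots of `f` multiplies unramified characters by the
cyclotomic character (project WG of helper680, job 2777, helper434).
-/

open scoped Pointwise TensorProduct

noncomputable section

namespace Y680.W

namespace K2

theorem isClosed_Gam : IsClosed (Gam : Set GG) := by
  have h : (Gam : Set GG) =
      ((IntermediateField.adjoin (RatFunc ℚ) (Qb : Set Om)).fixingSubgroup : Set GG) := by
    ext g
    simp only [SetLike.mem_coe, IntermediateField.mem_fixingSubgroup_iff]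
    constructor
    · intro hg x hx
      induction hx using IntermediateField.adjoin_induction with
      | mem x hx => exact hg x hx
      | algebraMap x => exact g.commutes x
      | add x y _ _ hx hy => rw [map_add, hx, hy]
      | inv x _ hx => rw [map_inv₀, hx]
      | mul x y _ _ hx hy => rw [map_mul, hx, hy]
    · intro hg z hz
      exact hg z (IntermediateField.subset_adjoin _ _ hz)
  rw [h]
  exact InfiniteGalois.fixingSubgroup_isClosed _

instance : CompactSpace Gam := isCompact_iff_compactSpace.mp isClosed_Gam.isCompact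

instance (p : ℕ) [Fact p.Prime] (i : ℕ) : HasEnoughRootsOfUnity Om (p ^ i) := by
  have : NeZero (p ^ i) := ⟨pow_ne_zero _ (Fact.out : p.Prime).ne_zero⟩
  infer_instance

/-- boundedness -/
theorem bdd {p : ℕ} [Fact p.Prime] {lam : Gam → ℚ_[p]} (hc : Continuous lam) :
    ∃ N : ℕ, ∀ γ, ‖(p : ℚ_[p]) ^ N * lam γ‖ ≤ 1 := by
  obtain ⟨C, hC⟩ := (isCompact_range hc).isBounded.exists_norm_le
  have hp : (1 : ℝ) < p := by exact_mod_cast (Fact.out : p.Prime).one_lt
  obtain ⟨N, hN⟩ := pow_unbounded_of_one_lt C hp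
  refine ⟨N, fun γ => ?_⟩
  have h1 := hC (lam γ) ⟨γ, rfl⟩
  have hp0 : (0 : ℝ) < p ^ N := by positivity
  rw [norm_mul, norm_pow, Padic.norm_p, inv_pow, ← div_eq_inv_mul, div_le_one hp0]
  linarith

/-- The integral case. -/
theorem int_case (h : S_KUM) (p : ℕ) [Fact p.Prime] (f : Polynomial ℚ) (lam : Gam → ℤ_[p])
    (hadd : ∀ γ δ, lam (γ * δ) = lam γ + lam δ) (hc : Continuous lam)
    (hunr : ∀ a, ¬ IsRoot f a → ∀ v : ValuationSubring Om, IsPlace a v → ∀ γ : Gam, γ • v = v →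
      lam γ = 0) (g : GG) (hg : ∀ x : Qb, IsRoot f (some x) → g (x : Om) = x) (γ : Gam) :
    lam (cj g γ) = (chi p g : ℤ_[p]) * lam γ := by
  rw [← PadicInt.ext_of_toZModPow]
  intro k
  obtain ⟨y, ζ, s, n, hy, hζ, hs, hn, hyp, hγ⟩ := h p f lam hadd hc hunr k
  have hpk : p ^ k ≠ 0 := pow_ne_zero _ (Fact.out : p.Prime).ne_zero
  have : NeZero (p ^ k) := ⟨hpk⟩
  -- g y is a root-of-unity multiple of y
  have h1 : (g y) ^ (p ^ k) = y ^ (p ^ k) := by
    rw [← map_pow, hyp, map_prod]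
    refine Finset.prod_congr rfl fun x hx => ?_
    rw [map_zpow₀, map_sub, hg x (hs x hx)]
    congr 2
    exact g.commutes _
  have hgy : g y ≠ 0 := by simpa using hy
  set η : Om := g y / y with hη
  have hη1 : η ^ (p ^ k) = 1 := by
    rw [hη, div_pow, h1, div_self (pow_ne_zero _ hy)]
  have hηy : g y = η * y := by rw [hη, div_mul_cancel₀ _ hy]
  have hηQ : η ∈ Qb := by
    rw [mem_algebraicClosure_iff]
    exact IsIntegral.isAlgebraic ⟨Polynomial.X ^ (p ^ k) - 1, Polynomial.monic_X_pow_sub_C 1 hpk, by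
      simp [hη1]⟩
  have h2 : ((cj g γ : Gam) : GG) (g y) = g ((γ : GG) y) := by
    rw [cj_coe, AlgEquiv.mul_apply, AlgEquiv.mul_apply]
    congr 2
    rw [← AlgEquiv.mul_apply, inv_mul_cancel]
    rfl
  have h3 : g ((γ : GG) y) = (g ζ) ^ (PadicInt.toZModPow k (lam γ)).val * g y := by
    rw [hγ γ, map_mul, map_pow]
  have h4 : ((cj g γ : Gam) : GG) (g y) =
      ζ ^ (PadicInt.toZModPow k (lam (cj g γ))).val * g y := by
    rw [hηy, map_mul, (cj g γ).2 η hηQ, hγ (cj g γ)]
    ring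
  have h5 : g ζ = ζ ^ (PadicInt.toZModPow k (chi p g : ℤ_[p])).val := by
    exact cyclotomicCharacter.spec p (g : Om ≃+* Om) ζ hζ.pow_eq_one
  have h6 : ζ ^ (PadicInt.toZModPow k (lam (cj g γ))).val =
      ζ ^ ((PadicInt.toZModPow k (chi p g : ℤ_[p])).val *
        (PadicInt.toZModPow k (lam γ)).val) := by
    rw [pow_mul, ← h5]
    apply mul_right_cancel₀ hgy
    rw [← h4, ← h3, h2]
  have h7 : ((PadicInt.toZModPow k (lam (cj g γ))).val : ZMod (p ^ k)) =
      (((PadicInt.toZModPow k (chi p g : ℤ_[p])).val *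
        (PadicInt.toZModPow k (lam γ)).val : ℕ) : ZMod (p ^ k)) := by
    rw [ZMod.natCast_eq_natCast_iff]
    have hu0 : IsUnit ζ := hζ.isUnit hpk
    obtain ⟨u, hu⟩ := hu0
    have hu1 : IsPrimitiveRoot u (p ^ k) := by
      rw [← IsPrimitiveRoot.coe_units_iff, hu]
      exact hζ
    have h9 : orderOf u = p ^ k := hu1.eq_orderOf.symm
    have key : ∀ a b : ℕ, ζ ^ a = ζ ^ b → a % (p ^ k) = b % (p ^ k) := by
      intro a b hab
      rw [← h9]
      apply (pow_inj_mod).1
      apply Units.ext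
      rw [Units.val_pow_eq_pow_val, Units.val_pow_eq_pow_val, hu]
      exact hab
    exact key _ _ h6
  rw [ZMod.natCast_zmod_val, Nat.cast_mul, ZMod.natCast_zmod_val, ZMod.natCast_zmod_val] at h7
  rw [h7, map_mul]

end K2

theorem t_K2 (h : S_KUM) : S_K2 := by
  intro p _ f lam hlam g hg γ
  obtain ⟨N, hN⟩ := K2.bdd hlam.cont
  have hp : (p : ℚ_[p]) ≠ 0 := by
    exact_mod_cast (Fact.out : p.Prime).ne_zero
  have hpN : (p : ℚ_[p]) ^ N ≠ 0 := pow_ne_zero _ hp
  set lam1 : Gam → ℤ_[p] := fun γ => ⟨(p : ℚ_[p]) ^ N * lam γ, hN γ⟩ with hlam1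
  have hadd : ∀ γ δ, lam1 (γ * δ) = lam1 γ + lam1 δ := by
    intro γ δ
    apply Subtype.ext
    change (p : ℚ_[p]) ^ N * lam (γ * δ) = (p : ℚ_[p]) ^ N * lam γ + (p : ℚ_[p]) ^ N * lam δ
    rw [hlam.add, mul_add]
  have hc : Continuous lam1 := by
    apply Continuous.subtype_mk
    exact continuous_const.mul hlam.cont
  have hunr : ∀ a, ¬ IsRoot f a → ∀ v : ValuationSubring Om, IsPlace a v → ∀ γ : Gam, γ • v = v →
      lam1 γ = 0 := by
    intro a ha v hv γ hγ
    apply Subtype.ext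
    change (p : ℚ_[p]) ^ N * lam γ = 0
    rw [hlam.unr a ha v hv γ hγ, mul_zero]
  have h1 := K2.int_case h p f lam1 hadd hc hunr g hg γ
  have h2 := congrArg (fun z : ℤ_[p] => (z : ℚ_[p])) h1
  simp only [PadicInt.coe_mul] at h2
  change (p : ℚ_[p]) ^ N * lam (cj g γ) = ((chi p g : ℤ_[p]) : ℚ_[p]) * ((p : ℚ_[p]) ^ N * lam γ)
    at h2
  apply mul_left_cancel₀ hpN
  rw [h2]
  ring

end Y680.W
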