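import Pool.Agent.Y680.W.A4
import Pool.Agent.Y680.W.T_T1G
import Pool.Agent.Y680.W.T_T1
import Pool.Agent.Y680.W.T_K2

/-! Closed subgroups of the big Galois group, inertia, continuity of the transport. -/

open scoped Pointwise TensorProduct Topology

noncomputable section

namespace Y680.W

variable {p : ℕ} [Fact p.Prime] {f : Polynomial ℚ}

theorem isClosed_apply (x : Om) (P : Om → Prop) : IsClosed {g : GG | P (g x)} := by
  rw [← isOpen_compl_iff]
  rw [isOpen_iff_mem_nhds]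
  intro g hg
  have hopen : IsOpen (MulAction.stabilizer GG x : Set GG) := stabilizer_isOpen_of_isIntegral _
  have h1 : IsOpen ((fun h : GG => g⁻¹ * h) ⁻¹' (MulAction.stabilizer GG x : Set GG)) :=
    hopen.preimage (continuous_const.mul continuous_id)
  refine Filter.mem_of_superset (h1.mem_nhds ?_) ?_
  · simp only [Set.mem_preimage, inv_mul_cancel]
    exact one_mem _
  · intro h hh
    have h2 : (g⁻¹ * h) • x = x := hh
    have h3 : h x = g x := by
      have : h x = g ((g⁻¹ * h) x) := by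
        rw [← AlgEquiv.mul_apply, mul_inv_cancel_left]
      rw [this]
      exact congrArg g h2
    intro h4
    apply hg
    change P (h x) at h4
    rwa [h3] at h4

theorem mem_smul_iff (g : GG) (v : ValuationSubring Om) (x : Om) : g x ∈ g • v ↔ x ∈ v :=
  ValuationSubring.smul_mem_pointwise_smul_iff

theorem smul_eq_iff (g : GG) (v : ValuationSubring Om) :
    g • v = v ↔ ∀ x, (x ∈ v ↔ g x ∈ v) := by
  constructor
  · intro h x
    rw [← mem_smul_iff g v x, h]
  · intro h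
    ext y
    have h1 : y = g (g⁻¹ y) := by rw [← AlgEquiv.mul_apply, mul_inv_cancel]; rfl
    rw [h1, mem_smul_iff, h, ← h1]

theorem isClosed_stab (v : ValuationSubring Om) : IsClosed {g : GG | g • v = v} := by
  have : {g : GG | g • v = v} = ⋂ x, {g : GG | (x ∈ v ↔ g x ∈ v)} := by
    ext g
    rw [Set.mem_ofPred_eq, smul_eq_iff]
    simp
  rw [this]
  exact isClosed_iInter fun x => isClosed_apply x fun y => (x ∈ v ↔ y ∈ v)

theorem isClosed_Dec (A : ValuationSubring Qb) : IsClosed {g : GG | Dec A g} := by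
  have : {g : GG | Dec A g} = ⋂ z : Qb, {g : GG | ∃ h : g (z : Om) ∈ Qb,
      (z ∈ A ↔ (⟨g z, h⟩ : Qb) ∈ A)} := by
    ext g
    simp only [Set.mem_ofPred_eq, Set.mem_iInter]
    constructor
    · intro h z; exact ⟨map_Qb g z.2, h z⟩
    · intro h z; exact (h z).2
  rw [this]
  exact isClosed_iInter fun z => isClosed_apply z fun y => ∃ h : y ∈ Qb, (z ∈ A ↔ (⟨y, h⟩ : Qb) ∈ A)

theorem isClosed_FixR (f : Polynomial ℚ) : IsClosed {g : GG | FixR f g} := by
  have : {g : GG | FixR f g} = ⋂ z : Qb, {g : GG | IsRoot f (some z) → g (z : Om) = z} := by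
    ext g
    simp only [Set.mem_ofPred_eq, Set.mem_iInter, FixR]
  rw [this]
  exact isClosed_iInter fun z => isClosed_apply z fun y => IsRoot f (some z) → y = z

/-- inertia condition -/
def Iner (A : ValuationSubring Qb) (g : GG) : Prop :=
  ∀ z : Qb, z ∈ A → (⟨g z, map_Qb g z.2⟩ - z : Qb) ∈ A.nonunits

theorem isClosed_Iner (A : ValuationSubring Qb) : IsClosed {g : GG | Iner A g} := by
  have : {g : GG | Iner A g} = ⋂ z : Qb, {g : GG | ∃ h : g (z : Om) ∈ Qb,
      (z ∈ A → (⟨g z, h⟩ - z : Qb) ∈ A.nonunits)} := by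
    ext g
    simp only [Set.mem_ofPred_eq, Set.mem_iInter]
    constructor
    · intro h z; exact ⟨map_Qb g z.2, h z⟩
    · intro h z; exact (h z).2
  rw [this]
  exact isClosed_iInter fun z => isClosed_apply z fun y =>
    ∃ h : y ∈ Qb, (z ∈ A → (⟨y, h⟩ - z : Qb) ∈ A.nonunits)

open T1G in
theorem Dec_iff (A : ValuationSubring Qb) (g : GG) : Dec A g ↔ ∀ z, z ∈ A ↔ resHom g z ∈ A :=
  Iff.rfl

/-- decomposition group at `w` and `A` -/
def HH (A : ValuationSubring Qb) (w : ValuationSubring Om) : Subgroup GG where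
  carrier := {g | Dec A g ∧ g • w = w}
  mul_mem' := by
    rintro a b ⟨ha, ha'⟩ ⟨hb, hb'⟩
    refine ⟨?_, ?_⟩
    · rw [Dec_iff] at *
      intro z
      rw [map_mul, AlgEquiv.mul_apply, hb z, ha]
    · rw [mul_smul, hb', ha']
  one_mem' := ⟨by rw [Dec_iff]; intro z; rw [map_one]; rfl, one_smul _ _⟩
  inv_mem' := by
    rintro a ⟨ha, ha'⟩
    refine ⟨?_, ?_⟩
    · rw [Dec_iff] at *
      intro z
      rw [ha (T1G.resHom a⁻¹ z), ← AlgEquiv.mul_apply, ← map_mul, mul_inv_cancel, map_one]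
      rfl
    · rw [inv_smul_eq_iff, ha']

/-- the subgroup fixing the roots -/
def NN (f : Polynomial ℚ) (A : ValuationSubring Qb) (w : ValuationSubring Om) : Subgroup GG where
  carrier := {g | g ∈ HH A w ∧ FixR f g}
  mul_mem' := by
    rintro a b ⟨ha, ha'⟩ ⟨hb, hb'⟩
    refine ⟨mul_mem ha hb, fun x hx => ?_⟩
    rw [AlgEquiv.mul_apply, hb' x hx, ha' x hx]
  one_mem' := ⟨one_mem _, fun x _ => rfl⟩
  inv_mem' := by
    rintro a ⟨ha, ha'⟩
    refine ⟨inv_mem ha, fun x hx => ?_⟩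
    have h := ha' x hx
    calc a⁻¹ (x : Om) = a⁻¹ (a x) := by rw [h]
      _ = x := by rw [← AlgEquiv.mul_apply, inv_mul_cancel]; rfl

theorem mem_nonunits_of_dec {A : ValuationSubring Qb} {g : GG} (hg : Dec A g) {z : Qb}
    (hz : z ∈ A.nonunits) : T1G.resHom g z ∈ A.nonunits := by
  rw [ValuationSubring.mem_nonunits_iff_or] at *
  rw [Dec_iff] at hg
  rcases hz with h | h
  · left; rw [h, map_zero]
  · right
    rw [← map_inv₀]
    intro h2
    exact h ((hg _).2 h2)

/-- the inertia subgroup -/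
def IN (f : Polynomial ℚ) (A : ValuationSubring Qb) (w : ValuationSubring Om) : Subgroup GG where
  carrier := {g | g ∈ NN f A w ∧ Iner A g}
  mul_mem' := by
    rintro a b ⟨ha, ha'⟩ ⟨hb, hb'⟩
    refine ⟨mul_mem ha hb, fun z hz => ?_⟩
    have h1 : T1G.resHom b z ∈ A := (ha.1.1 |> fun _ => (hb.1.1 z).1 hz)
    have h2 := ha' _ h1
    have h3 := hb' z hz
    have : (⟨(a * b) (z : Om), map_Qb (a * b) z.2⟩ - z : Qb) =
        (⟨a ((T1G.resHom b z : Qb) : Om), map_Qb a (T1G.resHom b z).2⟩ - T1G.resHom b z) +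
        (⟨b (z : Om), map_Qb b z.2⟩ - z) := by
      apply Subtype.ext
      have e : ((T1G.resHom b z : Qb) : Om) = b z := rfl
      push_cast
      rw [e]
      change a (b z) - z = (a (b z) - b z) + (b z - z)
      ring
    rw [this]
    exact add_mem h2 h3
  one_mem' := by
    refine ⟨one_mem _, fun z hz => ?_⟩
    have : (⟨(1 : GG) (z : Om), map_Qb 1 z.2⟩ - z : Qb) = 0 := by
      apply Subtype.ext
      exact sub_self (z : Om)
    rw [this]
    exact zero_mem _
  inv_mem' := by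
    rintro a ⟨ha, ha'⟩
    refine ⟨inv_mem ha, fun z hz => ?_⟩
    have h0 : Dec A a⁻¹ := (inv_mem ha.1 : a⁻¹ ∈ HH A w).1
    have h1 : T1G.resHom a⁻¹ z ∈ A := (h0 z).1 hz
    have h2 := ha' _ h1
    have : (⟨a⁻¹ (z : Om), map_Qb a⁻¹ z.2⟩ - z : Qb) =
        -(⟨a ((T1G.resHom a⁻¹ z : Qb) : Om), map_Qb a (T1G.resHom a⁻¹ z).2⟩ -
          T1G.resHom a⁻¹ z) := by
      apply Subtype.ext
      have e : ((T1G.resHom a⁻¹ z : Qb) : Om) = a⁻¹ z := rfl
      have e2 : a (a⁻¹ (z : Om)) = z := by rw [← AlgEquiv.mul_apply, mul_inv_cancel]; rfl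
      push_cast
      rw [e]
      change a⁻¹ (z : Om) - z = -(a (a⁻¹ z) - a⁻¹ z)
      rw [e2]; ring
    rw [this]
    exact neg_mem h2

theorem isClosed_IN (f : Polynomial ℚ) (A : ValuationSubring Qb) (w : ValuationSubring Om) :
    IsClosed (IN f A w : Set GG) := by
  have : (IN f A w : Set GG) = (({g : GG | Dec A g} ∩ {g : GG | g • w = w}) ∩
      {g : GG | FixR f g}) ∩ {g : GG | Iner A g} := rfl
  rw [this]
  exact (((isClosed_Dec A).inter (isClosed_stab w)).inter (isClosed_FixR f)).inter (isClosed_Iner A)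

theorem iner_fix {l : ℕ} (hl : l.Prime) (hlp : l ≠ p) {A : ValuationSubring Qb}
    (hA : (l : Qb) ∈ A.nonunits) {τ : GG} (hτ : Iner A τ) (ζ : Om) (k : ℕ)
    (hζ : ζ ^ (p ^ k) = 1) : τ ζ = ζ := by
  have hp : p.Prime := Fact.out
  have hpk : p ^ k ≠ 0 := pow_ne_zero _ hp.ne_zero
  have hζQ : ζ ∈ Qb := by
    rw [mem_algebraicClosure_iff']
    exact IsIntegral.of_pow (Nat.pos_of_ne_zero hpk) (by rw [hζ]; exact isIntegral_one)
  set z : Qb := ⟨ζ, hζQ⟩ with hz
  have hz1 : z ^ (p ^ k) = 1 := Subtype.ext hζ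
  have hzA : z ∈ A := by
    rw [← A.valuation_le_one_iff]
    have h : A.valuation z ^ (p ^ k) = 1 := by rw [← map_pow, hz1, map_one]
    exact ((pow_eq_one_iff_of_nonneg zero_le hpk).1 h).le
  have h1 := hτ z hzA
  have h2 : (⟨τ z, map_Qb τ z.2⟩ : Qb) = z := by
    refine T1.eq_of_val A hpk (T1.val_nat A hp hl hlp (A.mem_nonunits_iff.1 hA) k) ?_ hz1
      (A.mem_nonunits_iff.1 h1)
    apply Subtype.ext
    change (τ ζ) ^ (p ^ k) = 1
    rw [← map_pow, hζ, map_one]
  exact congrArg Subtype.val h2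

theorem ch_eq_one {τ : GG} (h : ∀ (ζ : Om) (k : ℕ), ζ ^ (p ^ k) = 1 → τ ζ = ζ) : ch p τ = 1 := by
  have h1 : chi p τ = 1 := by
    apply Units.ext
    refine PadicInt.ext_of_toZModPow.mp fun n => ?_
    obtain ⟨ζ, hζ⟩ := HasEnoughRootsOfUnity.exists_primitiveRoot Om (p ^ n)
    have h1 := cyclotomicCharacter.spec p (n := n) (τ : Om ≃+* Om) ζ hζ.pow_eq_one
    have h2 : (τ : Om ≃+* Om) ζ = ζ := h ζ n hζ.pow_eq_one
    rw [h2] at h1
    have : NeZero (p ^ n) := ⟨pow_ne_zero _ (Fact.out : p.Prime).ne_zero⟩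
    rcases Nat.eq_zero_or_pos n with hn | hn
    · subst hn
      have : Subsingleton (ZMod (p ^ 0)) := by rw [pow_zero]; infer_instance
      exact Subsingleton.elim _ _
    · have hlt : 1 < p ^ n := Nat.one_lt_pow (by omega) (Fact.out : p.Prime).one_lt
      have h3 : ζ ^ 1 = ζ ^ ((PadicInt.toZModPow n (chi p τ : ℤ_[p])).val) := by
        rw [pow_one]; exact h1
      have h4 := hζ.pow_inj hlt (ZMod.val_lt _) h3
      rw [Units.val_one, map_one]
      apply ZMod.val_injective _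
      rw [← h4]
      have : Fact (1 < p ^ n) := ⟨hlt⟩
      rw [ZMod.val_one]
  unfold ch
  rw [h1]
  simp

end Y680.W
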