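import Pool.Agent.Y680.W.A5

/-! Continuity of the transport operators; existence of invariant elements. -/

open scoped Pointwise TensorProduct Topology

noncomputable section

namespace Y680.W

variable {p : ℕ} [Fact p.Prime] {f : Polynomial ℚ}

/-- weak continuity of a family of endomorphisms -/
def WC {X : Type*} [TopologicalSpace X] (S : LocSys p f) (F : X → Module.End ℚ_[p] S.V) : Prop :=
  ∀ L : Module.Dual ℚ_[p] (Module.End ℚ_[p] S.V), Continuous fun x => L (F x)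

theorem WC.mul {X : Type*} [TopologicalSpace X] {S : LocSys p f} {F G : X → Module.End ℚ_[p] S.V}
    (hF : WC S F) (hG : WC S G) : WC S (fun x => F x * G x) := by
  intro L
  set b := Module.finBasis ℚ_[p] (Module.End ℚ_[p] S.V)
  have h : (fun x => L (F x * G x)) = fun x =>
      ∑ i, ∑ j, (b.coord i (F x) * b.coord j (G x)) * L (b i * b j) := by
    funext x
    have h1 : F x = ∑ i, b.coord i (F x) • b i := (b.sum_repr _).symm
    have h2 : G x = ∑ j, b.coord j (G x) • b j := (b.sum_repr _).symm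
    conv_lhs => rw [h1, h2]
    rw [Finset.sum_mul, map_sum]
    refine Finset.sum_congr rfl fun i _ => ?_
    rw [Finset.mul_sum, map_sum]
    refine Finset.sum_congr rfl fun j _ => ?_
    rw [smul_mul_smul_comm, map_smul, smul_eq_mul]
  rw [h]
  refine continuous_finsetSum _ fun i _ => continuous_finsetSum _ fun j _ => ?_
  exact ((hF _).mul (hG _)).mul continuous_const

theorem continuous_cj_left (δ : Gam) : Continuous fun g : GG => cj g δ := by
  rw [continuous_induced_rng]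
  have h : (Subtype.val ∘ (fun g : GG => cj g δ) : GG → GG) = fun g : GG => g * (δ : GG) * g⁻¹ := by
    funext g; exact cj_coe g δ
  rw [h]
  fun_prop

theorem wc_cjR (S : LocSys p f) (α : RR p) : WC S (fun g : GG => S.act (cjR g α)) := by
  intro L
  induction α using RR_induction with
  | h1 δ =>
    have h : (fun g : GG => L (S.act (cjR g (ge δ)))) = (fun γ : Gam => L (S.rho γ)) ∘
        (fun g : GG => cj g δ) := by
      funext g
      simp only [Function.comp, cjR_ge, LocSys.act_ge]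
    rw [h]
    exact (cont_end S L).comp (continuous_cj_left δ)
  | h2 x y hx hy =>
    simp only [map_add]
    exact hx.add hy
  | h3 r x hx =>
    simp only [map_smul]
    exact hx.const_smul r

theorem wc_gm (gm : GG → Gam) {a : Option Qb} (ha : ¬ IsRoot f a) {v : ValuationSubring Om}
    (hv : IsPlace a v) (hgm : ∀ g, (gm g : GG) • v = g • v) (S : LocSys p f) :
    WC S (fun g : GG => S.rho (gm g)) := by
  intro L
  have hE : IsClosed {g : GG | g • v = v} := isClosed_stab v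
  have : CompactSpace {g : GG | g • v = v} := isCompact_iff_compactSpace.mp hE.isCompact
  let μ : Gam × {g : GG | g • v = v} → GG := fun x => (x.1 : GG) * (x.2 : GG)
  have hμc : Continuous μ := by
    exact (continuous_subtype_val.comp continuous_fst).mul
      (continuous_subtype_val.comp continuous_snd)
  have hμs : Function.Surjective μ := by
    intro g
    refine ⟨(gm g, ⟨(gm g : GG)⁻¹ * g, ?_⟩), ?_⟩
    · change ((gm g : GG)⁻¹ * g) • v = v
      rw [mul_smul, ← hgm g, inv_smul_smul]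
    · change (gm g : GG) * ((gm g : GG)⁻¹ * g) = g
      rw [mul_inv_cancel_left]
  have hq : Topology.IsQuotientMap μ := (hμc.isClosedMap).isQuotientMap hμc hμs
  rw [hq.continuous_iff]
  have h : ((fun g : GG => L (S.rho (gm g))) ∘ μ) = fun x => L (S.rho x.1) := by
    funext x
    change L (S.rho (gm (μ x))) = L (S.rho x.1)
    have : S.rho (gm (μ x)) = S.rho x.1 := by
      apply rho_eq_of_smul S ha hv
      rw [hgm]
      change ((x.1 : GG) * (x.2 : GG)) • v = _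
      rw [mul_smul, x.2.2]
    rw [this]
  rw [h]
  exact (cont_end S L).comp continuous_fst

theorem wc_TT (gm : GG → Gam) {a : Option Qb} (ha : ¬ IsRoot f a) {v : ValuationSubring Om}
    (hv : IsPlace a v) (hgm : ∀ g, (gm g : GG) • v = g • v) (S : LocSys p f) (α : RR p) :
    WC S (fun g : GG => S.act (TT gm g α)) := by
  have h : (fun g : GG => S.act (TT gm g α)) = fun g => S.act (cjR g α) * S.rho (gm g) := by
    funext g
    unfold TT
    rw [map_mul, LocSys.act_ge]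
  rw [h]
  exact (wc_cjR S α).mul (wc_gm gm ha hv hgm S)

/-- the transport operator as a linear map -/
def TL (gm : GG → Gam) (g : GG) : RR p →ₗ[ℚ_[p]] RR p where
  toFun := TT gm g
  map_add' := TT_add gm g
  map_smul' := TT_smul gm g

/-- All the data used in the existence proof. -/
structure Dat (p l : ℕ) [Fact p.Prime] (f : Polynomial ℚ) (a : Option Qb) (b : Option Qb)
    (A : ValuationSubring Qb) (v w : ValuationSubring Om) (gm : GG → Gam) : Prop where
  hl : l.Prime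
  hlp : l ≠ p
  hA : (l : Qb) ∈ A.nonunits
  ha : ¬ IsRoot f a
  hb : ¬ IsRoot f b
  hv : IsPlace a v
  hw : IsPlace b w
  hgm : ∀ g, (gm g : GG) • v = g • v
  hφ : ∃ φ : GG, φ ∈ NN f A w ∧ ∀ i : ℕ, 0 < i → ch p φ ^ i ≠ 1

variable {l : ℕ} {a b : Option Qb} {A : ValuationSubring Qb} {v w : ValuationSubring Om}
  {gm : GG → Gam}

theorem sup_le_sup_pow {S : LocSys p f} {k : ℕ} (hk : 0 < k) :
    II p ^ (k + 1) ⊔ kerA S ≤ II p ^ k ⊔ kerA S :=
  sup_le_sup_right (pow_anti hk (Nat.le_succ k)) _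

theorem Dat.commg (D : Dat p l f a b A v w gm) (hT2 : S_T2G) :
    ∀ g ∈ NN f A w, ∀ h ∈ NN f A w, (h * g)⁻¹ * (g * h) ∈ IN f A w := by
  intro g hg h hh
  have hmem : (h * g)⁻¹ * (g * h) ∈ NN f A w := mul_mem (inv_mem (mul_mem hh hg)) (mul_mem hg hh)
  refine ⟨hmem, ?_⟩
  have e : (h * g)⁻¹ * (g * h) = g⁻¹ * h⁻¹ * (g⁻¹)⁻¹ * (h⁻¹)⁻¹ := by group
  intro z hz
  have h1 := hT2 l D.hl A D.hA g⁻¹ h⁻¹ (inv_mem hg.1 : g⁻¹ ∈ HH A w).1
    (inv_mem hh.1 : h⁻¹ ∈ HH A w).1 z hz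
  simp only [e]
  exact h1

/-- one inductive step -/
theorem Dat.step (D : Dat p l f a b A v w gm) (hK2 : S_K2) (hT2 : S_T2G) {m : ℕ}
    {S0 : LocSys p f} (hS0 : Faith m S0) {k : ℕ} (hk : 0 < k) {α : RR p} (hα : aug α = 1)
    (hc : ∀ g ∈ HH A w, TT gm g α - α ∈ II p ^ k ⊔ kerA S0)
    (hI : ∀ τ ∈ IN f A w, TT gm τ α - α ∈ II p ^ (k + 1) ⊔ kerA S0) :
    ∃ α' : RR p, aug α' = 1 ∧ ∀ g ∈ HH A w, TT gm g α' - α' ∈ II p ^ (k + 1) ⊔ kerA S0 := by
  obtain ⟨φ, hφN, hφ⟩ := D.hφ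
  have hpres : ∀ j : ℕ, 0 < j → ∀ g : GG, ∀ x ∈ II p ^ j ⊔ kerA S0,
      TL gm g x ∈ II p ^ j ⊔ kerA S0 := by
    intro j hj g x hx
    obtain ⟨y, hy, z, hz, rfl⟩ := Submodule.mem_sup.1 hx
    rw [map_add]
    exact Submodule.add_mem_sup (TT_mem_pow gm g hj hy) (hS0.TT_mem gm g hz)
  obtain ⟨z, hz, hz2⟩ := coh (II p ^ (k + 1) ⊔ kerA S0) (II p ^ k ⊔ kerA S0)
    (sup_le_sup_pow hk) (HH A w) (NN f A w) (IN f A w) (fun g hg => hg.1) (fun g => TL gm g)
    (fun g => ch p g ^ k) (fun g => TT gm g α - α) (hpres (k + 1) (Nat.succ_pos k)) (hpres k hk)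
    (by
      intro g hg x hx
      obtain ⟨y, hy, j, hj, rfl⟩ := Submodule.mem_sup.1 hx
      have h1 := TT_gr hK2 gm S0 hg.2 k y hy
      have h2 : TL gm g (y + j) - ch p g ^ k • (y + j) =
          (TT gm g y - ch p g ^ k • y) + (TT gm g j - ch p g ^ k • j) := by
        change TT gm g (y + j) - _ = _
        rw [TT_add, smul_add]; abel
      rw [h2]
      exact add_mem h1 (Submodule.mem_sup_right (sub_mem (hS0.TT_mem gm g hj)
        (Submodule.smul_mem _ _ hj))))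
    (by
      intro g _ h _ x
      exact Submodule.mem_sup_right (TT_mul gm D.ha D.hv D.hgm S0 g h x))
    hc
    (by
      intro g _ h _
      have h1 := TT_mul gm D.ha D.hv D.hgm S0 g h α
      have h2 : TT gm (g * h) α - α - (TT gm g α - α + TL gm g (TT gm h α - α)) =
          TT gm (g * h) α - TT gm g (TT gm h α) := by
        change TT gm (g * h) α - α - (TT gm g α - α + TT gm g (TT gm h α - α)) = _
        rw [TT_sub]; abel
      rw [h2]
      exact Submodule.mem_sup_right h1)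
    hI (fun τ hτ => hτ.1.1)
    (by
      intro g hg n hn
      refine ⟨mul_mem (mul_mem (inv_mem hg) hn.1) hg, fun x hx => ?_⟩
      have h1 : IsRoot f (some (⟨g x, map_Qb g x.2⟩ : Qb)) := (isRoot_gpt f g (some x)).2 hx
      have h2 := hn.2 _ h1
      change (g⁻¹ * n * g) (x : Om) = x
      rw [AlgEquiv.mul_apply, AlgEquiv.mul_apply]
      have h3 : n (g (x : Om)) = g x := h2
      rw [h3, ← AlgEquiv.mul_apply, inv_mul_cancel]; rfl)
    (D.commg hT2) φ hφN (hφ k hk)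
  refine ⟨α - z, ?_, ?_⟩
  · have hz3 : z ∈ II p := by
      obtain ⟨y, hy, j, hj, rfl⟩ := Submodule.mem_sup.1 hz
      exact add_mem (pow_le_II hk hy) (hS0.ker_le_II hj)
    rw [map_sub, hα, mem_II.1 hz3, sub_zero]
  · intro g hg
    have h1 := hz2 g hg
    have h2 : TT gm g (α - z) - (α - z) = TT gm g α - α - (TL gm g z - z) := by
      change _ = TT gm g α - α - (TT gm g z - z)
      rw [TT_sub]; abel
    rw [h2]
    exact h1

/-- the functional attached to an element outside of the subspace -/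
theorem exists_functional {S0 : LocSys p f} {k : ℕ} {x : RR p}
    (hx : x ∉ II p ^ (k + 1) ⊔ kerA S0) :
    ∃ L : Module.Dual ℚ_[p] (Module.End ℚ_[p] S0.V), (∀ y ∈ II p ^ (k + 1) ⊔ kerA S0,
      L (S0.act y) = 0) ∧ L (S0.act x) ≠ 0 := by
  have h1 : S0.act x ∉ Submodule.map S0.act.toLinearMap (II p ^ (k + 1) ⊔ kerA S0) := by
    rintro ⟨y, hy, hy2⟩
    apply hx
    have h2 : x = y + (x - y) := by abel
    rw [h2]
    refine add_mem hy (Submodule.mem_sup_right ?_)
    rw [mem_kerA, map_sub]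
    have h3 : S0.act y = S0.act x := hy2
    rw [h3, sub_self]
  obtain ⟨L, hL1, hL2⟩ := Submodule.exists_le_ker_of_notMem h1
  exact ⟨L, fun y hy => hL2 ⟨y, hy, rfl⟩, hL1⟩

/-- vanishing on inertia at level at least two -/
theorem Dat.van (D : Dat p l f a b A v w gm) (hK2 : S_K2) (hT1 : S_T1G) {m : ℕ}
    {S0 : LocSys p f} (hS0 : Faith m S0) {k : ℕ} (hk : 2 ≤ k) {α : RR p}
    (hc : ∀ g ∈ HH A w, TT gm g α - α ∈ II p ^ k ⊔ kerA S0) :
    ∀ τ ∈ IN f A w, TT gm τ α - α ∈ II p ^ (k + 1) ⊔ kerA S0 := by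
  intro τ0 hτ0
  by_contra hcon
  obtain ⟨L, hL1, hL2⟩ := exists_functional hcon
  apply hL2
  set M := II p ^ (k + 1) ⊔ kerA S0 with hM
  have hch : ∀ τ ∈ IN f A w, ch p τ = 1 := fun τ hτ =>
    ch_eq_one fun ζ j hζ => iner_fix D.hl D.hlp D.hA hτ.2 ζ j hζ
  have hgr : ∀ g ∈ NN f A w, ∀ x ∈ II p ^ k ⊔ kerA S0, TT gm g x - ch p g ^ k • x ∈ M := by
    intro g hg x hx
    obtain ⟨y, hy, j, hj, rfl⟩ := Submodule.mem_sup.1 hx
    have h1 := TT_gr hK2 gm S0 hg.2 k y hy
    have h2 : TT gm g (y + j) - ch p g ^ k • (y + j) =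
        (TT gm g y - ch p g ^ k • y) + (TT gm g j - ch p g ^ k • j) := by
      rw [TT_add, smul_add]; abel
    rw [h2]
    exact add_mem h1 (Submodule.mem_sup_right (sub_mem (hS0.TT_mem gm g hj)
      (Submodule.smul_mem _ _ hj)))
  have hcoc : ∀ g h : GG, TT gm (g * h) α - α - (TT gm g α - α + TT gm g (TT gm h α - α)) ∈ M := by
    intro g h
    have h1 := TT_mul gm D.ha D.hv D.hgm S0 g h α
    have h2 : TT gm (g * h) α - α - (TT gm g α - α + TT gm g (TT gm h α - α)) =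
        TT gm (g * h) α - TT gm g (TT gm h α) := by
      rw [TT_sub]; abel
    rw [h2]
    exact Submodule.mem_sup_right h1
  let h : IN f A w → ℚ_[p] := fun τ => L (S0.act (TT gm (τ : GG) α - α))
  have hval : ∀ x y z : RR p, x - (y + z) ∈ M → L (S0.act x) = L (S0.act y) + L (S0.act z) := by
    intro x y z hxyz
    have := hL1 _ hxyz
    rw [map_sub, map_sub, map_add, map_add, sub_eq_zero] at this
    exact this
  have hadd : ∀ σ τ, h (σ * τ) = h σ + h τ := by
    intro σ τ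
    apply hval
    have h1 := hcoc (σ : GG) (τ : GG)
    have h2 := hgr (σ : GG) σ.2.1 _ (hc _ τ.2.1.1)
    rw [hch _ σ.2, one_pow, one_smul] at h2
    have h3 := add_mem h1 h2
    convert h3 using 1
    push_cast
    abel
  have hcont : Continuous h := by
    have h1 := wc_TT gm D.ha D.hv D.hgm S0 α L
    have h2 : h = fun τ : IN f A w => L (S0.act (TT gm (τ : GG) α)) - L (S0.act α) := by
      funext τ
      change L (S0.act (TT gm (τ : GG) α - α)) = _
      rw [map_sub, map_sub]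
    rw [h2]
    exact (h1.comp continuous_subtype_val).sub continuous_const
  have hker : ∀ τ : IN f A w, (τ : GG) ∈ Gam → h τ = 0 := by
    intro τ hτ
    have h1 : S0.act (TT gm (τ : GG) α) = S0.act α := by
      have e0 : ((⟨(τ : GG), hτ⟩ : Gam) : GG) = τ := rfl
      unfold TT
      rw [← e0, cjR_inner, map_mul, map_mul, map_mul, LocSys.act_ge, LocSys.act_ge, LocSys.act_ge]
      have e1 : S0.rho (gm ((⟨(τ : GG), hτ⟩ : Gam) : GG)) = S0.rho ⟨(τ : GG), hτ⟩ :=
        rho_eq_of_smul S0 D.ha D.hv (D.hgm _)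
      have e2 : S0.rho ⟨(τ : GG), hτ⟩ = 1 := S0.unram b D.hb w D.hw _ τ.2.1.1.2
      have e3 : S0.rho (⟨(τ : GG), hτ⟩ : Gam)⁻¹ = 1 := by
        have := S0.rho.map_mul (⟨(τ : GG), hτ⟩ : Gam) (⟨(τ : GG), hτ⟩ : Gam)⁻¹
        rw [mul_inv_cancel, map_one, e2, one_mul] at this
        exact this.symm
      rw [e1, e2, e3, one_mul, mul_one, mul_one]
    change L (S0.act (TT gm (τ : GG) α - α)) = 0
    rw [map_sub, h1, sub_self, map_zero]
  obtain ⟨φ, hφN, hφ⟩ := D.hφ
  have hconj : φ * τ0 * φ⁻¹ ∈ IN f A w := by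
    refine ⟨mul_mem (mul_mem hφN hτ0.1) (inv_mem hφN), fun z hz => ?_⟩
    have h1 : T1G.resHom φ⁻¹ z ∈ A := ((inv_mem hφN.1 : φ⁻¹ ∈ HH A w).1 z).1 hz
    have h2 := mem_nonunits_of_dec hφN.1.1 (hτ0.2 _ h1)
    have h3 : T1G.resHom φ (⟨τ0 ((T1G.resHom φ⁻¹ z : Qb) : Om), map_Qb τ0 (T1G.resHom φ⁻¹ z).2⟩ -
        T1G.resHom φ⁻¹ z) = (⟨(φ * τ0 * φ⁻¹) (z : Om), map_Qb _ z.2⟩ - z : Qb) := by
      apply Subtype.ext
      rw [map_sub]
      change φ (τ0 (φ⁻¹ (z : Om))) - φ (φ⁻¹ (z : Om)) = φ (τ0 (φ⁻¹ (z : Om))) - z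
      rw [← AlgEquiv.mul_apply φ φ⁻¹, mul_inv_cancel]; rfl
    rw [h3] at h2
    exact h2
  have hT := hT1 p l D.hl D.hlp A D.hA (IN f A w) (isClosed_IN f A w) (fun τ hτ => hτ.2) h hadd
    hcont hker φ hφN.1.1 ⟨τ0, hτ0⟩ ⟨φ * τ0 * φ⁻¹, hconj⟩ rfl
  -- second computation
  have hT' : h ⟨φ * τ0 * φ⁻¹, hconj⟩ = ch p φ ^ k * h ⟨τ0, hτ0⟩ := by
    have f1 := hcoc φ τ0
    have f2 := hcoc (φ * τ0 * φ⁻¹) φ
    have e : φ * τ0 * φ⁻¹ * φ = φ * τ0 := by group
    rw [e] at f2
    have f3 := hgr φ hφN _ (hc τ0 hτ0.1.1)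
    have f4 := hgr (φ * τ0 * φ⁻¹) hconj.1 _ (hc φ hφN.1)
    rw [hch _ hconj, one_pow, one_smul] at f4
    have f5 : (TT gm (φ * τ0 * φ⁻¹) α - α) - ch p φ ^ k • (TT gm τ0 α - α) ∈ M := by
      have f6 := add_mem (sub_mem (sub_mem f1 f2) f4) f3
      convert f6 using 1
      abel
    have f7 := hL1 _ f5
    rw [map_sub, map_sub, map_smul, map_smul, sub_eq_zero] at f7
    exact f7
  have h1 : ch p φ ^ k * h ⟨τ0, hτ0⟩ = ch p φ * h ⟨τ0, hτ0⟩ := by
    rw [← hT', hT]; rfl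
  have hch0 : ch p φ ≠ 0 := by
    unfold ch
    intro h0
    have h2 : ((chi p φ : ℤ_[p])) = 0 := PadicInt.ext (h0.trans PadicInt.coe_zero.symm)
    exact (chi p φ).ne_zero h2
  obtain ⟨j, rfl⟩ : ∃ j, k = j + 1 := ⟨k - 1, by omega⟩
  have h2 : (ch p φ ^ j - 1) * (ch p φ * h ⟨τ0, hτ0⟩) = 0 := by
    rw [sub_mul, one_mul, ← mul_assoc, ← pow_succ, h1, sub_self]
  rcases mul_eq_zero.1 h2 with h3 | h3
  · exact absurd (sub_eq_zero.1 h3) (hφ j (by omega))
  · rcases mul_eq_zero.1 h3 with h4 | h4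
    · exact absurd h4 hch0
    · exact h4

end Y680.W
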