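import Pool.Agent.Y680.W.A6

/-! Existence and compatibility of invariant elements. -/

open scoped Pointwise TensorProduct Topology

noncomputable section

namespace Y680.W

variable {p : ℕ} [Fact p.Prime] {f : Polynomial ℚ}
variable {l : ℕ} {a b : Option Qb} {A : ValuationSubring Qb} {v w : ValuationSubring Om}
  {gm : GG → Gam}

/-- vanishing on inertia at level one -/
def Van1 (p : ℕ) [Fact p.Prime] (f : Polynomial ℚ) (A : ValuationSubring Qb)
    (w : ValuationSubring Om) (gm : GG → Gam) : Prop :=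
  ∀ lam : Gam → ℚ_[p], IsUnr p f lam → ∀ τ ∈ IN f A w, lam (gm τ) = 0

theorem Dat.van1 (hV : Van1 p f A w gm) (S0 : LocSys p f) :
    ∀ τ ∈ IN f A w, TT gm τ (1 : RR p) - 1 ∈ II p ^ 2 ⊔ kerA S0 := by
  intro τ hτ
  by_contra hcon
  obtain ⟨L, hL1, hL2⟩ := exists_functional (k := 1) hcon
  apply hL2
  have hu := isUnr_of_functional S0 L (fun x hx => hL1 x (Submodule.mem_sup_left hx))
  have h1 := hV _ hu τ hτ
  have h2 : TT gm τ (1 : RR p) = ge (gm τ) := by
    unfold TT; rw [map_one, one_mul]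
  rw [h2]
  exact h1

theorem Dat.exists_alpha (D : Dat p l f a b A v w gm) (hK2 : S_K2) (hT1 : S_T1G) (hT2 : S_T2G)
    (hV : Van1 p f A w gm) {m : ℕ} {S0 : LocSys p f} (hS0 : Faith m S0) :
    ∃ α : RR p, aug α = 1 ∧ ∀ g ∈ HH A w, TT gm g α - α ∈ kerA S0 := by
  have key : ∀ j : ℕ, ∃ α : RR p, aug α = 1 ∧
      ∀ g ∈ HH A w, TT gm g α - α ∈ II p ^ (j + 2) ⊔ kerA S0 := by
    intro j
    induction j with
    | zero =>
      refine D.step hK2 hT2 hS0 (k := 1) one_pos (α := 1) (map_one _) ?_ (Dat.van1 hV S0)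
      intro g _
      apply Submodule.mem_sup_left
      have h2 : TT gm g (1 : RR p) = ge (gm g) := by
        unfold TT; rw [map_one, one_mul]
      rw [h2, pow_one]
      exact ge_sub_one_mem _
    | succ j ih =>
      obtain ⟨α, h1, h2⟩ := ih
      exact D.step hK2 hT2 hS0 (k := j + 2) (by omega) h1 h2
        (D.van hK2 hT1 hS0 (by omega) h2)
  obtain ⟨α, h1, h2⟩ := key m
  refine ⟨α, h1, fun g hg => ?_⟩
  have h3 : II p ^ (m + 2) ≤ kerA S0 := (pow_anti hS0.pos (by omega)).trans hS0.pow_le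
  exact (sup_le h3 le_rfl) (h2 g hg)

/-- A compatible family of invariant elements. -/
structure Fam (p : ℕ) [Fact p.Prime] (f : Polynomial ℚ) (A : ValuationSubring Qb)
    (w : ValuationSubring Om) (gm : GG → Gam) (S0 : ℕ → LocSys p f) (al : ℕ → RR p) : Prop where
  faith : ∀ m, 0 < m → Faith m (S0 m)
  aug : ∀ m, 0 < m → aug (al m) = 1
  inv : ∀ m, 0 < m → ∀ g ∈ HH A w, TT gm g (al m) - al m ∈ kerA (S0 m)

theorem Dat.exists_fam (D : Dat p l f a b A v w gm) (hf : f ≠ 0) (hfin : S_FIN) (hK2 : S_K2)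
    (hT1 : S_T1G) (hT2 : S_T2G) (hV : Van1 p f A w gm) :
    ∃ (S0 : ℕ → LocSys p f) (al : ℕ → RR p), Fam p f A w gm S0 al := by
  have h1 : ∀ m : ℕ, ∃ S0 : LocSys p f, 0 < m → Faith m S0 := by
    intro m
    rcases Nat.eq_zero_or_pos m with hm | hm
    · exact ⟨LocSys.unit, fun h => absurd h (by omega)⟩
    · obtain ⟨S0, a1, a2⟩ := exists_faithful (p := p) hfin hf hm
      exact ⟨S0, fun _ => ⟨hm, a1, a2⟩⟩
  choose S0 hS0 using h1
  have h2 : ∀ m : ℕ, ∃ α : RR p, 0 < m → Y680.W.aug α = 1 ∧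
      ∀ g ∈ HH A w, TT gm g α - α ∈ kerA (S0 m) := by
    intro m
    rcases Nat.eq_zero_or_pos m with hm | hm
    · exact ⟨1, fun h => absurd h (by omega)⟩
    · obtain ⟨α, b1, b2⟩ := D.exists_alpha hK2 hT1 hT2 hV (hS0 m hm)
      exact ⟨α, fun _ => ⟨b1, b2⟩⟩
  choose al hal using h2
  exact ⟨S0, al, fun m hm => hS0 m hm, fun m hm => (hal m hm).1, fun m hm => (hal m hm).2⟩

variable {S0 : ℕ → LocSys p f} {al : ℕ → RR p}

theorem Fam.act_inv (F : Fam p f A w gm S0 al) {m : ℕ} (hm : 0 < m) {S : LocSys p f}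
    (hS : Len m S) {g : GG} (hg : g ∈ HH A w) : S.act (TT gm g (al m)) = S.act (al m) := by
  have h1 := (F.faith m hm).faith S hS _ (mem_kerA.1 (F.inv m hm g hg))
  rwa [map_sub, sub_eq_zero] at h1

theorem Fam.compat (F : Fam p f A w gm S0 al) (D : Dat p l f a b A v w gm) (hK2 : S_K2)
    {m m' : ℕ} (hm : 0 < m) (hmm : m ≤ m') {S : LocSys p f} (hS : Len m S) :
    S.act (al m') = S.act (al m) := by
  obtain ⟨φ, hφN, hφ⟩ := D.hφ
  have h1 : al m' - al m ∈ kerA (S0 m) := by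
    apply uniq hK2 gm (F.faith m hm) hφN.2 hφ
    · rw [mem_II, map_sub, F.aug m' (by omega), F.aug m hm, sub_self]
    · have e1 := F.act_inv (m := m') (by omega) ((F.faith m hm).len.mono hm hmm) hφN.1
      have e2 := F.act_inv hm (F.faith m hm).len hφN.1
      rw [mem_kerA, TT_sub, map_sub, map_sub, map_sub, e1, e2, sub_self]
  have h2 := (F.faith m hm).faith S hS _ (mem_kerA.1 h1)
  rwa [map_sub, sub_eq_zero] at h2

/-- the endomorphism attached to a local system -/
def hS (al : ℕ → RR p) (S : LocSys p f) : Module.End ℚ_[p] S.V :=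
  S.act (al (Classical.choose (exists_len S)))

theorem Fam.hS_eq (F : Fam p f A w gm S0 al) (D : Dat p l f a b A v w gm) (hK2 : S_K2)
    {m : ℕ} (hm : 0 < m) {S : LocSys p f} (hSm : Len m S) : hS al S = S.act (al m) := by
  obtain ⟨h1, h2⟩ := Classical.choose_spec (exists_len S)
  unfold hS
  set n := Classical.choose (exists_len S)
  rcases le_total n m with h | h
  · exact (F.compat D hK2 h1 h h2).symm
  · exact F.compat D hK2 hm h hSm

end Y680.W
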