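import Pool.Agent.Y680.W.A7

/-! Compatibility with tensor products. -/

open scoped Pointwise TensorProduct Topology

noncomputable section

namespace Y680.W

variable {p : ℕ} [Fact p.Prime] {f : Polynomial ℚ}

/-- the diagonal -/
def DD : RR p →ₐ[ℚ_[p]] (RR p ⊗[ℚ_[p]] RR p) :=
  MonoidAlgebra.lift ℚ_[p] (RR p ⊗[ℚ_[p]] RR p) Gam
    { toFun := fun γ => ge γ ⊗ₜ ge γ
      map_one' := by rw [ge_one]; rfl
      map_mul' := fun γ δ => by rw [ge_mul, Algebra.TensorProduct.tmul_mul_tmul] }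

theorem DD_ge (γ : Gam) : (DD (ge γ : RR p)) = ge γ ⊗ₜ ge γ := by
  unfold DD
  have := MonoidAlgebra.lift_of (R := ℚ_[p]) (A := RR p ⊗[ℚ_[p]] RR p) (M := Gam)
    { toFun := fun γ => (ge γ : RR p) ⊗ₜ[ℚ_[p]] (ge γ : RR p)
      map_one' := by rw [ge_one]; rfl
      map_mul' := fun γ δ => by rw [ge_mul, Algebra.TensorProduct.tmul_mul_tmul] } γ
  exact this

/-- the product functional on a tensor product -/
def ff {V W : Type*} [AddCommGroup V] [Module ℚ_[p] V] [AddCommGroup W] [Module ℚ_[p] W]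
    (F : V →ₗ[ℚ_[p]] ℚ_[p]) (G : W →ₗ[ℚ_[p]] ℚ_[p]) : V ⊗[ℚ_[p]] W →ₗ[ℚ_[p]] ℚ_[p] :=
  LinearMap.mul' ℚ_[p] ℚ_[p] ∘ₗ TensorProduct.map F G

theorem ff_tmul {V W : Type*} [AddCommGroup V] [Module ℚ_[p] V] [AddCommGroup W] [Module ℚ_[p] W]
    (F : V →ₗ[ℚ_[p]] ℚ_[p]) (G : W →ₗ[ℚ_[p]] ℚ_[p]) (x : V) (y : W) :
    ff F G (x ⊗ₜ y) = F x * G y := by
  simp [ff]

/-- the product of functionals on the group algebra -/
def star (F G : RR p →ₗ[ℚ_[p]] ℚ_[p]) : RR p →ₗ[ℚ_[p]] ℚ_[p] := ff F G ∘ₗ DD.toLinearMap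

theorem star_ge (F G : RR p →ₗ[ℚ_[p]] ℚ_[p]) (γ : Gam) :
    star F G (ge γ) = F (ge γ) * G (ge γ) := by
  change ff F G (DD (ge γ)) = _
  rw [DD_ge, ff_tmul]

theorem lin_ext {F G : RR p →ₗ[ℚ_[p]] ℚ_[p]} (h : ∀ γ, F (ge γ) = G (ge γ)) : F = G := by
  refine LinearMap.ext fun x => ?_
  induction x using RR_induction with
  | h1 γ => exact h γ
  | h2 x y hx hy => rw [map_add, map_add, hx, hy]
  | h3 r x hx => rw [map_smul, map_smul, hx]

/-- the functional on endomorphisms of the tensor product -/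
def Lam {V W : Type} [AddCommGroup V] [Module ℚ_[p] V] [FiniteDimensional ℚ_[p] V]
    [AddCommGroup W] [Module ℚ_[p] W] [FiniteDimensional ℚ_[p] W]
    (L : Module.Dual ℚ_[p] (Module.End ℚ_[p] V)) (L' : Module.Dual ℚ_[p] (Module.End ℚ_[p] W)) :
    Module.Dual ℚ_[p] (Module.End ℚ_[p] (V ⊗[ℚ_[p]] W)) :=
  ff L L' ∘ₗ (homTensorHomEquiv ℚ_[p] V W V W).symm.toLinearMap

theorem Lam_map {V W : Type} [AddCommGroup V] [Module ℚ_[p] V] [FiniteDimensional ℚ_[p] V]
    [AddCommGroup W] [Module ℚ_[p] W] [FiniteDimensional ℚ_[p] W]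
    (L : Module.Dual ℚ_[p] (Module.End ℚ_[p] V)) (L' : Module.Dual ℚ_[p] (Module.End ℚ_[p] W))
    (X : Module.End ℚ_[p] V) (Y : Module.End ℚ_[p] W) :
    Lam L L' (TensorProduct.map X Y) = L X * L' Y := by
  have h : (homTensorHomEquiv ℚ_[p] V W V W).symm (TensorProduct.map X Y) = X ⊗ₜ Y := by
    rw [LinearEquiv.symm_apply_eq, homTensorHomEquiv_apply]
    rfl
  change ff L L' ((homTensorHomEquiv ℚ_[p] V W V W).symm (TensorProduct.map X Y)) = _
  rw [h, ff_tmul]

/-- functionals of the form `Lam` separate points -/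
theorem Lam_sep {V W : Type} [AddCommGroup V] [Module ℚ_[p] V] [FiniteDimensional ℚ_[p] V]
    [AddCommGroup W] [Module ℚ_[p] W] [FiniteDimensional ℚ_[p] W]
    {X Y : Module.End ℚ_[p] (V ⊗[ℚ_[p]] W)}
    (h : ∀ (L : Module.Dual ℚ_[p] (Module.End ℚ_[p] V))
      (L' : Module.Dual ℚ_[p] (Module.End ℚ_[p] W)), Lam L L' X = Lam L L' Y) : X = Y := by
  apply (homTensorHomEquiv ℚ_[p] V W V W).symm.injective
  set b := Module.finBasis ℚ_[p] (Module.End ℚ_[p] V)
  set c := Module.finBasis ℚ_[p] (Module.End ℚ_[p] W)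
  apply (b.tensorProduct c).ext_elem
  rintro ⟨i, j⟩
  have key : ∀ z : Module.End ℚ_[p] V ⊗[ℚ_[p]] Module.End ℚ_[p] W,
      (b.tensorProduct c).repr z (i, j) = ff (b.coord i) (c.coord j) z := by
    intro z
    induction z using TensorProduct.induction_on with
    | zero => simp
    | tmul x y => rw [Module.Basis.tensorProduct_repr_tmul_apply, ff_tmul]; simp [mul_comm]
    | add x y hx hy => rw [map_add, Finsupp.add_apply, hx, hy, map_add]
  rw [key, key]
  exact h (b.coord i) (c.coord j)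

theorem star_act (S T : LocSys p f) (L : Module.Dual ℚ_[p] (Module.End ℚ_[p] S.V))
    (L' : Module.Dual ℚ_[p] (Module.End ℚ_[p] T.V)) (x : RR p) :
    star (L ∘ₗ S.act.toLinearMap) (L' ∘ₗ T.act.toLinearMap) x =
      Lam L L' ((S.tensor T).act x) := by
  have h : star (L ∘ₗ S.act.toLinearMap) (L' ∘ₗ T.act.toLinearMap) =
      (Lam (V := S.V) (W := T.V) L L') ∘ₗ (S.tensor T).act.toLinearMap := by
    apply lin_ext
    intro γ
    rw [star_ge]
    change L (S.act (ge γ)) * L' (T.act (ge γ)) = Lam L L' ((S.tensor T).act (ge γ))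
    rw [LocSys.act_ge, LocSys.act_ge, LocSys.act_ge]
    exact (Lam_map L L' (S.rho γ) (T.rho γ)).symm
  rw [h]; rfl

/-- a functional killing the kernel factors through the action -/
theorem factor {S : LocSys p f} {F : RR p →ₗ[ℚ_[p]] ℚ_[p]} (hF : ∀ x ∈ kerA S, F x = 0) :
    ∃ L : Module.Dual ℚ_[p] (Module.End ℚ_[p] S.V), F = L ∘ₗ S.act.toLinearMap := by
  have h1 : LinearMap.ker S.act.toLinearMap ≤ LinearMap.ker F := fun x hx => hF x hx
  let e := (LinearMap.quotKerEquivRange S.act.toLinearMap)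
  let G : LinearMap.range S.act.toLinearMap →ₗ[ℚ_[p]] ℚ_[p] :=
    (Submodule.liftQ _ F h1) ∘ₗ e.symm.toLinearMap
  obtain ⟨L, hL⟩ := LinearMap.exists_extend G
  refine ⟨L, LinearMap.ext fun x => ?_⟩
  have h2 : L (S.act x) = G ⟨S.act x, x, rfl⟩ := by
    rw [← hL]; rfl
  change F x = L (S.act x)
  rw [h2]
  have h3 : e (Submodule.Quotient.mk x) = ⟨S.act x, x, rfl⟩ := rfl
  change F x = (Submodule.liftQ _ F h1) (e.symm ⟨S.act x, x, rfl⟩)
  rw [← h3, e.symm_apply_apply]
  rfl

variable {l : ℕ} {a b : Option Qb} {A : ValuationSubring Qb} {v w : ValuationSubring Om}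
  {gm : GG → Gam} {S0 : ℕ → LocSys p f} {al : ℕ → RR p}

/-- the product of two functionals killing the kernels kills the kernel -/
theorem star_ker (F0 : Fam p f A w gm S0 al) {m m' : ℕ} (hm : 0 < m) (hm' : 0 < m')
    {F G : RR p →ₗ[ℚ_[p]] ℚ_[p]} (hF : ∀ x ∈ kerA (S0 m), F x = 0)
    (hG : ∀ x ∈ kerA (S0 m'), G x = 0) : ∀ x ∈ kerA (S0 (m + m')), star F G x = 0 := by
  obtain ⟨L, rfl⟩ := factor hF
  obtain ⟨L', rfl⟩ := factor hG
  intro x hx
  rw [star_act]
  have h1 := (F0.faith (m + m') (by omega)).faith _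
    (Len.tensor hm hm' (F0.faith m hm).len (F0.faith m' hm').len) x (mem_kerA.1 hx)
  rw [h1]
  exact (Lam (V := (S0 m).V) (W := (S0 m').V) L L').map_zero

theorem star_TT (gm : GG → Gam) (g : GG) (F G : RR p →ₗ[ℚ_[p]] ℚ_[p]) (x : RR p) :
    star F G (TT gm g x) = star (F ∘ₗ TL gm g) (G ∘ₗ TL gm g) x := by
  have h : star F G ∘ₗ TL gm g = star (F ∘ₗ TL gm g) (G ∘ₗ TL gm g) := by
    apply lin_ext
    intro γ
    rw [star_ge]
    have e : TT gm g (ge γ : RR p) = ge (cj g γ * gm g) := by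
      unfold TT; rw [cjR_ge, ge_mul]
    change star F G (TT gm g (ge γ)) = F (TT gm g (ge γ)) * G (TT gm g (ge γ))
    rw [e, star_ge]
  exact LinearMap.congr_fun h x

theorem star_add_left (F F' G : RR p →ₗ[ℚ_[p]] ℚ_[p]) (x : RR p) :
    star (F + F') G x = star F G x + star F' G x := by
  have h : star (F + F') G = star F G + star F' G := by
    apply lin_ext; intro γ
    rw [LinearMap.add_apply, star_ge, star_ge, star_ge, LinearMap.add_apply, add_mul]
  rw [h]; rfl

theorem star_add_right (F G G' : RR p →ₗ[ℚ_[p]] ℚ_[p]) (x : RR p) :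
    star F (G + G') x = star F G x + star F G' x := by
  have h : star F (G + G') = star F G + star F G' := by
    apply lin_ext; intro γ
    rw [LinearMap.add_apply, star_ge, star_ge, star_ge, LinearMap.add_apply, mul_add]
  rw [h]; rfl

theorem star_smul_left (c : ℚ_[p]) (F G : RR p →ₗ[ℚ_[p]] ℚ_[p]) (x : RR p) :
    star (c • F) G x = c * star F G x := by
  have h : star (c • F) G = c • star F G := by
    apply lin_ext; intro γ
    rw [LinearMap.smul_apply, star_ge, star_ge, LinearMap.smul_apply, smul_eq_mul, smul_eq_mul,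
      mul_assoc]
  rw [h]; rfl

theorem star_smul_right (c : ℚ_[p]) (F G : RR p →ₗ[ℚ_[p]] ℚ_[p]) (x : RR p) :
    star F (c • G) x = c * star F G x := by
  have h : star F (c • G) = c • star F G := by
    apply lin_ext; intro γ
    rw [LinearMap.smul_apply, star_ge, star_ge, LinearMap.smul_apply, smul_eq_mul, smul_eq_mul]
    ring
  rw [h]; rfl

/-- the derived functional -/
theorem exists_derived (hK2 : S_K2) (gm : GG → Gam) {m : ℕ} {T0 : LocSys p f}
    (hT0 : Faith m T0) {φ : GG} (hφ : FixR f φ) {i : ℕ} {F : RR p →ₗ[ℚ_[p]] ℚ_[p]}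
    (hF : ∀ x ∈ II p ^ (i + 1) ⊔ kerA T0, F x = 0) :
    ∃ F1 : RR p →ₗ[ℚ_[p]] ℚ_[p], F ∘ₗ TL gm φ = ch p φ ^ i • F + F1 ∧
      (i = 0 → F1 = 0) ∧ ∀ x ∈ II p ^ ((i - 1) + 1) ⊔ kerA T0, F1 x = 0 := by
  refine ⟨F ∘ₗ TL gm φ - ch p φ ^ i • F, by abel, ?_, ?_⟩
  · rintro rfl
    refine lin_ext fun γ => ?_
    change F (TT gm φ (ge γ)) - (ch p φ ^ 0 • F) (ge γ) = 0
    rw [pow_zero, one_smul, ← map_sub]
    apply hF
    apply Submodule.mem_sup_left
    rw [zero_add, pow_one, mem_II, map_sub, aug_TT, sub_self]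
  · intro x hx
    rcases Nat.eq_zero_or_pos i with hi | hi
    · subst hi
      change F (TT gm φ x) - (ch p φ ^ 0 • F) x = 0
      rw [pow_zero, one_smul, ← map_sub]
      apply hF
      apply Submodule.mem_sup_left
      rw [zero_add, pow_one, mem_II, map_sub, aug_TT, sub_self]
    · have hi2 : i - 1 + 1 = i := by omega
      rw [hi2] at hx
      obtain ⟨y, hy, j, hj, rfl⟩ := Submodule.mem_sup.1 hx
      have h1 := hF _ (TT_gr hK2 gm T0 hφ i y hy)
      have h2 := hF _ (Submodule.mem_sup_right (hT0.TT_mem gm φ hj))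
      have h3 := hF _ (Submodule.mem_sup_right hj)
      change F (TT gm φ (y + j)) - ch p φ ^ i • F (y + j) = 0
      rw [TT_add, map_add, map_add, h2, h3, add_zero, add_zero]
      rw [map_sub, map_smul] at h1
      exact h1

theorem star_al (F0 : Fam p f A w gm S0 al) (D : Dat p l f a b A v w gm) (hK2 : S_K2)
    {m m' : ℕ} (hm : 0 < m) (hm' : 0 < m') (N : ℕ) :
    ∀ i j : ℕ, i + j = N → ∀ F G : RR p →ₗ[ℚ_[p]] ℚ_[p],
    (∀ x ∈ II p ^ (i + 1) ⊔ kerA (S0 m), F x = 0) →
    (∀ x ∈ II p ^ (j + 1) ⊔ kerA (S0 m'), G x = 0) →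
    star F G (al (m + m')) = F (al m) * G (al m') := by
  obtain ⟨φ, hφN, hφ⟩ := D.hφ
  have hone : ∀ F : RR p →ₗ[ℚ_[p]] ℚ_[p], (∀ x ∈ II p, F x = 0) → ∀ x, F x = aug x * F 1 := by
    intro F hF x
    have h1 : F (x - algebraMap ℚ_[p] (RR p) (aug x)) = 0 := by
      apply hF
      rw [mem_II, map_sub, AlgHom.commutes]
      simp
    rw [map_sub, sub_eq_zero] at h1
    rw [h1, Algebra.algebraMap_eq_smul_one, map_smul, smul_eq_mul]
  induction N using Nat.strong_induction_on with
  | _ N ih =>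
    intro i j hij F G hF hG
    by_cases h0 : i + j = 0
    · obtain ⟨rfl, rfl⟩ : i = 0 ∧ j = 0 := by omega
      rw [zero_add, pow_one] at hF hG
      have e1 := hone F fun x hx => hF x (Submodule.mem_sup_left hx)
      have e2 := hone G fun x hx => hG x (Submodule.mem_sup_left hx)
      have e3 : star F G = (F 1 * G 1) • aug.toLinearMap := by
        apply lin_ext
        intro γ
        rw [star_ge, e1, e2]
        change _ = (F 1 * G 1) * aug (ge γ)
        rw [aug_ge]; ring
      rw [e3, e1 (al m), e2 (al m')]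
      change (F 1 * G 1) * aug (al (m + m')) = _
      rw [F0.aug m hm, F0.aug m' hm', F0.aug _ (by omega)]; ring
    · obtain ⟨F1, a1, a2, a3⟩ := exists_derived hK2 gm (F0.faith m hm) hφN.2 hF
      obtain ⟨G1, b1, b2, b3⟩ := exists_derived hK2 gm (F0.faith m' hm') hφN.2 hG
      -- invariance
      have c1 : star F G (TT gm φ (al (m + m'))) = star F G (al (m + m')) := by
        have := star_ker F0 hm hm' (F := F) (G := G) (fun x hx => hF x (Submodule.mem_sup_right hx))
          (fun x hx => hG x (Submodule.mem_sup_right hx)) _ (F0.inv (m + m') (by omega) φ hφN.1)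
        rwa [map_sub, sub_eq_zero] at this
      have c2 : F (al m) = ch p φ ^ i * F (al m) + F1 (al m) := by
        have h1 := hF _ (Submodule.mem_sup_right (F0.inv m hm φ hφN.1))
        rw [map_sub, sub_eq_zero] at h1
        have h2 := LinearMap.congr_fun a1 (al m)
        change F (TT gm φ (al m)) = ch p φ ^ i * F (al m) + F1 (al m) at h2
        rw [← h2, h1]
      have c3 : G (al m') = ch p φ ^ j * G (al m') + G1 (al m') := by
        have h1 := hG _ (Submodule.mem_sup_right (F0.inv m' hm' φ hφN.1))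
        rw [map_sub, sub_eq_zero] at h1
        have h2 := LinearMap.congr_fun b1 (al m')
        change G (TT gm φ (al m')) = ch p φ ^ j * G (al m') + G1 (al m') at h2
        rw [← h2, h1]
      rw [star_TT, a1, b1, star_add_left, star_add_right, star_add_right, star_smul_left,
        star_smul_left, star_smul_right, star_smul_right] at c1
      -- induction
      have d1 : star F G1 (al (m + m')) = F (al m) * G1 (al m') := by
        rcases Nat.eq_zero_or_pos j with hj | hj
        · rw [b2 hj]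
          have : star F 0 = 0 := by
            apply lin_ext; intro γ; rw [star_ge]; simp
          rw [this]; simp
        · exact ih (i + (j - 1)) (by omega) i (j - 1) rfl F G1 hF b3
      have d2 : star F1 G (al (m + m')) = F1 (al m) * G (al m') := by
        rcases Nat.eq_zero_or_pos i with hi | hi
        · rw [a2 hi]
          have : star 0 G = 0 := by
            apply lin_ext; intro γ; rw [star_ge]; simp
          rw [this]; simp
        · exact ih ((i - 1) + j) (by omega) (i - 1) j rfl F1 G a3 hG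
      have d3 : star F1 G1 (al (m + m')) = F1 (al m) * G1 (al m') := by
        rcases Nat.eq_zero_or_pos i with hi | hi
        · rw [a2 hi]
          have : star 0 G1 = 0 := by
            apply lin_ext; intro γ; rw [star_ge]; simp
          rw [this]; simp
        · exact ih ((i - 1) + (j - 1)) (by omega) (i - 1) (j - 1) rfl F1 G1 a3 b3
      rw [d1, d2, d3] at c1
      have hne : (1 : ℚ_[p]) - ch p φ ^ (i + j) ≠ 0 := by
        intro h
        exact hφ (i + j) (by omega) (sub_eq_zero.1 h).symm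
      have hfin : (1 - ch p φ ^ (i + j)) * (star F G (al (m + m')) - F (al m) * G (al m')) = 0 := by
        rw [pow_add]
        linear_combination (-1 : ℚ_[p]) * c1 - (G (al m') * c2 + (ch p φ ^ i * F (al m) +
          F1 (al m)) * c3)
      rcases mul_eq_zero.1 hfin with h | h
      · exact absurd h hne
      · exact sub_eq_zero.1 h

theorem act_tensor_al (F0 : Fam p f A w gm S0 al) (D : Dat p l f a b A v w gm) (hK2 : S_K2)
    {m m' : ℕ} (hm : 0 < m) (hm' : 0 < m') {S T : LocSys p f} (hS : Len m S) (hT : Len m' T) :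
    (S.tensor T).act (al (m + m')) = TensorProduct.map (S.act (al m)) (T.act (al m')) := by
  apply Lam_sep (V := S.V) (W := T.V)
  intro L L'
  rw [Lam_map]
  rw [← star_act S T L L']
  have h1 : ∀ x ∈ II p ^ ((m - 1) + 1) ⊔ kerA (S0 m), (L ∘ₗ S.act.toLinearMap) x = 0 := by
    intro x hx
    have hk : x ∈ kerA (S0 m) := by
      rw [Nat.sub_add_cancel hm] at hx
      exact (sup_le (F0.faith m hm).pow_le le_rfl) hx
    have := (F0.faith m hm).faith S hS x (mem_kerA.1 hk)
    change L (S.act x) = 0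
    rw [this, map_zero]
  have h2 : ∀ x ∈ II p ^ ((m' - 1) + 1) ⊔ kerA (S0 m'), (L' ∘ₗ T.act.toLinearMap) x = 0 := by
    intro x hx
    have hk : x ∈ kerA (S0 m') := by
      rw [Nat.sub_add_cancel hm'] at hx
      exact (sup_le (F0.faith m' hm').pow_le le_rfl) hx
    have := (F0.faith m' hm').faith T hT x (mem_kerA.1 hk)
    change L' (T.act x) = 0
    rw [this, map_zero]
  exact star_al F0 D hK2 hm hm' _ (m - 1) (m' - 1) rfl _ _ h1 h2

end Y680.W
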