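import Pool.Agent.Y680.W.A8

/-! The invariant unipotent path. -/

open scoped Pointwise TensorProduct Topology

noncomputable section

namespace Y680.W

variable {p : ℕ} [Fact p.Prime] {f : Polynomial ℚ}
variable {l : ℕ} {a b : Option Qb} {A : ValuationSubring Qb} {v w : ValuationSubring Om}
  {gm : GG → Gam} {S0 : ℕ → LocSys p f} {al : ℕ → RR p}

theorem rho_inv_eq (S : LocSys p f) {γ δ : Gam} (h : S.rho γ = S.rho δ) :
    S.rho γ⁻¹ = S.rho δ⁻¹ := by
  have h1 : S.rho γ⁻¹ * S.rho γ = 1 := by rw [← map_mul, inv_mul_cancel, map_one]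
  have h2 : S.rho δ * S.rho δ⁻¹ = 1 := by rw [← map_mul, mul_inv_cancel, map_one]
  calc S.rho γ⁻¹ = S.rho γ⁻¹ * (S.rho δ * S.rho δ⁻¹) := by rw [h2, mul_one]
    _ = (S.rho γ⁻¹ * S.rho γ) * S.rho δ⁻¹ := by rw [h, mul_assoc]
    _ = S.rho δ⁻¹ := by rw [h1, one_mul]

theorem rho_mul_inv (S : LocSys p f) (γ : Gam) : S.rho γ * S.rho γ⁻¹ = 1 := by
  rw [← map_mul, mul_inv_cancel, map_one]

theorem rho_inv_mul (S : LocSys p f) (γ : Gam) : S.rho γ⁻¹ * S.rho γ = 1 := by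
  rw [← map_mul, inv_mul_cancel, map_one]

theorem rho_bij (S : LocSys p f) (γ : Gam) : Function.Bijective (S.rho γ) := by
  rw [← Module.End.isUnit_iff]
  exact ⟨⟨S.rho γ, S.rho γ⁻¹, rho_mul_inv S γ, rho_inv_mul S γ⟩, rfl⟩

/-- the transport family -/
def hp (cv cw : ValuationSubring Om → Gam) (al : ℕ → RR p) : Trans p f :=
  fun S v' w' => S.rho (cw w') * hS al S * S.rho (cv v')⁻¹

theorem Fam.hS_bij (F : Fam p f A w gm S0 al) (D : Dat p l f a b A v w gm) (hK2 : S_K2)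
    (S : LocSys p f) : IsUnit (hS al S) := by
  obtain ⟨m, hm, hSm⟩ := exists_len S
  rw [F.hS_eq D hK2 hm hSm]
  have h1 : S.act (al m) = 1 + S.act (al m - 1) := by rw [map_sub, map_one]; abel
  rw [h1]
  apply IsNilpotent.isUnit_one_add
  refine ⟨m, ?_⟩
  rw [← map_pow]
  apply hSm
  apply Submodule.pow_mem_pow
  rw [mem_II, map_sub, F.aug m hm, map_one, sub_self]

theorem intertwine {S T : LocSys p f} {u : S.V →ₗ[ℚ_[p]] T.V}
    (hu : ∀ γ : Gam, u ∘ₗ S.rho γ = T.rho γ ∘ₗ u) (x : RR p) : u ∘ₗ S.act x = T.act x ∘ₗ u := by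
  induction x using RR_induction with
  | h1 γ => rw [LocSys.act_ge, LocSys.act_ge]; exact hu γ
  | h2 x y hx hy => rw [map_add, map_add, LinearMap.comp_add, LinearMap.add_comp, hx, hy]
  | h3 r x hx => rw [map_smul, map_smul, LinearMap.comp_smul, LinearMap.smul_comp, hx]

theorem isPath_hp {cv cw : ValuationSubring Om → Gam}
    (hcv : ∀ v', IsPlace a v' → (cv v' : GG) • v = v')
    (hcw : ∀ w', IsPlace b w' → (cw w' : GG) • w = w')
    (hga : ∀ g : GG, gpt g a = a) (hgb : ∀ g : GG, gpt g b = b)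
    (F : Fam p f A w gm S0 al) (D : Dat p l f a b A v w gm) (hK2 : S_K2) (n : ℕ) :
    IsPath n a b (hp (p := p) (f := f) cv cw al) where
  bij := by
    intro S _ v' w' _ _
    have h1 := F.hS_bij D hK2 S
    rw [← Module.End.isUnit_iff]
    exact (((Module.End.isUnit_iff _).2 (rho_bij S _)).mul h1).mul
      ((Module.End.isUnit_iff _).2 (rho_bij S _))
  equiv := by
    intro S _ v' w' hv' hw' γ δ
    have hv2 : IsPlace a ((γ : GG) • v') := by
      have := isPlace_smul (γ : GG) hv'; rwa [hga] at this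
    have hw2 : IsPlace b ((δ : GG) • w') := by
      have := isPlace_smul (δ : GG) hw'; rwa [hgb] at this
    have e1 : S.rho (cw (δ • w')) = S.rho (δ * cw w') := by
      apply rho_eq_of_smul S D.hb D.hw
      have : (cw (δ • w') : GG) • w = (δ : GG) • w' := hcw _ hw2
      rw [this, Subgroup.coe_mul, mul_smul, hcw w' hw']
    have e2 : S.rho (cv (γ • v')) = S.rho (γ * cv v') := by
      apply rho_eq_of_smul S D.ha D.hv
      have : (cv (γ • v') : GG) • v = (γ : GG) • v' := hcv _ hv2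
      rw [this, Subgroup.coe_mul, mul_smul, hcv v' hv']
    have e3 := rho_inv_eq S e2
    change (S.rho (cw (δ • w')) * hS al S * S.rho (cv (γ • v'))⁻¹) * S.rho γ =
      S.rho δ * (S.rho (cw w') * hS al S * S.rho (cv v')⁻¹)
    rw [e1, e3, mul_inv_rev, map_mul, map_mul]
    have e4 := rho_inv_mul S γ
    calc S.rho δ * S.rho (cw w') * hS al S * (S.rho (cv v')⁻¹ * S.rho γ⁻¹) * S.rho γ
        = S.rho δ * S.rho (cw w') * hS al S * S.rho (cv v')⁻¹ * (S.rho γ⁻¹ * S.rho γ) := by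
          noncomm_ring
      _ = _ := by rw [e4]; noncomm_ring
  nat := by
    intro S T _ _ u hu v' w' _ _
    obtain ⟨m, hm, hSm⟩ := exists_len S
    obtain ⟨m', hm', hTm⟩ := exists_len T
    have h1 := F.hS_eq D hK2 (m := max m m') (by omega) (hSm.mono hm (le_max_left _ _))
    have h2 := F.hS_eq D hK2 (m := max m m') (by omega) (hTm.mono hm' (le_max_right _ _))
    have h3 := intertwine hu (al (max m m'))
    rw [← h1, ← h2] at h3
    change u ∘ₗ (S.rho (cw w') ∘ₗ hS al S ∘ₗ S.rho (cv v')⁻¹) =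
      (T.rho (cw w') ∘ₗ hS al T ∘ₗ T.rho (cv v')⁻¹) ∘ₗ u
    rw [← LinearMap.comp_assoc, hu, LinearMap.comp_assoc, ← LinearMap.comp_assoc _ _ u, h3,
      LinearMap.comp_assoc, hu]
    rfl
  tens := by
    intro S T _ _ v' w' _ _
    obtain ⟨m, hm, hSm⟩ := exists_len S
    obtain ⟨m', hm', hTm⟩ := exists_len T
    have h1 := F.hS_eq D hK2 hm hSm
    have h2 := F.hS_eq D hK2 hm' hTm
    have h3 := F.hS_eq D hK2 (by omega : 0 < m + m') (Len.tensor hm hm' hSm hTm)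
    have h4 := act_tensor_al F D hK2 hm hm' hSm hTm
    rw [← h1, ← h2, ← h3] at h4
    have e1 : (S.tensor T).rho (cw w') = TensorProduct.map (S.rho (cw w')) (T.rho (cw w')) := rfl
    have e2 : (S.tensor T).rho (cv v')⁻¹ =
      TensorProduct.map (S.rho (cv v')⁻¹) (T.rho (cv v')⁻¹) := rfl
    change (S.tensor T).rho (cw w') ∘ₗ hS al (S.tensor T) ∘ₗ (S.tensor T).rho (cv v')⁻¹ =
      TensorProduct.map (S.rho (cw w') ∘ₗ hS al S ∘ₗ S.rho (cv v')⁻¹)
        (T.rho (cw w') ∘ₗ hS al T ∘ₗ T.rho (cv v')⁻¹)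
    rw [e1, e2, h4, TensorProduct.map_comp, TensorProduct.map_comp]
    rfl
  unit := by
    intro v' w' _ _
    have h1 := F.hS_eq D hK2 one_pos (len_unit (p := p) (f := f))
    rw [act_unit, F.aug 1 one_pos, one_smul] at h1
    change (LocSys.unit (p := p) (f := f)).rho (cw w') * hS al LocSys.unit *
      (LocSys.unit (p := p) (f := f)).rho (cv v')⁻¹ = 1
    rw [h1]
    rfl

theorem invt_hp {cv cw : ValuationSubring Om → Gam}
    (hcv : ∀ v', IsPlace a v' → (cv v' : GG) • v = v')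
    (hcw : ∀ w', IsPlace b w' → (cw w' : GG) • w = w')
    (hga : ∀ g : GG, gpt g a = a) (hgb : ∀ g : GG, gpt g b = b)
    (F : Fam p f A w gm S0 al) (D : Dat p l f a b A v w gm) (hK2 : S_K2) (n : ℕ) :
    Invt n A a b (hp (p := p) (f := f) cv cw al) := by
  intro g hg S _ v' w' hv' hw'
  have hv2 : IsPlace a (g • v') := by
    have := isPlace_smul g hv'; rwa [hga] at this
  have hw2 : IsPlace b (g • w') := by
    have := isPlace_smul g hw'; rwa [hgb] at this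
  obtain ⟨m, hm, hSm⟩ := exists_len S
  have h1 := F.hS_eq D hK2 hm hSm
  have h2 := F.hS_eq D hK2 hm (hSm.twist g)
  set γ := cv v' with hγ
  set δ := cw w' with hδ
  set γ₁ := cv (g • v') with hγ1
  set δ₁ := cw (g • w') with hδ1
  have kγ : (γ : GG) • v = v' := hcv v' hv'
  have kδ : (δ : GG) • w = w' := hcw w' hw'
  have kγ1 : (γ₁ : GG) • v = g • v' := hcv _ hv2
  have kδ1 : (δ₁ : GG) • w = g • w' := hcw _ hw2
  set g₂ : GG := (δ₁ : GG)⁻¹ * g * (δ : GG) with hg2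
  have hdecG : ∀ ε : Gam, Dec A (ε : GG) := by
    intro ε z
    have : (⟨(ε : GG) z, map_Qb (ε : GG) z.2⟩ : Qb) = z := Subtype.ext (ε.2 z z.2)
    rw [this]
  have hdecG' : ∀ ε : Gam, Dec A (ε : GG)⁻¹ := by
    intro ε
    exact hdecG ε⁻¹
  have hg2H : g₂ ∈ HH A w := by
    refine ⟨?_, ?_⟩
    · have e1 := hdecG' δ₁
      have e3 := hdecG δ
      rw [Dec_iff] at *
      intro z
      rw [hg2, map_mul, map_mul, AlgEquiv.mul_apply, AlgEquiv.mul_apply, e3 z, hg, e1]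
    · rw [hg2, mul_smul, kδ, mul_smul, inv_smul_eq_iff, kδ1]
  have key := F.act_inv hm (hSm.twist g) hg2H
  -- rewrite the transport
  have e1 : TT gm g₂ (al m) = ge δ₁⁻¹ * cjR g (ge δ * al m * ge δ⁻¹) * ge δ₁ * ge (gm g₂) := by
    unfold TT
    rw [hg2, cjR_mul, cjR_mul, cjR_inner δ]
    have : ((δ₁ : GG)⁻¹) = ((δ₁⁻¹ : Gam) : GG) := rfl
    rw [this, cjR_inner, inv_inv]
  rw [e1] at key
  have key2 : (S.twist g).act (ge δ₁ * (ge δ₁⁻¹ * cjR g (ge δ * al m * ge δ⁻¹) * ge δ₁ *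
      ge (gm g₂)) * ge γ₁⁻¹) = (S.twist g).act (ge δ₁ * al m * ge γ₁⁻¹) := by
    rw [map_mul, map_mul, key, ← map_mul, ← map_mul]
  have e2 : ge δ₁ * (ge δ₁⁻¹ * cjR g (ge δ * al m * ge δ⁻¹) * ge δ₁ * ge (gm g₂)) * ge γ₁⁻¹ =
      cjR g (ge δ * al m * ge δ⁻¹) * (ge (δ₁ * gm g₂ * γ₁⁻¹) : RR p) := by
    rw [ge_mul, ge_mul]
    calc ge δ₁ * (ge δ₁⁻¹ * cjR g (ge δ * al m * ge δ⁻¹) * ge δ₁ * ge (gm g₂)) * ge γ₁⁻¹
        = (ge δ₁ * ge δ₁⁻¹) * (cjR g (ge δ * al m * ge δ⁻¹) * (ge δ₁ * ge (gm g₂) * ge γ₁⁻¹)) := by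
          noncomm_ring
      _ = _ := by rw [ge_mul_inv, one_mul]
  rw [e2, LocSys.act_twist, map_mul, cjR_inv, cjR_ge] at key2
  -- the group element
  have e3 : S.rho (δ⁻¹ * cj g⁻¹ (δ₁ * gm g₂ * γ₁⁻¹)) = S.rho γ⁻¹ := by
    apply rho_eq_of_smul S D.ha hv'
    have h3 : ((γ⁻¹ : Gam) : GG) • v' = v := by
      rw [← kγ]; exact inv_smul_smul _ _
    rw [h3, Subgroup.coe_mul, cj_coe]
    have h4 : ((δ₁ * gm g₂ * γ₁⁻¹ : Gam) : GG) • (g • v') = g • ((δ : GG) • v) := by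
      rw [Subgroup.coe_mul, Subgroup.coe_mul, mul_smul, mul_smul, ← kγ1]
      have h5 : ((γ₁⁻¹ : Gam) : GG) • ((γ₁ : GG) • v) = v := inv_smul_smul _ _
      rw [h5, D.hgm, hg2, mul_smul, mul_smul, smul_inv_smul]
    rw [mul_smul, mul_smul, mul_smul, inv_inv, h4, inv_smul_smul]
    exact inv_smul_smul _ _
  -- conclusion
  change (S.twist g).rho δ₁ * hS al (S.twist g) * (S.twist g).rho γ₁⁻¹ =
    S.rho δ * hS al S * S.rho γ⁻¹
  rw [h1, h2]
  have e4 : (S.twist g).rho δ₁ * (S.twist g).act (al m) * (S.twist g).rho γ₁⁻¹ =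
      (S.twist g).act (ge δ₁ * al m * ge γ₁⁻¹) := by
    rw [map_mul, map_mul, LocSys.act_ge, LocSys.act_ge]
  have e5 : S.rho δ * S.act (al m) * S.rho γ⁻¹ = S.act (ge δ * al m * ge γ⁻¹) := by
    rw [map_mul, map_mul, LocSys.act_ge, LocSys.act_ge]
  have e6 : S.act (ge δ * al m * ge δ⁻¹ * ge (cj g⁻¹ (δ₁ * gm g₂ * γ₁⁻¹))) =
      S.rho δ * S.act (al m) * S.rho γ⁻¹ := by
    rw [map_mul, map_mul, map_mul, LocSys.act_ge, LocSys.act_ge, LocSys.act_ge, mul_assoc,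
      ← map_mul S.rho, e3]
  exact e4.trans (key2.symm.trans e6)

end Y680.W
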