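import Mathlib

/-!
Definitions for MP_fd87b4_nt (weakly global p-adic points).

We work inside one algebraic closure of the rational function field in one variable t over the
rationals.  Its Galois group is an extension of the Galois group of the rationals by the geometric
Galois group.  A unipotent local system on the projective line minus the roots of f is a
continuous unipotent representation of the geometric Galois group which is trivial on the
stabilisers of all places above the other points (these stabilisers are the inertia groups).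
-/

open scoped Pointwise TensorProduct

noncomputable section

namespace Y680.W

/-- an algebraic closure of the field of rational functions over the rationals -/
abbrev Om : Type := AlgebraicClosure (RatFunc ℚ)

/-- the Galois group of `Om` over the rational function field -/
abbrev GG : Type := Om ≃ₐ[RatFunc ℚ] Om

/-- the coordinate of the projective line -/
def tt : Om := algebraMap (RatFunc ℚ) Om RatFunc.X

/-- the algebraic closure of the rationals in `Om` -/
abbrev Qb : IntermediateField ℚ Om := algebraicClosure ℚ Om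

/-- the geometric Galois group: automorphisms which are trivial on the algebraic numbers -/
def Gam : Subgroup GG where
  carrier := {g | ∀ z ∈ Qb, g z = z}
  mul_mem' := by
    intro a b ha hb z hz
    rw [AlgEquiv.mul_apply, hb z hz, ha z hz]
  one_mem' := fun z _ => rfl
  inv_mem' := by
    intro a ha z hz
    have := ha z hz
    calc a⁻¹ z = a⁻¹ (a z) := by rw [this]
      _ = z := by rw [← AlgEquiv.mul_apply, inv_mul_cancel]; rfl

theorem map_Qb (g : GG) {z : Om} (hz : z ∈ Qb) : g z ∈ Qb :=
  (map_mem_algebraicClosure_iff (g.toAlgHom.restrictScalars ℚ)).2 hz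

instance : Gam.Normal := by
  refine ⟨fun n hn g z hz => ?_⟩
  have h1 : g⁻¹ z ∈ Qb := map_Qb g⁻¹ hz
  rw [AlgEquiv.mul_apply, AlgEquiv.mul_apply, hn _ h1, ← AlgEquiv.mul_apply, mul_inv_cancel]
  rfl

/-- The local coordinate at a closed point of the projective line over the algebraic numbers;
`none` is the point at infinity. -/
def loc : Option Qb → Om
  | none => tt⁻¹
  | some a => tt - (a : Om)

/-- `v` is a place of `Om` above the point `a`: a valuation ring containing the rationals in which
the local coordinate is not a unit. -/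
def IsPlace (a : Option Qb) (v : ValuationSubring Om) : Prop :=
  (∀ q : ℚ, algebraMap ℚ Om q ∈ v) ∧ loc a ∈ v.nonunits

/-- `a` is a root of `f`; the point at infinity is never a root. -/
def IsRoot (f : Polynomial ℚ) : Option Qb → Prop
  | none => False
  | some a => Polynomial.aeval a f = 0

/-- A unipotent local system over the `p`-adic numbers on the projective line (over the algebraic
numbers) minus the roots of `f`. -/
structure LocSys (p : ℕ) [Fact p.Prime] (f : Polynomial ℚ) where
  /-- the underlying space -/
  V : Type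
  [acg : AddCommGroup V]
  [mod : Module ℚ_[p] V]
  [fd : FiniteDimensional ℚ_[p] V]
  /-- the monodromy representation -/
  rho : Representation ℚ_[p] Gam V
  /-- continuity (of all matrix coefficients) -/
  cont : ∀ (v : V) (l : Module.Dual ℚ_[p] V), Continuous fun γ : Gam => l (rho γ v)
  /-- unipotent: iterated extension of trivial representations -/
  unip : ∃ (m : ℕ) (W : ℕ → Submodule ℚ_[p] V), Antitone W ∧ W 0 = ⊤ ∧ W m = ⊥ ∧
    ∀ i, ∀ w ∈ W i, ∀ γ, rho γ w - w ∈ W (i + 1)
  /-- unramified outside the roots of `f` -/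
  unram : ∀ a, ¬ IsRoot f a → ∀ v : ValuationSubring Om, IsPlace a v →
    ∀ γ : Gam, γ • v = v → rho γ = 1

attribute [instance] LocSys.acg LocSys.mod LocSys.fd

/-- conjugation by an element of the big group on the geometric group -/
def cj (g : GG) : Gam →* Gam := (MulAut.conjNormal g : MulAut Gam).toMonoidHom

theorem cj_coe (g : GG) (γ : Gam) : ((cj g γ : Gam) : GG) = g * γ * g⁻¹ :=
  MulAut.conjNormal_apply g γ

theorem continuous_cj (g : GG) : Continuous (cj g) := by
  rw [continuous_induced_rng]
  have h : (Subtype.val ∘ (cj g) : Gam → GG) = fun γ : Gam => g * (γ : GG) * g⁻¹ := by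
    funext γ; exact cj_coe g γ
  rw [h]
  fun_prop

/-- the Galois action on closed points -/
def gpt (g : GG) : Option Qb → Option Qb
  | none => none
  | some a => some ⟨g a, map_Qb g a.2⟩

theorem loc_gpt (g : GG) (a : Option Qb) : loc (gpt g a) = g (loc a) := by
  have h : g tt = tt := g.commutes _
  cases a with
  | none => simp [gpt, loc, h]
  | some a => simp [gpt, loc, h]

theorem smul_mem_nonunits (g : GG) {x : Om} {v : ValuationSubring Om} :
    g x ∈ (g • v).nonunits ↔ x ∈ v.nonunits := by
  rw [ValuationSubring.mem_nonunits_iff_or, ValuationSubring.mem_nonunits_iff_or]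
  have h2 : (g x)⁻¹ = g • x⁻¹ := by
    rw [AlgEquiv.smul_def, map_inv₀]
  rw [h2, ValuationSubring.smul_mem_pointwise_smul_iff]
  simp

theorem isPlace_smul (g : GG) {a : Option Qb} {v : ValuationSubring Om} (h : IsPlace a v) :
    IsPlace (gpt g a) (g • v) := by
  refine ⟨fun q => ?_, ?_⟩
  · have h1 := ValuationSubring.smul_mem_pointwise_smul g _ v (h.1 q)
    have h2 : g • (algebraMap ℚ Om q) = algebraMap ℚ Om q :=
      (g.toAlgHom.restrictScalars ℚ).commutes q
    rwa [h2] at h1
  · rw [loc_gpt, smul_mem_nonunits]
    exact h.2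

theorem isRoot_gpt (f : Polynomial ℚ) (g : GG) (a : Option Qb) :
    IsRoot f (gpt g a) ↔ IsRoot f a := by
  cases a with
  | none => rfl
  | some a =>
    change Polynomial.aeval (⟨g a, map_Qb g a.2⟩ : Qb) f = 0 ↔ Polynomial.aeval a f = 0
    have key : ∀ z : Qb, Polynomial.aeval z f = 0 ↔ Polynomial.aeval (z : Om) f = 0 := by
      intro z
      have : ((Polynomial.aeval z f : Qb) : Om) = Polynomial.aeval (z : Om) f :=
        (Polynomial.aeval_algHom_apply Qb.val z f).symm
      rw [← this]
      exact (ZeroMemClass.coe_eq_zero).symm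
    rw [key, key]
    have h3 : Polynomial.aeval (g (a : Om)) f = g (Polynomial.aeval (a : Om) f) :=
      Polynomial.aeval_algHom_apply (g.toAlgHom.restrictScalars ℚ) (a : Om) f
    change Polynomial.aeval (g (a : Om)) f = 0 ↔ _
    rw [h3]
    simp

namespace LocSys

variable {p : ℕ} [Fact p.Prime] {f : Polynomial ℚ}

/-- the pull-back of a local system by an automorphism of the base field -/
def twist (g : GG) (S : LocSys p f) : LocSys p f where
  V := S.V
  rho := S.rho.comp (cj g⁻¹)
  cont := fun v l => (S.cont v l).comp (continuous_cj g⁻¹)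
  unip := by
    obtain ⟨m, W, h1, h2, h3, h4⟩ := S.unip
    exact ⟨m, W, h1, h2, h3, fun i w hw γ => h4 i w hw _⟩
  unram := by
    intro a ha v hv γ hγ
    refine S.unram (gpt g⁻¹ a) (fun h => ha ((isRoot_gpt f g⁻¹ a).1 h)) (g⁻¹ • v)
      (isPlace_smul g⁻¹ hv) _ ?_
    change ((cj g⁻¹ γ : Gam) : GG) • (g⁻¹ • v) = g⁻¹ • v
    rw [cj_coe, inv_inv, smul_smul, mul_assoc, mul_inv_cancel, mul_one, ← smul_smul]
    congr 1

/-- the trivial local system of rank one -/
def unit : LocSys p f where
  V := ℚ_[p]
  rho := 1
  cont := fun v l => by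
    have : (fun γ : Gam => l ((1 : Representation ℚ_[p] Gam ℚ_[p]) γ v)) = fun _ => l v := by
      funext γ; simp
    rw [this]
    exact continuous_const
  unip := by
    refine ⟨1, fun i => if i = 0 then ⊤ else ⊥, ?_, by simp, by simp, ?_⟩
    · intro i j hij
      dsimp only
      split_ifs with h1 h2 <;> simp_all
    · intro i w hw γ
      simp
  unram := fun a ha v hv γ hγ => rfl

theorem tensor_cont (S T : LocSys p f) (v : S.V ⊗[ℚ_[p]] T.V)
    (l : Module.Dual ℚ_[p] (S.V ⊗[ℚ_[p]] T.V)) :
    Continuous fun γ : Gam => l ((S.rho.tprod T.rho) γ v) := by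
  induction v using TensorProduct.induction_on with
  | zero => simpa using continuous_const
  | add x y hx hy =>
    simp only [map_add]
    exact hx.add hy
  | tmul x y =>
    set b := Module.finBasis ℚ_[p] S.V
    set c := Module.finBasis ℚ_[p] T.V
    have h : (fun γ : Gam => l ((S.rho.tprod T.rho) γ (x ⊗ₜ y))) = fun γ : Gam =>
        ∑ i, ∑ j, (b.coord i (S.rho γ x) * c.coord j (T.rho γ y)) * l (b i ⊗ₜ c j) := by
      funext γ
      have h1 : S.rho γ x = ∑ i, b.coord i (S.rho γ x) • b i := (b.sum_repr _).symm
      have h2 : T.rho γ y = ∑ j, c.coord j (T.rho γ y) • c j := (c.sum_repr _).symm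
      rw [Representation.tprod_apply, TensorProduct.map_tmul]
      conv_lhs => rw [h1, h2]
      rw [TensorProduct.sum_tmul, map_sum]
      refine Finset.sum_congr rfl fun i _ => ?_
      rw [TensorProduct.tmul_sum, map_sum]
      refine Finset.sum_congr rfl fun j _ => ?_
      rw [TensorProduct.tmul_smul, ← TensorProduct.smul_tmul', map_smul, map_smul, smul_eq_mul,
        smul_eq_mul]
      ring
    rw [h]
    refine continuous_finsetSum _ fun i _ => continuous_finsetSum _ fun j _ => ?_
    exact ((S.cont x _).mul (T.cont y _)).mul continuous_const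

/-- the total filtration of a tensor product -/
def totF {K V V' : Type*} [Field K] [AddCommGroup V] [Module K V] [AddCommGroup V'] [Module K V']
    (W : ℕ → Submodule K V) (W' : ℕ → Submodule K V') (k : ℕ) : Submodule K (V ⊗[K] V') :=
  Submodule.span K {z | ∃ i j, k ≤ i + j ∧ ∃ v ∈ W i, ∃ w ∈ W' j, z = v ⊗ₜ[K] w}

theorem tensor_unip (S T : LocSys p f) :
    ∃ (m : ℕ) (W : ℕ → Submodule ℚ_[p] (S.V ⊗[ℚ_[p]] T.V)), Antitone W ∧ W 0 = ⊤ ∧ W m = ⊥ ∧
    ∀ i, ∀ w ∈ W i, ∀ γ, (S.rho.tprod T.rho) γ w - w ∈ W (i + 1) := by
  obtain ⟨m, W, a1, a2, a3, a4⟩ := S.unip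
  obtain ⟨m', W', b1, b2, b3, b4⟩ := T.unip
  refine ⟨m + m', totF W W', ?_, ?_, ?_, ?_⟩
  · intro i j hij
    apply Submodule.span_mono
    rintro z ⟨i', j', h1, h2⟩
    exact ⟨i', j', hij.trans h1, h2⟩
  · rw [eq_top_iff, ← TensorProduct.span_tmul_eq_top]
    apply Submodule.span_mono
    rintro z ⟨v, w, rfl⟩
    exact ⟨0, 0, le_rfl, v, by rw [a2]; trivial, w, by rw [b2]; trivial, rfl⟩
  · rw [eq_bot_iff]
    apply Submodule.span_le.2
    rintro z ⟨i, j, h1, v, hv, w, hw, rfl⟩
    rcases le_or_gt m i with h | h
    · have : v = 0 := by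
        have := a1 h hv
        rwa [a3, Submodule.mem_bot] at this
      simp [this]
    · have : w = 0 := by
        have := b1 (by omega : m' ≤ j) hw
        rwa [b3, Submodule.mem_bot] at this
      simp [this]
  · intro i w hw γ
    induction hw using Submodule.span_induction with
    | zero => simp
    | add x y _ _ hx hy =>
      have : (S.rho.tprod T.rho) γ (x + y) - (x + y) = ((S.rho.tprod T.rho) γ x - x) +
        ((S.rho.tprod T.rho) γ y - y) := by rw [map_add]; abel
      rw [this]
      exact add_mem hx hy
    | smul c x _ hx =>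
      rw [map_smul, ← smul_sub]
      exact Submodule.smul_mem _ _ hx
    | mem z hz =>
      obtain ⟨i', j', h1, v, hv, w, hw, rfl⟩ := hz
      rw [Representation.tprod_apply, TensorProduct.map_tmul]
      have : (S.rho γ v) ⊗ₜ[ℚ_[p]] (T.rho γ w) - v ⊗ₜ w = (S.rho γ v - v) ⊗ₜ (T.rho γ w - w) +
          (S.rho γ v - v) ⊗ₜ w + v ⊗ₜ (T.rho γ w - w) := by
        simp only [TensorProduct.sub_tmul, TensorProduct.tmul_sub]
        abel
      rw [this]
      refine add_mem (add_mem ?_ ?_) ?_
      · exact Submodule.subset_span ⟨i' + 1, j' + 1, by omega, _, a4 _ _ hv _, _, b4 _ _ hw _, rfl⟩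
      · exact Submodule.subset_span ⟨i' + 1, j', by omega, _, a4 _ _ hv _, _, hw, rfl⟩
      · exact Submodule.subset_span ⟨i', j' + 1, by omega, _, hv, _, b4 _ _ hw _, rfl⟩

/-- the tensor product of two local systems -/
def tensor (S T : LocSys p f) : LocSys p f where
  V := S.V ⊗[ℚ_[p]] T.V
  rho := S.rho.tprod T.rho
  cont := tensor_cont S T
  unip := tensor_unip S T
  unram := by
    intro a ha v hv γ hγ
    rw [Representation.tprod_apply, S.unram a ha v hv γ hγ, T.unram a ha v hv γ hγ]
    exact TensorProduct.map_id

/-- `S` is a representation of the quotient of level `n` of the unipotent fundamental group: the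
(n+1)-st term of the descending central series acts trivially. -/
def Level (S : LocSys p f) (n : ℕ) : Prop :=
  ∀ γ : Gam, (γ : GG) ∈ Gam.lowerCentralSeries n → S.rho γ = 1

end LocSys

/-- A family of transports: to a local system and two places it assigns a linear map. -/
abbrev Trans (p : ℕ) [Fact p.Prime] (f : Polynomial ℚ) : Type 1 :=
  ∀ S : LocSys p f, ValuationSubring Om → ValuationSubring Om → (S.V →ₗ[ℚ_[p]] S.V)

variable {p : ℕ} [Fact p.Prime] {f : Polynomial ℚ}

/-- `h` is a point (over the `p`-adic numbers) of the torsor of unipotent paths of level `n` from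
`x` to `y`: an isomorphism of tensor functors between the fibre functors at `x` and at `y` on the
category of local systems of level `n`.  The fibre of `S` at `x` is the space of equivariant
functions from the places above `x` to the space of `S`. -/
structure IsPath (n : ℕ) (x y : Option Qb) (h : Trans p f) : Prop where
  bij : ∀ S : LocSys p f, S.Level n → ∀ v w, IsPlace x v → IsPlace y w →
    Function.Bijective (h S v w)
  equiv : ∀ S : LocSys p f, S.Level n → ∀ v w, IsPlace x v → IsPlace y w → ∀ γ δ : Gam,
    h S (γ • v) (δ • w) ∘ₗ S.rho γ = S.rho δ ∘ₗ h S v w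
  nat : ∀ S T : LocSys p f, S.Level n → T.Level n → ∀ u : S.V →ₗ[ℚ_[p]] T.V,
    (∀ γ : Gam, u ∘ₗ S.rho γ = T.rho γ ∘ₗ u) → ∀ v w, IsPlace x v → IsPlace y w →
    u ∘ₗ h S v w = h T v w ∘ₗ u
  tens : ∀ S T : LocSys p f, S.Level n → T.Level n → ∀ v w, IsPlace x v → IsPlace y w →
    h (S.tensor T) v w = TensorProduct.map (h S v w) (h T v w)
  unit : ∀ v w, IsPlace x v → IsPlace y w → h LocSys.unit v w = LinearMap.id

/-- `g` lies above the decomposition group of the valuation ring `A` of the field of algebraic
numbers. -/
def Dec (A : ValuationSubring Qb) (g : GG) : Prop :=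
  ∀ z : Qb, z ∈ A ↔ (⟨g z, map_Qb g z.2⟩ : Qb) ∈ A

/-- The path `h` is invariant under the decomposition group of `A`. -/
def Invt (n : ℕ) (A : ValuationSubring Qb) (x y : Option Qb) (h : Trans p f) : Prop :=
  ∀ g : GG, Dec A g → ∀ S : LocSys p f, S.Level n → ∀ v w, IsPlace x v → IsPlace y w →
    h (S.twist g) (g • v) (g • w) = h S v w

/-- the rational point `(x : y)` of the projective line -/
def pt (x y : ℤ) : Option Qb := if y = 0 then none else some ((x : Qb) / (y : Qb))

end Y680.W
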