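import Pool.Agent.Y680.W.Defs

/-!
Statements of the auxiliary theorems for MP_fd87b4_nt (project WG, helper680).
-/

open scoped Pointwise TensorProduct

noncomputable section

namespace Y680.W

/-- W-DICT: a valuation ring of an algebraic extension is determined by its trace on the base field
and its centre on the integral closure. -/
def S_DICT : Prop :=
  ∀ (K Ω : Type) [Field K] [Field Ω] [Algebra K Ω] [Algebra.IsAlgebraic K Ω]
    (v w : ValuationSubring Ω),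
    (∀ x : K, algebraMap K Ω x ∈ v ↔ algebraMap K Ω x ∈ w) →
    (∀ x : Ω, (∀ u : ValuationSubring Ω, (∀ y : K, algebraMap K Ω y ∈ v → algebraMap K Ω y ∈ u) →
      x ∈ u) → (x ∈ v.nonunits ↔ x ∈ w.nonunits)) → v = w

/-- W-TRANS: Galois groups act transitively on the valuation rings above a valuation ring. -/
def S_TRANS : Prop :=
  ∀ (K Ω : Type) [Field K] [Field Ω] [Algebra K Ω] [CharZero K] [IsAlgClosed Ω]
    [Algebra.IsAlgebraic K Ω] (v w : ValuationSubring Ω),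
    (∀ x : K, algebraMap K Ω x ∈ v ↔ algebraMap K Ω x ∈ w) → ∃ σ : Ω ≃ₐ[K] Ω, σ • v = w

/-- W-PLACE: the geometric group acts transitively on the places above a point, even if a root of
the local coordinate is fixed. -/
def S_PLACE : Prop :=
  ∀ (a : Option Qb) (N : ℕ) (z : Om), 0 < N → z ^ N = loc a → ∀ v w : ValuationSubring Om,
    IsPlace a v → IsPlace a w → ∃ δ ∈ Gam, δ z = z ∧ δ • v = w

/-- W-EX: existence of places. -/
def S_EX : Prop := ∀ a : Option Qb, ∃ v : ValuationSubring Om, IsPlace a v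

/-- W-VAL: the residue field of a place is the field of algebraic numbers. -/
def S_VAL : Prop :=
  ∀ (a : Option Qb) (v : ValuationSubring Om), IsPlace a v → ∀ z ∈ v,
    ∃ c : Qb, z - (c : Om) ∈ v.nonunits

/-- W-SURJ: every automorphism of the algebraic numbers extends. -/
def S_SURJ : Prop := ∀ σ : Qb ≃ₐ[ℚ] Qb, ∃ g : GG, ∀ z : Qb, g (z : Om) = (σ z : Om)

/-- W-H90: Kummer theory (Hilbert 90) for continuous characters of finite order. -/
def S_H90 : Prop :=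
  ∀ (F K : Type) [Field F] [Field K] [Algebra F K] [IsGalois F K] (n : ℕ) (ζ : F), 0 < n →
    IsPrimitiveRoot ζ n → ∀ h : (K ≃ₐ[F] K) → ZMod n, (∀ σ τ, h (σ * τ) = h σ + h τ) →
    IsOpen {σ | h σ = 0} → ∃ α : K, α ≠ 0 ∧ ∀ σ : K ≃ₐ[F] K,
      σ α = algebraMap F K ζ ^ (h σ).val * α

/-- W-FIX: elements fixed by the geometric group are rational functions in `t` with algebraic
coefficients, factored into linear factors. -/
def S_FIX : Prop :=
  ∀ y : Om, y ≠ 0 → (∀ γ ∈ Gam, γ y = y) → ∃ (C : Qb) (s : Finset Qb) (n : Qb → ℤ), C ≠ 0 ∧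
    y = (C : Om) * ∏ x ∈ s, (tt - (x : Om)) ^ (n x)

/-- W-INER: inertia groups are large. -/
def S_INER : Prop :=
  ∀ (a : Option Qb) (N : ℕ) (z ζ : Om), 0 < N → z ^ N = loc a → IsPrimitiveRoot ζ N →
    ∀ v : ValuationSubring Om, IsPlace a v → ∃ γ ∈ Gam, γ • v = v ∧ γ z = ζ * z

/-- W-KUM: Kummer description of the unramified characters of the geometric group. -/
def S_KUM : Prop :=
  ∀ (p : ℕ) [Fact p.Prime] (f : Polynomial ℚ) (lam : Gam → ℤ_[p]),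
    (∀ γ δ, lam (γ * δ) = lam γ + lam δ) → Continuous lam →
    (∀ a, ¬ IsRoot f a → ∀ v : ValuationSubring Om, IsPlace a v → ∀ γ : Gam, γ • v = v →
      lam γ = 0) →
    ∀ k : ℕ, ∃ (y ζ : Om) (s : Finset Qb) (n : Qb → ℤ), y ≠ 0 ∧ IsPrimitiveRoot ζ (p ^ k) ∧
      (∀ x ∈ s, IsRoot f (some x)) ∧ ∑ x ∈ s, n x = 0 ∧
      y ^ (p ^ k) = ∏ x ∈ s, (tt - (x : Om)) ^ (n x) ∧
      ∀ γ : Gam, (γ : GG) y = ζ ^ (PadicInt.toZModPow k (lam γ)).val * y

/-- W-T1: conjugation acts on tame characters of inertia through the cyclotomic character. -/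
def S_T1 : Prop :=
  ∀ (K : Type) [Field K] [Algebra ℚ K] [IsAlgClosed K] [Algebra.IsAlgebraic ℚ K]
    (p l : ℕ) [Fact p.Prime], l.Prime → l ≠ p → ∀ A : ValuationSubring K, (l : K) ∈ A.nonunits →
    ∀ I : Subgroup (K ≃ₐ[ℚ] K), IsClosed (I : Set (K ≃ₐ[ℚ] K)) →
    (∀ τ ∈ I, ∀ z ∈ A, τ z - z ∈ A.nonunits) →
    ∀ h : I → ℚ_[p], (∀ σ τ, h (σ * τ) = h σ + h τ) → Continuous h →
    ∀ g : K ≃ₐ[ℚ] K, (∀ z, z ∈ A ↔ g z ∈ A) → ∀ τ τ' : I, (τ' : K ≃ₐ[ℚ] K) = g * τ * g⁻¹ →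
    h τ' = ((cyclotomicCharacter K p (g : K ≃+* K) : ℤ_[p]) : ℚ_[p]) * h τ

/-- W-T2: commutators in decomposition groups are in the inertia group. -/
def S_T2 : Prop :=
  ∀ (K : Type) [Field K] [Algebra ℚ K] [IsAlgClosed K] [Algebra.IsAlgebraic ℚ K]
    (l : ℕ), l.Prime → ∀ A : ValuationSubring K, (l : K) ∈ A.nonunits →
    ∀ g h : K ≃ₐ[ℚ] K, (∀ z, z ∈ A ↔ g z ∈ A) → (∀ z, z ∈ A ↔ h z ∈ A) →
    ∀ z ∈ A, (g * h * g⁻¹ * h⁻¹) z - z ∈ A.nonunits

/-- W-FROB: existence of Frobenius elements fixing a given finite set. -/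
def S_FROB : Prop :=
  ∀ (K : Type) [Field K] [Algebra ℚ K] [IsAlgClosed K] [Algebra.IsAlgebraic ℚ K]
    (p l : ℕ) [Fact p.Prime], l.Prime → l ≠ p → ∀ A : ValuationSubring K, (l : K) ∈ A.nonunits →
    ∀ S : Finset K, ∃ φ : K ≃ₐ[ℚ] K, (∀ z, z ∈ A ↔ φ z ∈ A) ∧ (∀ s ∈ S, φ s = s) ∧
      ∀ i : ℕ, 0 < i → (cyclotomicCharacter K p (φ : K ≃+* K)) ^ i ≠ 1

/-- the p-adic cyclotomic character of the big Galois group -/
def chi (p : ℕ) [Fact p.Prime] (g : GG) : ℤ_[p]ˣ := cyclotomicCharacter Om p (g : Om ≃+* Om)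

/-- continuous homomorphisms to the p-adic numbers, unramified outside the roots of `f` -/
structure IsUnr (p : ℕ) [Fact p.Prime] (f : Polynomial ℚ) (lam : Gam → ℚ_[p]) : Prop where
  add : ∀ γ δ, lam (γ * δ) = lam γ + lam δ
  cont : Continuous lam
  unr : ∀ a, ¬ IsRoot f a → ∀ v : ValuationSubring Om, IsPlace a v → ∀ γ : Gam, γ • v = v →
    lam γ = 0

/-- W-K2: conjugation by elements fixing the roots of `f` multiplies unramified characters by the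
cyclotomic character. -/
def S_K2 : Prop :=
  ∀ (p : ℕ) [Fact p.Prime] (f : Polynomial ℚ) (lam : Gam → ℚ_[p]), IsUnr p f lam →
    ∀ g : GG, (∀ x : Qb, IsRoot f (some x) → g (x : Om) = x) →
    ∀ γ : Gam, lam (cj g γ) = ((chi p g : ℤ_[p]) : ℚ_[p]) * lam γ

/-- W-K3: the class of the path from infinity to zero on the line minus the roots of X^d = c is
trivial at level one on automorphisms fixing enough roots of unity. -/
def S_K3 : Prop :=
  ∀ (p : ℕ) [Fact p.Prime] (d : ℕ) (c : ℚ), 0 < d → c ≠ 0 → ∀ lam : Gam → ℚ_[p],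
    IsUnr p (Polynomial.X ^ d - Polynomial.C c) lam → ∀ v w : ValuationSubring Om,
    IsPlace none v → IsPlace (some 0) w → ∀ (τ : GG) (γ : Gam), τ • w = w →
    ((γ : GG)⁻¹ * τ) • v = v →
    (∀ x : Qb, IsRoot (Polynomial.X ^ d - Polynomial.C c) (some x) → τ (x : Om) = x) →
    (∀ (ζ : Om) (k : ℕ), ζ ^ (p ^ k) = 1 → τ ζ = ζ) → lam γ = 0

/-- W-FIN: there are only finitely many independent unramified characters. -/
def S_FIN : Prop :=
  ∀ (p : ℕ) [Fact p.Prime] (f : Polynomial ℚ), f ≠ 0 → ∃ T : Finset Gam,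
    ∀ lam : Gam → ℚ_[p], IsUnr p f lam → (∀ γ ∈ T, lam γ = 0) → ∀ γ, lam γ = 0

/-- W-T1G: transfer of W-T1 to the big group. -/
def S_T1G : Prop :=
  ∀ (p l : ℕ) [Fact p.Prime], l.Prime → l ≠ p → ∀ A : ValuationSubring Qb,
    ((l : Qb)) ∈ A.nonunits → ∀ I : Subgroup GG, IsClosed (I : Set GG) →
    (∀ τ ∈ I, ∀ z : Qb, z ∈ A → (⟨τ z, map_Qb τ z.2⟩ - z : Qb) ∈ A.nonunits) →
    ∀ h : I → ℚ_[p], (∀ σ τ, h (σ * τ) = h σ + h τ) → Continuous h →
    (∀ τ : I, (τ : GG) ∈ Gam → h τ = 0) →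
    ∀ g : GG, Dec A g → ∀ τ τ' : I, (τ' : GG) = g * τ * g⁻¹ →
    h τ' = ((chi p g : ℤ_[p]) : ℚ_[p]) * h τ

/-- W-FROBG: Frobenius elements in the stabiliser of a place above a rational point. -/
def S_FROBG : Prop :=
  ∀ (p l : ℕ) [Fact p.Prime], l.Prime → l ≠ p → ∀ A : ValuationSubring Qb,
    ((l : Qb)) ∈ A.nonunits → ∀ (a : Option Qb), (∀ g : GG, gpt g a = a) →
    ∀ w : ValuationSubring Om, IsPlace a w → ∀ f : Polynomial ℚ, f ≠ 0 →
    ∃ φ : GG, Dec A φ ∧ φ • w = w ∧ (∀ x : Qb, IsRoot f (some x) → φ (x : Om) = x) ∧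
      ∀ i : ℕ, 0 < i → (chi p φ) ^ i ≠ 1

/-- W-T2G: transfer of W-T2 to the big group. -/
def S_T2G : Prop :=
  ∀ (l : ℕ), l.Prime → ∀ A : ValuationSubring Qb, ((l : Qb)) ∈ A.nonunits →
    ∀ g h : GG, Dec A g → Dec A h → ∀ z : Qb, z ∈ A →
    (⟨(g * h * g⁻¹ * h⁻¹) z, map_Qb _ z.2⟩ - z : Qb) ∈ A.nonunits

end Y680.W
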