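import Pool.Agent.Y680.W.Stm

/-! W-FIN: there are only finitely many independent unramified characters. -/

set_option autoImplicit false

open scoped Pointwise TensorProduct

noncomputable section

namespace Y680.W

theorem fin_isClosed_Gam : IsClosed (Gam : Set GG) := by
  have h := InfiniteGalois.fixingSubgroup_isClosed
    (IntermediateField.adjoin (RatFunc ℚ) ((Qb : IntermediateField ℚ Om) : Set Om))
  have e : (Gam : Set GG) = ((IntermediateField.adjoin (RatFunc ℚ)
      ((Qb : IntermediateField ℚ Om) : Set Om)).fixingSubgroup : Set GG) := by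
    ext g
    constructor
    · intro hg
      have h1 : ∀ z ∈ Qb, g z = z := hg
      show g ∈ (IntermediateField.adjoin (RatFunc ℚ)
        ((Qb : IntermediateField ℚ Om) : Set Om)).fixingSubgroup
      rw [IntermediateField.mem_fixingSubgroup_iff]
      intro x hx
      induction hx using IntermediateField.adjoin_induction with
      | mem x hx => exact h1 x hx
      | algebraMap x => exact g.commutes x
      | add x y hx hy h1 h2 => rw [map_add, h1, h2]
      | inv x hx h1 => rw [map_inv₀, h1]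
      | mul x y hx hy h1 h2 => rw [map_mul, h1, h2]
    · intro hg z hz
      have h1 : g ∈ (IntermediateField.adjoin (RatFunc ℚ)
        ((Qb : IntermediateField ℚ Om) : Set Om)).fixingSubgroup := hg
      rw [IntermediateField.mem_fixingSubgroup_iff] at h1
      exact h1 z (IntermediateField.subset_adjoin _ _ hz)
  rw [e]
  exact h

theorem fin_compactSpace_Gam : CompactSpace Gam :=
  isCompact_iff_compactSpace.1 fin_isClosed_Gam.isCompact

/-- finitely many representatives for the action on finitely many roots -/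
theorem fin_reps (p : ℕ) (hp : 0 < p) (X0 : Finset Qb) (z : Qb → Om)
    (hz : ∀ x, z x ^ p = tt - (x : Om)) :
    ∃ T : Finset Gam, ∀ γ : Gam, ∃ t ∈ T, ∀ x ∈ X0, (γ : GG) (z x) = (t : GG) (z x) := by
  classical
  let φ : Gam → (X0 → Om) := fun γ x => (γ : GG) (z x)
  have hfin : (Set.range φ).Finite := by
    have h1 : (Set.pi Set.univ fun x : X0 => {w : Om | w ^ p = tt - ((x : Qb) : Om)}).Finite := by
      apply Set.Finite.pi
      intro x
      have h2 : {w : Om | w ^ p = tt - ((x : Qb) : Om)} ⊆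
          ((Polynomial.X ^ p - Polynomial.C (tt - ((x : Qb) : Om))).roots.toFinset : Set Om) := by
        intro w hw
        have hne : (Polynomial.X ^ p - Polynomial.C (tt - ((x : Qb) : Om))) ≠ 0 :=
          Polynomial.X_pow_sub_C_ne_zero hp _
        rw [Finset.mem_coe, Multiset.mem_toFinset, Polynomial.mem_roots hne]
        simp only [Polynomial.IsRoot.def, Polynomial.eval_sub, Polynomial.eval_pow,
          Polynomial.eval_X, Polynomial.eval_C]
        rw [show w ^ p = tt - ((x : Qb) : Om) from hw, sub_self]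
      exact (Finset.finite_toSet _).subset h2
    refine h1.subset ?_
    rintro _ ⟨γ, rfl⟩ x _
    show ((γ : GG) (z x)) ^ p = tt - ((x : Qb) : Om)
    rw [← map_pow, hz, map_sub, γ.2 _ (x : Qb).2]
    congr 1
    exact (γ : GG).commutes _
  choose s hs using fun y : Set.range φ => y.2
  have : Finite (Set.range φ) := hfin
  have := Fintype.ofFinite (Set.range φ)
  refine ⟨Finset.univ.image s, fun γ => ⟨s ⟨φ γ, ⟨γ, rfl⟩⟩, Finset.mem_image_of_mem _
    (Finset.mem_univ _), fun x hx => ?_⟩⟩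
  have h1 := hs ⟨φ γ, ⟨γ, rfl⟩⟩
  exact (congrFun h1 ⟨x, hx⟩).symm

theorem t_FIN (h : S_KUM) : S_FIN := by
  intro p hpf f hf
  classical
  have hp0 : 0 < p := hpf.out.pos
  -- the roots
  let X0 : Finset Qb := (f.aroots Qb).toFinset
  have hX0 : ∀ x : Qb, IsRoot f (some x) → x ∈ X0 := by
    intro x hx
    rw [Multiset.mem_toFinset, Polynomial.mem_aroots]
    exact ⟨hf, hx⟩
  have hz : ∀ x : Qb, ∃ w : Om, w ^ p = tt - (x : Om) := fun x =>
    IsAlgClosed.exists_pow_nat_eq _ hp0
  choose z hz using hz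
  obtain ⟨T, hT⟩ := fin_reps p hp0 X0 z hz
  refine ⟨T, ?_⟩
  intro lam hlam hlT
  by_contra hcon
  push Not at hcon
  obtain ⟨γ1, hγ1⟩ := hcon
  -- the maximum
  have hcs := fin_compactSpace_Gam
  obtain ⟨γ0, _, hmax⟩ := isCompact_univ.exists_isMaxOn (Set.univ_nonempty (α := Gam))
    (hlam.cont.norm.continuousOn)
  have hmax' : ∀ γ, ‖lam γ‖ ≤ ‖lam γ0‖ := fun γ => hmax (Set.mem_univ γ)
  have h0 : lam γ0 ≠ 0 := by
    intro h0
    have := hmax' γ1
    rw [h0, norm_zero] at this
    exact hγ1 (norm_le_zero_iff.1 this)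
  have hle : ∀ γ, ‖lam γ / lam γ0‖ ≤ 1 := by
    intro γ
    rw [norm_div]
    exact div_le_one_of_le₀ (hmax' γ) (norm_nonneg _)
  let Lam : Gam → ℤ_[p] := fun γ => ⟨lam γ / lam γ0, hle γ⟩
  have hLadd : ∀ γ δ, Lam (γ * δ) = Lam γ + Lam δ := by
    intro γ δ
    apply Subtype.ext
    show lam (γ * δ) / lam γ0 = lam γ / lam γ0 + lam δ / lam γ0
    rw [hlam.add, add_div]
  have hLc : Continuous Lam := by
    apply Continuous.subtype_mk
    exact hlam.cont.div_const _
  have hLr : ∀ a, ¬ IsRoot f a → ∀ v : ValuationSubring Om, IsPlace a v → ∀ γ : Gam, γ • v = v →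
      Lam γ = 0 := by
    intro a ha v hv γ hγ
    apply Subtype.ext
    show lam γ / lam γ0 = 0
    rw [hlam.unr a ha v hv γ hγ, zero_div]
  obtain ⟨y, ζ, s, n, hy0, hζ, hs, _, hyp, hact⟩ := h p f Lam hLadd hLc hLr 1
  -- an element fixing the roots acts trivially on `y`
  have key : ∀ γ : Gam, (∀ x ∈ X0, (γ : GG) (z x) = z x) → PadicInt.toZModPow 1 (Lam γ) = 0 := by
    intro γ hγ
    have hw : (∏ x ∈ s, z x ^ (n x)) ^ (p ^ 1) = y ^ (p ^ 1) := by
      rw [hyp, ← Finset.prod_pow]
      refine Finset.prod_congr rfl fun x _ => ?_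
      rw [← hz x, pow_one, ← zpow_natCast (z x ^ n x) p, ← zpow_mul, mul_comm, zpow_mul,
        zpow_natCast]
    have hw0 : (∏ x ∈ s, z x ^ (n x)) ≠ 0 := by
      intro h1
      rw [h1, zero_pow (by rw [pow_one]; omega)] at hw
      exact pow_ne_zero _ hy0 hw.symm
    have hq : y / (∏ x ∈ s, z x ^ (n x)) ∈ Qb := by
      rw [mem_algebraicClosure_iff]
      apply IsAlgebraic.of_pow (n := p ^ 1) (by rw [pow_one]; exact hp0)
      rw [div_pow, hw, div_self (pow_ne_zero _ hy0)]
      exact isAlgebraic_one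
    have h1 : (γ : GG) (y / (∏ x ∈ s, z x ^ (n x))) = y / (∏ x ∈ s, z x ^ (n x)) := γ.2 _ hq
    have h2 : (γ : GG) (∏ x ∈ s, z x ^ (n x)) = ∏ x ∈ s, z x ^ (n x) := by
      rw [map_prod]
      refine Finset.prod_congr rfl fun x hx => ?_
      rw [map_zpow₀, hγ x (hX0 x (hs x hx))]
    have h3 : (γ : GG) y = y := by
      have : y = y / (∏ x ∈ s, z x ^ (n x)) * (∏ x ∈ s, z x ^ (n x)) := by
        rw [div_mul_cancel₀ _ hw0]
      conv_lhs => rw [this]
      rw [map_mul, h1, h2, ← this]
    have h4 := hact γ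
    rw [h3] at h4
    have h5 : ζ ^ (PadicInt.toZModPow 1 (Lam γ)).val = 1 := by
      have := mul_right_cancel₀ hy0 ((one_mul y).trans h4)
      exact this.symm
    have h6 := (hζ.pow_eq_one_iff_dvd _).1 h5
    have : NeZero (p ^ 1) := ⟨by rw [pow_one]; omega⟩
    have h7 : (PadicInt.toZModPow 1 (Lam γ)).val < p ^ 1 := ZMod.val_lt _
    have h8 : (PadicInt.toZModPow 1 (Lam γ)).val = 0 := Nat.eq_zero_of_dvd_of_lt h6 h7
    exact (ZMod.val_eq_zero _).1 h8
  obtain ⟨t, htT, ht⟩ := hT γ0
  have h1 : PadicInt.toZModPow 1 (Lam (t⁻¹ * γ0)) = 0 := by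
    apply key
    intro x hx
    have h2 : ((t⁻¹ * γ0 : Gam) : GG) (z x) = ((t : GG)⁻¹) ((γ0 : GG) (z x)) := rfl
    rw [h2, ht x hx]
    exact AlgEquiv.symm_apply_apply (t : GG) (z x)
  have h2 : Lam γ0 = Lam t + Lam (t⁻¹ * γ0) := by
    rw [← hLadd]
    congr 1
    group
  have h3 : Lam t = 0 := by
    apply Subtype.ext
    show lam t / lam γ0 = 0
    rw [hlT t htT, zero_div]
  have h4 : Lam γ0 = 1 := by
    apply Subtype.ext
    show lam γ0 / lam γ0 = 1
    exact div_self h0
  rw [h3, zero_add] at h2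
  rw [← h2, h4, map_one] at h1
  have : Fact (1 < p ^ 1) := ⟨by rw [pow_one]; exact hpf.out.one_lt⟩
  exact one_ne_zero h1

end Y680.W
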